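import Pool.Agent.MTR.QML
import Pool.Agent.MSQ.ChkS
/-!
PRD (120 lines). Positivity of the products of a box (pure linear algebra).
PROOF. (pr1) product of a nonnegative multiplier and two nonnegative numbers (qf_qPm, qf_qMul). (pr2) form times trace of W A, W = [[w0, w1],[w1, w2]] ≥ 0 (hypothesis: qf [w0, 2 w1, w2] v ≥ 0 for all v of length 2), A ≥ 0:
w0 A0 + 2 w1 A1 + w2 A2 ≥ 0 (2x2 matrices: from w0, w2 ≥ 0, w1² ≤ w0 w2, A0, A2 ≥ 0, A1² ≤ A0 A2: (w1 A1)² ≤ w0 A0 w2 A2 ≤ ((w0 A0 + w2 A2)/2)²). (pr4) Σ W_(ik),(jl) A_ij B_kl ≥ 0 for W a 4x4 positive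
semidefinite form on (p_ik) with rows (00),(01),(10),(11): A = Σ of at most two rank one matrices u u^T, B = Σ v v^T (2x2 psd: A0 = 0 → A1 = 0; else A0 A = (A0,A1)(A0,A1)^T + det e e^T), and for
p_ik = u_i v_k the form W(p,p) ≥ 0 is Σ W u_i u_j v_k v_l. So A0 * B0 * (sum) is a sum of W-values; the cases A0 = 0 or B0 = 0 separately (or perturb A, B by ε and let ε → 0: replace A0 by A0 + ε).
-/
set_option autoImplicit false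

open MeasureTheory Set Metric Pool.Agent.MEIS Pool.Agent.MSQ Pool.Agent.MGE Pool.Agent.MGF

namespace Pool.Agent.MTR

private theorem psd_parts {w0 w1 w2 : ℝ} (hw : ∀ p q : ℝ, 0 ≤ w0 * p ^ 2 + 2 * w1 * (p * q) + w2 * q ^ 2) :
    0 ≤ w0 ∧ 0 ≤ w2 ∧ w1 ^ 2 ≤ w0 * w2 := by
  have h0 : 0 ≤ w0 := by have := hw 1 0; nlinarith
  have h2 : 0 ≤ w2 := by have := hw 0 1; nlinarith
  refine ⟨h0, h2, ?_⟩
  rcases h0.eq_or_lt with h | h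
  · have hz : w1 = 0 := by
      by_contra hne
      have := hw (-(w2 + 1) / (2 * w1)) 1
      rw [← h] at this
      have e : 2 * w1 * (-(w2 + 1) / (2 * w1) * 1) = -(w2 + 1) := by field_simp
      rw [e] at this
      linarith
    rw [hz]; nlinarith
  · have := hw (-w1) w0
    have h3 : 0 ≤ w0 * (w0 * w2 - w1 ^ 2) := by nlinarith
    have h4 := nonneg_of_mul_nonneg_right h3 h
    linarith

theorem tr2 {w0 w1 w2 A0 A1 A2 : ℝ} (hw : ∀ p q : ℝ, 0 ≤ w0 * p ^ 2 + 2 * w1 * (p * q) + w2 * q ^ 2)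
    (hA : ∀ p q : ℝ, 0 ≤ p ^ 2 * A0 + 2 * p * q * A1 + q ^ 2 * A2) : 0 ≤ w0 * A0 + 2 * w1 * A1 + w2 * A2 := by
  obtain ⟨a0, a2, a1⟩ := psd_parts hw
  obtain ⟨b0, b2, b1⟩ := psd_parts (w0 := A0) (w1 := A1) (w2 := A2)
    (fun p q => by have := hA p q; nlinarith)
  have hx : 0 ≤ w0 * A0 := mul_nonneg a0 b0
  have hy : 0 ≤ w2 * A2 := mul_nonneg a2 b2
  have hz : (w1 * A1) ^ 2 ≤ (w0 * A0) * (w2 * A2) := by
    have : w1 ^ 2 * A1 ^ 2 ≤ (w0 * w2) * (A0 * A2) :=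
      mul_le_mul a1 b1 (sq_nonneg _) (mul_nonneg a0 a2)
    nlinarith
  by_contra hneg
  push Not at hneg
  have h1 : w0 * A0 + w2 * A2 < -(2 * (w1 * A1)) := by linarith
  nlinarith [sq_nonneg (w0 * A0 - w2 * A2), add_nonneg hx hy]
theorem tr4 {g0 g1 g2 g3 g4 g5 g6 g7 g8 g9 A0 A1 A2 B0 B1 B2 : ℝ}
    (hw : ∀ p q u v : ℝ, 0 ≤ g0 * p ^ 2 + 2 * g1 * (p * q) + 2 * g2 * (p * u) + 2 * g3 * (p * v) + g4 * q ^ 2 +
      2 * g5 * (q * u) + 2 * g6 * (q * v) + g7 * u ^ 2 + 2 * g8 * (u * v) + g9 * v ^ 2)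
    (hA : ∀ p q : ℝ, 0 ≤ p ^ 2 * A0 + 2 * p * q * A1 + q ^ 2 * A2)
    (hB : ∀ p q : ℝ, 0 ≤ p ^ 2 * B0 + 2 * p * q * B1 + q ^ 2 * B2) :
    0 ≤ g0 * (A0 * B0) + 2 * g1 * (A0 * B1) + 2 * g2 * (A1 * B0) + 2 * g3 * (A1 * B1) + g4 * (A0 * B2) +
      2 * g5 * (A1 * B1) + 2 * g6 * (A1 * B2) + g7 * (A2 * B0) + 2 * g8 * (A2 * B1) + g9 * (A2 * B2) := by
  have key : ∀ v0 v1 : ℝ, 0 ≤ (g0 * A0 + 2 * g2 * A1 + g7 * A2) * v0 ^ 2 +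
      2 * (g1 * A0 + (g3 + g5) * A1 + g8 * A2) * (v0 * v1) + (g4 * A0 + 2 * g6 * A1 + g9 * A2) * v1 ^ 2 := by
    intro v0 v1
    have h := tr2 (w0 := g0 * v0 ^ 2 + 2 * g1 * (v0 * v1) + g4 * v1 ^ 2)
      (w1 := g2 * v0 ^ 2 + (g3 + g5) * (v0 * v1) + g6 * v1 ^ 2)
      (w2 := g7 * v0 ^ 2 + 2 * g8 * (v0 * v1) + g9 * v1 ^ 2) (fun u0 u1 => by
        have := hw (u0 * v0) (u0 * v1) (u1 * v0) (u1 * v1)
        refine this.trans (le_of_eq ?_)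
        ring) hA
    refine h.trans (le_of_eq ?_)
    ring
  have h := tr2 key hB
  refine h.trans (le_of_eq ?_)
  ring

end Pool.Agent.MTR
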