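import Pool.Agent.MTR.Defs
import Pool.Agent.MSQ.EvA
/-!
QML (100 lines). Algebra of linear forms (lists of 7) and quadratic forms (lists of 28, upper triangle row by row).
PROOF. `qf (evE x y .) s` is additive under `addL pAdd` (padded addition; missing entries are 0): induction on s generalizing the lists, with
dotL additive, (addL A B).take n = addL (A.take n) (B.take n), same for drop. `qf_qMul`: induction on s; for l :: L, m :: M, s0 :: s:
qMul = l m :: (rowM l m L M ++ qMul L M), rowM has length L.length = s.length, so take/drop split; s0 (l m s0 + Σ (l M_j + m L_j) s_j) + qf (qMul L M) s =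
(l s0 + L.s)(m s0 + M.s).
-/
set_option autoImplicit false

open MeasureTheory Set Metric Pool.Agent.MEIS Pool.Agent.MSQ Pool.Agent.MGE Pool.Agent.MGF

namespace Pool.Agent.MTR

private theorem addL_nil {α : Type} (f : α → α → α) (A : List α) : addL f A [] = A := by
  cases A <;> rfl

private theorem take_addL {α : Type} (f : α → α → α) (A B : List α) (n : ℕ) :
    (addL f A B).take n = addL f (A.take n) (B.take n) := by
  induction A generalizing B n with
  | nil => simp [addL]
  | cons a s ih =>
    cases B with
    | nil => simp [addL_nil]
    | cons b t =>
      cases n with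
      | zero => simp [addL]
      | succ n => simp [addL, ih]

private theorem drop_addL {α : Type} (f : α → α → α) (A B : List α) (n : ℕ) :
    (addL f A B).drop n = addL f (A.drop n) (B.drop n) := by
  induction A generalizing B n with
  | nil => simp [addL]
  | cons a s ih =>
    cases B with
    | nil => simp [addL_nil]
    | cons b t =>
      cases n with
      | zero => simp [addL]
      | succ n => simp [addL, ih]

private theorem evE_qAdd (x y : ℝ) (A B : List P) :
    evE x y (qAdd A B) = addL (· + ·) (evE x y A) (evE x y B) := by
  induction A generalizing B with
  | nil => simp [qAdd, addL, evE]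
  | cons a s ih =>
    cases B with
    | nil => simp [qAdd, addL, evE]
    | cons b t =>
      have h := ih t
      simp only [qAdd, evE] at h
      simp only [qAdd, evE, addL, List.map_cons, h, ev_pAdd]

private theorem dotL_add (A B s : List ℝ) :
    dotL (addL (· + ·) A B) s = dotL A s + dotL B s := by
  induction A generalizing B s with
  | nil => simp [addL, dotL]
  | cons a A ih =>
    cases B with
    | nil => simp [addL, dotL]
    | cons b B =>
      cases s with
      | nil => simp [addL, dotL]
      | cons c s =>
        simp only [addL, dotL, ih]
        ring

private theorem qf_add (A B s : List ℝ) :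
    qf (addL (· + ·) A B) s = qf A s + qf B s := by
  induction s generalizing A B with
  | nil => simp [qf]
  | cons c s ih =>
    simp only [qf, take_addL, drop_addL, dotL_add, ih]
    ring

theorem dotL_qAdd (x y : ℝ) (A B : List P) (s : List ℝ) :
    dotL (evE x y (qAdd A B)) s = dotL (evE x y A) s + dotL (evE x y B) s := by
  rw [evE_qAdd, dotL_add]
theorem qf_qAdd (x y : ℝ) (A B : List P) (s : List ℝ) :
    qf (evE x y (qAdd A B)) s = qf (evE x y A) s + qf (evE x y B) s := by
  rw [evE_qAdd, qf_add]

private theorem dotL_smul (c : ℝ) (A s : List ℝ) :
    dotL (A.map (c * ·)) s = c * dotL A s := by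
  induction A generalizing s with
  | nil => simp [dotL]
  | cons a A ih =>
    cases s with
    | nil => simp [dotL]
    | cons b s =>
      simp only [List.map_cons, dotL, ih]
      ring

private theorem qf_smul (c : ℝ) (A s : List ℝ) :
    qf (A.map (c * ·)) s = c * qf A s := by
  induction s generalizing A with
  | nil => simp [qf]
  | cons b s ih =>
    simp only [qf, ← List.map_take, ← List.map_drop, dotL_smul, ih]
    ring

private theorem evE_qPm (x y : ℝ) (p : P) (A : List P) :
    evE x y (qPm p A) = (evE x y A).map (ev x y p * ·) := by
  simp only [evE, qPm, List.map_map]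
  apply List.map_congr_left
  intro q _
  simp only [Function.comp_apply, ev_pMul]

private theorem evE_qSm (x y : ℝ) (c : Int) (A : List P) :
    evE x y (qSm c A) = (evE x y A).map ((c : ℝ) * ·) := by
  simp only [evE, qSm, List.map_map]
  apply List.map_congr_left
  intro q _
  simp only [Function.comp_apply, ev_pSm]

theorem dotL_qPm (x y : ℝ) (p : P) (A : List P) (s : List ℝ) :
    dotL (evE x y (qPm p A)) s = ev x y p * dotL (evE x y A) s := by
  rw [evE_qPm, dotL_smul]
theorem qf_qPm (x y : ℝ) (p : P) (A : List P) (s : List ℝ) :
    qf (evE x y (qPm p A)) s = ev x y p * qf (evE x y A) s := by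
  rw [evE_qPm, qf_smul]
theorem qf_qSm (x y : ℝ) (c : Int) (A : List P) (s : List ℝ) :
    qf (evE x y (qSm c A)) s = c * qf (evE x y A) s := by
  rw [evE_qSm, qf_smul]

private theorem qf_nil (s : List ℝ) : qf [] s = 0 := by
  induction s with
  | nil => simp [qf]
  | cons b s ih => simp [qf, ih, dotL]

theorem qf_sumQ (x y : ℝ) (L : List (List P)) (s : List ℝ) :
    qf (evE x y (sumQ L)) s = (L.map fun A => qf (evE x y A) s).sum := by
  induction L with
  | nil => simp [sumQ, evE, qf_nil]
  | cons A L ih =>
    simp only [sumQ] at ih
    simp only [sumQ, List.foldr_cons, qf_qAdd, ih, List.map_cons, List.sum_cons]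
theorem dotL_sumQ (x y : ℝ) (L : List (List P)) (s : List ℝ) :
    dotL (evE x y (sumQ L)) s = (L.map fun A => dotL (evE x y A) s).sum := by
  induction L with
  | nil => simp [sumQ, evE, dotL]
  | cons A L ih =>
    simp only [sumQ] at ih
    simp only [sumQ, List.foldr_cons, dotL_qAdd, ih, List.map_cons, List.sum_cons]

private theorem rowM_length (l m : P) (L M : List P) (h : L.length = M.length) :
    (rowM l m L M).length = L.length := by
  induction L generalizing M with
  | nil => simp [rowM]
  | cons a L ih =>
    cases M with
    | nil => simp at h
    | cons b M =>
      simp only [List.length_cons, Nat.add_right_cancel_iff] at h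
      simp [rowM, ih M h]

private theorem dotL_rowM (x y : ℝ) (l m : P) (L M : List P) (s : List ℝ)
    (h : L.length = M.length) :
    dotL (evE x y (rowM l m L M)) s
      = ev x y l * dotL (evE x y M) s + ev x y m * dotL (evE x y L) s := by
  induction L generalizing M s with
  | nil =>
    cases M with
    | nil => simp [rowM, evE, dotL]
    | cons b M => simp at h
  | cons a L ih =>
    cases M with
    | nil => simp at h
    | cons b M =>
      simp only [List.length_cons, Nat.add_right_cancel_iff] at h
      cases s with
      | nil => simp [rowM, evE, dotL]
      | cons c s =>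
        have h1 := ih M s h
        simp only [evE] at h1
        simp only [rowM, evE, List.map_cons, dotL, h1, ev_pAdd, ev_pMul]
        ring

theorem qf_qMul (x y : ℝ) (L M : List P) (s : List ℝ) (hL : L.length = s.length)
    (hM : M.length = s.length) :
    qf (evE x y (qMul L M)) s = dotL (evE x y L) s * dotL (evE x y M) s := by
  induction s generalizing L M with
  | nil =>
    cases L with
    | nil => simp [qf, evE, dotL]
    | cons a L => simp at hL
  | cons c s ih =>
    cases L with
    | nil => simp at hL
    | cons l L =>
      cases M with
      | nil => simp at hM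
      | cons m M =>
        simp only [List.length_cons, Nat.add_right_cancel_iff] at hL hM
        have h1 := ih L M hL hM
        have h2 := dotL_rowM x y l m L M s (hL.trans hM.symm)
        have h3 : (evE x y (rowM l m L M)).length = s.length := by
          simp only [evE, List.length_map, rowM_length l m L M (hL.trans hM.symm), hL]
        have h4 : evE x y (qMul (l :: L) (m :: M))
            = ev x y (pMul l m) :: (evE x y (rowM l m L M) ++ evE x y (qMul L M)) := by
          simp [qMul, evE]
        rw [h4]
        simp only [qf, List.take_succ_cons, List.drop_succ_cons, dotL]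
        rw [← h3, List.take_left, List.drop_left, h1, h2, ev_pMul]
        simp only [evE, List.map_cons, dotL]
        ring
theorem un_length (k : ℕ) (hk : k ≤ 6) (p : P) : (un k p).length = 7 := by
  simp only [un, List.length_append, List.length_replicate, List.length_cons]
  omega

private theorem dotL_rep (x y : ℝ) (n : ℕ) (s : List ℝ) :
    dotL (evE x y (List.replicate n [])) s = 0 := by
  induction n generalizing s with
  | zero => simp [evE, dotL]
  | succ n ih =>
    cases s with
    | nil => simp [evE, dotL, List.replicate_succ]
    | cons a s =>
      have h := ih s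
      simp only [evE] at h
      simp only [evE, List.replicate_succ, List.map_cons, dotL, h, ev_nil]
      ring

private theorem dotL_un_aux (x y : ℝ) (k n : ℕ) (p : P) (s : List ℝ) :
    dotL (evE x y (List.replicate k [] ++ (p :: List.replicate n []))) s
      = ev x y p * s.getD k 0 := by
  induction k generalizing s with
  | zero =>
    cases s with
    | nil => simp [evE, dotL]
    | cons a s =>
      have h := dotL_rep x y n s
      simp only [evE] at h
      simp only [evE, List.replicate_zero, List.nil_append, List.map_cons, dotL, h,
        List.getD_cons_zero, add_zero]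
  | succ k ih =>
    cases s with
    | nil => simp [evE, dotL, List.replicate_succ]
    | cons a s =>
      have h := ih s
      simp only [evE] at h
      simp only [evE, List.replicate_succ, List.cons_append, List.map_cons, dotL, h, ev_nil,
        List.getD_cons_succ]
      ring

theorem dotL_un (x y : ℝ) (k : ℕ) (p : P) (s : List ℝ) :
    dotL (evE x y (un k p)) s = ev x y p * s.getD k 0 := by
  exact dotL_un_aux x y k (6 - k) p s
/-- entry (0,0) only -/
theorem qf_one (x y : ℝ) (p : P) (t : ℝ) (s : List ℝ) :
    qf (evE x y [p]) (t :: s) = ev x y p * t ^ 2 := by
  simp only [evE, List.map_cons, List.map_nil, qf, List.take_succ_cons, List.drop_succ_cons,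
    List.take_nil, List.drop_nil, dotL, qf_nil]
  ring
theorem qPm_length (p : P) (A : List P) : (qPm p A).length = A.length := by
  simp [qPm]
theorem qSm_length (c : Int) (A : List P) : (qSm c A).length = A.length := by
  simp [qSm]

end Pool.Agent.MTR
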