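import Pool.Agent.MTR.Defs
/-!
COV (60 lines). Soundness of the covering test.
PROOF. Induction on n generalizing the rectangle; (s0 + s1)/2 is integer division; for s0 ≤ s1 every real 64 s in [s0, s1] is in [s0, m] or [m, s1]. If L.any: List.any_eq_true.
-/
set_option autoImplicit false

open MeasureTheory Set Metric Pool.Agent.MEIS Pool.Agent.MSQ Pool.Agent.MGE Pool.Agent.MGF

namespace Pool.Agent.MTR

private theorem cov_any (L : List Bx) (s0 s1 t0 t1 : Int)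
    (h : (L.any fun b => inB b s0 s1 t0 t1) = true) (s t : ℝ)
    (h0 : (s0 : ℝ) ≤ 64 * s) (h1 : 64 * s ≤ s1) (h2 : (t0 : ℝ) ≤ 64 * t) (h3 : 64 * t ≤ t1) :
    ∃ b ∈ L, (b.s0 : ℝ) ≤ 64 * s ∧ 64 * s ≤ b.s1 ∧ (b.t0 : ℝ) ≤ 64 * t ∧ 64 * t ≤ b.t1 := by
  rw [List.any_eq_true] at h
  obtain ⟨b, hb, hc⟩ := h
  unfold inB at hc
  simp only [Bool.and_eq_true, decide_eq_true_eq] at hc
  obtain ⟨⟨⟨g0, g1⟩, g2⟩, g3⟩ := hc
  have g0' : (b.s0 : ℝ) ≤ s0 := by exact_mod_cast g0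
  have g1' : (s1 : ℝ) ≤ b.s1 := by exact_mod_cast g1
  have g2' : (b.t0 : ℝ) ≤ t0 := by exact_mod_cast g2
  have g3' : (t1 : ℝ) ≤ b.t1 := by exact_mod_cast g3
  exact ⟨b, hb, g0'.trans h0, h1.trans g1', g2'.trans h2, h3.trans g3'⟩

theorem cov_sound (n : ℕ) (L : List Bx) (s0 s1 t0 t1 : Int) (h : cov n L s0 s1 t0 t1 = true) (s t : ℝ)
    (h0 : (s0 : ℝ) ≤ 64 * s) (h1 : 64 * s ≤ s1) (h2 : (t0 : ℝ) ≤ 64 * t) (h3 : 64 * t ≤ t1) :
    ∃ b ∈ L, (b.s0 : ℝ) ≤ 64 * s ∧ 64 * s ≤ b.s1 ∧ (b.t0 : ℝ) ≤ 64 * t ∧ 64 * t ≤ b.t1 := by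
  induction n generalizing s0 s1 t0 t1 with
  | zero =>
    rw [cov] at h
    exact cov_any L s0 s1 t0 t1 h s t h0 h1 h2 h3
  | succ n ih =>
    rw [cov, Bool.or_eq_true] at h
    rcases h with h | h
    · exact cov_any L s0 s1 t0 t1 h s t h0 h1 h2 h3
    · split_ifs at h with hc
      · rw [Bool.and_eq_true] at h
        rcases le_total (64 * s) (((s0 + s1) / 2 : Int) : ℝ) with h4 | h4
        · exact ih s0 _ t0 t1 h.1 h0 h4 h2 h3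
        · exact ih _ s1 t0 t1 h.2 h4 h1 h2 h3
      · rw [Bool.and_eq_true] at h
        rcases le_total (64 * t) (((t0 + t1) / 2 : Int) : ℝ) with h4 | h4
        · exact ih s0 s1 t0 _ h.1 h0 h1 h2 h4
        · exact ih s0 s1 _ t1 h.2 h0 h1 h4 h3

end Pool.Agent.MTR
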