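import Pool.Agent.MTR.Defs
import Pool.Agent.MSQ.EvA
/-!
SUB (60 lines). Substitution of polynomials: `sub2 U V p` is `p (U, V)`.
PROOF. Induction on the lists with ev_pAdd, ev_pMul. `xs` has value 1 - s, `ys` value s (1 - t). `fs f` is f (1 - s).
-/
set_option autoImplicit false

open MeasureTheory Set Metric Pool.Agent.MEIS Pool.Agent.MSQ Pool.Agent.MGE Pool.Agent.MGF

namespace Pool.Agent.MTR

private theorem sub_aux (s t : ℝ) (V : P) (r : List Int) :
    ev s t (subL V r) = evL (ev s t V) r := by
  induction r with
  | nil => simp [subL, ev, evL]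
  | cons a l ih =>
    simp only [subL, ev_pAdd, ev_pMul, ih, evL, ev]
    ring

theorem ev_sub2 (s t : ℝ) (U V p : P) : ev s t (sub2 U V p) = ev (ev s t U) (ev s t V) p := by
  induction p with
  | nil => simp [sub2, ev]
  | cons r l ih =>
    simp only [sub2, ev_pAdd, ev_pMul, ih, ev, sub_aux]

private theorem ev_xs (s t : ℝ) : ev s t xs = 1 - s := by
  simp only [xs, ev, evL]
  push_cast
  ring

private theorem ev_ys (s t : ℝ) : ev s t ys = s * (1 - t) := by
  simp only [ys, ev, evL]
  push_cast
  ring

theorem evE_sub (s t : ℝ) (A : List P) :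
    evE s t (A.map (sub2 xs ys)) = evE (1 - s) (s * (1 - t)) A := by
  simp only [evE, List.map_map]
  apply List.map_congr_left
  intro p _
  simp only [Function.comp_apply, ev_sub2, ev_xs, ev_ys]
/-- on the side `t = 0` -/
theorem evE_sub0 (s t : ℝ) (A : List P) :
    evE s t (A.map fun p => at0 (sub2 xs ys p)) = evE (1 - s) s A := by
  simp only [evE, List.map_map]
  apply List.map_congr_left
  intro p _
  simp only [Function.comp_apply, ev_at0, ev_sub2, ev_xs, ev_ys]
  congr 1
  ring
private theorem ev_const (x y : ℝ) (f : List Int) :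
    ev x y (f.map fun a => [a]) = evL x f := by
  induction f with
  | nil => rfl
  | cons a l ih =>
    simp only [List.map_cons, ev, ih, evL]
    ring
theorem ev_fs (s t : ℝ) (f : List Int) : ev s t (fs f) = evL (1 - s) f := by
  simp only [fs, ev_sub2, ev_xs, ev_const]

end Pool.Agent.MTR
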