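import Pool.Agent.MTR.SID
import Pool.Agent.MTR.COV
import Pool.Agent.MTR.SUB
/-!
PNS (110 lines). The pointwise inequality on the outer side.
PROOF. Put s = 1 - r, a = sa r (1-r) = sa (1-s) s. By cov_sound and schk_sound, Sst ≥ 0 at the states (hS: same values by eqQ). Expand Sst (qf_qAdd, qf_qPm, qf_qSm, qf_sumQ, qf_qMul; Dc3, Dtf, Dnf are lists of length 7; evE_sub0 for the gauge part; ev_fs):
Sst = 2592 (F.D m (P+Q) - 3 D (2 m³ τ f0 Dc + f1 Dt² + f2 Dt Dn + f3 Dc Dn + f4 Dc² + f5 Dn² + f6 Dc Dt)), m = n², Dc = (1+r) e0 + (1-r) e1 (at0 b60 = 6 (1+r)/2 etc.), Dt = e0 - e1, Dn = e2, τ = n^-3, m³ τ = n³, M = 12 m. FF with lt r = √2 n (lt_side):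
√2/lt³ = 1/(2 n³). gV D cP T r (1-r) = P/(D n). Divide by 2592 * 6 D F.D n³.
-/
set_option autoImplicit false

open MeasureTheory Set Metric Pool.Agent.MEIS Pool.Agent.MSQ Pool.Agent.MGE Pool.Agent.MGF

namespace Pool.Agent.MTR

/-- the algebra of the side inequality -/
private theorem pns_alg (D FD n Pq f0 G Dc : ℝ) (hD : 0 < D) (hF : 0 < FD) (hn : 0 < n)
    (h : 0 ≤ FD * n ^ 2 * Pq - 3 * D * (2 * n ^ 3 * (f0 * Dc) + G)) :
    1 / √2 / FD * (f0 * Dc + √2 / (√2 * n) ^ 3 * G) ≤ 1 / √2 * (1 / 6 * (Pq / (D * n))) := by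
  have h2 : (0 : ℝ) < √2 := by positivity
  have hs : √2 * √2 = (2 : ℝ) := Real.mul_self_sqrt (by norm_num)
  have e1 : √2 / (√2 * n) ^ 3 = 1 / (2 * n ^ 3) := by
    rw [div_eq_div_iff (by positivity) (by positivity)]
    calc √2 * (2 * n ^ 3) = √2 * ((√2 * √2) * n ^ 3) := by rw [hs]
      _ = 1 * (√2 * n) ^ 3 := by ring
  rw [e1]
  have e2 : 1 / √2 * (1 / 6 * (Pq / (D * n))) - 1 / √2 / FD * (f0 * Dc + 1 / (2 * n ^ 3) * G) =
      1 / √2 * ((FD * n ^ 2 * Pq - 3 * D * (2 * n ^ 3 * (f0 * Dc) + G)) / (6 * D * FD * n ^ 3)) := by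
    field_simp
    ring
  have e3 : 0 ≤ 1 / √2 * ((FD * n ^ 2 * Pq - 3 * D * (2 * n ^ 3 * (f0 * Dc) + G)) / (6 * D * FD * n ^ 3)) := by
    positivity
  linarith

private theorem pns_b60 (s : ℝ) : ev s 0 (at0 b60) = 6 - 3 * s := by
  simp [at0, b60, ev, evL]
  ring

private theorem pns_b61 (s : ℝ) : ev s 0 (at0 b61) = 3 * s := by
  simp [at0, b61, ev, evL]
  ring

private theorem pns_dc (s a0 a1 a2 a3 a4 a5 a6 : ℝ) :
    dotL (evE s 0 Dc3) [a0, a1, a2, a3, a4, a5, a6] = (6 - 3 * s) * a1 + 3 * s * a2 := by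
  simp only [Dc3, evE, List.map_cons, List.map_nil, dotL, pns_b60, pns_b61]
  simp [ev]

private theorem pns_dt (s a0 a1 a2 a3 a4 a5 a6 : ℝ) :
    dotL (evE s 0 Dtf) [a0, a1, a2, a3, a4, a5, a6] = a1 - a2 := by
  simp [Dtf, evE, dotL, ev, evL]
  ring

private theorem pns_c1 (s : ℝ) : ev s 0 c1 = 1 := by
  simp [c1, ev, evL]

private theorem pns_dn (s a0 a1 a2 a3 a4 a5 a6 : ℝ) :
    dotL (evE s 0 Dnf) [a0, a1, a2, a3, a4, a5, a6] = a3 := by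
  rw [Dnf, dotL_un, pns_c1]
  simp

private theorem pns_d0 (s a0 a1 a2 a3 a4 a5 a6 : ℝ) :
    dotL (evE s 0 (un 0 c1)) [a0, a1, a2, a3, a4, a5, a6] = a0 := by
  rw [dotL_un, pns_c1]
  simp

theorem side_pt (r : Rg) (hr : rOK r) (D : Int) (hD : 0 < D) (cP cQ : List P) (F : FD) (hF : 0 < F.D) (LS : List Bx)
    (hc : cov 12 LS 0 64 0 64 = true) (hb : ∀ b ∈ LS, schk r (Sst D cP cQ F) b = true) {T : E → ℝ} {β : ℝ}
    (h : TrHyp T β) (hβ : inR r β) (t : ℝ) (ht0 : 0 ≤ t) (ht1 : t ≤ 1) :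
    FFd F t (pd 0 T (pt ((1 + t) / 2) ((1 - t) / 2) 0)) (pd 1 T (pt ((1 + t) / 2) ((1 - t) / 2) 0))
      (pd 2 T (pt ((1 + t) / 2) ((1 - t) / 2) 0)) ≤
      1 / √2 * (1 / 6 * (gV D cP T t (1 - t) + gV D cQ T t (1 - t))) := by
  obtain ⟨b, hbL, h0, h1, -, -⟩ := cov_sound 12 LS 0 64 0 64 hc (1 - t) 0 (by push_cast; linarith)
    (by push_cast; linarith) (by push_cast; linarith) (by push_cast; linarith)
  have hS := schk_sound r hr (Sst D cP cQ F) b (hb b hbL) h hβ (1 - t) (by linarith) (by linarith) h0 h1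
  have hst : st T (sa (1 - (1 - t)) (1 - t)) = st T (sa t (1 - t)) := by
    rw [sub_sub_cancel]
  rw [hst] at hS
  have hM : ev (1 - t) 0 (at0 Ms) = 12 * nW (sa t (1 - t)) ^ 2 := by
    rw [ev_at0, ev_Ms]
    congr 4
    · ring
    · ring
  have hg : qf (evE (1 - t) 0 ((qAdd (gq cP) (gq cQ)).map fun p => at0 (sub2 xs ys p))) (st T (sa t (1 - t))) =
      qf (evE t (1 - t) (gq cP)) (st T (sa t (1 - t))) + qf (evE t (1 - t) (gq cQ)) (st T (sa t (1 - t))) := by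
    rw [evE_sub0, sub_sub_cancel, qf_qAdd]
  have hlen : (st T (sa t (1 - t))).length = 7 := rfl
  have hfs : ∀ f : List Int, ev (1 - t) 0 (fs f) = evL t f := fun f => by
    rw [ev_fs, sub_sub_cancel]
  have hn : 0 < nW (sa t (1 - t)) := nW_pos _ _
  have hX : st T (sa t (1 - t)) = [1 / nW (sa t (1 - t)) ^ 3, pd 0 T (sa t (1 - t)), pd 1 T (sa t (1 - t)),
    pd 2 T (sa t (1 - t)), AA 0 0 T (sa t (1 - t)), AA 0 1 T (sa t (1 - t)), AA 1 1 T (sa t (1 - t))] := rfl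
  have l0 : (un 0 c1).length = (st T (sa t (1 - t))).length := by
    rw [hlen, un_length 0 (by norm_num)]
  have l1 : Dc3.length = (st T (sa t (1 - t))).length := rfl
  have l2 : Dtf.length = (st T (sa t (1 - t))).length := rfl
  have l3 : Dnf.length = (st T (sa t (1 - t))).length := by
    rw [hlen, Dnf, un_length 3 (by norm_num)]
  rw [Sst, qf_qAdd, qf_qPm, hg, ev_pSm, hM, qf_qSm, qf_sumQ] at hS
  simp only [List.map_cons, List.map_nil, List.sum_cons, List.sum_nil, qf_qPm, ev_pSm, ev_pMul, hM, hfs,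
    qf_qMul _ _ _ _ _ l0 l1, qf_qMul _ _ _ _ _ l2 l2, qf_qMul _ _ _ _ _ l2 l3, qf_qMul _ _ _ _ _ l1 l3,
    qf_qMul _ _ _ _ _ l1 l1, qf_qMul _ _ _ _ _ l3 l3, qf_qMul _ _ _ _ _ l1 l2] at hS
  generalize hP : qf (evE t (1 - t) (gq cP)) (st T (sa t (1 - t))) = P1 at hS
  generalize hQ : qf (evE t (1 - t) (gq cQ)) (st T (sa t (1 - t))) = Q1 at hS
  rw [hX] at hS
  rw [pns_dc, pns_dt, pns_dn, pns_d0] at hS
  rw [← sa_side, FFd, FF, lt_side, gV, gV, hP, hQ, ← add_div]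
  refine pns_alg (D : ℝ) (F.D : ℝ) (nW (sa t (1 - t))) (P1 + Q1) (evL t F.f0) _ _ (by exact_mod_cast hD)
    (by exact_mod_cast hF) hn ?_
  have hτ : (nW (sa t (1 - t))) ^ 3 * (1 / nW (sa t (1 - t)) ^ 3) = 1 := by
    field_simp
  generalize hnn : nW (sa t (1 - t)) = n at hS hτ ⊢
  generalize hττ : 1 / n ^ 3 = τ at hS hτ ⊢
  generalize pd 0 T (sa t (1 - t)) = e0 at hS ⊢
  generalize pd 1 T (sa t (1 - t)) = e1 at hS ⊢
  generalize pd 2 T (sa t (1 - t)) = e2 at hS ⊢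
  have key : 2592 * ((F.D : ℝ) * n ^ 2 * (P1 + Q1) - 3 * D * (2 * n ^ 3 * (evL t F.f0 * ((1 + t) * e0 + (1 - t) * e1)) +
      (evL t F.f1 * (e0 - e1) ^ 2 + evL t F.f2 * ((e0 - e1) * e2) +
      evL t F.f3 * (((1 + t) * e0 + (1 - t) * e1) * e2) + evL t F.f4 * ((1 + t) * e0 + (1 - t) * e1) ^ 2 +
      evL t F.f5 * e2 ^ 2 + evL t F.f6 * (((1 + t) * e0 + (1 - t) * e1) * (e0 - e1))))) =
      2592 * ((F.D : ℝ) * n ^ 2 * (P1 + Q1) - 3 * D * (2 * n ^ 3 * (n ^ 3 * τ) * (evL t F.f0 * ((1 + t) * e0 + (1 - t) * e1)) +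
      (evL t F.f1 * (e0 - e1) ^ 2 + evL t F.f2 * ((e0 - e1) * e2) +
      evL t F.f3 * (((1 + t) * e0 + (1 - t) * e1) * e2) + evL t F.f4 * ((1 + t) * e0 + (1 - t) * e1) ^ 2 +
      evL t F.f5 * e2 ^ 2 + evL t F.f6 * (((1 + t) * e0 + (1 - t) * e1) * (e0 - e1))))) := by
    rw [hτ]
    ring
  have hS2 : 0 ≤ 2592 * ((F.D : ℝ) * n ^ 2 * (P1 + Q1) - 3 * D * (2 * n ^ 3 * (evL t F.f0 * ((1 + t) * e0 + (1 - t) * e1)) +
      (evL t F.f1 * (e0 - e1) ^ 2 + evL t F.f2 * ((e0 - e1) * e2) +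
      evL t F.f3 * (((1 + t) * e0 + (1 - t) * e1) * e2) + evL t F.f4 * ((1 + t) * e0 + (1 - t) * e1) ^ 2 +
      evL t F.f5 * e2 ^ 2 + evL t F.f6 * (((1 + t) * e0 + (1 - t) * e1) * (e0 - e1))))) := by
    rw [key]
    refine hS.trans (le_of_eq ?_)
    push_cast
    ring
  linarith

end Pool.Agent.MTR
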