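import Pool.Agent.MTR.SAP
import Pool.Agent.MEIS.PDR
/-!
CNT (90 lines). Continuity.
PROOF. `sa` is continuous (pt of continuous functions: PiLp / WithLp.toLp continuity; see MGE and MGF modules for continuity of pt) and never 0; T is C^3 on
{0}ᶜ, so pd i T, pd i (pd j T) are continuous on {0}ᶜ (lemmas about Sm in MEIS/MGF: sm_pd or the like, Sm k f → ContinuousOn f {0}ᶜ), compose
(ContinuousOn.comp_continuous). nW: nW_sm in MGF. qf and dotL of continuous entries are continuous (the list has fixed length 7: unfold the list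
st, induction on the coefficient list, or ChkS-style induction).
-/
set_option autoImplicit false

open MeasureTheory Set Metric Pool.Agent.MEIS Pool.Agent.MSQ Pool.Agent.MGE Pool.Agent.MGF

namespace Pool.Agent.MTR

private theorem cnt_evL : ∀ r : List Int, Continuous fun y : ℝ => evL y r
  | [] => by
    simp only [evL]
    exact continuous_const
  | a :: r => by
    have h := cnt_evL r
    simp only [evL]
    fun_prop

private theorem continuous_evc : ∀ p : P, Continuous fun z : ℝ × ℝ => ev z.1 z.2 p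
  | [] => by
    simp only [ev]
    exact continuous_const
  | r :: l => by
    have h := continuous_evc l
    have h1 : Continuous fun z : ℝ × ℝ => evL z.2 r := (cnt_evL r).comp continuous_snd
    simp only [ev]
    fun_prop

private theorem cnt_pt {X : Type} [TopologicalSpace X] {f g h : X → ℝ} (hf : Continuous f)
    (hg : Continuous g) (hh : Continuous h) : Continuous fun x => pt (f x) (g x) (h x) := by
  unfold pt
  refine (PiLp.continuous_toLp 2 _).comp ?_
  refine continuous_pi fun i => ?_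
  fin_cases i
  · simpa using hf
  · simpa using hg
  · simpa using hh

private theorem cnt_comp {X : Type} [TopologicalSpace X] {g : X → E} (hg : Continuous g)
    (h0 : ∀ x, g x ≠ 0) {f : E → ℝ} (hf : Sm 0 f) : Continuous fun x => f (g x) := by
  have h1 : ContinuousOn f ({0}ᶜ : Set E) := ContDiffOn.continuousOn hf
  exact h1.comp_continuous hg fun x => h0 x

private theorem cnt_pos {a : E} (ha : a ≠ 0) :
    0 < a 0 ^ 2 + a 1 ^ 2 + a 2 ^ 2 + a 0 * a 1 + a 0 * a 2 + a 1 * a 2 := by
  have h : a 0 ≠ 0 ∨ a 1 ≠ 0 ∨ a 2 ≠ 0 := by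
    by_contra hc
    push Not at hc
    apply ha
    ext i
    fin_cases i
    · exact hc.1
    · exact hc.2.1
    · exact hc.2.2
  rcases h with h | h | h
  · have := sq_pos_of_ne_zero h
    nlinarith [sq_nonneg (a 0 + a 1), sq_nonneg (a 0 + a 2), sq_nonneg (a 1 + a 2), sq_nonneg (a 0), sq_nonneg (a 1), sq_nonneg (a 2), sq_nonneg (a 0 + a 1 + a 2)]
  · have := sq_pos_of_ne_zero h
    nlinarith [sq_nonneg (a 0 + a 1), sq_nonneg (a 0 + a 2), sq_nonneg (a 1 + a 2), sq_nonneg (a 0), sq_nonneg (a 1), sq_nonneg (a 2), sq_nonneg (a 0 + a 1 + a 2)]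
  · have := sq_pos_of_ne_zero h
    nlinarith [sq_nonneg (a 0 + a 1), sq_nonneg (a 0 + a 2), sq_nonneg (a 1 + a 2), sq_nonneg (a 0), sq_nonneg (a 1), sq_nonneg (a 2), sq_nonneg (a 0 + a 1 + a 2)]

private theorem cnt_nW {a : E} (ha : a ≠ 0) : 0 < nW a := Real.sqrt_pos.2 (cnt_pos ha)

private theorem cnt_nWc {X : Type} [TopologicalSpace X] {g : X → E} (hg : Continuous g) :
    Continuous fun x => nW (g x) := by
  have hc : ∀ i : Fin 3, Continuous fun x => g x i := fun i =>
    (EuclideanSpace.proj (𝕜 := ℝ) i).continuous.comp hg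
  have h0 := hc 0
  have h1 := hc 1
  have h2 := hc 2
  unfold nW
  fun_prop

private theorem cnt_dS {X : Type} [TopologicalSpace X] {g : X → E} (hg : Continuous g)
    (h0 : ∀ x, g x ≠ 0) {T : E → ℝ} (hT : Sm 3 T) : Continuous fun x => dS T (g x) := by
  have hn := cnt_nWc hg
  have hn0 : ∀ x, nW (g x) ≠ 0 := fun x => (cnt_nW (h0 x)).ne'
  have hT0 : Continuous fun x => T (g x) := cnt_comp hg h0 (sm_mono hT (by omega))
  have hpp : ∀ i j : Fin 3, Continuous fun x => pd i (pd j T) (g x) := fun i j =>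
    cnt_comp hg h0 (sm_mono (sm_pd (n := 1) (sm_pd (n := 2) hT j) i) (by omega))
  have hL : Continuous fun x => Lp T (g x) := by
    unfold MGF.Lp
    have a1 := hpp 0 0
    have a2 := hpp 1 1
    have a3 := hpp 2 2
    have a4 := hpp 0 1
    have a5 := hpp 0 2
    have a6 := hpp 1 2
    exact (continuous_const.mul ((a1.add a2).add a3)).sub ((a4.add a5).add a6)
  unfold dS
  exact ((continuous_const.mul hT0).div (hn.pow 4) fun x => pow_ne_zero 4 (hn0 x)).add
    ((hT0.mul hL).div (hn.pow 3) fun x => pow_ne_zero 3 (hn0 x))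

private theorem cnt_dot {X : Type} [TopologicalSpace X] {u v : X → ℝ} (hu : Continuous u)
    (hv : Continuous v) : ∀ (Q : List P) (L : List (X → ℝ)), (∀ f ∈ L, Continuous f) →
      Continuous fun z => dotL (evE (u z) (v z) Q) (L.map fun f => f z)
  | [], L, _ => by
    simp only [evE, List.map_nil, dotL]
    exact continuous_const
  | q :: Q, [], _ => by
    simp only [evE, List.map_cons, List.map_nil, dotL]
    exact continuous_const
  | q :: Q, f :: L, h => by
    have h1 := cnt_dot hu hv Q L fun g hg => h g (List.mem_cons_of_mem _ hg)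
    have h2 : Continuous fun z => ev (u z) (v z) q := (continuous_evc q).comp (hu.prodMk hv)
    have h3 : Continuous f := h f List.mem_cons_self
    simp only [evE, List.map_cons, dotL] at h1 ⊢
    exact (h2.mul h3).add h1

private theorem cnt_qf {X : Type} [TopologicalSpace X] {u v : X → ℝ} (hu : Continuous u)
    (hv : Continuous v) : ∀ (L : List (X → ℝ)) (Q : List P), (∀ f ∈ L, Continuous f) →
      Continuous fun z => qf (evE (u z) (v z) Q) (L.map fun f => f z)
  | [], Q, _ => by
    simp only [List.map_nil, qf]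
    exact continuous_const
  | f :: L, Q, h => by
    have h1 := cnt_qf hu hv L (Q.drop (L.length + 1)) fun g hg => h g (List.mem_cons_of_mem _ hg)
    have h2 := cnt_dot hu hv (Q.take (L.length + 1)) (f :: L) h
    have h3 : Continuous f := h f List.mem_cons_self
    simp only [evE, List.map_cons, qf, List.map_take, List.map_drop, List.length_map] at h1 h2 ⊢
    exact (h3.mul h2).add h1

theorem sa_cont : Continuous fun z : ℝ × ℝ => sa z.1 z.2 := by
  unfold sa
  exact cnt_pt (by fun_prop) (by fun_prop) (by fun_prop)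
/-- continuity along the sector for a smooth function -/
theorem comp_cont {f : E → ℝ} (hf : Sm 0 f) : Continuous fun z : ℝ × ℝ => f (sa z.1 z.2) :=
  cnt_comp sa_cont (fun z => sa_ne z.1 z.2) hf
theorem nW_cont : Continuous fun z : ℝ × ℝ => nW (sa z.1 z.2) :=
  cnt_nWc sa_cont

private noncomputable def cntL (T : E → ℝ) : List (ℝ × ℝ → ℝ) :=
  [fun z => 1 / nW (sa z.1 z.2) ^ 3, fun z => pd 0 T (sa z.1 z.2), fun z => pd 1 T (sa z.1 z.2),
    fun z => pd 2 T (sa z.1 z.2), fun z => AA 0 0 T (sa z.1 z.2), fun z => AA 0 1 T (sa z.1 z.2),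
    fun z => AA 1 1 T (sa z.1 z.2)]

private theorem cntL_cont {T : E → ℝ} (hT : Sm 3 T) : ∀ f ∈ cntL T, Continuous f := by
  have h0 : Continuous fun z : ℝ × ℝ => 1 / nW (sa z.1 z.2) ^ 3 :=
    continuous_const.div (nW_cont.pow 3) fun z => pow_ne_zero 3 (nW_pos z.1 z.2).ne'
  have h1 : ∀ i : Fin 3, Continuous fun z : ℝ × ℝ => pd i T (sa z.1 z.2) := fun i =>
    comp_cont (sm_mono (sm_pd (n := 2) hT i) (by omega))
  have h2 : ∀ i j : Fin 3, Continuous fun z : ℝ × ℝ => pd i (pd j T) (sa z.1 z.2) := fun i j =>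
    comp_cont (sm_mono (sm_pd (n := 1) (sm_pd (n := 2) hT j) i) (by omega))
  have h3 : ∀ i j : Fin 3, Continuous fun z : ℝ × ℝ => AA i j T (sa z.1 z.2) := fun i j => by
    unfold AA
    exact ((((h2 i j).sub (h2 i 2)).sub (h2 2 j)).add (h2 2 2)).neg
  intro f hf
  simp only [cntL, List.mem_cons, List.not_mem_nil, or_false] at hf
  rcases hf with rfl | rfl | rfl | rfl | rfl | rfl | rfl
  · exact h0
  · exact h1 0
  · exact h1 1
  · exact h1 2
  · exact h3 0 0
  · exact h3 0 1
  · exact h3 1 1

theorem qf_cont {T : E → ℝ} (hT : Sm 3 T) (Q : List P) :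
    Continuous fun z : ℝ × ℝ => qf (evE z.1 z.2 Q) (st T (sa z.1 z.2)) :=
  cnt_qf continuous_fst continuous_snd (cntL T) Q (cntL_cont hT)
theorem dotL_cont {T : E → ℝ} (hT : Sm 3 T) (Q : List P) :
    Continuous fun z : ℝ × ℝ => dotL (evE z.1 z.2 Q) (st T (sa z.1 z.2)) :=
  cnt_dot continuous_fst continuous_snd Q (cntL T) (cntL_cont hT)
theorem gV_cont {T : E → ℝ} (hT : Sm 3 T) {D : Int} (hD : 0 < D) (c : List P) :
    Continuous fun z : ℝ × ℝ => gV D c T z.1 z.2 := by
  unfold gV
  refine (qf_cont hT _).div (continuous_const.mul nW_cont) fun z => ?_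
  have h1 := nW_pos z.1 z.2
  have h2 : (0 : ℝ) < D := by exact_mod_cast hD
  exact (mul_pos h2 h1).ne'
theorem dS_cont {T : E → ℝ} (hT : Sm 3 T) : Continuous fun z : ℝ × ℝ => dS T (sa z.1 z.2) :=
  cnt_dS sa_cont (fun z => sa_ne z.1 z.2) hT
/-- continuity of the density on the whole plane -/
theorem dSb_cont {T : E → ℝ} (hT : Sm 3 T) : Continuous fun z : ℝ × ℝ => dS T (bp z.1 z.2) := by
  refine cnt_dS (g := fun z : ℝ × ℝ => bp z.1 z.2) ?_ ?_ hT
  · unfold bp
    exact cnt_pt (by fun_prop) (by fun_prop) (by fun_prop)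
  · intro z h
    have h0 : bp z.1 z.2 0 + bp z.1 z.2 1 + bp z.1 z.2 2 = 1 := by
      change z.1 + z.2 + (1 - z.1 - z.2) = 1
      ring
    rw [h] at h0
    simp at h0

end Pool.Agent.MTR
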