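import Pool.Agent.MTR.SAP
import Pool.Agent.MEIS.PDR
/-!
TPP (130 lines). Permutation of the coordinates.
PROOF. As in MGF/SYM.lean: pmE σ is a linear isometry (LinearIsometryEquiv.piLpCongrLeft 2 ℝ ℝ σ.symm applied to a is pmE σ a: ext), and
pd i (f ∘ pmE σ) = (pd (σ.symm i) f) ∘ pmE σ for all f. nW ∘ pmE σ = nW (fin_cases over the six permutations or: nW² = (|a|² + (Σ a)²)/2 with Equiv.sum_comp).
Hessian conditions: the double sum is reindexed by σ (v ↦ v ∘ σ.symm; Equiv.sum_comp). pmE σ a ≠ 0 iff a ≠ 0. v0, v1, v2: pmE σ of a vertex is a vertex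
(decide over the six σ, or by cases). Lp: symmetric sum.
-/
set_option autoImplicit false

open MeasureTheory Set Metric Pool.Agent.MEIS Pool.Agent.MSQ Pool.Agent.MGE Pool.Agent.MGF

namespace Pool.Agent.MTR

/-- permutation of the coordinates -/
private noncomputable def PP (σ : Equiv.Perm (Fin 3)) : E ≃ₗᵢ[ℝ] E :=
  LinearIsometryEquiv.piLpCongrLeft 2 ℝ ℝ σ.symm

private theorem PP_apply (σ : Equiv.Perm (Fin 3)) (a : E) (i : Fin 3) : PP σ a i = a (σ i) := rfl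

private theorem PP_single (σ : Equiv.Perm (Fin 3)) (i : Fin 3) :
    PP σ (EuclideanSpace.single i (1 : ℝ)) = EuclideanSpace.single (σ.symm i) (1 : ℝ) := by
  ext j
  rw [PP_apply, EuclideanSpace.single_apply, EuclideanSpace.single_apply]
  congr 1
  exact propext ⟨fun h => by rw [← h, Equiv.symm_apply_apply], fun h => by rw [h, Equiv.apply_symm_apply]⟩

private theorem pdP (σ : Equiv.Perm (Fin 3)) (f : E → ℝ) (i : Fin 3) :
    pd i (fun y => f (PP σ y)) = fun x => pd (σ.symm i) f (PP σ x) := by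
  funext x
  have h : fderiv ℝ (f ∘ ((PP σ).toContinuousLinearEquiv : E ≃L[ℝ] E)) x = _ :=
    ((PP σ).toContinuousLinearEquiv : E ≃L[ℝ] E).comp_right_fderiv
  have h2 : fderiv ℝ (fun y => f (PP σ y)) x =
      (fderiv ℝ f (PP σ x)).comp ((PP σ).toContinuousLinearEquiv : E →L[ℝ] E) := h
  unfold pd
  rw [h2]
  show fderiv ℝ f (PP σ x) (PP σ (EuclideanSpace.single i (1 : ℝ))) = _
  rw [PP_single]

private theorem pm_eq (σ : Equiv.Perm (Fin 3)) (a : E) : pmE σ a = PP σ a := by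
  ext i
  rw [PP_apply]
  fin_cases i <;> rfl

private theorem TP_eq (σ : Equiv.Perm (Fin 3)) (T : E → ℝ) : TP σ T = fun y => T (PP σ y) := by
  funext a
  show T (pmE σ a) = _
  rw [pm_eq]

private theorem pm_apply (σ : Equiv.Perm (Fin 3)) (a : E) (i : Fin 3) : pmE σ a i = a (σ i) := by
  rw [pm_eq, PP_apply]

theorem pmE_ne (σ : Equiv.Perm (Fin 3)) {a : E} (ha : a ≠ 0) : pmE σ a ≠ 0 := by
  rw [pm_eq]
  intro h
  apply ha
  have h1 : PP σ a = PP σ 0 := by rw [h, map_zero]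
  exact (PP σ).injective h1

theorem nW_pm (σ : Equiv.Perm (Fin 3)) (a : E) : nW (pmE σ a) = nW a := by
  have h1 : a (σ 0) + a (σ 1) + a (σ 2) = a 0 + a 1 + a 2 := by
    have h := Equiv.sum_comp σ (fun i => a i)
    simpa [Fin.sum_univ_three] using h
  have h2 : a (σ 0) ^ 2 + a (σ 1) ^ 2 + a (σ 2) ^ 2 = a 0 ^ 2 + a 1 ^ 2 + a 2 ^ 2 := by
    have h := Equiv.sum_comp σ (fun i => a i ^ 2)
    simpa [Fin.sum_univ_three] using h
  unfold nW
  congr 1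
  show a (σ 0) ^ 2 + a (σ 1) ^ 2 + a (σ 2) ^ 2 + a (σ 0) * a (σ 1) + a (σ 0) * a (σ 2) +
    a (σ 1) * a (σ 2) = _
  linear_combination (1 / 2) * h2 + (1 / 2) * (a (σ 0) + a (σ 1) + a (σ 2) + a 0 + a 1 + a 2) * h1

theorem pd_TP (σ : Equiv.Perm (Fin 3)) (T : E → ℝ) (i : Fin 3) :
    pd i (TP σ T) = TP σ (pd (σ.symm i) T) := by
  rw [TP_eq, TP_eq, pdP]

theorem Sm_TP (σ : Equiv.Perm (Fin 3)) {T : E → ℝ} {n : ℕ} (h : Sm n T) : Sm n (TP σ T) := by
  rw [TP_eq]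
  unfold Sm at h ⊢
  refine ContDiffOn.comp h ((PP σ).contDiff.contDiffOn) ?_
  intro x hx
  have h1 := pmE_ne σ (show x ≠ 0 from hx)
  rw [pm_eq] at h1
  exact h1

theorem Hom_TP (σ : Equiv.Perm (Fin 3)) {T : E → ℝ} {k : ℤ} (h : Hom k T) : Hom k (TP σ T) := by
  intro t ht x hx
  show T (pmE σ (t • x)) = t ^ k * T (pmE σ x)
  have h1 : pmE σ (t • x) = t • pmE σ x := by
    rw [pm_eq, pm_eq]
    exact map_smul (PP σ) t x
  rw [h1]
  exact h t ht _ (pmE_ne σ hx)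

private theorem nW_TP (σ : Equiv.Perm (Fin 3)) : TP σ nW = nW := by
  funext a
  exact nW_pm σ a

private theorem dsum (σ : Equiv.Perm (Fin 3)) (v : E) (F : Fin 3 → Fin 3 → ℝ) :
    ∑ i, ∑ j, v i * v j * F (σ.symm i) (σ.symm j) =
      ∑ i, ∑ j, pmE σ v i * pmE σ v j * F i j := by
  rw [← Equiv.sum_comp σ (fun i => ∑ j, v i * v j * F (σ.symm i) (σ.symm j))]
  refine Finset.sum_congr rfl fun i _ => ?_
  beta_reduce
  rw [← Equiv.sum_comp σ (fun j => v (σ i) * v j * F (σ.symm (σ i)) (σ.symm j))]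
  refine Finset.sum_congr rfl fun j _ => ?_
  beta_reduce
  rw [pm_apply, pm_apply, Equiv.symm_apply_apply, Equiv.symm_apply_apply]

private theorem pd2_TP (σ : Equiv.Perm (Fin 3)) (T : E → ℝ) (i j : Fin 3) (a : E) :
    pd i (pd j (TP σ T)) a = pd (σ.symm i) (pd (σ.symm j) T) (pmE σ a) := by
  rw [pd_TP, pd_TP]
  rfl

private theorem sgl (T : E → ℝ) {b : ℝ} (h : TrHyp T b) (k : Fin 3) :
    T (EuclideanSpace.single k (1 : ℝ)) = 0 := by
  fin_cases k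
  · rw [← h.v0]
    congr 1
    ext i
    fin_cases i <;> simp [pt]
  · rw [← h.v1]
    congr 1
    ext i
    fin_cases i <;> simp [pt]
  · rw [← h.v2]
    congr 1
    ext i
    fin_cases i <;> simp [pt]

private theorem sg3 : pt 1 0 0 = EuclideanSpace.single (0 : Fin 3) (1 : ℝ) ∧
    pt 0 1 0 = EuclideanSpace.single (1 : Fin 3) (1 : ℝ) ∧
    pt 0 0 1 = EuclideanSpace.single (2 : Fin 3) (1 : ℝ) := by
  refine ⟨?_, ?_, ?_⟩ <;>
  · ext i
    fin_cases i <;> simp [pt]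

theorem TrHyp_TP (σ : Equiv.Perm (Fin 3)) {T : E → ℝ} {b : ℝ} (h : TrHyp T b) : TrHyp (TP σ T) b where
  sm := Sm_TP σ h.sm
  hom := Hom_TP σ h.hom
  conc := by
    intro a ha v
    simp only [pd2_TP]
    rw [dsum σ v (fun i j => pd i (pd j T) (pmE σ a))]
    exact h.conc _ (pmE_ne σ ha) _
  curv := by
    intro a ha v
    have h1 : ∀ i j : Fin 3, pd i (pd j nW) a = pd (σ.symm i) (pd (σ.symm j) nW) (pmE σ a) := by
      intro i j
      have h2 := pd2_TP σ nW i j a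
      rw [nW_TP] at h2
      exact h2
    simp only [pd2_TP, h1]
    rw [dsum σ v (fun i j => pd i (pd j T) (pmE σ a) + pd i (pd j nW) (pmE σ a))]
    exact h.curv _ (pmE_ne σ ha) _
  nonneg := by
    intro a h0 h1 h2
    have h3 : ∀ i : Fin 3, 0 ≤ a i := by
      intro i
      fin_cases i
      · exact h0
      · exact h1
      · exact h2
    exact h.nonneg _ (h3 _) (h3 _) (h3 _)
  v0 := by
    show T (pmE σ (pt 1 0 0)) = 0
    rw [pm_eq, sg3.1, PP_single]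
    exact sgl T h _
  v1 := by
    show T (pmE σ (pt 0 1 0)) = 0
    rw [pm_eq, sg3.2.1, PP_single]
    exact sgl T h _
  v2 := by
    show T (pmE σ (pt 0 0 1)) = 0
    rw [pm_eq, sg3.2.2, PP_single]
    exact sgl T h _
  cen := by
    show T (pmE σ (pt 1 1 1)) = b
    rw [← h.cen]
    congr 1
    have h1 : ∀ i : Fin 3, pt 1 1 1 i = 1 := by
      intro i
      fin_cases i <;> rfl
    unfold pmE
    rw [h1, h1, h1]

private theorem Lp_TP (σ : Equiv.Perm (Fin 3)) {T : E → ℝ} (h : Sm 3 T) {a : E} (ha : a ≠ 0) :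
    MGF.Lp (TP σ T) a = MGF.Lp T (pmE σ a) := by
  have hn := pmE_ne σ ha
  have hs : ∀ i j : Fin 3, pd i (pd j T) (pmE σ a) = pd j (pd i T) (pmE σ a) := fun i j =>
    pd_comm (h.of_le (by norm_num)) hn i j
  unfold MGF.Lp
  rw [pd2_TP, pd2_TP, pd2_TP, pd2_TP, pd2_TP, pd2_TP]
  have h1 := Equiv.sum_comp σ.symm (fun i => pd i (pd i T) (pmE σ a))
  have h2 := Equiv.sum_comp σ.symm (fun i => ∑ j, pd i (pd j T) (pmE σ a))
  have h3 : ∀ i : Fin 3, ∑ j, pd i (pd (σ.symm j) T) (pmE σ a) = ∑ j, pd i (pd j T) (pmE σ a) :=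
    fun i => Equiv.sum_comp σ.symm (fun j => pd i (pd j T) (pmE σ a))
  beta_reduce at h1 h2
  have h4 : ∑ i, ∑ j, pd (σ.symm i) (pd (σ.symm j) T) (pmE σ a) =
      ∑ i, ∑ j, pd i (pd j T) (pmE σ a) := by
    rw [← h2]
    exact Finset.sum_congr rfl fun i _ => h3 _
  simp only [Fin.sum_univ_three] at h1 h4
  rw [hs (σ.symm 1) (σ.symm 0), hs (σ.symm 2) (σ.symm 0), hs (σ.symm 2) (σ.symm 1),
    hs 1 0, hs 2 0, hs 2 1] at h4
  linear_combination 2 * h1 - (1 / 2) * h4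

theorem dS_TP (σ : Equiv.Perm (Fin 3)) {T : E → ℝ} (h : Sm 3 T) {a : E} (ha : a ≠ 0) :
    dS (TP σ T) a = dS T (pmE σ a) := by
  unfold dS
  rw [Lp_TP σ h ha, nW_pm]
  rfl

private theorem swp (s σ : Equiv.Perm (Fin 3)) (T : E → ℝ) (a : E) (hs : ∀ k, a (s k) = a k)
    (hi : s.symm = s) (i : Fin 3) : pd i (TP (s * σ) T) a = pd (s i) (TP σ T) a := by
  have h1 : pmE (s * σ) a = pmE σ a := by
    ext k
    rw [pm_apply, pm_apply]
    exact hs (σ k)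
  rw [pd_TP, pd_TP]
  show pd ((s * σ).symm i) T (pmE (s * σ) a) = pd (σ.symm (s i)) T (pmE σ a)
  rw [h1]
  congr 1
  show σ.symm (s.symm i) = σ.symm (s i)
  rw [hi]

/-- exchange of the first two coordinates on the line `x = 0` of the sector -/
theorem st_sw0 {T : E → ℝ} (h : Sm 3 T) (σ : Equiv.Perm (Fin 3)) (y : ℝ) :
    (st (TP (Equiv.swap 0 1 * σ) T) (sa 0 y)).getD 0 0 = (st (TP σ T) (sa 0 y)).getD 0 0 ∧
    (st (TP (Equiv.swap 0 1 * σ) T) (sa 0 y)).getD 1 0 = (st (TP σ T) (sa 0 y)).getD 2 0 ∧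
    (st (TP (Equiv.swap 0 1 * σ) T) (sa 0 y)).getD 2 0 = (st (TP σ T) (sa 0 y)).getD 1 0 ∧
    (st (TP (Equiv.swap 0 1 * σ) T) (sa 0 y)).getD 3 0 = (st (TP σ T) (sa 0 y)).getD 3 0 := by
  have h01 : sa 0 y 0 = sa 0 y 1 := by
    rw [sa_0, sa_1]
    ring
  have hs : ∀ k : Fin 3, sa 0 y (Equiv.swap (0 : Fin 3) 1 k) = sa 0 y k := by
    intro k
    fin_cases k
    · exact h01.symm
    · exact h01
    · rfl
  refine ⟨rfl, ?_, ?_, ?_⟩
  · exact swp (Equiv.swap 0 1) σ T (sa 0 y) hs (Equiv.symm_swap 0 1) 0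
  · exact swp (Equiv.swap 0 1) σ T (sa 0 y) hs (Equiv.symm_swap 0 1) 1
  · exact swp (Equiv.swap 0 1) σ T (sa 0 y) hs (Equiv.symm_swap 0 1) 2

/-- exchange of the last two coordinates on the line `y = 0` of the sector -/
theorem st_sw1 {T : E → ℝ} (h : Sm 3 T) (σ : Equiv.Perm (Fin 3)) (x : ℝ) :
    (st (TP (Equiv.swap 1 2 * σ) T) (sa x 0)).getD 0 0 = (st (TP σ T) (sa x 0)).getD 0 0 ∧
    (st (TP (Equiv.swap 1 2 * σ) T) (sa x 0)).getD 1 0 = (st (TP σ T) (sa x 0)).getD 1 0 ∧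
    (st (TP (Equiv.swap 1 2 * σ) T) (sa x 0)).getD 2 0 = (st (TP σ T) (sa x 0)).getD 3 0 ∧
    (st (TP (Equiv.swap 1 2 * σ) T) (sa x 0)).getD 3 0 = (st (TP σ T) (sa x 0)).getD 2 0 := by
  have h12 : sa x 0 1 = sa x 0 2 := by
    rw [sa_1, sa_2]
    ring
  have hs : ∀ k : Fin 3, sa x 0 (Equiv.swap (1 : Fin 3) 2 k) = sa x 0 k := by
    intro k
    fin_cases k
    · rfl
    · exact h12.symm
    · exact h12
  refine ⟨rfl, ?_, ?_, ?_⟩
  · exact swp (Equiv.swap 1 2) σ T (sa x 0) hs (Equiv.symm_swap 1 2) 0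
  · exact swp (Equiv.swap 1 2) σ T (sa x 0) hs (Equiv.symm_swap 1 2) 1
  · exact swp (Equiv.swap 1 2) σ T (sa x 0) hs (Equiv.symm_swap 1 2) 2

end Pool.Agent.MTR
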