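import Pool.Agent.MTR.SPL
import Pool.Agent.MTR.TPP
import Pool.Agent.MTR.CNT
/-!
SPC (40 lines). The functional of a triangle as a sum over six sectors.
PROOF. CN T is 1/√2 times the integral of dS T (bp x y) (by rfl / intervalIntegral congr); tri_six with g = dS T (continuity dSb_cont) and dS_TP.
-/
set_option autoImplicit false

open MeasureTheory Set Metric Pool.Agent.MEIS Pool.Agent.MSQ Pool.Agent.MGE Pool.Agent.MGF

namespace Pool.Agent.MTR

theorem cn_split {T : E → ℝ} (hT : Sm 3 T) :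
    CN T = 1 / √2 * (1 / 6 * ∑ σ : Equiv.Perm (Fin 3),
      ∫ x in (0 : ℝ)..1, ∫ y in (0 : ℝ)..(1 - x), dS (TP σ T) (sa x y)) := by
  have h1 : CN T = 1 / √2 * ∫ x in (0 : ℝ)..1, ∫ y in (0 : ℝ)..(1 - x), dS T (bp x y) := rfl
  rw [h1, tri_six (dSb_cont hT)]
  congr 2
  refine Finset.sum_congr rfl fun σ _ => ?_
  refine intervalIntegral.integral_congr fun x _ => ?_
  refine intervalIntegral.integral_congr fun y _ => ?_
  exact (dS_TP σ hT (sa_ne x y)).symm

end Pool.Agent.MTR
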