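import Pool.Agent.MTR.TPP
import Pool.Agent.MGE.VV
/-!
SSM (110 lines). The three side functionals as a sum over six half sides.
PROOF. ∫_{-1}^1 = ∫_{-1}^0 + ∫_0^1 (continuity: pd k T along the side is continuous, T is C^3 off 0, the points are ≠ 0), ∫_{-1}^0 f t = ∫_0^1 f (-t), and Fsym F. Each of the six
half sides is the term of one σ: pd_TP: pd i (TP σ T) a = pd (σ.symm i) T (pmE σ a). Enumerate the six permutations (Finset.univ = {...} by decide, as in SPL).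
-/
set_option autoImplicit false

open MeasureTheory Set Metric Pool.Agent.MEIS Pool.Agent.MSQ Pool.Agent.MGE Pool.Agent.MGF

namespace Pool.Agent.MTR

private def ssm0 : Equiv.Perm (Fin 3) := ⟨![0, 1, 2], ![0, 1, 2], by decide, by decide⟩
private def ssm1 : Equiv.Perm (Fin 3) := ⟨![1, 0, 2], ![1, 0, 2], by decide, by decide⟩
private def ssm2 : Equiv.Perm (Fin 3) := ⟨![0, 2, 1], ![0, 2, 1], by decide, by decide⟩
private def ssm3 : Equiv.Perm (Fin 3) := ⟨![1, 2, 0], ![2, 0, 1], by decide, by decide⟩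
private def ssm4 : Equiv.Perm (Fin 3) := ⟨![2, 0, 1], ![1, 2, 0], by decide, by decide⟩
private def ssm5 : Equiv.Perm (Fin 3) := ⟨![2, 1, 0], ![2, 1, 0], by decide, by decide⟩

private theorem ssm_sum (f : Equiv.Perm (Fin 3) → ℝ) :
    ∑ σ, f σ = f ssm0 + (f ssm1 + (f ssm2 + (f ssm3 + (f ssm4 + f ssm5)))) := by
  have hu : (Finset.univ : Finset (Equiv.Perm (Fin 3))) = {ssm0, ssm1, ssm2, ssm3, ssm4, ssm5} := by decide
  rw [hu, Finset.sum_insert (by decide), Finset.sum_insert (by decide), Finset.sum_insert (by decide),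
    Finset.sum_insert (by decide), Finset.sum_insert (by decide), Finset.sum_singleton]

private theorem ssm_half {f : ℝ → ℝ} (hf : Continuous f) :
    ∫ t in (-1 : ℝ)..1, f t = (∫ t in (0 : ℝ)..1, f (-t)) + ∫ t in (0 : ℝ)..1, f t := by
  rw [intervalIntegral.integral_comp_neg, neg_zero,
    intervalIntegral.integral_add_adjacent_intervals (hf.intervalIntegrable _ _) (hf.intervalIntegrable _ _)]

private theorem ssm_ne {x y z : ℝ} (h : x + y + z = 1) : pt x y z ≠ 0 := by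
  intro e
  have h0 : pt x y z 0 = (0 : E) 0 := by rw [e]
  have h1 : pt x y z 1 = (0 : E) 1 := by rw [e]
  have h2 : pt x y z 2 = (0 : E) 2 := by rw [e]
  have hz : ∀ k : Fin 3, (0 : E) k = 0 := fun k => rfl
  rw [pt0, hz] at h0
  rw [pt1, hz] at h1
  rw [pt2, hz] at h2
  rw [h0, h1, h2] at h
  norm_num at h

private theorem ssm_ptc {f g h : ℝ → ℝ} (hf : Continuous f) (hg : Continuous g) (hh : Continuous h) :
    Continuous fun t => pt (f t) (g t) (h t) := by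
  unfold pt
  refine (PiLp.continuous_toLp 2 _).comp (continuous_pi fun i => ?_)
  fin_cases i
  · exact hf
  · exact hg
  · exact hh

private theorem ssm_cont {F : ℝ → ℝ → ℝ → ℝ → ℝ}
    (hc : Continuous fun z : ℝ × ℝ × ℝ × ℝ => F z.1 z.2.1 z.2.2.1 z.2.2.2) {T : E → ℝ} (hT : Sm 3 T)
    {g : ℝ → E} (hg : Continuous g) (hne : ∀ t, g t ≠ 0) (i j k : Fin 3) :
    Continuous fun t => F t (pd i T (g t)) (pd j T (g t)) (pd k T (g t)) := by
  have h1 : ∀ m, Continuous fun t => pd m T (g t) := by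
    intro m
    have h2 : ContinuousOn (pd m T) ({0}ᶜ : Set E) := (sm_pd (n := 2) hT m).continuousOn
    exact h2.comp_continuous hg fun t => hne t
  exact hc.comp (continuous_id.prodMk ((h1 i).prodMk ((h1 j).prodMk (h1 k))))

private theorem ssm_term {F : ℝ → ℝ → ℝ → ℝ → ℝ} (T : E → ℝ) (σ : Equiv.Perm (Fin 3)) {i j k : Fin 3}
    {p : ℝ → E} (hi : σ.symm 0 = i) (hj : σ.symm 1 = j) (hk : σ.symm 2 = k)
    (hp : ∀ t : ℝ, pmE σ (pt ((1 + t) / 2) ((1 - t) / 2) 0) = p t) :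
    (∫ t in (0 : ℝ)..1, F t (pd 0 (TP σ T) (pt ((1 + t) / 2) ((1 - t) / 2) 0))
      (pd 1 (TP σ T) (pt ((1 + t) / 2) ((1 - t) / 2) 0))
      (pd 2 (TP σ T) (pt ((1 + t) / 2) ((1 - t) / 2) 0))) =
    ∫ t in (0 : ℝ)..1, F t (pd i T (p t)) (pd j T (p t)) (pd k T (p t)) := by
  refine intervalIntegral.integral_congr fun t _ => ?_
  simp only [pd_TP, TP]
  rw [hi, hj, hk, hp]

theorem side_six {F : ℝ → ℝ → ℝ → ℝ → ℝ} (hF : Fsym F)
    (hc : Continuous fun z : ℝ × ℝ × ℝ × ℝ => F z.1 z.2.1 z.2.2.1 z.2.2.2) {T : E → ℝ} (hT : Sm 3 T) :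
    sF0 F T + sF1 F T + sF2 F T = ∑ σ : Equiv.Perm (Fin 3), ∫ t in (0 : ℝ)..1,
      F t (pd 0 (TP σ T) (pt ((1 + t) / 2) ((1 - t) / 2) 0)) (pd 1 (TP σ T) (pt ((1 + t) / 2) ((1 - t) / 2) 0))
        (pd 2 (TP σ T) (pt ((1 + t) / 2) ((1 - t) / 2) 0)) := by
  have cu : Continuous fun t : ℝ => (1 + t) / 2 := by fun_prop
  have cw : Continuous fun t : ℝ => (1 - t) / 2 := by fun_prop
  have cz : Continuous fun _ : ℝ => (0 : ℝ) := continuous_const
  have s : ∀ t : ℝ, (1 + -t) / 2 = (1 - t) / 2 := fun t => by ring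
  have s' : ∀ t : ℝ, (1 - -t) / 2 = (1 + t) / 2 := fun t => by ring
  rw [ssm_sum]
  rw [ssm_term T ssm0 (i := 0) (j := 1) (k := 2) (p := fun t => pt ((1 + t) / 2) ((1 - t) / 2) 0) rfl rfl rfl
    (fun t => rfl)]
  rw [ssm_term T ssm1 (i := 1) (j := 0) (k := 2) (p := fun t => pt ((1 - t) / 2) ((1 + t) / 2) 0) rfl rfl rfl
    (fun t => rfl)]
  rw [ssm_term T ssm2 (i := 0) (j := 2) (k := 1) (p := fun t => pt ((1 + t) / 2) 0 ((1 - t) / 2)) rfl rfl rfl
    (fun t => rfl)]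
  rw [ssm_term T ssm3 (i := 2) (j := 0) (k := 1) (p := fun t => pt ((1 - t) / 2) 0 ((1 + t) / 2)) rfl rfl rfl
    (fun t => rfl)]
  rw [ssm_term T ssm4 (i := 1) (j := 2) (k := 0) (p := fun t => pt 0 ((1 + t) / 2) ((1 - t) / 2)) rfl rfl rfl
    (fun t => rfl)]
  rw [ssm_term T ssm5 (i := 2) (j := 1) (k := 0) (p := fun t => pt 0 ((1 - t) / 2) ((1 + t) / 2)) rfl rfl rfl
    (fun t => rfl)]
  have c0 := ssm_cont hc hT (ssm_ptc cz cu cw) (fun t => ssm_ne (by ring)) 1 2 0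
  have c1 := ssm_cont hc hT (ssm_ptc cu cz cw) (fun t => ssm_ne (by ring)) 0 2 1
  have c2 := ssm_cont hc hT (ssm_ptc cu cw cz) (fun t => ssm_ne (by ring)) 0 1 2
  unfold sF0 sF1 sF2
  rw [ssm_half c0, ssm_half c1, ssm_half c2]
  simp only [s, s', hF _ _ _ _]
  ring

end Pool.Agent.MTR
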