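import Pool.Agent.MTR.TPP
import Pool.Agent.MTR.QML
import Pool.Agent.MTR.CNT
/-!
TIE (110 lines). The flux through the medians cancels.
PROOF. gV at (0,y): (Σ c_ab(0,y) s_a s_b)/(D n) (qf_sumQ, qf_qPm, qf_qMul, dotL_un, zipWith over prs; if c is shorter or longer than 10 the missing ones do not occur:
`c.getD i []`). tieX: ev 0 y (c_i) + ev 0 y (c_j) = 0 for the listed pairs of indices (isZP: all coefficients 0; ax p = [p.headD []], ev 0 y p = evL y (p.headD [])).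
By st_sw0 the value for swap 0 1 * σ is minus the value for σ. Sum over σ: Equiv.sum_comp (Equiv.mulLeft (swap 0 1)): S = Σ f(swap σ) = -Σ f(σ) = -S.
-/
set_option autoImplicit false

open MeasureTheory Set Metric Pool.Agent.MEIS Pool.Agent.MSQ Pool.Agent.MGE Pool.Agent.MGF

namespace Pool.Agent.MTR

private theorem tie_ss (x y : ℝ) (a b : ℕ) (ha : a ≤ 6) (hb : b ≤ 6) (s : List ℝ)
    (hs : s.length = 7) : qf (evE x y (ss a b)) s = s.getD a 0 * s.getD b 0 := by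
  have h1 : ev x y c1 = 1 := by
    simp only [c1, ev, evL]
    push_cast
    ring
  unfold ss
  rw [qf_qMul _ _ _ _ _ (by rw [un_length a ha, hs]) (by rw [un_length b hb, hs]), dotL_un,
    dotL_un, h1]
  ring

private theorem tie_zip (x y : ℝ) (s : List ℝ) (hs : s.length = 7) :
    ∀ (L : List (ℕ × ℕ)) (c : List P), (∀ ab ∈ L, ab.1 ≤ 6 ∧ ab.2 ≤ 6) →
      ((List.zipWith (fun p ab => qPm p (ss ab.1 ab.2)) c L).map
        fun A => qf (evE x y A) s).sum =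
      ∑ i ∈ Finset.range L.length, ev x y (c.getD i []) *
        (s.getD (L.getD i (0, 0)).1 0 * s.getD (L.getD i (0, 0)).2 0)
  | [], c, _ => by simp
  | ab :: L, [], _ => by
    simp [ev]
  | ab :: L, p :: c, h => by
    have ih := tie_zip x y s hs L c fun z hz => h z (List.mem_cons_of_mem _ hz)
    have h0 := h ab List.mem_cons_self
    rw [List.zipWith_cons_cons, List.map_cons, List.sum_cons, ih, List.length_cons,
      Finset.sum_range_succ', qf_qPm, tie_ss x y _ _ h0.1 h0.2 s hs]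
    simp only [List.getD_cons_zero, List.getD_cons_succ]
    ring

private theorem tie_gq (x y : ℝ) (s : List ℝ) (hs : s.length = 7) (c : List P) :
    qf (evE x y (gq c)) s =
      ev x y (c.getD 0 []) * (s.getD 0 0 * s.getD 0 0) +
      ev x y (c.getD 1 []) * (s.getD 0 0 * s.getD 1 0) +
      ev x y (c.getD 2 []) * (s.getD 0 0 * s.getD 2 0) +
      ev x y (c.getD 3 []) * (s.getD 0 0 * s.getD 3 0) +
      ev x y (c.getD 4 []) * (s.getD 1 0 * s.getD 1 0) +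
      ev x y (c.getD 5 []) * (s.getD 1 0 * s.getD 2 0) +
      ev x y (c.getD 6 []) * (s.getD 1 0 * s.getD 3 0) +
      ev x y (c.getD 7 []) * (s.getD 2 0 * s.getD 2 0) +
      ev x y (c.getD 8 []) * (s.getD 2 0 * s.getD 3 0) +
      ev x y (c.getD 9 []) * (s.getD 3 0 * s.getD 3 0) := by
  unfold gq
  rw [qf_sumQ, tie_zip x y s hs prs c (by decide)]
  have h1 : prs.length = 10 := rfl
  rw [h1]
  simp only [Finset.sum_range_succ, Finset.sum_range_zero, zero_add]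
  rfl

private theorem tie_ax (y : ℝ) (p : P) : ev 0 y (ax p) = ev 0 y p := by
  cases p with
  | nil => simp [ax, ev, evL]
  | cons r l => simp [ax, ev]

private theorem tie_at0 (x : ℝ) : ∀ p : P, ev x 0 (at0 p) = ev x 0 p
  | [] => rfl
  | r :: l => by
    have ih := tie_at0 x l
    have h1 : evL 0 (r.take 1) = evL 0 r := by
      cases r with
      | nil => rfl
      | cons a r => simp [evL]
    simp only [at0] at ih
    simp only [at0, List.map_cons, ev, ih, h1]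

private theorem tie_evL (y : ℝ) : ∀ r : List Int, (r.all (· == 0)) = true → evL y r = 0
  | [], _ => rfl
  | a :: r, h => by
    simp only [List.all_cons, Bool.and_eq_true, beq_iff_eq] at h
    have ih := tie_evL y r h.2
    simp only [evL, ih, h.1]
    simp

private theorem tie_isZP (x y : ℝ) : ∀ p : P, isZP p = true → ev x y p = 0
  | [], _ => rfl
  | r :: l, h => by
    unfold isZP at h
    rw [List.all_cons, Bool.and_eq_true] at h
    have ih := tie_isZP x y l h.2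
    simp only [ev, ih, tie_evL y r h.1]
    simp

private theorem tie_z2x (y : ℝ) (c : List P) (i j : ℕ) (h : z2 ax c i j = true) :
    ev 0 y (c.getD i []) + ev 0 y (c.getD j []) = 0 := by
  have h1 := tie_isZP 0 y _ h
  rw [ev_pAdd, tie_ax, tie_ax] at h1
  exact h1

private theorem tie_z2y (x : ℝ) (c : List P) (i j : ℕ) (h : z2 at0 c i j = true) :
    ev x 0 (c.getD i []) + ev x 0 (c.getD j []) = 0 := by
  have h1 := tie_isZP x 0 _ h
  rw [ev_pAdd, tie_at0, tie_at0] at h1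
  exact h1

private theorem tie_len (T : E → ℝ) (a : E) : (st T a).length = 7 := rfl

private theorem tie_sum (s : Equiv.Perm (Fin 3)) (f : Equiv.Perm (Fin 3) → ℝ)
    (h : ∀ σ, f (s * σ) = - f σ) : ∑ σ, f σ = 0 := by
  have h1 : ∑ σ, f (s * σ) = ∑ σ, f σ := Equiv.sum_comp (Equiv.mulLeft s) f
  rw [Finset.sum_congr rfl fun σ _ => h σ, Finset.sum_neg_distrib] at h1
  linarith

theorem tie_x {T : E → ℝ} (hT : Sm 3 T) (D : Int) (c : List P) (h : tieX c = true) (y : ℝ) :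
    ∑ σ : Equiv.Perm (Fin 3), gV D c (TP σ T) 0 y = 0 := by
  simp only [tieX, Bool.and_eq_true] at h
  obtain ⟨⟨⟨⟨⟨⟨h00, h01⟩, h03⟩, h11⟩, h12⟩, h13⟩, h33⟩ := h
  have e0 := tie_z2x y c 0 0 h00
  have e1 := tie_z2x y c 1 2 h01
  have e3 := tie_z2x y c 3 3 h03
  have e4 := tie_z2x y c 4 7 h11
  have e5 := tie_z2x y c 5 5 h12
  have e6 := tie_z2x y c 6 8 h13
  have e9 := tie_z2x y c 9 9 h33
  refine tie_sum (Equiv.swap 0 1) _ fun σ => ?_
  obtain ⟨g0, g1, g2, g3⟩ := st_sw0 hT σ y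
  simp only [gV]
  rw [← neg_div]
  congr 1
  rw [tie_gq 0 y _ (tie_len _ _), tie_gq 0 y _ (tie_len _ _), g0, g1, g2, g3]
  obtain ⟨s0, hs0⟩ : ∃ s0, s0 = (st (TP σ T) (sa 0 y)).getD 0 0 := ⟨_, rfl⟩
  obtain ⟨s1, hs1⟩ : ∃ s1, s1 = (st (TP σ T) (sa 0 y)).getD 1 0 := ⟨_, rfl⟩
  obtain ⟨s2, hs2⟩ : ∃ s2, s2 = (st (TP σ T) (sa 0 y)).getD 2 0 := ⟨_, rfl⟩
  obtain ⟨s3, hs3⟩ : ∃ s3, s3 = (st (TP σ T) (sa 0 y)).getD 3 0 := ⟨_, rfl⟩
  rw [← hs0, ← hs1, ← hs2, ← hs3]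
  have f0 : ev 0 y (c.getD 0 []) = 0 := by linarith
  have f2 : ev 0 y (c.getD 2 []) = - ev 0 y (c.getD 1 []) := by linarith
  have f3 : ev 0 y (c.getD 3 []) = 0 := by linarith
  have f5 : ev 0 y (c.getD 5 []) = 0 := by linarith
  have f7 : ev 0 y (c.getD 7 []) = - ev 0 y (c.getD 4 []) := by linarith
  have f8 : ev 0 y (c.getD 8 []) = - ev 0 y (c.getD 6 []) := by linarith
  have f9 : ev 0 y (c.getD 9 []) = 0 := by linarith
  rw [f0, f2, f3, f5, f7, f8, f9]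
  ring
theorem tie_y {T : E → ℝ} (hT : Sm 3 T) (D : Int) (c : List P) (h : tieY c = true) (x : ℝ) :
    ∑ σ : Equiv.Perm (Fin 3), gV D c (TP σ T) x 0 = 0 := by
  simp only [tieY, Bool.and_eq_true] at h
  obtain ⟨⟨⟨⟨⟨⟨h00, h01⟩, h02⟩, h11⟩, h12⟩, h22⟩, h23⟩ := h
  have e0 := tie_z2y x c 0 0 h00
  have e1 := tie_z2y x c 1 1 h01
  have e2 := tie_z2y x c 2 3 h02
  have e4 := tie_z2y x c 4 4 h11
  have e5 := tie_z2y x c 5 6 h12
  have e7 := tie_z2y x c 7 9 h22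
  have e8 := tie_z2y x c 8 8 h23
  refine tie_sum (Equiv.swap 1 2) _ fun σ => ?_
  obtain ⟨g0, g1, g2, g3⟩ := st_sw1 hT σ x
  simp only [gV]
  rw [← neg_div]
  congr 1
  rw [tie_gq x 0 _ (tie_len _ _), tie_gq x 0 _ (tie_len _ _), g0, g1, g2, g3]
  obtain ⟨s0, hs0⟩ : ∃ s0, s0 = (st (TP σ T) (sa x 0)).getD 0 0 := ⟨_, rfl⟩
  obtain ⟨s1, hs1⟩ : ∃ s1, s1 = (st (TP σ T) (sa x 0)).getD 1 0 := ⟨_, rfl⟩
  obtain ⟨s2, hs2⟩ : ∃ s2, s2 = (st (TP σ T) (sa x 0)).getD 2 0 := ⟨_, rfl⟩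
  obtain ⟨s3, hs3⟩ : ∃ s3, s3 = (st (TP σ T) (sa x 0)).getD 3 0 := ⟨_, rfl⟩
  rw [← hs0, ← hs1, ← hs2, ← hs3]
  have f0 : ev x 0 (c.getD 0 []) = 0 := by linarith
  have f1 : ev x 0 (c.getD 1 []) = 0 := by linarith
  have f3 : ev x 0 (c.getD 3 []) = - ev x 0 (c.getD 2 []) := by linarith
  have f4 : ev x 0 (c.getD 4 []) = 0 := by linarith
  have f6 : ev x 0 (c.getD 6 []) = - ev x 0 (c.getD 5 []) := by linarith
  have f9 : ev x 0 (c.getD 9 []) = - ev x 0 (c.getD 7 []) := by linarith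
  have f8 : ev x 0 (c.getD 8 []) = 0 := by linarith
  rw [f0, f1, f3, f4, f6, f8, f9]
  ring

end Pool.Agent.MTR
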