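import Pool.Agent.MTR.Comp
import Pool.Agent.PKD.Comp
/-!
MTR: packed test of an interior box. Computable part.
-/
namespace Pool.Agent.MTR
open Pool.Agent.MSQ Pool.Agent.PKD

/-- a box `x0 ≤ q s ≤ x1`, `y0 ≤ q t ≤ y1` -/
structure Bn where
  x0 : Nat
  x1 : Nat
  y0 : Nat
  y1 : Nat
  q : Nat

/-- the gauge: polynomials of total degree `d` in `x, y`, and the derivatives -/
structure Gg where
  D : Nat
  d : Nat
  cP : List P
  cQ : List P
  dP : List P
  dQ : List P

/-- one form `i` of the certificate: products with the forms `j` and with the Hessians (three multipliers);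
multipliers are packed in base `K` (offset `h` for those of the Hessians) -/
structure Gr where
  i : Nat
  K : Nat
  h : Nat
  pr : List (Nat × Nat)
  WA : List Nat
  WB : List Nat

/-- data of a box. `nU`, `nL`: bounds `n^3` (bidegree (3,3)); multipliers have bidegree `(dm, dm)`, those of
the two Hessians are packed in base `Km` with offset `hm`; `zb, z2, z4` numbers of bits for the tests of matrices -/
structure Bt where
  bd : Bn
  dN : Nat
  nU : P
  nL : P
  w : Nat
  dm : Nat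
  Km : Nat
  hm : Nat
  gr : List Gr
  m4 : List Nat
  rd : Nat
  H : Nat
  zb : Nat
  z2 : Nat
  z4 : Nat

/-- values which are used for a box -/
structure Va (α : Type) where
  one : α
  xx : α
  yy : α
  g3 : List (α × List α)
  gm : List (α × List α)
  /-- `gd` for total degree `d`, `ge` for `d - 1` -/
  gd : List (α × List α)
  ge : List (α × List α)

section
variable {α : Type} (O : Ops α)

/-- numerators and denominators -/
noncomputable def vA (b : Bn) : α := O.mul (O.nat b.q) (O.add (O.nat 1) O.X)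
noncomputable def va (b : Bn) : α := O.add (O.nat b.x0) (O.mul (O.nat b.x1) O.X)
/-- `A - a` -/
noncomputable def vc (b : Bn) : α := O.add (O.nat (Nat.sub b.q b.x0)) (O.mul (O.nat (Nat.sub b.q b.x1)) O.X)
noncomputable def vB (b : Bn) : α := O.mul (O.nat b.q) (O.add (O.nat 1) O.Y)
noncomputable def vb (b : Bn) : α := O.add (O.nat b.y0) (O.mul (O.nat b.y1) O.Y)
/-- `B - b` -/
noncomputable def ve (b : Bn) : α := O.add (O.nat (Nat.sub b.q b.y0)) (O.mul (O.nat (Nat.sub b.q b.y1)) O.Y)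

noncomputable def mkVa (b : Bn) (d dm : Nat) : Va α where
  one := O.mul (vA O b) (vB O b)
  xx := O.mul (vc O b) (vB O b)
  yy := O.mul (va O b) (ve O b)
  g3 := tens (mkV O (va O b) (vA O b) 3) (mkV O (vb O b) (vB O b) 3)
  gm := tens (mkV O O.X (O.nat 1) dm) (mkV O O.Y (O.nat 1) dm)
  gd := triR O (O.mul (vc O b) (vB O b)) (O.mul (va O b) (ve O b)) (O.mul (vA O b) (vB O b)) d (O.nat 1)
  ge := triR O (O.mul (vc O b) (vB O b)) (O.mul (va O b) (ve O b)) (O.mul (vA O b) (vB O b)) (d - 1) (O.nat 1)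

/-- `c0 + c1 x + c2 y`, degree 1; signs as naturals: `+` and `-` parts -/
noncomputable def lin (v : Va α) (p0 p1 p2 n0 n1 n2 : Nat) : α :=
  O.sub (O.add (O.add (O.mul (O.nat p0) v.one) (O.mul (O.nat p1) v.xx)) (O.mul (O.nat p2) v.yy))
    (O.add (O.add (O.mul (O.nat n0) v.one) (O.mul (O.nat n1) v.xx)) (O.mul (O.nat n2) v.yy))
noncomputable def la0 (v : Va α) : α := lin O v 2 4 1 0 0 0
noncomputable def la1 (v : Va α) : α := lin O v 2 0 1 0 2 0
noncomputable def la2 (v : Va α) : α := lin O v 2 0 0 0 2 2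
noncomputable def lU0 (v : Va α) : Nat → α
  | 0 => lin O v 4 0 0 0 4 1
  | _ => lin O v 0 0 0 2 4 1
noncomputable def lU1 (v : Va α) : Nat → α
  | 1 => lin O v 4 2 0 0 0 1
  | _ => lin O v 0 2 0 2 0 1
/-- `M`, degree 2, and its derivatives, degree 1 -/
noncomputable def lM (v : Va α) : α :=
  O.add (O.add (O.mul (O.nat 8) (O.mul v.one v.one)) (O.mul (O.nat 4) (O.mul v.xx v.xx)))
    (O.add (O.mul (O.nat 2) (O.mul v.xx v.yy)) (O.mul v.yy v.yy))
noncomputable def lMx (v : Va α) : α := lin O v 0 8 2 0 0 0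
noncomputable def lMy (v : Va α) : α := lin O v 0 2 2 0 0 0

noncomputable def z0 : α := O.nat 0
noncomputable def unK (k : Nat) (p : α) : List α := List.replicate k (z0 O) ++ (p :: List.replicate (6 - k) (z0 O))

/-- `36` times the derivative of `e_k`, degree 1; the direction is `(v0, v1) / 6`, `v1 = 1` or `-2` -/
noncomputable def dek (v : Va α) (dir : Bool) (k : Nat) : List α :=
  let u0 := lU0 O v k
  let u1 := lU1 O v k
  let z := z0 O
  match dir with
  | false => [z, z, z, z, O.sub z (O.mul (O.nat 4) u0), O.sub (O.mul (O.nat 2) u0) (O.mul (O.nat 4) u1),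
      O.mul (O.nat 2) u1]
  | true => [z, z, z, z, O.sub z u0, O.sub z (O.add u1 u0), O.sub z u1]
/-- `36 M` times the derivatives of the states: degree 1 for `τ`, degree 3 for `e_k` -/
noncomputable def mdk (v : Va α) (dir : Bool) : Nat → List α
  | 0 => match dir with
    | false => unK O 0 (lin O v 0 0 0 0 432 108)
    | true => unK O 0 (lin O v 0 0 0 0 108 108)
  | k + 1 => vSm O (lM O v) (dek O v dir k)

/-- `(c, c_dir)` of degrees `d`, `d - 1`; result of degree `d + 3`; negative of `dvx`, `dvy` -/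
noncomputable def dvK (v : Va α) (dir : Bool) (c cd : α) (x y : Nat) : List α :=
  let o2 := O.mul v.one v.one
  let p k : α → α := fun z => match k with
    | 0 => O.mul o2 z
    | _ => z
  let Mv := match dir with
    | false => lMx O v
    | true => lMy O v
  vAdd O (vMul O (unK O x (O.sub (O.mul (O.mul (O.nat 18) (O.mul Mv c)) o2)
      (O.mul (O.mul (O.nat 36) (O.mul (lM O v) cd)) o2))) (unK O y (O.nat 1)))
    (vAdd O (vMul O (vSm O (O.sub (z0 O) (p x c)) (mdk O v dir x)) (unK O y (O.nat 1)))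
      (vMul O (vSm O (O.sub (z0 O) (p y c)) (mdk O v dir y)) (unK O x (O.nat 1))))

/-- `6 T`, degree 1 -/
noncomputable def T6K (v : Va α) : List α := [z0 O, la0 O v, la1 O v, la2 O v, z0 O, z0 O, z0 O]
/-- `72` times the Laplacian, degree 2 -/
noncomputable def L72K (v : Va α) : List α :=
  let a := lU0 O v 0
  let b := lU0 O v 1
  let c := lU0 O v 2
  let p := lU1 O v 0
  let q := lU1 O v 1
  let r := lU1 O v 2
  let z := z0 O
  [z, z, z, z,
    O.sub (O.mul (O.nat 2) (O.add (O.mul a b) (O.add (O.mul a c) (O.mul b c))))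
      (O.mul (O.nat 3) (O.add (O.mul a a) (O.add (O.mul b b) (O.mul c c)))),
    O.sub (O.mul (O.nat 2) (O.add (O.add (O.mul a q) (O.add (O.mul a r) (O.mul b r)))
        (O.add (O.mul p b) (O.add (O.mul p c) (O.mul q c)))))
      (O.mul (O.nat 6) (O.add (O.mul a p) (O.add (O.mul b q) (O.mul c r)))),
    O.sub (O.mul (O.nat 2) (O.add (O.mul p q) (O.add (O.mul p r) (O.mul q r))))
      (O.mul (O.nat 3) (O.add (O.mul p p) (O.add (O.mul q q) (O.mul r r))))]

/-- the sum over the pairs of states -/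
noncomputable def zipD (gd ge : List (α × List α)) (f : α → α → Nat → Nat → List α) :
    List P → List P → List (Nat × Nat) → List (List α)
  | p :: ps, q :: qs, z :: zs => f (pvI O gd p) (pvI O ge q) z.1 z.2 :: zipD gd ge f ps qs zs
  | _, _, _ => []

noncomputable def sum28 : List (List α) → List α
  | [] => List.replicate 28 (z0 O)
  | a :: l => vAdd O a (sum28 l)

/-- payment, degree 8: `pay * Gp` for `sg = false`, `pay * Gm` for `sg = true` -/
noncomputable def payK (v : Va α) (sg : Bool) (pay : Nat) : α :=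
  let M := lM O v
  let o2 := O.mul v.one v.one
  let w := O.sub (O.mul (O.nat 12) o2) M
  match sg with
  | false => O.mul (O.nat pay) (O.mul (O.mul M M) (O.sub (O.add (O.mul (O.nat 144000) (O.mul o2 o2))
      (O.mul (O.nat 1711) (O.mul w w))) (O.mul (O.nat 29748) (O.mul w o2))))
  | true => O.mul (O.nat pay) (O.mul (O.mul M M) (O.sub (O.add (O.mul (O.nat 144000) (O.mul o2 o2))
      (O.mul (O.nat 1760) (O.mul w w))) (O.mul (O.nat 30000) (O.mul w o2))))

/-- the residual, degree `d + 3`; `g.d - 5` is the degree by which the payment is raised -/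
noncomputable def RK (g : Gg) (sg : Bool) (pay : Nat) (v : Va α) : List α :=
  vAdd O (vMul O (unK O 0 (match sg with
      | false => O.sub (z0 O) (O.mul (pw O v.one (g.d - 5)) (payK O v sg pay))
      | true => O.mul (pw O v.one (g.d - 5)) (payK O v sg pay))) (unK O 0 (O.nat 1)))
    (vAdd O (vMul O (unK O 0 (O.mul (O.mul (O.nat (Nat.mul 12 g.D)) (lM O v)) (pw O v.one g.d))) (T6K O v))
      (vAdd O (vMul O (vSm O (O.mul (O.nat g.D) (pw O v.one g.d)) (T6K O v)) (L72K O v))
        (vAdd O (sum28 O (zipD O v.gd v.ge (dvK O v false) g.cP g.dP prs))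
          (sum28 O (zipD O v.gd v.ge (dvK O v true) g.cQ g.dQ prs)))))

/-- the bounds of `n^3` times the denominators -/
noncomputable def vU (b : Bt) (v : Va α) : α := pvI O v.g3 b.nU
noncomputable def vL (b : Bt) (v : Va α) : α := pvI O v.g3 b.nL

/-- the forms, degree 4; `r` the range with natural numbers -/
noncomputable def frK (ln ld bn bd : Nat) (b : Bt) (v : Va α) : Nat → List α
  | 0 => unK O 0 (pw O v.one 4)
  | 1 => [O.sub (z0 O) (O.mul (O.nat ln) (O.mul (la2 O v) (vL O b v))),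
      O.mul (O.mul (O.nat (Nat.mul ld b.dN)) (pw O v.one 3)) (la0 O v),
      O.mul (O.mul (O.nat (Nat.mul ld b.dN)) (pw O v.one 3)) (la1 O v),
      O.mul (O.mul (O.nat (Nat.mul ld b.dN)) (pw O v.one 3)) (la2 O v), z0 O, z0 O, z0 O]
  | 2 => vSm O (pw O v.one 3) (T6K O v)
  | 3 => [O.sub (z0 O) (O.mul (O.nat ln) (O.mul v.one (vL O b v))),
      O.mul (O.nat (Nat.mul ld b.dN)) (pw O v.one 4), O.mul (O.nat (Nat.mul ld b.dN)) (pw O v.one 4),
      O.mul (O.nat (Nat.mul ld b.dN)) (pw O v.one 4), z0 O, z0 O, z0 O]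
  | 4 => unK O 1 (pw O v.one 4)
  | 5 => unK O 2 (pw O v.one 4)
  | 6 => unK O 3 (pw O v.one 4)
  | 7 => [O.mul v.one (O.sub (O.mul (O.nat 144) (vU O b v))
      (O.mul (O.nat b.dN) (O.mul (lM O v) (O.add (O.mul (O.nat 6) v.one) (la0 O v))))),
      O.sub (z0 O) (O.mul (O.nat (Nat.mul 144 b.dN)) (pw O v.one 4)), z0 O, z0 O, z0 O, z0 O, z0 O]
  | 8 => [O.mul v.one (O.sub (O.mul (O.nat 144) (vU O b v))
      (O.mul (O.nat b.dN) (O.mul (lM O v) (O.add (O.mul (O.nat 6) v.one) (la1 O v))))),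
      z0 O, O.sub (z0 O) (O.mul (O.nat (Nat.mul 144 b.dN)) (pw O v.one 4)), z0 O, z0 O, z0 O, z0 O]
  | 9 => [O.mul v.one (O.sub (O.mul (O.nat 144) (vU O b v))
      (O.mul (O.nat b.dN) (O.mul (lM O v) (O.add (O.mul (O.nat 6) v.one) (la2 O v))))),
      z0 O, z0 O, O.sub (z0 O) (O.mul (O.nat (Nat.mul 144 b.dN)) (pw O v.one 4)), z0 O, z0 O, z0 O]
  | 10 => O.mul (O.nat bn) (O.mul (la0 O v) (vU O b v)) ::
      (vSm O (O.sub (z0 O) (O.mul (O.nat (Nat.mul bd b.dN)) (pw O v.one 3))) (T6K O v)).tail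
  | 11 =>
      let z := O.sub (z0 O) (O.mul (O.nat (Nat.mul 60000 (Nat.mul bd b.dN))) (pw O v.one 4))
      [O.sub (O.mul (O.nat (6 * (10000 * bn + 24495 * bd))) (O.mul v.one (vU O b v)))
        (O.mul (O.nat (10000 * (bd * b.dN))) (O.mul (lM O v) (O.mul v.one v.one))), z, z, z, z0 O, z0 O, z0 O]
  | _ => List.replicate 7 (z0 O)

/-- the Hessians, degree 4 -/
noncomputable def heK (v : Va α) : Bool → Nat → List α
  | false, k => unK O (4 + k) (pw O v.one 4)
  | true, k =>
    let o2 := O.mul v.one v.one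
    let d0 := O.sub (la0 O v) (la2 O v)
    let d1 := O.sub (la1 O v) (la2 O v)
    let m := O.sub (z0 O) (O.mul (O.nat 144) (O.mul o2 o2))
    match k with
    | 0 => [O.mul o2 (O.sub (O.mul (O.nat 12) (lM O v)) (O.mul d0 d0)), z0 O, z0 O, z0 O, m, z0 O, z0 O]
    | 1 => [O.mul o2 (O.sub (O.mul (O.nat 6) (lM O v)) (O.mul d0 d1)), z0 O, z0 O, z0 O, z0 O, m, z0 O]
    | _ => [O.mul o2 (O.sub (O.mul (O.nat 12) (lM O v)) (O.mul d1 d1)), z0 O, z0 O, z0 O, z0 O, z0 O, m]

noncomputable def sum7 : List (List α) → List α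
  | [] => List.replicate 7 (z0 O)
  | a :: l => vAdd O a (sum7 l)

/-- a multiplier -/
noncomputable def muK (dm : Nat) (v : Va α) (K h N : Nat) : α := pvo O K (Nat.pow K (dm + 1)) h v.gm N

noncomputable def prK (F : Nat → List α) (dm K : Nat) (v : Va α) : List (Nat × Nat) → List α
  | [] => List.replicate 7 (z0 O)
  | z :: l => vAdd O (vSm O (muK O dm v K 0 z.2) (F z.1)) (prK F dm K v l)
noncomputable def hsK (dm K h : Nat) (v : Va α) (B : Bool) : List Nat → List α
  | [w0, w1, w2] => vAdd O (vSm O (muK O dm v K h w0) (heK O v B 0))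
      (vAdd O (vSm O (muK O dm v K h w1) (heK O v B 1)) (vSm O (muK O dm v K h w2) (heK O v B 2)))
  | _ => List.replicate 7 (z0 O)
noncomputable def grK (F : Nat → List α) (dm : Nat) (v : Va α) (g : Gr) : List α :=
  vMul O (F g.i) (vAdd O (prK O F dm g.K v g.pr)
    (vAdd O (hsK O dm g.K g.h v false g.WA) (hsK O dm g.K g.h v true g.WB)))
noncomputable def m4K (dm K h : Nat) (v : Va α) : List Nat → List α
  | [g0, g1, g2, g3, g4, g5, g6, g7, g8, g9] =>
    vAdd O (vMul O (heK O v false 0) (vAdd O (vSm O (muK O dm v K h g0) (heK O v true 0))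
        (vAdd O (vSm O (muK O dm v K h g1) (heK O v true 1)) (vSm O (muK O dm v K h g4) (heK O v true 2)))))
      (vAdd O (vMul O (heK O v false 1) (vAdd O (vSm O (muK O dm v K h g2) (heK O v true 0))
          (vAdd O (vSm O (O.add (muK O dm v K h g3) (muK O dm v K h g5)) (heK O v true 1))
            (vSm O (muK O dm v K h g6) (heK O v true 2)))))
        (vMul O (heK O v false 2) (vAdd O (vSm O (muK O dm v K h g7) (heK O v true 0))
          (vAdd O (vSm O (muK O dm v K h g8) (heK O v true 1)) (vSm O (muK O dm v K h g9) (heK O v true 2))))))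
  | _ => List.replicate 28 (z0 O)

noncomputable def grsK (F : Nat → List α) (dm : Nat) (v : Va α) : List Gr → List α
  | [] => List.replicate 28 (z0 O)
  | g :: l => vAdd O (grK O F dm v g) (grsK F dm v l)

/-- the matrix `w R - products`, degree `8 + dm = d + 3` -/
noncomputable def MK (ln ld bn bd : Nat) (g : Gg) (sg : Bool) (pay : Nat) (b : Bt) (v : Va α) : List α :=
  vSub O (vSm O (O.nat b.w) (RK O g sg pay v))
    (vAdd O (m4K O b.dm b.Km b.hm v b.m4) (grsK O (frK O ln ld bn bd b v) b.dm v b.gr))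

/-- the scalar polynomials for the bounds of `n^3`, degree 6 (3 for the first) -/
noncomputable def SK (b : Bt) (v : Va α) : List α :=
  [vU O b v,
    O.sub (O.mul (O.nat 1728) (O.mul (vU O b v) (vU O b v)))
      (O.mul (O.nat (Nat.mul b.dN b.dN)) (O.mul (lM O v) (O.mul (lM O v) (lM O v)))),
    O.sub (O.mul (O.nat (Nat.mul b.dN b.dN)) (O.mul (lM O v) (O.mul (lM O v) (lM O v))))
      (O.mul (O.nat 1728) (O.mul (vL O b v) (vL O b v)))]

end

/-! ### bounds of the coefficients -/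

/-- values for the residual if `one, xx, yy` are bounded by `ν` -/
noncomputable def vN (ν d : Nat) : Va Nat := ⟨ν, ν, ν, [], [], triR ON ν ν ν d 1, triR ON ν ν ν (d - 1) 1⟩

noncomputable def prN (φ : Nat → Nat) (dm K : Nat) (v : Va Nat) : List (Nat × Nat) → Nat
  | [] => 0
  | z :: l => Nat.add (Nat.mul (muK ON dm v K 0 z.2) (φ z.1)) (prN φ dm K v l)
noncomputable def hsN (dm K h : Nat) (v : Va Nat) (c : Nat) : List Nat → Nat
  | [w0, w1, w2] => Nat.mul (Nat.add (muK ON dm v K h w0) (Nat.add (muK ON dm v K h w1) (muK ON dm v K h w2))) c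
  | _ => 0
/-- `cA`, `cB` bounds for the Hessians -/
noncomputable def grN (φ : Nat → Nat) (cA cB dm : Nat) (v : Va Nat) (g : Gr) : Nat :=
  Nat.mul (Nat.mul 2 (φ g.i)) (Nat.add (prN φ dm g.K v g.pr)
    (Nat.add (hsN dm g.K g.h v cA g.WA) (hsN dm g.K g.h v cB g.WB)))
noncomputable def grsN (φ : Nat → Nat) (cA cB dm : Nat) (v : Va Nat) : List Gr → Nat
  | [] => 0
  | g :: l => Nat.add (grN φ cA cB dm v g) (grsN φ cA cB dm v l)
noncomputable def smN (dm K h : Nat) (v : Va Nat) : List Nat → Nat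
  | [] => 0
  | g :: l => Nat.add (muK ON dm v K h g) (smN dm K h v l)
noncomputable def m4N (cA cB dm K h : Nat) (v : Va Nat) (l : List Nat) : Nat :=
  Nat.mul (Nat.mul 2 (Nat.mul cA cB)) (smN dm K h v l)

noncomputable def heN (v : Va Nat) (B : Bool) : Nat :=
  mxL [mxL (heK ON v B 0), mxL (heK ON v B 1), mxL (heK ON v B 2)]
/-- bound of the coefficients of `MK`; `RC` bound for the residual -/
noncomputable def MN (ln ld bn bd RC : Nat) (b : Bt) (v : Va Nat) : Nat :=
  Nat.add (Nat.mul b.w RC) (Nat.add (m4N (heN v false) (heN v true) b.dm b.Km b.hm v b.m4)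
    (grsN (fun k => mxL (frK ON ln ld bn bd b v k)) (heN v false) (heN v true) b.dm v b.gr))

/-! ### the test -/

/-- the rows `i` have length at most `d + 1 - i` -/
noncomputable def lenOK : Nat → List (List Int) → Bool
  | _, [] => true
  | 0, r :: l => Nat.ble r.length 1 && l.all fun r => r.isEmpty
  | d + 1, r :: l => Nat.ble r.length (d + 2) && lenOK d l
noncomputable def eqP : P → P → Bool := fun p q => decide (p = q)

/-- test of the gauge and of the bound of the residual for boxes with denominator `q` -/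
noncomputable def gchk (g : Gg) : Bool :=
  Nat.ble 5 g.d && Nat.ble 1 g.D && (g.cP.all (lenOK g.d)) && (g.cQ.all (lenOK g.d)) &&
  (g.dP.all (lenOK (g.d - 1))) && (g.dQ.all (lenOK (g.d - 1))) &&
  decide (g.cP.length = 10) && decide (g.cQ.length = 10) &&
  decide (g.dP = g.cP.map pDX) && decide (g.dQ = g.cQ.map pDY)
noncomputable def rchk (g : Gg) (sg : Bool) (pay q RC : Nat) : Bool :=
  Nat.ble (mxL (RK ON g sg pay (vN (Nat.mul 4 (Nat.mul q q)) g.d))) RC

/-- tests of the multipliers of the Hessians -/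
noncomputable def wOK (dm K h z2 : Nat) (l : List Nat) : Bool :=
  match l with
  | [] => true
  | [a, c, d] => psT 2 K 1 h z2 ((dm + 1) * (dm + 1)) [[a, c], [d]]
  | _ => false
noncomputable def w4OK (b : Bt) (l : List Nat) : Bool :=
  match l with
  | [] => true
  | [g0, g1, g2, g3, g4, g5, g6, g7, g8, g9] =>
    psT 4 b.Km 1 b.hm b.z4 ((b.dm + 1) * (b.dm + 1)) [[g0, g1, g2, g3], [g4, g5, g6], [g7, g8], [g9]]
  | _ => false
noncomputable def idOK (b : Bt) : Bool := b.gr.all fun g => Nat.ble g.i 11 && g.pr.all fun z => Nat.ble z.1 11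
noncomputable def len3 (p : P) : Bool := Nat.ble p.length 4 && p.all fun r => Nat.ble r.length 4
noncomputable def bdOK (b : Bn) : Bool := Nat.ble 1 b.q && Nat.ble b.x0 b.q && Nat.ble b.x1 b.q && Nat.ble b.y0 b.q && Nat.ble b.y1 b.q

/-- the test of the matrix; `hm`: homogeneous mode (the first row is tested separately) -/
noncomputable def Mchk (hm : Bool) (n2 Y rd H zb z2 : Nat) (M : List Nat) : Bool :=
  match hm with
  | false => mchk 7 Y rd H zb n2 M
  | true => (M.take 4).all (nnchk Y (Nat.mul rd H) n2) && mchk 2 Y rd H z2 n2 ((M.drop 4).take 3) &&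
      mchk 6 Y rd H zb n2 (M.drop 7)

/-- the test of a box; `RC` bound of the residual (`rchk`) -/
noncomputable def fchk (ln ld bn bd : Nat) (g : Gg) (sg : Bool) (pay RC : Nat) (hm : Bool) (b : Bt) : Bool :=
  Nat.beq g.d (Nat.add 5 b.dm) && bdOK b.bd && Nat.ble 1 b.w && Nat.ble 1 b.dN && Nat.ble 1 b.Km && idOK b &&
  len3 b.nU && len3 b.nL && Nat.ble 1 b.H &&
  (b.gr.all fun g => Nat.ble 1 g.K && wOK b.dm g.K g.h b.z2 g.WA && wOK b.dm g.K g.h b.z2 g.WB) && w4OK b b.m4 &&
  Nat.ble (mxL (SK ON b (mkVa ON b.bd g.d b.dm))) (Nat.mul b.rd b.H) &&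
  Nat.ble (MN ln ld bn bd RC b (mkVa ON b.bd g.d b.dm)) (Nat.mul b.rd b.H) &&
  ((SK (OM (Nat.pow (Nat.add (Nat.mul 2 (Nat.mul b.rd b.H)) 1) 49) (Nat.pow (Nat.add (Nat.mul 2 (Nat.mul b.rd b.H)) 1) 7)
      (Nat.add (Nat.mul 2 (Nat.mul b.rd b.H)) 1)) b
      (mkVa (OM (Nat.pow (Nat.add (Nat.mul 2 (Nat.mul b.rd b.H)) 1) 49)
        (Nat.pow (Nat.add (Nat.mul 2 (Nat.mul b.rd b.H)) 1) 7) (Nat.add (Nat.mul 2 (Nat.mul b.rd b.H)) 1)) b.bd g.d
        b.dm)).all (nnchk (Nat.add (Nat.mul 2 (Nat.mul b.rd b.H)) 1) (Nat.mul b.rd b.H) 49)) &&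
  Mchk hm (Nat.mul (Nat.add 9 b.dm) (Nat.add 9 b.dm)) (Nat.add (Nat.mul 2 (Nat.mul b.rd b.H)) 1) b.rd b.H b.zb b.z2
    (MK (OM (Nat.pow (Nat.add (Nat.mul 2 (Nat.mul b.rd b.H)) 1) (Nat.mul (Nat.add 9 b.dm) (Nat.add 9 b.dm)))
        (Nat.pow (Nat.add (Nat.mul 2 (Nat.mul b.rd b.H)) 1) (Nat.add 9 b.dm)) (Nat.add (Nat.mul 2 (Nat.mul b.rd b.H)) 1))
      ln ld bn bd g sg pay b
      (mkVa (OM (Nat.pow (Nat.add (Nat.mul 2 (Nat.mul b.rd b.H)) 1) (Nat.mul (Nat.add 9 b.dm) (Nat.add 9 b.dm)))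
        (Nat.pow (Nat.add (Nat.mul 2 (Nat.mul b.rd b.H)) 1) (Nat.add 9 b.dm)) (Nat.add (Nat.mul 2 (Nat.mul b.rd b.H)) 1))
        b.bd g.d b.dm))

end Pool.Agent.MTR
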