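import Pool.Agent.MTR.Defs
import Pool.Agent.MTR.Comp2
import Pool.Agent.PKD.Defs
/-!
MTR: definitions for the soundness of the packed test.
-/
set_option autoImplicit false

open MeasureTheory Set Metric Pool.Agent.MEIS Pool.Agent.MSQ Pool.Agent.MGE Pool.Agent.MGF Pool.Agent.PKD

namespace Pool.Agent.MTR

noncomputable section

/-- relations for the basic values -/
structure R1 (C : Cx) (v : Va ℕ) (v' : Va ℝ) (w : Va ℕ) : Prop where
  one : R3 C 1 1 v.one v'.one w.one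
  xx : R3 C 1 1 v.xx v'.xx w.xx
  yy : R3 C 1 1 v.yy v'.yy w.yy
structure RV (C : Cx) (d : ℕ) (v : Va ℕ) (v' : Va ℝ) (w : Va ℕ) : Prop extends R1 C v v' w where
  gd : RG C d d v.gd v'.gd w.gd
  ge : RG C (d - 1) (d - 1) v.ge v'.ge w.ge
structure RW (C : Cx) (dm : ℕ) (v : Va ℕ) (v' : Va ℝ) (w : Va ℕ) : Prop where
  g3 : RG C 3 3 v.g3 v'.g3 w.g3
  gm : RG C dm dm v.gm v'.gm w.gm

/-- the real values belong to the point `(s, t)`; `ω` is the common denominator -/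
structure RE (O : Ops ℝ) (v : Va ℝ) (ω s t : ℝ) (d : ℕ) : Prop where
  pos : 0 < ω
  one : v.one = ω
  xx : v.xx = ω * (1 - s)
  yy : v.yy = ω * (s * (1 - t))
  g3 : ∀ p, len3 p = true → pvI O v.g3 p = ω ^ 3 * ev s t p
  gd : ∀ p, lenOK d p = true → pvI O v.gd p = ω ^ d * ev (1 - s) (s * (1 - t)) p
  ge : ∀ p, lenOK (d - 1) p = true → pvI O v.ge p = ω ^ (d - 1) * ev (1 - s) (s * (1 - t)) p

/-- the range and the bounds of `n^3` in the format of `frm` -/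
def rgOf (ln ld bn bd : ℕ) : Rg := ⟨ln, ld, bn, bd⟩
def bxOf (b : Bt) : Bx := ⟨0, 0, 0, 0, b.dN, b.nU, b.nL, 0, [], [], []⟩
def payOf (sg : Bool) (pay : ℕ) : ℤ := if sg then -(pay : ℤ) else pay

/-- `(s, t)` is in the half open box -/
def inBn (b : Bn) (s t : ℝ) : Prop := (b.x0 : ℝ) ≤ b.q * s ∧ b.q * s < b.x1 ∧ (b.y0 : ℝ) ≤ b.q * t ∧ b.q * t < b.y1

/-- a box has been tested -/
def BoxOK (ln ld bn bd : ℕ) (g : Gg) (sg : Bool) (pay : ℕ) (hm : Bool) (b : Bn) : Prop :=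
  ∃ (bt : Bt) (RC : ℕ), bt.bd = b ∧ rchk g sg pay b.q RC = true ∧ fchk ln ld bn bd g sg pay RC hm bt = true

end

end Pool.Agent.MTR
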