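import Pool.Agent.MTR.Cov2
import Pool.Agent.MTR.Defs2
/-!
KCV. Soundness of the covering test (half open boxes).
-/
set_option autoImplicit false

open MeasureTheory Set Metric Pool.Agent.MEIS Pool.Agent.MSQ Pool.Agent.MGE Pool.Agent.MGF Pool.Agent.PKD

namespace Pool.Agent.MTR

private theorem kcv_lo {Q q : ℝ} (hQ : 0 < Q) (hq : 0 < q) {x0 s0 s : ℝ} (h : x0 * Q ≤ s0 * q)
    (h0 : s0 ≤ Q * s) : x0 ≤ q * s := by
  have h1 : x0 * Q ≤ (q * s) * Q := by nlinarith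
  exact le_of_mul_le_mul_right h1 hQ

private theorem kcv_hi {Q q : ℝ} (hQ : 0 < Q) (hq : 0 < q) {x1 s1 s : ℝ} (h : s1 * q ≤ x1 * Q)
    (h0 : Q * s < s1) : q * s < x1 := by
  have h1 : (q * s) * Q < x1 * Q := by nlinarith
  exact lt_of_mul_lt_mul_right h1 hQ.le

private theorem kcv_any (Q : ℕ) (hQ : 0 < Q) (L : List Bn) (hq : ∀ b ∈ L, 0 < b.q) (s0 s1 t0 t1 : ℕ)
    (h : (L.any fun b => inQ Q b s0 s1 t0 t1) = true) (s t : ℝ)
    (h0 : (s0 : ℝ) ≤ Q * s) (h1 : Q * s < s1) (h2 : (t0 : ℝ) ≤ Q * t) (h3 : Q * t < t1) :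
    ∃ b ∈ L, inBn b s t := by
  rw [List.any_eq_true] at h
  obtain ⟨b, hb, hc⟩ := h
  unfold inQ at hc
  simp only [Bool.and_eq_true] at hc
  obtain ⟨⟨⟨g0, g1⟩, g2⟩, g3⟩ := hc
  have g0' := Nat.le_of_ble_eq_true g0
  have g1' := Nat.le_of_ble_eq_true g1
  have g2' := Nat.le_of_ble_eq_true g2
  have g3' := Nat.le_of_ble_eq_true g3
  simp only [Nat.mul_eq] at g0' g1' g2' g3'
  have k0 : (b.x0 : ℝ) * Q ≤ s0 * b.q := by exact_mod_cast g0'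
  have k1 : (s1 : ℝ) * b.q ≤ b.x1 * Q := by exact_mod_cast g1'
  have k2 : (b.y0 : ℝ) * Q ≤ t0 * b.q := by exact_mod_cast g2'
  have k3 : (t1 : ℝ) * b.q ≤ b.y1 * Q := by exact_mod_cast g3'
  have hQ' : (0 : ℝ) < Q := by exact_mod_cast hQ
  have hq' : (0 : ℝ) < b.q := by exact_mod_cast hq b hb
  exact ⟨b, hb, kcv_lo hQ' hq' k0 h0, kcv_hi hQ' hq' k1 h1, kcv_lo hQ' hq' k2 h2, kcv_hi hQ' hq' k3 h3⟩

theorem covQ_sound (Q : ℕ) (hQ : 0 < Q) (L : List Bn) (hq : ∀ b ∈ L, 0 < b.q) (n s0 s1 t0 t1 : ℕ)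
    (h : covQ Q L n s0 s1 t0 t1 = true) (s t : ℝ) (h0 : (s0 : ℝ) ≤ Q * s) (h1 : Q * s < s1) (h2 : (t0 : ℝ) ≤ Q * t)
    (h3 : Q * t < t1) : ∃ b ∈ L, inBn b s t := by
  induction n generalizing s0 s1 t0 t1 with
  | zero =>
    rw [covQ] at h
    exact kcv_any Q hQ L hq s0 s1 t0 t1 h s t h0 h1 h2 h3
  | succ n ih =>
    rw [covQ, Bool.or_eq_true] at h
    rcases h with h | h
    · exact kcv_any Q hQ L hq s0 s1 t0 t1 h s t h0 h1 h2 h3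
    · split_ifs at h with hc
      · rw [Bool.and_eq_true] at h
        rcases lt_or_ge (Q * s) (((s0 + s1) / 2 : ℕ) : ℝ) with h4 | h4
        · exact ih s0 _ t0 t1 h.1 h0 h4 h2 h3
        · exact ih _ s1 t0 t1 h.2 h4 h1 h2 h3
      · rw [Bool.and_eq_true] at h
        rcases lt_or_ge (Q * t) (((t0 + t1) / 2 : ℕ) : ℝ) with h4 | h4
        · exact ih s0 s1 t0 _ h.1 h0 h1 h2 h4
        · exact ih s0 s1 _ t1 h.2 h0 h1 h4 h3

end Pool.Agent.MTR
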