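import Pool.Agent.MTR.SAP
import Pool.Agent.MTR.QML
/-!
PAY (80 lines). The payment polynomials.
PROOF. With z = 1 - n², n² in [2/3, 1] (from nW_sq in the triangle: 8 ≤ 12 n² ≤ 12), w = 12 - M = 12 z: Gp = 144 n⁴ (144000 - 29748 * 12 z + 1711 * 144 z²) = 20736000 n⁴ (1 - 2.479 z + 1.711 z²). Need
1 - 2.479 z + 1.711 z² ≥ (1-z)^(5/2): squares: (1 - 2.479 z + 1.711 z²)² ≥ (1-z)^5 on [0,1/3] (nlinarith; the first factor is positive), n^5 = n⁴ n. Gm: (1 - 2.5 z + 1.76 z²)² ≤ (1-z)^5 on [0,1/3]: the difference is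
z² (.23 - 1.2 z + 1.9024 z² - z³). Use abs_pay_sqle or pow_le_pow_left₀ with n^5 ≥ 0: (n^5)² = (n²)^5.
For Gp: check: the difference (1 - 2.479 z + 1.711 z²)² - (1-z)^5 = z (0.042 - 0.432559 z + ...): compute it and prove positivity on [0,1/3] by nlinarith / polyrith; if it fails at some z tell helper1.
-/
set_option autoImplicit false

open MeasureTheory Set Metric Pool.Agent.MEIS Pool.Agent.MSQ Pool.Agent.MGE Pool.Agent.MGF

namespace Pool.Agent.MTR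

private theorem pay_sqle {a b : ℝ} (hb : 0 ≤ b) (h : a ^ 2 ≤ b ^ 2) : a ≤ b :=
  abs_le_of_sq_le_sq' h hb |>.2

private theorem pay_pos (z : ℝ) (h0 : 0 ≤ z) :
    (1 - z) ^ 5 ≤ (1 - 2479 / 1000 * z + 1711 / 1000 * z ^ 2) ^ 2 := by
  have hq : 0 ≤ 42 / 1000 - 432559 / 1000000 * z + 1516862 / 1000000 * z ^ 2
      - 2072479 / 1000000 * z ^ 3 + z ^ 4 := by
    nlinarith [sq_nonneg (z ^ 2 - 2072479 / 2000000 * z + 1 / 5), sq_nonneg (z - 2097 / 10000)]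
  nlinarith [mul_nonneg h0 hq]

private theorem pay_neg (z : ℝ) (h0 : 0 ≤ z) (h1 : z ≤ 1 / 3) :
    (1 - 5 / 2 * z + 44 / 25 * z ^ 2) ^ 2 ≤ (1 - z) ^ 5 := by
  have hq : 0 ≤ 23 / 100 - 6 / 5 * z + 19024 / 10000 * z ^ 2 - z ^ 3 := by
    nlinarith [sq_nonneg (z - 3 / 10), mul_nonneg h0 (sub_nonneg.2 h1),
      mul_nonneg (mul_nonneg h0 h0) (sub_nonneg.2 h1)]
  nlinarith [mul_nonneg (mul_nonneg h0 h0) hq]

private theorem pay_n (s t : ℝ) (hs0 : 0 ≤ s) (hs1 : s ≤ 1) (ht0 : 0 ≤ t) (ht1 : t ≤ 1) :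
    0 < nW (sa (1 - s) (s * (1 - t))) ∧ nW (sa (1 - s) (s * (1 - t))) ≤ 1 ∧
      2 / 3 ≤ nW (sa (1 - s) (s * (1 - t))) ^ 2 ∧ nW (sa (1 - s) (s * (1 - t))) ^ 2 ≤ 1 := by
  have h1 := nW_pos (1 - s) (s * (1 - t))
  have hx : 0 ≤ 1 - s := by linarith
  have hy : 0 ≤ s * (1 - t) := mul_nonneg hs0 (by linarith)
  have h2 := nW_le (1 - s) (s * (1 - t)) hx hy (by nlinarith)
  have h3 := nW_sq (1 - s) (s * (1 - t))
  refine ⟨h1, h2, ?_, ?_⟩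
  · nlinarith [mul_nonneg hx hy, mul_nonneg hx hx, mul_nonneg hy hy]
  · nlinarith

private theorem pay_evP (s t : ℝ) : ev s t Gp = 20736000 * nW (sa (1 - s) (s * (1 - t))) ^ 4 *
    (1 - 2479 / 1000 * (1 - nW (sa (1 - s) (s * (1 - t))) ^ 2)
      + 1711 / 1000 * (1 - nW (sa (1 - s) (s * (1 - t))) ^ 2) ^ 2) := by
  have hc : ∀ c : Int, ev s t [[c]] = c := by
    intro c
    simp [ev, evL]
  simp only [Gp, ev_pMul, ev_sumP, ev_pAdd, ev_pSm, ev_Ms, List.map_cons, List.map_nil, List.sum_cons,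
    List.sum_nil, hc]
  push_cast
  ring

private theorem pay_evM (s t : ℝ) : ev s t Gm = 20736000 * nW (sa (1 - s) (s * (1 - t))) ^ 4 *
    (1 - 5 / 2 * (1 - nW (sa (1 - s) (s * (1 - t))) ^ 2)
      + 44 / 25 * (1 - nW (sa (1 - s) (s * (1 - t))) ^ 2) ^ 2) := by
  have hc : ∀ c : Int, ev s t [[c]] = c := by
    intro c
    simp [ev, evL]
  simp only [Gm, ev_pMul, ev_sumP, ev_pAdd, ev_pSm, ev_Ms, List.map_cons, List.map_nil, List.sum_cons,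
    List.sum_nil, hc]
  push_cast
  ring

theorem Gp_ge (s t : ℝ) (hs0 : 0 ≤ s) (hs1 : s ≤ 1) (ht0 : 0 ≤ t) (ht1 : t ≤ 1) :
    20736000 * nW (sa (1 - s) (s * (1 - t))) ^ 9 ≤ ev s t Gp := by
  obtain ⟨h1, -, h3, h4⟩ := pay_n s t hs0 hs1 ht0 ht1
  rw [pay_evP]
  generalize nW (sa (1 - s) (s * (1 - t))) = n at h1 h3 h4 ⊢
  have h5 := pay_pos (1 - n ^ 2) (by linarith)
  have h6 : 0 ≤ 1 - 2479 / 1000 * (1 - n ^ 2) + 1711 / 1000 * (1 - n ^ 2) ^ 2 := by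
    nlinarith [sq_nonneg (1 - n ^ 2)]
  have h7 : n ^ 5 ≤ 1 - 2479 / 1000 * (1 - n ^ 2) + 1711 / 1000 * (1 - n ^ 2) ^ 2 := by
    refine pay_sqle h6 ?_
    calc (n ^ 5) ^ 2 = (1 - (1 - n ^ 2)) ^ 5 := by ring
      _ ≤ _ := h5
  have h8 : 20736000 * n ^ 9 = 20736000 * n ^ 4 * n ^ 5 := by ring
  rw [h8]
  exact mul_le_mul_of_nonneg_left h7 (by positivity)
theorem Gm_le (s t : ℝ) (hs0 : 0 ≤ s) (hs1 : s ≤ 1) (ht0 : 0 ≤ t) (ht1 : t ≤ 1) :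
    ev s t Gm ≤ 20736000 * nW (sa (1 - s) (s * (1 - t))) ^ 9 := by
  obtain ⟨h1, -, h3, h4⟩ := pay_n s t hs0 hs1 ht0 ht1
  rw [pay_evM]
  generalize nW (sa (1 - s) (s * (1 - t))) = n at h1 h3 h4 ⊢
  have h5 := pay_neg (1 - n ^ 2) (by linarith) (by linarith)
  have h7 : 1 - 5 / 2 * (1 - n ^ 2) + 44 / 25 * (1 - n ^ 2) ^ 2 ≤ n ^ 5 := by
    refine pay_sqle (by positivity) ?_
    calc _ ≤ (1 - (1 - n ^ 2)) ^ 5 := h5
      _ = (n ^ 5) ^ 2 := by ring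
  have h8 : 20736000 * n ^ 9 = 20736000 * n ^ 4 * n ^ 5 := by ring
  rw [h8]
  exact mul_le_mul_of_nonneg_left h7 (by positivity)
/-- the payment term -/
theorem payP_le (pay : Int) (s t : ℝ) (hs0 : 0 ≤ s) (hs1 : s ≤ 1) (ht0 : 0 ≤ t) (ht1 : t ≤ 1) :
    ev s t (payP pay) ≤ -(20736000 * pay * nW (sa (1 - s) (s * (1 - t))) ^ 9) := by
  unfold payP
  split_ifs with h
  · rw [ev_pSm]
    have h1 := Gp_ge s t hs0 hs1 ht0 ht1
    have h2 : (0 : ℝ) ≤ pay := by exact_mod_cast h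
    push_cast
    nlinarith [mul_le_mul_of_nonneg_left h1 h2]
  · rw [ev_pSm]
    have h1 := Gm_le s t hs0 hs1 ht0 ht1
    have h2 : (0 : ℝ) ≤ -pay := by
      have : pay ≤ 0 := by omega
      have : (pay : ℝ) ≤ 0 := by exact_mod_cast this
      linarith
    push_cast
    nlinarith [mul_le_mul_of_nonneg_left h1 h2]

end Pool.Agent.MTR
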