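import Pool.Agent.MTR.DST
/-!
RES (120 lines). The divergence of the gauge field and the residual polynomial.
PROOF. Put ux (x,y) := (Σ over the list of qf (evE x y (dvx c_ab a b)) (st ..)) / (432 D n^3). Derivative: gV D c T x y = (Σ_ab c_ab s_a s_b) / (D n) by qf_sumQ,
qf_qPm, qf_qMul, dotL_un (QML; zipWith induction; all indices in prs are ≤ 3). Product rule with st_dx, ninv_dx, hasDerivAt_ev_x (MSQ.EvD):
∂x (c s_a s_b / n) = [c_x s_a s_b + c (s_a)_x s_b + c s_a (s_b)_x]/n - c s_a s_b M_x/(24 n^3); times 432 n^3 = 36 * (12 n^2) n: matches dvx (ev_Mp). Continuity: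
qf_cont, nW_cont. RR: qf_sumQ etc.; 12 D M τ 6T = 12 D 12 n² 6T / n³ = 864 D T / n, D 6T 72 Lp = 432 D T Lp, and 432 D n³ dS = 432 D (2 T / n + T Lp).
-/
set_option autoImplicit false

open MeasureTheory Set Metric Pool.Agent.MEIS Pool.Agent.MSQ Pool.Agent.MGE Pool.Agent.MGF

namespace Pool.Agent.MTR

private theorem c1_ev (x y : ℝ) : ev x y c1 = 1 := by
  simp [c1, ev, evL]

private theorem st_len (T : E → ℝ) (a : E) : (st T a).length = 7 := rfl

private theorem ss_qf (x y : ℝ) (T : E → ℝ) (a : E) {α β : ℕ} (hα : α ≤ 3) (hβ : β ≤ 3) :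
    qf (evE x y (ss α β)) (st T a) = (st T a).getD α 0 * (st T a).getD β 0 := by
  unfold ss
  rw [qf_qMul x y _ _ _ ((un_length α (by omega) c1).trans (st_len T a).symm)
    ((un_length β (by omega) c1).trans (st_len T a).symm), dotL_un, dotL_un, c1_ev]
  ring

private theorem len_dx (k : ℕ) : (mdx k).length = 7 := by
  cases k with
  | zero => exact un_length 0 (by norm_num) _
  | succ k =>
    show (qPm Mp (d36 4 (-2) k)).length = 7
    rw [qPm_length]
    rfl

private theorem len_dy (k : ℕ) : (mdy k).length = 7 := by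
  cases k with
  | zero => exact un_length 0 (by norm_num) _
  | succ k =>
    show (qPm Mp (d36 1 1 k)).length = 7
    rw [qPm_length]
    rfl

private theorem dvx_qf (x y : ℝ) (T : E → ℝ) (a : E) (c : P) {α β : ℕ} (hα : α ≤ 3) (hβ : β ≤ 3) :
    qf (evE x y (dvx c α β)) (st T a) =
      36 * (ev x y Mp * ev x y (pDX c)) * ((st T a).getD α 0 * (st T a).getD β 0) +
      ev x y c * (dotL (evE x y (mdx α)) (st T a) * (st T a).getD β 0) +
      ev x y c * ((st T a).getD α 0 * dotL (evE x y (mdx β)) (st T a)) -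
      18 * (ev x y Mx * ev x y c) * ((st T a).getD α 0 * (st T a).getD β 0) := by
  unfold dvx
  rw [qf_sumQ]
  simp only [List.map_cons, List.map_nil, List.sum_cons, List.sum_nil]
  rw [qf_qPm, qf_qPm, qf_qPm, qf_qPm, ss_qf x y T a hα hβ,
    qf_qMul x y _ _ _ ((len_dx α).trans (st_len T a).symm)
      ((un_length β (by omega) c1).trans (st_len T a).symm),
    qf_qMul x y _ _ _ ((un_length α (by omega) c1).trans (st_len T a).symm)
      ((len_dx β).trans (st_len T a).symm), dotL_un, dotL_un, c1_ev, ev_pSm, ev_pSm,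
    ev_pMul, ev_pMul]
  push_cast
  ring

private theorem dvy_qf (x y : ℝ) (T : E → ℝ) (a : E) (c : P) {α β : ℕ} (hα : α ≤ 3) (hβ : β ≤ 3) :
    qf (evE x y (dvy c α β)) (st T a) =
      36 * (ev x y Mp * ev x y (pDY c)) * ((st T a).getD α 0 * (st T a).getD β 0) +
      ev x y c * (dotL (evE x y (mdy α)) (st T a) * (st T a).getD β 0) +
      ev x y c * ((st T a).getD α 0 * dotL (evE x y (mdy β)) (st T a)) -
      18 * (ev x y My * ev x y c) * ((st T a).getD α 0 * (st T a).getD β 0) := by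
  unfold dvy
  rw [qf_sumQ]
  simp only [List.map_cons, List.map_nil, List.sum_cons, List.sum_nil]
  rw [qf_qPm, qf_qPm, qf_qPm, qf_qPm, ss_qf x y T a hα hβ,
    qf_qMul x y _ _ _ ((len_dy α).trans (st_len T a).symm)
      ((un_length β (by omega) c1).trans (st_len T a).symm),
    qf_qMul x y _ _ _ ((un_length α (by omega) c1).trans (st_len T a).symm)
      ((len_dy β).trans (st_len T a).symm), dotL_un, dotL_un, c1_ev, ev_pSm, ev_pSm,
    ev_pMul, ev_pMul]
  push_cast
  ring

private theorem one_dx {T : E → ℝ} (hs : Sm 3 T) (hh : Hom 1 T) {D : Int} (hD : 0 < D) (c : P)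
    {α β : ℕ} (hα : α ≤ 3) (hβ : β ≤ 3) (x y : ℝ) :
    HasDerivAt (fun t => ev t y c * ((st T (sa t y)).getD α 0 * (st T (sa t y)).getD β 0) /
        (D * nW (sa t y)))
      (qf (evE x y (dvx c α β)) (st T (sa x y)) / (432 * D * nW (sa x y) ^ 3)) x := by
  have hDr : (0 : ℝ) < D := by exact_mod_cast hD
  have hn := nW_pos x y
  have h1 := hasDerivAt_ev_x x y c
  have h2 := st_dx hs hh α hα x y
  have h3 := st_dx hs hh β hβ x y
  have h4 := ninv_dx x y
  have h5 := (((h1.mul (h2.mul h3)).mul h4).div_const (D : ℝ))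
  have h6 : (fun t => ev t y c * ((st T (sa t y)).getD α 0 * (st T (sa t y)).getD β 0) /
        (D * nW (sa t y))) = fun t => (ev t y c * ((st T (sa t y)).getD α 0 *
        (st T (sa t y)).getD β 0)) * (1 / nW (sa t y)) / (D : ℝ) := by
    funext t
    have := nW_pos t y
    field_simp
  rw [h6]
  refine h5.congr_deriv ?_
  rw [dvx_qf x y T (sa x y) c hα hβ, ev_Mp]
  simp only [Pi.mul_apply]
  field_simp
  ring

private theorem one_dy {T : E → ℝ} (hs : Sm 3 T) (hh : Hom 1 T) {D : Int} (hD : 0 < D) (c : P)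
    {α β : ℕ} (hα : α ≤ 3) (hβ : β ≤ 3) (x y : ℝ) :
    HasDerivAt (fun t => ev x t c * ((st T (sa x t)).getD α 0 * (st T (sa x t)).getD β 0) /
        (D * nW (sa x t)))
      (qf (evE x y (dvy c α β)) (st T (sa x y)) / (432 * D * nW (sa x y) ^ 3)) y := by
  have hDr : (0 : ℝ) < D := by exact_mod_cast hD
  have hn := nW_pos x y
  have h1 := hasDerivAt_ev_y x y c
  have h2 := st_dy hs hh α hα x y
  have h3 := st_dy hs hh β hβ x y
  have h4 := ninv_dy x y
  have h5 := (((h1.mul (h2.mul h3)).mul h4).div_const (D : ℝ))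
  have h6 : (fun t => ev x t c * ((st T (sa x t)).getD α 0 * (st T (sa x t)).getD β 0) /
        (D * nW (sa x t))) = fun t => (ev x t c * ((st T (sa x t)).getD α 0 *
        (st T (sa x t)).getD β 0)) * (1 / nW (sa x t)) / (D : ℝ) := by
    funext t
    have := nW_pos x t
    field_simp
  rw [h6]
  refine h5.congr_deriv ?_
  rw [dvy_qf x y T (sa x y) c hα hβ, ev_Mp]
  simp only [Pi.mul_apply]
  field_simp
  ring

/-- the gauge field as a sum -/
private theorem gV_sum (D : Int) (c : List P) (T : E → ℝ) (x y : ℝ) :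
    ∀ r : List (ℕ × ℕ), (∀ ab ∈ r, ab.1 ≤ 3 ∧ ab.2 ≤ 3) →
      qf (evE x y (sumQ (List.zipWith (fun p ab => qPm p (ss ab.1 ab.2)) c r))) (st T (sa x y)) /
        (D * nW (sa x y)) =
      (List.zipWith (fun p (ab : ℕ × ℕ) => ev x y p * ((st T (sa x y)).getD ab.1 0 *
        (st T (sa x y)).getD ab.2 0) / (D * nW (sa x y))) c r).sum := by
  induction c with
  | nil =>
    intro r _
    rw [qf_sumQ]
    simp
  | cons p c ih =>
    intro r hr
    cases r with
    | nil =>
      rw [qf_sumQ]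
      simp
    | cons ab r =>
      have h1 := ih r (fun z hz => hr z (List.mem_cons_of_mem _ hz))
      have h2 := hr ab List.mem_cons_self
      rw [qf_sumQ] at h1 ⊢
      rw [List.zipWith_cons_cons, List.zipWith_cons_cons, List.map_cons, List.sum_cons,
        List.sum_cons, ← h1, qf_qPm, ss_qf x y T (sa x y) h2.1 h2.2]
      ring

private theorem div_sum (F : P → ℕ × ℕ → List P) (k : ℝ) (c : List P) (T : E → ℝ) (x y : ℝ) :
    ∀ r : List (ℕ × ℕ),
      qf (evE x y (sumQ (List.zipWith F c r))) (st T (sa x y)) / k =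
      (List.zipWith (fun p ab => qf (evE x y (F p ab)) (st T (sa x y)) / k) c r).sum := by
  induction c with
  | nil =>
    intro r
    rw [qf_sumQ]
    simp
  | cons p c ih =>
    intro r
    cases r with
    | nil =>
      rw [qf_sumQ]
      simp
    | cons ab r =>
      have h1 := ih r
      rw [qf_sumQ] at h1 ⊢
      rw [List.zipWith_cons_cons, List.zipWith_cons_cons, List.map_cons, List.sum_cons,
        List.sum_cons, ← h1]
      ring

private theorem sum_der (f : ℝ → P → ℕ × ℕ → ℝ) (f' : P → ℕ × ℕ → ℝ) (x : ℝ) (c : List P) :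
    ∀ r : List (ℕ × ℕ), (∀ p, ∀ ab ∈ r, HasDerivAt (fun t => f t p ab) (f' p ab) x) →
      HasDerivAt (fun t => (List.zipWith (f t) c r).sum) ((List.zipWith f' c r).sum) x := by
  induction c with
  | nil =>
    intro r _
    simpa using hasDerivAt_const x (0 : ℝ)
  | cons p c ih =>
    intro r hr
    cases r with
    | nil => simpa using hasDerivAt_const x (0 : ℝ)
    | cons ab r =>
      have h1 := ih r (fun q z hz => hr q z (List.mem_cons_of_mem _ hz))
      have h2 := hr p ab List.mem_cons_self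
      have h3 := h2.add h1
      simp only [List.zipWith_cons_cons, List.sum_cons]
      exact h3

private theorem prs3 : ∀ ab ∈ prs, ab.1 ≤ 3 ∧ ab.2 ≤ 3 := by
  decide

private theorem gV_dx {T : E → ℝ} (hs : Sm 3 T) (hh : Hom 1 T) {D : Int} (hD : 0 < D) (c : List P)
    (x y : ℝ) : HasDerivAt (fun t => gV D c T t y)
      (qf (evE x y (sumQ (List.zipWith (fun p (ab : ℕ × ℕ) => dvx p ab.1 ab.2) c prs)))
        (st T (sa x y)) / (432 * D * nW (sa x y) ^ 3)) x := by
  have h1 : (fun t => gV D c T t y) = fun t => (List.zipWith (fun p (ab : ℕ × ℕ) => ev t y p *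
      ((st T (sa t y)).getD ab.1 0 * (st T (sa t y)).getD ab.2 0) / (D * nW (sa t y))) c prs).sum := by
    funext t
    exact gV_sum D c T t y prs prs3
  rw [h1, div_sum]
  exact sum_der (fun t p ab => ev t y p * ((st T (sa t y)).getD ab.1 0 *
    (st T (sa t y)).getD ab.2 0) / (D * nW (sa t y))) _ x c prs
    (fun p ab hab => one_dx hs hh hD p (prs3 ab hab).1 (prs3 ab hab).2 x y)

private theorem gV_dy {T : E → ℝ} (hs : Sm 3 T) (hh : Hom 1 T) {D : Int} (hD : 0 < D) (c : List P)
    (x y : ℝ) : HasDerivAt (fun t => gV D c T x t)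
      (qf (evE x y (sumQ (List.zipWith (fun p (ab : ℕ × ℕ) => dvy p ab.1 ab.2) c prs)))
        (st T (sa x y)) / (432 * D * nW (sa x y) ^ 3)) y := by
  have h1 : (fun t => gV D c T x t) = fun t => (List.zipWith (fun p (ab : ℕ × ℕ) => ev x t p *
      ((st T (sa x t)).getD ab.1 0 * (st T (sa x t)).getD ab.2 0) / (D * nW (sa x t))) c prs).sum := by
    funext t
    exact gV_sum D c T x t prs prs3
  rw [h1, div_sum]
  exact sum_der (fun t p ab => ev x t p * ((st T (sa x t)).getD ab.1 0 *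
    (st T (sa x t)).getD ab.2 0) / (D * nW (sa x t))) _ y c prs
    (fun p ab hab => one_dy hs hh hD p (prs3 ab hab).1 (prs3 ab hab).2 x y)

private theorem ux_cont {T : E → ℝ} (hs : Sm 3 T) {D : Int} (hD : 0 < D) (Q : List P) :
    Continuous fun z : ℝ × ℝ => qf (evE z.1 z.2 Q) (st T (sa z.1 z.2)) /
      (432 * D * nW (sa z.1 z.2) ^ 3) := by
  have hDr : (0 : ℝ) < D := by exact_mod_cast hD
  refine (qf_cont hs Q).div (continuous_const.mul (nW_cont.pow 3)) fun z => ?_
  have := nW_pos z.1 z.2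
  positivity

private theorem RR_qf {T : E → ℝ} (hs : Sm 3 T) (hh : Hom 1 T) (D : Int) (cP cQ : List P)
    (x y : ℝ) : qf (evE x y (RR D cP cQ)) (st T (sa x y)) =
      12 * D * (12 * nW (sa x y) ^ 2 * (1 / nW (sa x y) ^ 3 * (6 * T (sa x y)))) +
      D * (6 * T (sa x y) * (72 * MGF.Lp T (sa x y))) -
      qf (evE x y (sumQ (List.zipWith (fun p (ab : ℕ × ℕ) => dvx p ab.1 ab.2) cP prs)))
        (st T (sa x y)) -
      qf (evE x y (sumQ (List.zipWith (fun p (ab : ℕ × ℕ) => dvy p ab.1 ab.2) cQ prs)))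
        (st T (sa x y)) := by
  unfold RR
  rw [qf_sumQ]
  simp only [List.map_cons, List.map_nil, List.sum_cons, List.sum_nil]
  rw [qf_qSm, qf_qSm, qf_qSm, qf_qSm, qf_qPm,
    qf_qMul x y (un 0 c1) T6 _ ((un_length 0 (by norm_num) c1).trans (st_len T _).symm) rfl,
    qf_qMul x y T6 L72 _ rfl rfl, dotL_un, c1_ev, ev_Mp, T6_val hs hh, L72_val hs hh]
  have h0 : (st T (sa x y)).getD 0 0 = 1 / nW (sa x y) ^ 3 := rfl
  rw [h0]
  push_cast
  ring

theorem gauge_div {T : E → ℝ} (hs : Sm 3 T) (hh : Hom 1 T) {D : Int} (hD : 0 < D) (cP cQ : List P) :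
    ∃ ux vy : ℝ × ℝ → ℝ, Continuous ux ∧ Continuous vy ∧
      (∀ x y, HasDerivAt (fun t => gV D cP T t y) (ux (x, y)) x) ∧
      (∀ x y, HasDerivAt (fun t => gV D cQ T x t) (vy (x, y)) y) ∧
      ∀ x y, 432 * D * nW (sa x y) ^ 3 * (dS T (sa x y) - ux (x, y) - vy (x, y)) =
        qf (evE x y (RR D cP cQ)) (st T (sa x y)) := by
  refine ⟨fun z => qf (evE z.1 z.2 (sumQ (List.zipWith (fun p (ab : ℕ × ℕ) => dvx p ab.1 ab.2)
      cP prs))) (st T (sa z.1 z.2)) / (432 * D * nW (sa z.1 z.2) ^ 3),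
    fun z => qf (evE z.1 z.2 (sumQ (List.zipWith (fun p (ab : ℕ × ℕ) => dvy p ab.1 ab.2)
      cQ prs))) (st T (sa z.1 z.2)) / (432 * D * nW (sa z.1 z.2) ^ 3),
    ux_cont hs hD _, ux_cont hs hD _, fun x y => gV_dx hs hh hD cP x y,
    fun x y => gV_dy hs hh hD cQ x y, fun x y => ?_⟩
  have hDr : (0 : ℝ) < D := by exact_mod_cast hD
  have hn := nW_pos x y
  rw [RR_qf hs hh D cP cQ x y]
  unfold dS
  beta_reduce
  field_simp
  ring

end Pool.Agent.MTR
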