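import Pool.Agent.MTR.BOX
import Pool.Agent.MTR.COV
import Pool.Agent.MTR.PAY
import Pool.Agent.MTR.RES
import Pool.Agent.MTR.SUB
/-!
PNT (90 lines). The pointwise inequality in the sector.
PROOF. For x, y ≥ 0, x + y ≤ 1: s = 1 - x, t = 1 - y/s if s > 0 (then s (1-t) = y), t = 0 if s = 0 (then y = 0). (s,t) in [0,1]². cov_sound + tchk_sound: 0 ≤ qf (evE s t (Rst ..)) = qf (evE x y (RR ..)) + ev s t (payP) τ² (evE_sub, qf_qAdd, qf_one) ≤
432 D n³ (dS - ux - vy) - 20736000 pay n⁹ n⁻⁶. Divide by 432 D n³ > 0.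
-/
set_option autoImplicit false

open MeasureTheory Set Metric Pool.Agent.MEIS Pool.Agent.MSQ Pool.Agent.MGE Pool.Agent.MGF

namespace Pool.Agent.MTR

private theorem PNT_st (x y : ℝ) (hx : 0 ≤ x) (hy : 0 ≤ y) (hxy : x + y ≤ 1) :
    ∃ s t : ℝ, 0 ≤ s ∧ s ≤ 1 ∧ 0 ≤ t ∧ t ≤ 1 ∧ 1 - s = x ∧ s * (1 - t) = y := by
  rcases eq_or_lt_of_le (show 0 ≤ 1 - x by linarith) with h | h
  · refine ⟨1 - x, 0, by linarith, by linarith, le_refl _, zero_le_one, by ring, ?_⟩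
    have : y = 0 := by linarith
    rw [this, ← h]
    ring
  · refine ⟨1 - x, 1 - y / (1 - x), by linarith, by linarith, ?_, ?_, by ring, ?_⟩
    · have : y / (1 - x) ≤ 1 := (div_le_one h).2 (by linarith)
      linarith
    · have : 0 ≤ y / (1 - x) := div_nonneg hy h.le
      linarith
    · field_simp
      ring

theorem int_pt (r : Rg) (hr : rOK r) (D : Int) (hD : 0 < D) (cP cQ : List P) (pay : Int) (L : List Bx)
    (hc : cov 12 L 0 64 0 64 = true) (hb : ∀ b ∈ L, tchk r (Rst D cP cQ pay) b = true) {T : E → ℝ} {β : ℝ}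
    (h : TrHyp T β) (hβ : inR r β) {u v : ℝ} (x y : ℝ) (hx : 0 ≤ x) (hy : 0 ≤ y) (hxy : x + y ≤ 1)
    (he : 432 * D * nW (sa x y) ^ 3 * (dS T (sa x y) - u - v) = qf (evE x y (RR D cP cQ)) (st T (sa x y))) :
    48000 * pay / D + (u + v) ≤ dS T (sa x y) := by
  obtain ⟨s, t, hs0, hs1, ht0, ht1, h1, h2⟩ := PNT_st x y hx hy hxy
  obtain ⟨b, hbL, b0, b1, b2, b3⟩ := cov_sound 12 L 0 64 0 64 hc s t (by push_cast; linarith)
    (by push_cast; linarith) (by push_cast; linarith) (by push_cast; linarith)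
  have hq := tchk_sound r hr (Rst D cP cQ pay) b (hb b hbL) h hβ s t hs0 hs1 ht0 ht1 b0 b1 b2 b3
  have hp := payP_le pay s t hs0 hs1 ht0 ht1
  rw [Rst, qf_qAdd, evE_sub] at hq
  rw [h1, h2] at hq hp
  have hst : st T (sa x y) = (1 / nW (sa x y) ^ 3) ::
      [pd 0 T (sa x y), pd 1 T (sa x y), pd 2 T (sa x y), AA 0 0 T (sa x y), AA 0 1 T (sa x y),
        AA 1 1 T (sa x y)] := rfl
  have hone : qf (evE s t [payP pay]) (st T (sa x y)) = ev s t (payP pay) * (1 / nW (sa x y) ^ 3) ^ 2 := by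
    rw [hst]
    exact qf_one s t (payP pay) _ _
  rw [hone, ← he] at hq
  have hn : 0 < nW (sa x y) := nW_pos x y
  have hD' : (0 : ℝ) < D := by exact_mod_cast hD
  generalize hN : nW (sa x y) = n at hq hp hn
  generalize dS T (sa x y) = d at hq ⊢
  have hn3 : 0 < n ^ 3 := by positivity
  have e1 : ev s t (payP pay) * (1 / n ^ 3) ^ 2 ≤ -(20736000 * pay * n ^ 9) * (1 / n ^ 3) ^ 2 :=
    mul_le_mul_of_nonneg_right hp (by positivity)
  have e2 : -(20736000 * (pay : ℝ) * n ^ 9) * (1 / n ^ 3) ^ 2 = -(20736000 * pay * n ^ 3) := by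
    field_simp
  rw [e2] at e1
  have e3 : 0 ≤ n ^ 3 * (432 * (D * (d - u - v) - 48000 * pay)) := by nlinarith
  have e4 : 0 ≤ 432 * (D * (d - u - v) - 48000 * (pay : ℝ)) := nonneg_of_mul_nonneg_right e3 hn3
  have e5 : 48000 * (pay : ℝ) / D ≤ d - u - v := by
    rw [div_le_iff₀ hD']
    linarith
  linarith

end Pool.Agent.MTR
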