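import Pool.Agent.MTR.KBX
import Pool.Agent.MTR.KCV
import Pool.Agent.MTR.PNT
/-!
KPT (90 lines). The pointwise inequality in the open sector.
PROOF. As PNT.int_pt: x > 0, y > 0 (or y ≥ 0), x + y ≤ 1: s = 1 - x in [0,1), t = 1 - y/s for s > 0: y > 0 gives t < 1; x < 1 because y > 0. covQ_sound with Q, (0, Q, 0, Q); fchk_sound. evE_sub, qf_qAdd, qf_one, payP_le as in PNT.
-/
set_option autoImplicit false

open MeasureTheory Set Metric Pool.Agent.MEIS Pool.Agent.MSQ Pool.Agent.MGE Pool.Agent.MGF Pool.Agent.PKD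

namespace Pool.Agent.MTR

private theorem KPT_st (x y : ℝ) (hx : 0 < x) (hy : 0 < y) (hxy : x + y ≤ 1) :
    ∃ s t : ℝ, 0 ≤ s ∧ s < 1 ∧ 0 ≤ t ∧ t < 1 ∧ 1 - s = x ∧ s * (1 - t) = y := by
  have h : 0 < 1 - x := by linarith
  refine ⟨1 - x, 1 - y / (1 - x), h.le, by linarith, ?_, ?_, by ring, ?_⟩
  · have : y / (1 - x) ≤ 1 := (div_le_one h).2 (by linarith)
    linarith
  · have : 0 < y / (1 - x) := div_pos hy h
    linarith
  · field_simp
    ring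

theorem int_pt2 {ln ld bn bd : ℕ} (hr : rOK (rgOf ln ld bn bd)) {g : Gg} (hg : gchk g = true) {sg : Bool} {pay : ℕ}
    {hm : Bool} (Q n : ℕ) (hQ : 0 < Q) (L : List Bn) (hq : ∀ b ∈ L, 0 < b.q) (hc : covQ Q L n 0 Q 0 Q = true)
    (hb : ∀ b ∈ L, BoxOK ln ld bn bd g sg pay hm b) {T : E → ℝ} {β : ℝ} (h : TrHyp T β)
    (hβ : inR (rgOf ln ld bn bd) β) {u v : ℝ} (x y : ℝ) (hx : 0 < x) (hy : 0 < y) (hxy : x + y ≤ 1)
    (he : 432 * g.D * nW (sa x y) ^ 3 * (dS T (sa x y) - u - v) = qf (evE x y (RR g.D g.cP g.cQ)) (st T (sa x y))) :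
    48000 * payOf sg pay / g.D + (u + v) ≤ dS T (sa x y) := by
  obtain ⟨s, t, hs0, hs1, ht0, ht1, h1, h2⟩ := KPT_st x y hx hy hxy
  have hQ' : (0 : ℝ) < Q := by exact_mod_cast hQ
  obtain ⟨b, hbL, hst⟩ := covQ_sound Q hQ L hq n 0 Q 0 Q hc s t
    (by push_cast; positivity) (by nlinarith) (by push_cast; positivity) (by nlinarith)
  obtain ⟨bt, RC, rfl, hR, hf⟩ := hb b hbL
  have hq2 := fchk_sound hr hg hR hf h hβ s t hs0 hs1.le ht0 ht1.le hst
  have hp := payP_le (payOf sg pay) s t hs0 hs1.le ht0 ht1.le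
  rw [Rst, qf_qAdd, evE_sub] at hq2
  rw [h1, h2] at hq2 hp
  have hst : st T (sa x y) = (1 / nW (sa x y) ^ 3) ::
      [pd 0 T (sa x y), pd 1 T (sa x y), pd 2 T (sa x y), AA 0 0 T (sa x y), AA 0 1 T (sa x y),
        AA 1 1 T (sa x y)] := rfl
  have hone : qf (evE s t [payP (payOf sg pay)]) (st T (sa x y)) =
      ev s t (payP (payOf sg pay)) * (1 / nW (sa x y) ^ 3) ^ 2 := by
    rw [hst]
    exact qf_one s t (payP (payOf sg pay)) _ _
  rw [hone, ← he] at hq2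
  have hn : 0 < nW (sa x y) := nW_pos x y
  have hgD : 1 ≤ g.D := by
    unfold gchk at hg
    simp only [Bool.and_eq_true] at hg
    exact Nat.le_of_ble_eq_true hg.1.1.1.1.1.1.1.1.2
  have hD' : (0 : ℝ) < g.D := by exact_mod_cast hgD
  generalize hN : nW (sa x y) = n at hq2 hp hn
  generalize dS T (sa x y) = d at hq2 ⊢
  generalize payOf sg pay = pa at hq2 hp ⊢
  have hn3 : 0 < n ^ 3 := by positivity
  have e1 : ev s t (payP pa) * (1 / n ^ 3) ^ 2 ≤ -(20736000 * pa * n ^ 9) * (1 / n ^ 3) ^ 2 :=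
    mul_le_mul_of_nonneg_right hp (by positivity)
  have e2 : -(20736000 * (pa : ℝ) * n ^ 9) * (1 / n ^ 3) ^ 2 = -(20736000 * pa * n ^ 3) := by
    field_simp
  rw [e2] at e1
  have e3 : 0 ≤ n ^ 3 * (432 * (g.D * (d - u - v) - 48000 * pa)) := by nlinarith
  have e4 : 0 ≤ 432 * (g.D * (d - u - v) - 48000 * (pa : ℝ)) := nonneg_of_mul_nonneg_right e3 hn3
  have e5 : 48000 * (pa : ℝ) / g.D ≤ d - u - v := by
    rw [div_le_iff₀ hD']
    linarith
  linarith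

end Pool.Agent.MTR
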