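import Pool.Agent.MTR.FRB
import Pool.Agent.MTR.QML
import Pool.Agent.MTR.SUB
import Pool.Agent.MGF.WPF
/-!
HES (100 lines). The two Hessians.
PROOF. A_ij: states 4, 5, 6: for v = (p, q, -p-q): Σ v_i v_j pd i (pd j T) = - (p² A_00 + 2 p q A_01 + q² A_11) ≤ 0 (pd_comm for the mixed terms). B_ij = 144 (D²n + D²T)(f_i, f_j): n³ D²n (f_i, f_j) = n² W_ij - (Wa.f_i)(Wa.f_j),
W(f_0,f_0) = W(f_1,f_1) = 1, W(f_0,f_1) = 1/2, Wa.f_i = (a_i - a_2)/2; so 144 D²n (f_0,f_0) = τ (12 * 12 n² - (6 (a_0 - a_2))²) etc. (second derivatives of nW: pd of pd_nW; or avoid them: there may be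
a formula in MGF (TRH, DIVV, WPF)). curv gives positivity.
-/
set_option autoImplicit false

open MeasureTheory Set Metric Pool.Agent.MEIS Pool.Agent.MSQ Pool.Agent.MGE Pool.Agent.MGF

namespace Pool.Agent.MTR

private theorem hes_coord (i j : Fin 3) (x : E) :
    pd i (fun y : E => y j) x = if i = j then (1 : ℝ) else 0 := by
  have h : HasFDerivAt (fun y : E => y j) (EuclideanSpace.proj (𝕜 := ℝ) j : E →L[ℝ] ℝ) x :=
    (EuclideanSpace.proj (𝕜 := ℝ) j : E →L[ℝ] ℝ).hasFDerivAt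
  unfold pd
  rw [h.fderiv]
  simp [Pi.single_apply, eq_comm]

private theorem hes_nW2 (i k : Fin 3) {a : E} (ha : a ≠ 0) :
    nW a * pd i (pd k nW) a + pd k nW a * pd i nW a = 1 / 2 * ((if i = k then 1 else 0) + 1) := by
  have s1 : Sm 1 nW := sm_mono nW_sm (by norm_num)
  have s2 : Sm 1 (pd k nW) := sm_mono (sm_pd (n := 2) nW_sm k) (by norm_num)
  rw [← pd_mul s1 s2 ha i]
  have e : ∀ y : E, y ≠ 0 → nW y * pd k nW y = (1 / 2 : ℝ) * (y k + (y 0 + y 1 + y 2)) := by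
    intro y hy
    rw [pd_nW k hy]
    have := MGF.nW_pos hy
    field_simp
  have c : ∀ j : Fin 3, Sm 1 (fun y : E => y j) := fun j => sm_coord 1 j
  rw [pd_congr e ha i, pd_cmul _ (sm_add (c k) (sm_add (sm_add (c 0) (c 1)) (c 2))) ha,
    pd_add (c k) (sm_add (sm_add (c 0) (c 1)) (c 2)) ha, pd_add (sm_add (c 0) (c 1)) (c 2) ha,
    pd_add (c 0) (c 1) ha, hes_coord, hes_coord, hes_coord, hes_coord]
  congr 2
  fin_cases i <;> simp

private theorem hes_nWH (i k : Fin 3) {a : E} (ha : a ≠ 0) (h1 : a 0 + a 1 + a 2 = 1) :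
    pd i (pd k nW) a = (1 / nW a ^ 3) * (1 / 2 * ((if i = k then 1 else 0) + 1) * nW a ^ 2 -
      (a k + 1) * (a i + 1) / 4) := by
  have h := hes_nW2 i k ha
  have hn := MGF.nW_pos ha
  rw [pd_nW k ha, pd_nW i ha, h1] at h
  have h2 : nW a * pd i (pd k nW) a =
      1 / 2 * ((if i = k then 1 else 0) + 1) - (a k + 1) / (2 * nW a) * ((a i + 1) / (2 * nW a)) := by
    linarith
  have h3 : pd i (pd k nW) a = (1 / nW a) * (nW a * pd i (pd k nW) a) := by
    field_simp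
  rw [h3, h2]
  field_simp
  ring

theorem hesA_psd {T : E → ℝ} {β : ℝ} (h : TrHyp T β) (s t : ℝ) (p q : ℝ) :
    0 ≤ p ^ 2 * dotL (evE s t (hes false 0)) (st T (sa (1 - s) (s * (1 - t)))) +
      2 * p * q * dotL (evE s t (hes false 1)) (st T (sa (1 - s) (s * (1 - t)))) +
      q ^ 2 * dotL (evE s t (hes false 2)) (st T (sa (1 - s) (s * (1 - t)))) := by
  have ha : sa (1 - s) (s * (1 - t)) ≠ 0 := sa_ne _ _
  generalize sa (1 - s) (s * (1 - t)) = a at ha ⊢
  have hc := h.conc a ha (pt p q (-p - q))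
  have hs2 : Sm 2 T := sm_mono h.sm (by norm_num)
  have e10 := pd_comm hs2 ha 1 0
  have e20 := pd_comm hs2 ha 2 0
  have e21 := pd_comm hs2 ha 2 1
  have k0 : dotL (evE s t (hes false 0)) (st T a) = AA 0 0 T a := by
    simp only [hes, dotL_un]
    simp [c1, ev, evL, st]
  have k1 : dotL (evE s t (hes false 1)) (st T a) = AA 0 1 T a := by
    simp only [hes, dotL_un]
    simp [c1, ev, evL, st]
  have k2 : dotL (evE s t (hes false 2)) (st T a) = AA 1 1 T a := by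
    simp only [hes, dotL_un]
    simp [c1, ev, evL, st]
  rw [k0, k1, k2]
  have p0 : pt p q (-p - q) 0 = p := rfl
  have p1 : pt p q (-p - q) 1 = q := rfl
  have p2 : pt p q (-p - q) 2 = -p - q := rfl
  simp only [Fin.sum_univ_three, p0, p1, p2] at hc
  simp only [AA]
  rw [e10, e20, e21] at hc
  rw [e20, e21]
  nlinarith [hc]

theorem hesB_psd {T : E → ℝ} {β : ℝ} (h : TrHyp T β) (s t : ℝ) (p q : ℝ) :
    0 ≤ p ^ 2 * dotL (evE s t (hes true 0)) (st T (sa (1 - s) (s * (1 - t)))) +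
      2 * p * q * dotL (evE s t (hes true 1)) (st T (sa (1 - s) (s * (1 - t)))) +
      q ^ 2 * dotL (evE s t (hes true 2)) (st T (sa (1 - s) (s * (1 - t)))) := by
  have ha : sa (1 - s) (s * (1 - t)) ≠ 0 := sa_ne _ _
  have h1 := sa_sum (1 - s) (s * (1 - t))
  obtain ⟨b0, b1, b2⟩ := sa_b6 s t
  have hM := ev_Ms s t
  generalize sa (1 - s) (s * (1 - t)) = a at ha h1 b0 b1 b2 hM ⊢
  have hc := h.curv a ha (pt p q (-p - q))
  have hs2 : Sm 2 T := sm_mono h.sm (by norm_num)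
  have e10 := pd_comm hs2 ha 1 0
  have e20 := pd_comm hs2 ha 2 0
  have e21 := pd_comm hs2 ha 2 1
  have hz : ev s t [] = 0 := ev_nil s t
  have hq : ev s t [[-144]] = -144 := by simp [ev, evL]
  have k0 : dotL (evE s t (hes true 0)) (st T a) =
      (12 * (12 * nW a ^ 2) - (6 * a 0 - 6 * a 2) * (6 * a 0 - 6 * a 2)) * (1 / nW a ^ 3)
        - 144 * AA 0 0 T a := by
    simp only [hes, evE, List.map, dotL, st, ev_pAdd, ev_pSm, ev_pMul, hz, hq, hM, b0, b1, b2]
    push_cast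
    ring
  have k1 : dotL (evE s t (hes true 1)) (st T a) =
      (6 * (12 * nW a ^ 2) - (6 * a 0 - 6 * a 2) * (6 * a 1 - 6 * a 2)) * (1 / nW a ^ 3)
        - 144 * AA 0 1 T a := by
    simp only [hes, evE, List.map, dotL, st, ev_pAdd, ev_pSm, ev_pMul, hz, hq, hM, b0, b1, b2]
    push_cast
    ring
  have k2 : dotL (evE s t (hes true 2)) (st T a) =
      (12 * (12 * nW a ^ 2) - (6 * a 1 - 6 * a 2) * (6 * a 1 - 6 * a 2)) * (1 / nW a ^ 3)
        - 144 * AA 1 1 T a := by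
    simp only [hes, evE, List.map, dotL, st, ev_pAdd, ev_pSm, ev_pMul, hz, hq, hM, b0, b1, b2]
    push_cast
    ring
  rw [k0, k1, k2]
  have p0 : pt p q (-p - q) 0 = p := rfl
  have p1 : pt p q (-p - q) 1 = q := rfl
  have p2 : pt p q (-p - q) 2 = -p - q := rfl
  simp only [Fin.sum_univ_three, p0, p1, p2, hes_nWH _ _ ha h1] at hc
  simp only [AA]
  rw [e10, e20, e21] at hc
  rw [e20, e21]
  generalize 1 / nW a ^ 3 = τ at hc ⊢
  simp at hc
  nlinarith [hc]

theorem hes_length (B : Bool) (k : ℕ) (hk : k ≤ 2) : (hes B k).length = 7 := by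
  have hk' : k = 0 ∨ k = 1 ∨ k = 2 := by omega
  cases B
  · simp only [hes]
    exact un_length _ (by omega) _
  · rcases hk' with rfl | rfl | rfl <;> simp [hes]

end Pool.Agent.MTR
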