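import Pool.Agent.MTR.FRM
import Pool.Agent.MTR.HES
import Pool.Agent.MTR.PRD
/-!
BOX (130 lines). Soundness of the test of a box.
PROOF. From `tchk`: nOK gives nB at (s,t) (chkM_sound with n = 1: qf [v] [1] = v ≥ 0; M³ = 1728 n^6 by ev_Ms; squares: 1728 nU² ≥ dN² M³ and nU ≥ 0 give nU ≥ dN n³ (abs_le_abs / pow_le_pow_left), and
1728 nL² ≤ dN² M³ gives nL ≤ dN n³). mOK gives the multipliers (chkM 1, 2, 4: qf of the lists at [p,q] resp. [p,q,u,v]). prA ≥ 0: sum over lists (List.sum_nonneg). For an index k > 11 the form is [] and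
qMul of [] is []: qf = 0. Indices of hes are 0,1,2. Finally chkM 7: w * R - prA ≥ 0, so w R ≥ prA ≥ 0, w > 0. If m4 has missing entries getD gives [] (zero polynomial).
-/
set_option autoImplicit false

open MeasureTheory Set Metric Pool.Agent.MEIS Pool.Agent.MSQ Pool.Agent.MGE Pool.Agent.MGF

namespace Pool.Agent.MTR

private theorem box_dotL_nil (s : List ℝ) : dotL [] s = 0 := by
  cases s <;> rfl

private theorem box_qf_nil : ∀ s : List ℝ, qf [] s = 0
  | [] => rfl
  | x :: s => by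
    unfold qf
    rw [List.take_nil, List.drop_nil, box_dotL_nil, box_qf_nil s]
    ring

private theorem box_addL_length (f : P → P → P) : ∀ (A B : List P) (n : ℕ), A.length = n → B.length = n →
    (addL f A B).length = n
  | [], [], n, h1, _ => by
    simpa [addL] using h1
  | [], b :: B, n, h1, h2 => by
    simp at h1 h2
    omega
  | a :: A, [], n, h1, h2 => by
    simp at h1 h2
    omega
  | a :: A, b :: B, n, h1, h2 => by
    simp only [List.length_cons] at h1 h2
    simp only [addL, List.length_cons]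
    rw [box_addL_length f A B (n - 1) (by omega) (by omega)]
    omega

private theorem box_addL_nil (f : P → P → P) (A : List P) : addL f A [] = A := by
  cases A <;> rfl

private theorem box_st_length (T : E → ℝ) (a : E) : (st T a).length = 7 := rfl

private theorem box_frm (r : Rg) (b : Bx) (k : ℕ) (hk : 11 < k) : frm r b k = [] := by
  obtain ⟨m, rfl⟩ : ∃ m, k = m + 12 := ⟨k - 12, by omega⟩
  rfl

private theorem box_qMul_nil (A : List P) : qMul A [] = [] := by
  cases A <;> rfl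

private theorem box_qMul_nil' (A : List P) : qMul [] A = [] := by
  cases A <;> rfl

private theorem box_pr1 (r : Rg) (b : Bx) (s t : ℝ) (T : E → ℝ) (a : E)
    (hf : ∀ k : ℕ, 0 ≤ dotL (evE s t (frm r b k)) (st T a)) (z : Nat × Nat × P) (hz : 0 ≤ ev s t z.2.2) :
    0 ≤ qf (evE s t (pr1 r b z)) (st T a) := by
  unfold pr1
  rw [qf_qPm]
  refine mul_nonneg hz ?_
  by_cases h1 : 11 < z.1
  · rw [box_frm r b _ h1, box_qMul_nil']
    exact (box_qf_nil _).ge
  · by_cases h2 : 11 < z.2.1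
    · rw [box_frm r b _ h2, box_qMul_nil]
      exact (box_qf_nil _).ge
    · rw [qf_qMul s t _ _ _ (frm_length r b _ (by omega)) (frm_length r b _ (by omega))]
      exact mul_nonneg (hf _) (hf _)

private theorem box_hes (B : Bool) {T : E → ℝ} {β : ℝ} (h : TrHyp T β) (s t : ℝ) (p q : ℝ) :
    0 ≤ p ^ 2 * dotL (evE s t (hes B 0)) (st T (sa (1 - s) (s * (1 - t)))) +
      2 * p * q * dotL (evE s t (hes B 1)) (st T (sa (1 - s) (s * (1 - t)))) +
      q ^ 2 * dotL (evE s t (hes B 2)) (st T (sa (1 - s) (s * (1 - t)))) := by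
  cases B
  · exact hesA_psd h s t p q
  · exact hesB_psd h s t p q

private theorem box_pr2 (r : Rg) (b : Bx) (s t : ℝ) {T : E → ℝ} {β : ℝ} (h : TrHyp T β)
    (hf : ∀ k : ℕ, 0 ≤ dotL (evE s t (frm r b k)) (st T (sa (1 - s) (s * (1 - t)))))
    (z : Nat × Bool × P × P × P)
    (hz : ∀ p q : ℝ, 0 ≤ ev s t z.2.2.1 * p ^ 2 + 2 * ev s t z.2.2.2.1 * (p * q) + ev s t z.2.2.2.2 * q ^ 2) :
    0 ≤ qf (evE s t (pr2 r b z)) (st T (sa (1 - s) (s * (1 - t)))) := by
  unfold pr2
  by_cases h1 : 11 < z.1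
  · rw [box_frm r b _ h1, box_qMul_nil']
    exact (box_qf_nil _).ge
  · have hl : (sumQ [qPm z.2.2.1 (hes z.2.1 0), qPm (pSm 2 z.2.2.2.1) (hes z.2.1 1),
        qPm z.2.2.2.2 (hes z.2.1 2)]).length = 7 := by
      simp only [sumQ, List.foldr, qAdd, box_addL_nil]
      refine box_addL_length _ _ _ _ ?_ (box_addL_length _ _ _ _ ?_ ?_)
      · rw [qPm_length, hes_length _ _ (by norm_num)]
      · rw [qPm_length, hes_length _ _ (by norm_num)]
      · rw [qPm_length, hes_length _ _ (by norm_num)]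
    rw [qf_qMul s t _ _ _ (frm_length r b _ (by omega)) hl]
    refine mul_nonneg (hf _) ?_
    rw [dotL_sumQ]
    simp only [List.map, List.sum_cons, List.sum_nil, dotL_qPm, ev_pSm]
    have := tr2 hz (box_hes z.2.1 h s t)
    push_cast
    linarith

private theorem box_qf1 (s t : ℝ) (p : P) : qf (evE s t [p]) [1] = ev s t p := by
  simp [qf, evE, dotL]

private theorem box_qf2 (s t : ℝ) (a b c : P) (p q : ℝ) :
    qf (evE s t [a, b, c]) [p, q] = ev s t a * p ^ 2 + ev s t b * (p * q) + ev s t c * q ^ 2 := by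
  simp [qf, evE, dotL]
  ring

private theorem box_qf4 (s t : ℝ) (g0 g1 g2 g3 g4 g5 g6 g7 g8 g9 : P) (p q u v : ℝ) :
    qf (evE s t [g0, g1, g2, g3, g4, g5, g6, g7, g8, g9]) [p, q, u, v] =
      ev s t g0 * p ^ 2 + ev s t g1 * (p * q) + ev s t g2 * (p * u) + ev s t g3 * (p * v) +
      ev s t g4 * q ^ 2 + ev s t g5 * (q * u) + ev s t g6 * (q * v) + ev s t g7 * u ^ 2 +
      ev s t g8 * (u * v) + ev s t g9 * v ^ 2 := by
  simp [qf, evE, dotL]
  ring

private theorem box_pr4 (W : List P) (s t : ℝ) {T : E → ℝ} {β : ℝ} (h : TrHyp T β)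
    (hw : ∀ p q u v : ℝ, 0 ≤ ev s t (W.getD 0 []) * p ^ 2 + 2 * ev s t (W.getD 1 []) * (p * q) +
      2 * ev s t (W.getD 2 []) * (p * u) + 2 * ev s t (W.getD 3 []) * (p * v) +
      ev s t (W.getD 4 []) * q ^ 2 +
      2 * ev s t (W.getD 5 []) * (q * u) + 2 * ev s t (W.getD 6 []) * (q * v) +
      ev s t (W.getD 7 []) * u ^ 2 + 2 * ev s t (W.getD 8 []) * (u * v) + ev s t (W.getD 9 []) * v ^ 2) :
    0 ≤ qf (evE s t (pr4 W)) (st T (sa (1 - s) (s * (1 - t)))) := by
  have hA := box_hes false h s t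
  have hB := box_hes true h s t
  have hl : ∀ (B : Bool) (k : ℕ), k ≤ 2 → (hes B k).length = (st T (sa (1 - s) (s * (1 - t)))).length := by
    intro B k hk
    rw [hes_length B k hk, box_st_length]
  have hm : ∀ i j : ℕ, i ≤ 2 → j ≤ 2 → qf (evE s t (qMul (hes false i) (hes true j)))
      (st T (sa (1 - s) (s * (1 - t)))) = dotL (evE s t (hes false i)) (st T (sa (1 - s) (s * (1 - t)))) *
      dotL (evE s t (hes true j)) (st T (sa (1 - s) (s * (1 - t)))) := by
    intro i j hi hj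
    exact qf_qMul s t _ _ _ (hl false i hi) (hl true j hj)
  have key := tr4 hw hA hB
  simp only [pr4]
  rw [qf_sumQ]
  simp only [List.map, List.sum_cons, List.sum_nil, qf_qPm, ev_pSm]
  rw [hm 0 0 (by norm_num) (by norm_num), hm 0 1 (by norm_num) (by norm_num),
    hm 1 0 (by norm_num) (by norm_num), hm 1 1 (by norm_num) (by norm_num),
    hm 0 2 (by norm_num) (by norm_num), hm 1 2 (by norm_num) (by norm_num),
    hm 2 0 (by norm_num) (by norm_num), hm 2 1 (by norm_num) (by norm_num),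
    hm 2 2 (by norm_num) (by norm_num)]
  push_cast
  linarith

private theorem box_sum_nonneg (L : List ℝ) (h : ∀ x ∈ L, 0 ≤ x) : 0 ≤ L.sum := List.sum_nonneg h

theorem tchk_sound (r : Rg) (hr : rOK r) (R : List P) (b : Bx) (hb : tchk r R b = true) {T : E → ℝ} {β : ℝ}
    (h : TrHyp T β) (hβ : inR r β) (s t : ℝ) (hs0 : 0 ≤ s) (hs1 : s ≤ 1) (ht0 : 0 ≤ t) (ht1 : t ≤ 1)
    (h0 : (b.s0 : ℝ) ≤ 64 * s) (h1 : 64 * s ≤ b.s1) (h2 : (b.t0 : ℝ) ≤ 64 * t) (h3 : 64 * t ≤ b.t1) :
    0 ≤ qf (evE s t R) (st T (sa (1 - s) (s * (1 - t)))) := by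
  have hS : ∀ (n : ℕ) (L : List P), chkM n L b.s0 b.s1 64 b.t0 b.t1 64 = true → ∀ v : List ℝ,
      v.length = n → 0 ≤ qf (evE s t L) v := by
    intro n L hL v hv
    exact chkM_sound n L b.s0 b.s1 64 b.t0 b.t1 64 hL s t (by exact_mod_cast h0) (by exact_mod_cast h1)
      (by exact_mod_cast h2) (by exact_mod_cast h3) v hv
  simp only [tchk, Bool.and_eq_true, decide_eq_true_eq] at hb
  obtain ⟨⟨⟨hw, hN⟩, hM⟩, hR⟩ := hb
  have hn : nB b s t (nW (sa (1 - s) (s * (1 - t)))) := by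
    simp only [nOK, Bool.and_eq_true, decide_eq_true_eq] at hN
    obtain ⟨⟨⟨hd, hU⟩, hU2⟩, hL2⟩ := hN
    have k1 := hS 1 _ hU [1] rfl
    have k2 := hS 1 _ hU2 [1] rfl
    have k3 := hS 1 _ hL2 [1] rfl
    have hMs := ev_Ms s t
    have hnp : 0 < nW (sa (1 - s) (s * (1 - t))) := nW_pos _ _
    have hd' : (0 : ℝ) < b.dN := by exact_mod_cast hd
    rw [box_qf1] at k1 k2 k3
    simp only [ev_pAdd, ev_pSm, ev_pMul, hMs] at k2 k3
    generalize nW (sa (1 - s) (s * (1 - t))) = N at hnp k2 k3 ⊢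
    push_cast at k2 k3
    have hx : 0 ≤ (b.dN : ℝ) * N ^ 3 := by positivity
    refine ⟨hd, ?_, ?_⟩
    · refine abs_le_of_sq_le_sq' ?_ hx |>.2
      nlinarith [k3]
    · refine (abs_le_of_sq_le_sq' ?_ k1).2
      nlinarith [k2]
  have hf := frm_nonneg r hr b h hβ s t hs0 hs1 ht0 ht1 hn
  have hP : 0 ≤ qf (evE s t (prA r b)) (st T (sa (1 - s) (s * (1 - t)))) := by
    simp only [mOK, Bool.and_eq_true, List.all_eq_true] at hM
    obtain ⟨⟨hm1, hm2⟩, hm4⟩ := hM
    unfold prA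
    rw [qf_sumQ]
    simp only [List.map, List.sum_cons, List.sum_nil]
    have e1 : 0 ≤ qf (evE s t (sumQ (b.m1.map (pr1 r b)))) (st T (sa (1 - s) (s * (1 - t)))) := by
      rw [qf_sumQ]
      apply List.sum_nonneg
      intro x hx
      rw [List.map_map] at hx
      obtain ⟨z, hz, rfl⟩ := List.mem_map.mp hx
      have k := hS 1 _ (hm1 z hz) [1] rfl
      rw [box_qf1] at k
      exact box_pr1 r b s t T _ hf z k
    have e2 : 0 ≤ qf (evE s t (sumQ (b.m2.map (pr2 r b)))) (st T (sa (1 - s) (s * (1 - t)))) := by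
      rw [qf_sumQ]
      apply List.sum_nonneg
      intro x hx
      rw [List.map_map] at hx
      obtain ⟨z, hz, rfl⟩ := List.mem_map.mp hx
      refine box_pr2 r b s t h hf z ?_
      intro p q
      have k := hS 2 _ (hm2 z hz) [p, q] rfl
      rw [box_qf2, ev_pSm] at k
      push_cast at k
      exact k
    have e3 : 0 ≤ qf (evE s t (pr4 b.m4)) (st T (sa (1 - s) (s * (1 - t)))) := by
      refine box_pr4 b.m4 s t h ?_
      intro p q u v
      have k := hS 4 _ hm4 [p, q, u, v] rfl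
      rw [box_qf4] at k
      simp only [ev_pSm] at k
      push_cast at k
      exact k
    linarith
  have k := hS 7 _ hR (st T (sa (1 - s) (s * (1 - t)))) (box_st_length _ _)
  rw [qf_qAdd, qf_qSm, qf_qSm] at k
  push_cast at k
  have hw' : (0 : ℝ) < b.w := by exact_mod_cast hw
  have k2 : 0 ≤ (b.w : ℝ) * qf (evE s t R) (st T (sa (1 - s) (s * (1 - t)))) := by linarith
  exact nonneg_of_mul_nonneg_right k2 hw'

end Pool.Agent.MTR
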