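import Pool.Agent.MSQ.PolyS
/-!
MTR (triangles of the Meissner cells): computable part.

Sector `a0 ≥ a1 ≥ a2` of the triangle, `a = x A + y B + (1-x-y) C`, `A = (1,0,0)`, `B = (1/2,1/2,0)`,
`C = (1/3,1/3,1/3)`. States: `τ = n^-3`, `e0, e1, e2` (first derivatives of `T`), `A11, A12, A22` (minus the
second derivatives of `T` in the plane, basis `e0 - e2`, `e1 - e2`). `M = 12 n^2`.
Linear forms are lists of 7 polynomials, quadratic forms lists of 28 (upper triangle, row by row).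
-/
namespace Pool.Agent.MTR
open Pool.Agent.MSQ

/-- `Σ` of two lists of polynomials, padded -/
def qAdd (A B : List P) : List P := addL pAdd A B
/-- multiplication of all entries by a polynomial -/
def qPm (p : P) (A : List P) : List P := A.map (pMul p)
def qSm (c : Int) (A : List P) : List P := A.map (pSm c)
def sumQ (L : List (List P)) : List P := L.foldr qAdd []

/-- rest of the first row of a product of linear forms -/
def rowM (l m : P) : List P → List P → List P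
  | a :: A, b :: B => pAdd (pMul l b) (pMul m a) :: rowM l m A B
  | _, _ => []
/-- product of two linear forms -/
def qMul : List P → List P → List P
  | l :: L, m :: M => pMul l m :: (rowM l m L M ++ qMul L M)
  | _, _ => []

/-- the linear form `p s_k` -/
def un (k : Nat) (p : P) : List P := List.replicate k [] ++ (p :: List.replicate (6 - k) [])
def c1 : P := [[1]]

/-! ### polynomials in `x, y` -/

/-- `6 a_k` -/
def a60 : P := [[2, 1], [4]]
def a61 : P := [[2, 1], [-2]]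
def a62 : P := [[2, -2], [-2]]
/-- `M = 12 n^2 = 8 + 4 x^2 + 2 x y + y^2` and its derivatives -/
def Mp : P := [[8, 0, 1], [0, 2], [4]]
def Mx : P := [[0, 2], [8]]
def My : P := [[0, 2], [2]]

/-- components of `6 (e_k - a)` -/
def U0 : Nat → P
  | 0 => [[4, -1], [-4]]
  | _ => [[-2, -1], [-4]]
def U1 : Nat → P
  | 1 => [[4, -1], [2]]
  | _ => [[-2, -1], [2]]

/-- `36` times the derivative of `e_k` in the direction `(v0, v1) / 6` -/
def d36 (v0 v1 : Int) (k : Nat) : List P :=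
  [[], [], [], [], pSm (-v0) (U0 k), pAdd (pSm (-v0) (U1 k)) (pSm (-v1) (U0 k)), pSm (-v1) (U1 k)]

/-- `36 M ∂_x s_k`, `36 M ∂_y s_k` for the states `τ, e0, e1, e2` -/
def mdx : Nat → List P
  | 0 => un 0 [[0, -108], [-432]]
  | k + 1 => qPm Mp (d36 4 (-2) k)
def mdy : Nat → List P
  | 0 => un 0 [[0, -108], [-108]]
  | k + 1 => qPm Mp (d36 1 1 k)

/-- `6 T` -/
def T6 : List P := [[], a60, a61, a62, [], [], []]

/-- `72` times the Laplacian -/
def L72 : List P :=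
  [[], [], [], [],
    sumP [pSm (-3) (pMul (U0 0) (U0 0)), pSm (-3) (pMul (U0 1) (U0 1)), pSm (-3) (pMul (U0 2) (U0 2)),
      pSm 2 (pMul (U0 0) (U0 1)), pSm 2 (pMul (U0 0) (U0 2)), pSm 2 (pMul (U0 1) (U0 2))],
    sumP [pSm (-6) (pMul (U0 0) (U1 0)), pSm (-6) (pMul (U0 1) (U1 1)), pSm (-6) (pMul (U0 2) (U1 2)),
      pSm 2 (pMul (U0 0) (U1 1)), pSm 2 (pMul (U0 0) (U1 2)), pSm 2 (pMul (U0 1) (U1 2)),
      pSm 2 (pMul (U1 0) (U0 1)), pSm 2 (pMul (U1 0) (U0 2)), pSm 2 (pMul (U1 1) (U0 2))],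
    sumP [pSm (-3) (pMul (U1 0) (U1 0)), pSm (-3) (pMul (U1 1) (U1 1)), pSm (-3) (pMul (U1 2) (U1 2)),
      pSm 2 (pMul (U1 0) (U1 1)), pSm 2 (pMul (U1 0) (U1 2)), pSm 2 (pMul (U1 1) (U1 2))]]

/-- the pairs of states in the gauge -/
def prs : List (Nat × Nat) :=
  [(0, 0), (0, 1), (0, 2), (0, 3), (1, 1), (1, 2), (1, 3), (2, 2), (2, 3), (3, 3)]

def ss (α β : Nat) : List P := qMul (un α c1) (un β c1)

/-- `432 (m ∂_x (c s_α s_β) - m_x c s_α s_β / 2)` -/
def dvx (c : P) (α β : Nat) : List P :=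
  sumQ [qPm (pSm 36 (pMul Mp (pDX c))) (ss α β), qPm c (qMul (mdx α) (un β c1)),
    qPm c (qMul (un α c1) (mdx β)), qPm (pSm (-18) (pMul Mx c)) (ss α β)]
def dvy (c : P) (α β : Nat) : List P :=
  sumQ [qPm (pSm 36 (pMul Mp (pDY c))) (ss α β), qPm c (qMul (mdy α) (un β c1)),
    qPm c (qMul (un α c1) (mdy β)), qPm (pSm (-18) (pMul My c)) (ss α β)]

/-- the quadratic form `Σ c_αβ s_α s_β` -/
def gq (c : List P) : List P := sumQ (List.zipWith (fun p ab => qPm p (ss ab.1 ab.2)) c prs)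

/-- `432 D n^3 (density - div V)` -/
def RR (D : Int) (cP cQ : List P) : List P :=
  sumQ [qSm (12 * D) (qPm Mp (qMul (un 0 c1) T6)), qSm D (qMul T6 L72),
    qSm (-1) (sumQ (List.zipWith (fun p ab => dvx p ab.1 ab.2) cP prs)),
    qSm (-1) (sumQ (List.zipWith (fun p ab => dvy p ab.1 ab.2) cQ prs))]

/-! ### ties on the medians -/

/-- value at `x = 0` -/
def ax (p : P) : P := [p.headD []]

def isZP (p : P) : Bool := p.all fun r => r.all (· == 0)
def z2 (f : P → P) (c : List P) (i j : Nat) : Bool := isZP (pAdd (f (c.getD i [])) (f (c.getD j [])))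

/-- `c_ab(0,y) = - c_{Ra Rb}(0,y)`, `R` exchanges `e0` and `e1` -/
def tieX (c : List P) : Bool :=
  z2 ax c 0 0 && z2 ax c 1 2 && z2 ax c 3 3 && z2 ax c 4 7 && z2 ax c 5 5 && z2 ax c 6 8 && z2 ax c 9 9
/-- `c_ab(x,0) = - c_{Ra Rb}(x,0)`, `R` exchanges `e1` and `e2` -/
def tieY (c : List P) : Bool :=
  z2 at0 c 0 0 && z2 at0 c 1 1 && z2 at0 c 2 3 && z2 at0 c 4 4 && z2 at0 c 5 6 && z2 at0 c 7 9 && z2 at0 c 8 8

/-! ### substitution -/

def subL (V : P) : List Int → P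
  | [] => []
  | a :: r => pAdd [[a]] (pMul V (subL V r))
/-- `p (U, V)` -/
def sub2 (U V : P) : P → P
  | [] => []
  | r :: l => pAdd (subL V r) (pMul U (sub2 U V l))

/-- `x = 1 - s`, `y = s (1 - t)` as polynomials in `s, t` -/
def xs : P := [[1], [-1]]
def ys : P := [[], [1, -1]]

/-! ### polynomials in `s, t` -/

def b60 : P := [[6], [-3, -1]]
def b61 : P := [[], [3, -1]]
def b62 : P := [[], [0, 2]]
def Ms : P := [[12], [-6, -2], [3, 0, 1]]

/-- payment polynomials: `Gm ≤ 20736000 n^9 ≤ Gp` -/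
def Gp : P :=
  let w := pAdd [[12]] (pSm (-1) Ms)
  pMul (pMul Ms Ms) (sumP [[[144000]], pSm (-29748) w, pSm 1711 (pMul w w)])
def Gm : P :=
  let w := pAdd [[12]] (pSm (-1) Ms)
  pMul (pMul Ms Ms) (sumP [[[144000]], pSm (-30000) w, pSm 1760 (pMul w w)])

/-- data of a box `s0/64 ≤ s ≤ s1/64`, `t0/64 ≤ t ≤ t1/64`; `nL/dN ≤ n^3 ≤ nU/dN` on the box; `m1` multipliers
of products of two forms, `m2` of a form and a Hessian (`false`: `A`, `true`: `B`), `m4` of the two Hessians -/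
structure Bx where
  s0 : Int
  s1 : Int
  t0 : Int
  t1 : Int
  dN : Int
  nU : P
  nL : P
  w : Int
  m1 : List (Nat × Nat × P)
  m2 : List (Nat × Bool × P × P × P)
  m4 : List P

/-- the range of `b` -/
structure Rg where
  ln : Int
  ld : Int
  bn : Int
  bd : Int

/-- forms that are nonnegative -/
def frm (r : Rg) (b : Bx) : Nat → List P
  | 0 => un 0 c1
  | 1 => [pSm (-r.ln) (pMul b62 b.nL), pSm (r.ld * b.dN) b60, pSm (r.ld * b.dN) b61,
      pSm (r.ld * b.dN) b62, [], [], []]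
  | 2 => [[], b60, b61, b62, [], [], []]
  | 3 => [pSm (-r.ln) b.nL, [[r.ld * b.dN]], [[r.ld * b.dN]], [[r.ld * b.dN]], [], [], []]
  | 4 => un 1 c1
  | 5 => un 2 c1
  | 6 => un 3 c1
  | 7 => [pAdd (pSm 144 b.nU) (pSm (-b.dN) (pMul Ms (pAdd [[6]] b60))), [[-144 * b.dN]], [], [], [], [], []]
  | 8 => [pAdd (pSm 144 b.nU) (pSm (-b.dN) (pMul Ms (pAdd [[6]] b61))), [], [[-144 * b.dN]], [], [], [], []]
  | 9 => [pAdd (pSm 144 b.nU) (pSm (-b.dN) (pMul Ms (pAdd [[6]] b62))), [], [], [[-144 * b.dN]], [], [], []]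
  | 10 => [pSm r.bn (pMul b60 b.nU), pSm (-(r.bd * b.dN)) b60, pSm (-(r.bd * b.dN)) b61,
      pSm (-(r.bd * b.dN)) b62, [], [], []]
  | 11 => [pAdd (pSm (6 * (10000 * r.bn + 24495 * r.bd)) b.nU) (pSm (-(10000 * r.bd * b.dN)) Ms),
      [[-(60000 * r.bd * b.dN)]], [[-(60000 * r.bd * b.dN)]], [[-(60000 * r.bd * b.dN)]], [], [], []]
  | _ => []

/-- entries of the Hessians: `false`: `A = - D²T`, `true`: `144 (D² n + D² T)` -/
def hes : Bool → Nat → List P
  | false, k => un (4 + k) c1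
  | true, 0 => [pAdd (pSm 12 Ms) (pSm (-1) (pMul (pAdd b60 (pSm (-1) b62)) (pAdd b60 (pSm (-1) b62)))),
      [], [], [], [[-144]], [], []]
  | true, 1 => [pAdd (pSm 6 Ms) (pSm (-1) (pMul (pAdd b60 (pSm (-1) b62)) (pAdd b61 (pSm (-1) b62)))),
      [], [], [], [], [[-144]], []]
  | true, _ => [pAdd (pSm 12 Ms) (pSm (-1) (pMul (pAdd b61 (pSm (-1) b62)) (pAdd b61 (pSm (-1) b62)))),
      [], [], [], [], [], [[-144]]]

/-- products -/
def pr1 (r : Rg) (b : Bx) (z : Nat × Nat × P) : List P := qPm z.2.2 (qMul (frm r b z.1) (frm r b z.2.1))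
def pr2 (r : Rg) (b : Bx) (z : Nat × Bool × P × P × P) : List P :=
  qMul (frm r b z.1) (sumQ [qPm z.2.2.1 (hes z.2.1 0), qPm (pSm 2 z.2.2.2.1) (hes z.2.1 1),
    qPm z.2.2.2.2 (hes z.2.1 2)])
/-- the coefficient of `A_ij B_kl` for a symmetric 4x4 multiplier with rows `(i,k)` -/
def pr4 (W : List P) : List P :=
  let g i := W.getD i []
  sumQ [qPm (g 0) (qMul (hes false 0) (hes true 0)), qPm (pSm 2 (g 1)) (qMul (hes false 0) (hes true 1)),
    qPm (pSm 2 (g 2)) (qMul (hes false 1) (hes true 0)), qPm (pSm 2 (g 3)) (qMul (hes false 1) (hes true 1)),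
    qPm (g 4) (qMul (hes false 0) (hes true 2)), qPm (pSm 2 (g 5)) (qMul (hes false 1) (hes true 1)),
    qPm (pSm 2 (g 6)) (qMul (hes false 1) (hes true 2)), qPm (g 7) (qMul (hes false 2) (hes true 0)),
    qPm (pSm 2 (g 8)) (qMul (hes false 2) (hes true 1)), qPm (g 9) (qMul (hes false 2) (hes true 2))]

/-- validity of the bounds of `n^3`: `M^3 = 1728 n^6` -/
def nOK (b : Bx) : Bool :=
  let M3 := pMul (pMul Ms Ms) Ms
  decide (0 < b.dN) && chkM 1 [b.nU] b.s0 b.s1 64 b.t0 b.t1 64 &&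
  chkM 1 [pAdd (pSm 1728 (pMul b.nU b.nU)) (pSm (-(b.dN * b.dN)) M3)] b.s0 b.s1 64 b.t0 b.t1 64 &&
  chkM 1 [pAdd (pSm (b.dN * b.dN) M3) (pSm (-1728) (pMul b.nL b.nL))] b.s0 b.s1 64 b.t0 b.t1 64

/-- positivity of the multipliers on the box -/
def mOK (b : Bx) (t0 t1 : Int) : Bool :=
  (b.m1.all fun z => chkM 1 [z.2.2] b.s0 b.s1 64 t0 t1 64) &&
  (b.m2.all fun z => chkM 2 [z.2.2.1, pSm 2 z.2.2.2.1, z.2.2.2.2] b.s0 b.s1 64 t0 t1 64) &&
  chkM 4 [b.m4.getD 0 [], pSm 2 (b.m4.getD 1 []), pSm 2 (b.m4.getD 2 []), pSm 2 (b.m4.getD 3 []),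
    b.m4.getD 4 [], pSm 2 (b.m4.getD 5 []), pSm 2 (b.m4.getD 6 []), b.m4.getD 7 [],
    pSm 2 (b.m4.getD 8 []), b.m4.getD 9 []] b.s0 b.s1 64 t0 t1 64

/-- all products of the box -/
def prA (r : Rg) (b : Bx) : List P :=
  sumQ [sumQ (b.m1.map (pr1 r b)), sumQ (b.m2.map (pr2 r b)), pr4 b.m4]

/-- the test of an interior box; `R` the 28 residual polynomials in `s, t` -/
def tchk (r : Rg) (R : List P) (b : Bx) : Bool :=
  decide (0 < b.w) && nOK b && mOK b b.t0 b.t1 &&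
    chkM 7 (qAdd (qSm b.w R) (qSm (-1) (prA r b))) b.s0 b.s1 64 b.t0 b.t1 64

/-! ### interior residual -/

def payP (pay : Int) : P := if 0 ≤ pay then pSm (-pay) Gp else pSm (-pay) Gm

/-- residual in `s, t`, with the payment -/
def Rst (D : Int) (cP cQ : List P) (pay : Int) : List P :=
  qAdd ((RR D cP cQ).map (sub2 xs ys)) [payP pay]

/-! ### outer side `t = 0`, `s = 1 - (side parameter)` -/

/-- coefficients of the side functional -/
structure FD where
  D : Int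
  f0 : List Int
  f1 : List Int
  f2 : List Int
  f3 : List Int
  f4 : List Int
  f5 : List Int
  f6 : List Int

/-- polynomial in the side parameter as polynomial in `s` -/
def fs (f : List Int) : P := sub2 xs [] (f.map fun a => [a])

def Dc3 : List P := [[], at0 b60, at0 b61, [], [], [], []]
def Dtf : List P := [[], [[1]], [[-1]], [], [], [], []]
def Dnf : List P := un 3 c1

/-- `2592 (F.D m (P + Q) - 3 D (2 m^3 τ f0 Dc + f1 Dt^2 + ...))` on the side -/
def Sst (D : Int) (cP cQ : List P) (F : FD) : List P :=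
  let M := at0 Ms
  qAdd (qPm (pSm (216 * F.D) M) ((qAdd (gq cP) (gq cQ)).map fun p => at0 (sub2 xs ys p)))
    (qSm (-D) (sumQ [qPm (pSm 3 (pMul (pMul (pMul M M) M) (fs F.f0))) (qMul (un 0 c1) Dc3),
      qPm (pSm 7776 (fs F.f1)) (qMul Dtf Dtf), qPm (pSm 7776 (fs F.f2)) (qMul Dtf Dnf),
      qPm (pSm 2592 (fs F.f3)) (qMul Dc3 Dnf), qPm (pSm 864 (fs F.f4)) (qMul Dc3 Dc3),
      qPm (pSm 7776 (fs F.f5)) (qMul Dnf Dnf), qPm (pSm 2592 (fs F.f6)) (qMul Dc3 Dtf)]))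

/-- validity of the bounds of `n^3` on the side; `nU, nL` depend on `s` only -/
def nOKs (b : Bx) : Bool :=
  let M := at0 Ms
  let M3 := pMul (pMul M M) M
  decide (0 < b.dN) && chkM 1 [b.nU] b.s0 b.s1 64 0 64 64 &&
  chkM 1 [pAdd (pSm 1728 (pMul b.nU b.nU)) (pSm (-(b.dN * b.dN)) M3)] b.s0 b.s1 64 0 64 64 &&
  chkM 1 [pAdd (pSm (b.dN * b.dN) M3) (pSm (-1728) (pMul b.nL b.nL))] b.s0 b.s1 64 0 64 64

/-- products of two forms on the side -/
def prS (r : Rg) (b : Bx) (z : Nat × Nat × P) : List P :=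
  qPm z.2.2 (qMul ((frm r b z.1).map at0) ((frm r b z.2.1).map at0))

/-- the test of a side interval; `S` the side polynomials in `s` -/
def schk (r : Rg) (S : List P) (b : Bx) : Bool :=
  decide (0 < b.w) && nOKs b && (b.m1.all fun z => chkM 1 [z.2.2] b.s0 b.s1 64 0 64 64) &&
    chkM 7 (qAdd (qSm b.w S) (qSm (-1) (sumQ (b.m1.map (prS r b))))) b.s0 b.s1 64 0 64 64

/-! ### coverings -/

def inB (b : Bx) (s0 s1 t0 t1 : Int) : Bool :=
  decide (b.s0 ≤ s0) && decide (s1 ≤ b.s1) && decide (b.t0 ≤ t0) && decide (t1 ≤ b.t1)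

/-- the boxes cover the rectangle -/
def cov : Nat → List Bx → Int → Int → Int → Int → Bool
  | 0, L, s0, s1, t0, t1 => L.any fun b => inB b s0 s1 t0 t1
  | n + 1, L, s0, s1, t0, t1 =>
    (L.any fun b => inB b s0 s1 t0 t1) ||
      (if t1 - t0 ≤ s1 - s0 then cov n L s0 ((s0 + s1) / 2) t0 t1 && cov n L ((s0 + s1) / 2) s1 t0 t1
      else cov n L s0 s1 t0 ((t0 + t1) / 2) && cov n L s0 s1 ((t0 + t1) / 2) t1)

end Pool.Agent.MTR
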