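import Pool.Agent.MTR.Comp2
/-!
MTR: packed test of a side interval (side `t = 0`, `s` in `[x0/q, x1/q)`). Computable part.
The second variable `Y` of the arithmetic is used; `s = (x0 + x1 Y)/(q (1 + Y))`.
Linear forms are lists of 4 (states `τ, e0, e1, e2`), quadratic forms lists of 10.
-/
namespace Pool.Agent.MTR
open Pool.Agent.MSQ Pool.Agent.PKD

section
variable {α : Type} (O : Ops α)

/-- `q (1 + Y)`, `x0 + x1 Y`, `(q - x0) + (q - x1) Y` -/
noncomputable def uA (b : Bn) : α := O.mul (O.nat b.q) (O.add (O.nat 1) O.Y)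
noncomputable def ua (b : Bn) : α := O.add (O.nat b.x0) (O.mul (O.nat b.x1) O.Y)
noncomputable def uc (b : Bn) : α := O.add (O.nat (Nat.sub b.q b.x0)) (O.mul (O.nat (Nat.sub b.q b.x1)) O.Y)

noncomputable def mkVs (b : Bn) (d dm : Nat) : Va α where
  one := uA O b
  xx := uc O b
  yy := ua O b
  g3 := tens (mkV O (ua O b) (uA O b) 3) [O.nat 1]
  gm := [(O.nat 1, mkV O O.Y (O.nat 1) dm)]
  gd := triR O (uc O b) (ua O b) (uA O b) d (O.nat 1)
  ge := triR O (uc O b) (ua O b) (uA O b) (d - 1) (O.nat 1)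

/-- `Σ f_i x^i`, degree `nf` -/
noncomputable def fK (v : Va α) (nf : Nat) (f : List Int) : α := dI O (mkV O v.xx v.one nf) f

/-- the gauge on the side: entries `P + Q` -/
noncomputable def gqS (v : Va α) : List P → List P → List α
  | p :: ps, q :: qs => O.add (pvI O v.gd p) (pvI O v.gd q) :: gqS v ps qs
  | _, _ => []

noncomputable def d0S : List α := [O.nat 1, z0 O, z0 O, z0 O]
noncomputable def dcS (v : Va α) : List α := [z0 O, la0 O v, la1 O v, z0 O]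
noncomputable def dtS : List α := [z0 O, O.nat 1, O.sub (z0 O) (O.nat 1), z0 O]
noncomputable def dnS : List α := [z0 O, z0 O, z0 O, O.nat 1]

noncomputable def sum10 : List (List α) → List α
  | [] => List.replicate 10 (z0 O)
  | a :: l => vAdd O a (sum10 l)

/-- the residual of the side, degree `ds` -/
noncomputable def SSK (g : Gg) (F : FD) (nf ds : Nat) (v : Va α) : List α :=
  vAdd O (vSm O (O.mul (O.mul (O.nat (Nat.mul 216 (Int.toNat F.D))) (lM O v)) (pw O v.one (ds - (2 + g.d))))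
      (gqS O v g.cP g.cQ))
    (vSm O (O.sub (z0 O) (O.nat g.D)) (sum10 O
      [vSm O (O.mul (O.nat 3) (O.mul (O.mul (lM O v) (O.mul (lM O v) (lM O v)))
          (O.mul (fK O v nf F.f0) (pw O v.one (ds - (7 + nf)))))) (vMul O (d0S O) (dcS O v)),
        vSm O (O.mul (O.nat 7776) (O.mul (fK O v nf F.f1) (pw O v.one (ds - nf)))) (vMul O (dtS O) (dtS O)),
        vSm O (O.mul (O.nat 7776) (O.mul (fK O v nf F.f2) (pw O v.one (ds - nf)))) (vMul O (dtS O) (dnS O)),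
        vSm O (O.mul (O.nat 2592) (O.mul (fK O v nf F.f3) (pw O v.one (ds - (nf + 1))))) (vMul O (dcS O v) (dnS O)),
        vSm O (O.mul (O.nat 864) (O.mul (fK O v nf F.f4) (pw O v.one (ds - (nf + 2))))) (vMul O (dcS O v) (dcS O v)),
        vSm O (O.mul (O.nat 7776) (O.mul (fK O v nf F.f5) (pw O v.one (ds - nf)))) (vMul O (dnS O) (dnS O)),
        vSm O (O.mul (O.nat 2592) (O.mul (fK O v nf F.f6) (pw O v.one (ds - (nf + 1))))) (vMul O (dcS O v) (dtS O))]))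

noncomputable def prZ (F : Nat → List α) (dm K : Nat) (v : Va α) : List (Nat × Nat) → List α
  | [] => List.replicate 4 (z0 O)
  | z :: l => vAdd O (vSm O (muK O dm v K 0 z.2) (F z.1)) (prZ F dm K v l)
noncomputable def grsZ (F : Nat → List α) (dm : Nat) (v : Va α) : List Gr → List α
  | [] => List.replicate 10 (z0 O)
  | g :: l => vAdd O (vMul O (F g.i) (prZ O F dm g.K v g.pr)) (grsZ F dm v l)

/-- the matrix, degree `8 + dm` -/
noncomputable def MSK (ln ld bn bd : Nat) (g : Gg) (F : FD) (nf : Nat) (b : Bt) (v : Va α) : List α :=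
  vSub O (vSm O (O.nat b.w) (SSK O g F nf (8 + b.dm) v))
    (grsZ O (fun k => (frK O ln ld bn bd b v k).take 4) b.dm v b.gr)

end

/-- the test of a side interval -/
noncomputable def sfchk (ln ld bn bd : Nat) (g : Gg) (F : FD) (nf : Nat) (b : Bt) : Bool :=
  Nat.ble 1 b.bd.q && Nat.ble b.bd.x0 b.bd.q && Nat.ble b.bd.x1 b.bd.q && Nat.ble 1 b.w && Nat.ble 1 b.dN &&
  idOK b && (b.gr.all fun g => Nat.ble 1 g.K) && len3 b.nU && len3 b.nL &&
  Nat.ble (7 + nf) (8 + b.dm) && Nat.ble (2 + g.d) (8 + b.dm) &&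
  ([F.f0, F.f1, F.f2, F.f3, F.f4, F.f5, F.f6].all fun f => Nat.ble f.length (nf + 1)) &&
  Nat.ble (mxL (SK ON b (mkVs ON b.bd g.d b.dm))) (Nat.mul b.rd b.H) &&
  Nat.ble (mxL (MSK ON ln ld bn bd g F nf b (mkVs ON b.bd g.d b.dm))) (Nat.mul b.rd b.H) &&
  ((SK (OM (Nat.pow (Nat.add (Nat.mul 2 (Nat.mul b.rd b.H)) 1) 7) 0 (Nat.add (Nat.mul 2 (Nat.mul b.rd b.H)) 1)) b
      (mkVs (OM (Nat.pow (Nat.add (Nat.mul 2 (Nat.mul b.rd b.H)) 1) 7) 0 (Nat.add (Nat.mul 2 (Nat.mul b.rd b.H)) 1))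
        b.bd g.d b.dm)).all (nnchk (Nat.add (Nat.mul 2 (Nat.mul b.rd b.H)) 1) (Nat.mul b.rd b.H) 7)) &&
  mchk 4 (Nat.add (Nat.mul 2 (Nat.mul b.rd b.H)) 1) b.rd b.H b.zb (Nat.add 9 b.dm)
    (MSK (OM (Nat.pow (Nat.add (Nat.mul 2 (Nat.mul b.rd b.H)) 1) (Nat.add 9 b.dm)) 0
        (Nat.add (Nat.mul 2 (Nat.mul b.rd b.H)) 1)) ln ld bn bd g F nf b
      (mkVs (OM (Nat.pow (Nat.add (Nat.mul 2 (Nat.mul b.rd b.H)) 1) (Nat.add 9 b.dm)) 0
        (Nat.add (Nat.mul 2 (Nat.mul b.rd b.H)) 1)) b.bd g.d b.dm))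

/-- the intervals `[x0/q, x1/q)` are chained: the next one begins at most at `p/r` -/
def chn : Nat → Nat → List Bn → Bool
  | p, r, [] => Nat.ble r p
  | p, r, b :: l => Nat.ble 1 b.q && Nat.ble (Nat.mul b.x0 r) (Nat.mul p b.q) && chn b.x1 b.q l

end Pool.Agent.MTR
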