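import Pool.Agent.MTR.Comp3
/-!
MTR: packed test in the homogeneous case (`0 ≤ β ≤ bn/bd`, no payment). Computable part.

The part `τ <C, A>` of the residual is nonnegative (`cchk`) and is replaced by the smaller `(bd/bn) T <C, A>`.
What remains is tested block by block: the entries `τ e_k` (numbers), `e_k A` (2 × 2 matrices), `e_j e_k`
(a 3 × 3 matrix); the other entries vanish.
-/
namespace Pool.Agent.MTR
open Pool.Agent.MSQ Pool.Agent.PKD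

/-- the entries `τ A` replaced by `z` -/
def z456 {α : Type} (z : α) (l : List α) : List α := l.take 4 ++ (z :: z :: z :: l.drop 7)

section
variable {α : Type} (O : Ops α)

/-- `6 bn (R - τ <C, A>) + bd 6 T <C, A>`, degree `d + 4` -/
noncomputable def RHK (g : Gg) (bn bd : Nat) (v : Va α) : List α :=
  vAdd O (vSm O (O.mul (O.nat (Nat.mul 6 bn)) v.one) (z456 (z0 O) (RK O g false 0 v)))
    (vMul O (vSm O (O.nat bd) (T6K O v))
      (z0 O :: z0 O :: z0 O :: z0 O :: ((RK O g false 0 v).drop 4).take 3))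

/-- the matrix, degree `8 + dm = d + 4` -/
noncomputable def MHK (bn bd : Nat) (g : Gg) (b : Bt) (v : Va α) : List α :=
  vSub O (vSm O (O.nat b.w) (RHK O g bn bd v)) (grsK O (frK O 0 1 bn bd b v) b.dm v b.gr)
/-- the negative -/
noncomputable def ngK (l : List α) : List α := vSub O (List.replicate 28 (z0 O)) l

end

/-- bound of the coefficients of `MHK`; `RC` bound for the residual -/
noncomputable def MHN (bn bd RC : Nat) (b : Bt) (v : Va Nat) : Nat :=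
  Nat.add (Nat.mul b.w RC) (grsN (fun k => mxL (frK ON 0 1 bn bd b v k)) (heN v false) (heN v true) b.dm v b.gr)

/-- the test of the blocks; `M'` are the negatives -/
noncomputable def Hchk (n2 Y rd H z2 z3 : Nat) (M M' : List Nat) : Bool :=
  (M.take 7).all (nnchk Y (Nat.mul rd H) n2) && (M.drop 22).all (nnchk Y (Nat.mul rd H) n2) &&
  ((M'.drop 4).take 3).all (nnchk Y (Nat.mul rd H) n2) && (M'.drop 22).all (nnchk Y (Nat.mul rd H) n2) &&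
  mchk 2 Y rd H z2 n2 ((M.drop 10).take 3) && mchk 2 Y rd H z2 n2 ((M.drop 15).take 3) &&
  mchk 2 Y rd H z2 n2 ((M.drop 19).take 3) &&
  mchk 3 Y rd H z3 n2 ((M.drop 7).take 3 ++ ((M.drop 13).take 2 ++ (M.drop 18).take 1))

/-- the test of a box; bits: `zb` for the 3 × 3 block, `z4` for the 2 × 2 blocks, `z2` for the multipliers -/
noncomputable def hfchk (bn bd : Nat) (g : Gg) (b : Bt) : Bool :=
  Nat.beq g.d (Nat.add 4 b.dm) && Nat.ble 1 bn && bdOK b.bd && Nat.ble 1 b.w && Nat.ble 1 b.dN && idOK b &&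
  len3 b.nU && len3 b.nL && Nat.ble 1 b.H &&
  (b.gr.all fun g => Nat.ble 1 g.K && wOK b.dm g.K g.h b.z2 g.WA && wOK b.dm g.K g.h b.z2 g.WB) &&
  Nat.ble (mxL (SK ON b (mkVa ON b.bd g.d b.dm))) (Nat.mul b.rd b.H) &&
  Nat.ble (MHN bn bd (mxL (RHK ON g bn bd (mkVa ON b.bd g.d b.dm))) b (mkVa ON b.bd g.d b.dm)) (Nat.mul b.rd b.H) &&
  ((SK (OM (Nat.pow (Nat.add (Nat.mul 2 (Nat.mul b.rd b.H)) 1) 49) (Nat.pow (Nat.add (Nat.mul 2 (Nat.mul b.rd b.H)) 1) 7)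
      (Nat.add (Nat.mul 2 (Nat.mul b.rd b.H)) 1)) b
      (mkVa (OM (Nat.pow (Nat.add (Nat.mul 2 (Nat.mul b.rd b.H)) 1) 49)
        (Nat.pow (Nat.add (Nat.mul 2 (Nat.mul b.rd b.H)) 1) 7) (Nat.add (Nat.mul 2 (Nat.mul b.rd b.H)) 1)) b.bd g.d
        b.dm)).all (nnchk (Nat.add (Nat.mul 2 (Nat.mul b.rd b.H)) 1) (Nat.mul b.rd b.H) 49)) &&
  Hchk (Nat.mul (Nat.add 9 b.dm) (Nat.add 9 b.dm)) (Nat.add (Nat.mul 2 (Nat.mul b.rd b.H)) 1) b.rd b.H b.z4 b.zb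
    (MHK (OM (Nat.pow (Nat.add (Nat.mul 2 (Nat.mul b.rd b.H)) 1) (Nat.mul (Nat.add 9 b.dm) (Nat.add 9 b.dm)))
        (Nat.pow (Nat.add (Nat.mul 2 (Nat.mul b.rd b.H)) 1) (Nat.add 9 b.dm)) (Nat.add (Nat.mul 2 (Nat.mul b.rd b.H)) 1))
      bn bd g b
      (mkVa (OM (Nat.pow (Nat.add (Nat.mul 2 (Nat.mul b.rd b.H)) 1) (Nat.mul (Nat.add 9 b.dm) (Nat.add 9 b.dm)))
        (Nat.pow (Nat.add (Nat.mul 2 (Nat.mul b.rd b.H)) 1) (Nat.add 9 b.dm)) (Nat.add (Nat.mul 2 (Nat.mul b.rd b.H)) 1))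
        b.bd g.d b.dm))
    (ngK (OM (Nat.pow (Nat.add (Nat.mul 2 (Nat.mul b.rd b.H)) 1) (Nat.mul (Nat.add 9 b.dm) (Nat.add 9 b.dm)))
        (Nat.pow (Nat.add (Nat.mul 2 (Nat.mul b.rd b.H)) 1) (Nat.add 9 b.dm)) (Nat.add (Nat.mul 2 (Nat.mul b.rd b.H)) 1))
      (MHK (OM (Nat.pow (Nat.add (Nat.mul 2 (Nat.mul b.rd b.H)) 1) (Nat.mul (Nat.add 9 b.dm) (Nat.add 9 b.dm)))
          (Nat.pow (Nat.add (Nat.mul 2 (Nat.mul b.rd b.H)) 1) (Nat.add 9 b.dm))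
          (Nat.add (Nat.mul 2 (Nat.mul b.rd b.H)) 1))
        bn bd g b
        (mkVa (OM (Nat.pow (Nat.add (Nat.mul 2 (Nat.mul b.rd b.H)) 1) (Nat.mul (Nat.add 9 b.dm) (Nat.add 9 b.dm)))
          (Nat.pow (Nat.add (Nat.mul 2 (Nat.mul b.rd b.H)) 1) (Nat.add 9 b.dm))
          (Nat.add (Nat.mul 2 (Nat.mul b.rd b.H)) 1)) b.bd g.d b.dm)))

/-- the test of a side interval: the first row (numbers) and the 3 × 3 block of `e` -/
noncomputable def shchk (bn bd : Nat) (g : Gg) (F : FD) (nf : Nat) (b : Bt) : Bool :=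
  Nat.ble 1 b.bd.q && Nat.ble b.bd.x0 b.bd.q && Nat.ble b.bd.x1 b.bd.q && Nat.ble 1 b.w && Nat.ble 1 b.dN &&
  idOK b && (b.gr.all fun g => Nat.ble 1 g.K) && len3 b.nU && len3 b.nL &&
  Nat.ble (7 + nf) (8 + b.dm) && Nat.ble (2 + g.d) (8 + b.dm) &&
  ([F.f0, F.f1, F.f2, F.f3, F.f4, F.f5, F.f6].all fun f => Nat.ble f.length (nf + 1)) &&
  Nat.ble (mxL (SK ON b (mkVs ON b.bd g.d b.dm))) (Nat.mul b.rd b.H) &&
  Nat.ble (mxL (MSK ON 0 1 bn bd g F nf b (mkVs ON b.bd g.d b.dm))) (Nat.mul b.rd b.H) &&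
  ((SK (OM (Nat.pow (Nat.add (Nat.mul 2 (Nat.mul b.rd b.H)) 1) 7) 0 (Nat.add (Nat.mul 2 (Nat.mul b.rd b.H)) 1)) b
      (mkVs (OM (Nat.pow (Nat.add (Nat.mul 2 (Nat.mul b.rd b.H)) 1) 7) 0 (Nat.add (Nat.mul 2 (Nat.mul b.rd b.H)) 1))
        b.bd g.d b.dm)).all (nnchk (Nat.add (Nat.mul 2 (Nat.mul b.rd b.H)) 1) (Nat.mul b.rd b.H) 7)) &&
  ((MSK (OM (Nat.pow (Nat.add (Nat.mul 2 (Nat.mul b.rd b.H)) 1) (Nat.add 9 b.dm)) 0
        (Nat.add (Nat.mul 2 (Nat.mul b.rd b.H)) 1)) 0 1 bn bd g F nf b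
      (mkVs (OM (Nat.pow (Nat.add (Nat.mul 2 (Nat.mul b.rd b.H)) 1) (Nat.add 9 b.dm)) 0
        (Nat.add (Nat.mul 2 (Nat.mul b.rd b.H)) 1)) b.bd g.d b.dm)).take 4).all
    (nnchk (Nat.add (Nat.mul 2 (Nat.mul b.rd b.H)) 1) (Nat.mul b.rd b.H) (Nat.add 9 b.dm)) &&
  mchk 3 (Nat.add (Nat.mul 2 (Nat.mul b.rd b.H)) 1) b.rd b.H b.zb (Nat.add 9 b.dm)
    ((MSK (OM (Nat.pow (Nat.add (Nat.mul 2 (Nat.mul b.rd b.H)) 1) (Nat.add 9 b.dm)) 0
        (Nat.add (Nat.mul 2 (Nat.mul b.rd b.H)) 1)) 0 1 bn bd g F nf b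
      (mkVs (OM (Nat.pow (Nat.add (Nat.mul 2 (Nat.mul b.rd b.H)) 1) (Nat.add 9 b.dm)) 0
        (Nat.add (Nat.mul 2 (Nat.mul b.rd b.H)) 1)) b.bd g.d b.dm)).drop 4)

/-! ### the matrix `C` -/

def eqPz (p q : P) : Bool := isZP (pAdd p (pSm (-1) q))
/-- the entries `τ A` of the residual -/
def Cst (g : Gg) : List P := ((Rst g.D g.cP g.cQ 0).drop 4).take 3
/-- `<C, A> = s (E1 A_tt + t E2 A_tn + t E3 A_nn)` where `A_tt = A11 - 2 A12 + A22`, `A_tn = A12 - A22`,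
`A_nn = A22`; the matrix `E` is positive on the unit square -/
def cchk (g : Gg) (E1 E2 E3 : P) : Bool :=
  (match Cst g with
    | [a, b, c] => eqPz a (pMul [[], [1]] E1) && eqPz (pAdd (pSm 2 a) b) (pMul [[], [0, 1]] E2) &&
        eqPz (pAdd a (pAdd b c)) (pMul [[], [0, 1]] E3)
    | _ => false) && chkM 2 [E1, E2, E3] 0 1 1 0 1 1

end Pool.Agent.MTR
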