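import Pool.Agent.MTR.Comp2
/-!
MTR: covering test for the packed boxes. Computable part.
-/
set_option autoImplicit false

open Pool.Agent.MSQ Pool.Agent.PKD

namespace Pool.Agent.MTR

/-- the rectangle `[s0, s1] x [t0, t1]` (over `Q`) is contained in the box -/
def inQ (Q : Nat) (b : Bn) (s0 s1 t0 t1 : Nat) : Bool :=
  Nat.ble (Nat.mul b.x0 Q) (Nat.mul s0 b.q) && Nat.ble (Nat.mul s1 b.q) (Nat.mul b.x1 Q) &&
    Nat.ble (Nat.mul b.y0 Q) (Nat.mul t0 b.q) && Nat.ble (Nat.mul t1 b.q) (Nat.mul b.y1 Q)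
/-- the boxes cover the rectangle -/
def covQ (Q : Nat) (L : List Bn) : Nat → Nat → Nat → Nat → Nat → Bool
  | 0, s0, s1, t0, t1 => L.any fun b => inQ Q b s0 s1 t0 t1
  | n + 1, s0, s1, t0, t1 =>
    (L.any fun b => inQ Q b s0 s1 t0 t1) ||
      (if t1 - t0 ≤ s1 - s0 then covQ Q L n s0 ((s0 + s1) / 2) t0 t1 && covQ Q L n ((s0 + s1) / 2) s1 t0 t1
      else covQ Q L n s0 s1 t0 ((t0 + t1) / 2) && covQ Q L n s0 s1 ((t0 + t1) / 2) t1)

end Pool.Agent.MTR
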