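import Pool.Agent.MTR.EUL
import Pool.Agent.MTR.CNT
import Pool.Agent.MTR.QML
import Pool.Agent.MSQ.EvD
/-!
DST (120 lines). Derivatives of the states along the two coordinate directions of the sector.
PROOF. sa (x + h) y = sa x y + h (2/3, -1/3, -1/3), sa x (y + h) = sa x y + h (1/6, 1/6, -1/3). For f C^1 off 0: HasDerivAt (fun t => f (sa t y))
(Σ v_k pd k f (sa x y)) x, v = (4,-2,-2)/6 resp. (1,1,-2)/6 (chain rule: HasFDerivAt.comp_hasDerivAt, fderiv f a v = Σ v_k pd k f a by linearity, as in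
MGF/SIM-type modules; v = Σ v_k single k 1). With hess_st (EUL) and v 2 = - v 0 - v 1 this gives the value
- (U_0 v_0 A_00 + (U_0 v_1 + U_1 v_0) A_01 + U_1 v_1 A_11), which is `d36 (6 v_0) (6 v_1) k` / 36. State 0: n^-3: n^2 = (8 + 4x^2+2xy+y^2)/12, derivative of n^-3
is -3/2 (n^2)' n^-5 = - 18 (n²)' / (12 n²) n^-3; 36 M * that = -54 * 12 (n²)' n^-3 = -54 (8x+2y) n^-3 = (-432 x - 108 y) n^-3.
-/
set_option autoImplicit false

open MeasureTheory Set Metric Pool.Agent.MEIS Pool.Agent.MSQ Pool.Agent.MGE Pool.Agent.MGF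

namespace Pool.Agent.MTR

private theorem dst_line (a v : E) (x : ℝ) :
    HasDerivAt (fun t : ℝ => a + (t - x) • v) v x := by
  have h1 : HasDerivAt (fun t : ℝ => (t - x) • v) ((1 : ℝ) • v) x :=
    ((hasDerivAt_id x).sub_const x).smul_const v
  rw [one_smul] at h1
  exact h1.const_add a

private theorem dst_sx (x y t : ℝ) :
    sa t y = sa x y + (t - x) • pt (2 / 3) (-1 / 3) (-1 / 3) := by
  ext i
  fin_cases i
  · change t + y / 2 + (1 - t - y) / 3 = x + y / 2 + (1 - x - y) / 3 + (t - x) * (2 / 3)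
    ring
  · change y / 2 + (1 - t - y) / 3 = y / 2 + (1 - x - y) / 3 + (t - x) * (-1 / 3)
    ring
  · change (1 - t - y) / 3 = (1 - x - y) / 3 + (t - x) * (-1 / 3)
    ring

private theorem dst_sy (x y t : ℝ) :
    sa x t = sa x y + (t - y) • pt (1 / 6) (1 / 6) (-1 / 3) := by
  ext i
  fin_cases i
  · change x + t / 2 + (1 - x - t) / 3 = x + y / 2 + (1 - x - y) / 3 + (t - y) * (1 / 6)
    ring
  · change t / 2 + (1 - x - t) / 3 = y / 2 + (1 - x - y) / 3 + (t - y) * (1 / 6)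
    ring
  · change (1 - x - t) / 3 = (1 - x - y) / 3 + (t - y) * (-1 / 3)
    ring

private theorem dst_gen {f : E → ℝ} (hf : Sm 1 f) {a : E} (ha : a ≠ 0) (p q r x : ℝ) :
    HasDerivAt (fun t : ℝ => f (a + (t - x) • pt p q r)) (p * pd 0 f a + q * pd 1 f a + r * pd 2 f a) x := by
  have h1 : HasFDerivAt f (fderiv ℝ f a) (a + (x - x) • pt p q r) := by
    rw [sub_self, zero_smul, add_zero]
    exact (sm_differentiableAt hf ha).hasFDerivAt
  have h2 := h1.comp_hasDerivAt x (dst_line a (pt p q r) x)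
  refine h2.congr_deriv ?_
  rw [fderiv_pd, Fin.sum_univ_three]
  have e0 : pt p q r 0 = p := rfl
  have e1 : pt p q r 1 = q := rfl
  have e2 : pt p q r 2 = r := rfl
  rw [e0, e1, e2]

/-- derivative of a smooth function along the sector -/
theorem comp_dx {f : E → ℝ} (hf : Sm 1 f) (x y : ℝ) :
    HasDerivAt (fun t => f (sa t y))
      (2 / 3 * pd 0 f (sa x y) - 1 / 3 * pd 1 f (sa x y) - 1 / 3 * pd 2 f (sa x y)) x := by
  have h := dst_gen hf (sa_ne x y) (2 / 3) (-1 / 3) (-1 / 3) x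
  have h2 : (fun t => f (sa t y)) = fun t : ℝ => f (sa x y + (t - x) • pt (2 / 3) (-1 / 3) (-1 / 3)) := by
    funext t
    rw [dst_sx x y t]
  rw [h2]
  refine h.congr_deriv ?_
  ring
theorem comp_dy {f : E → ℝ} (hf : Sm 1 f) (x y : ℝ) :
    HasDerivAt (fun t => f (sa x t))
      (1 / 6 * pd 0 f (sa x y) + 1 / 6 * pd 1 f (sa x y) - 1 / 3 * pd 2 f (sa x y)) y := by
  have h := dst_gen hf (sa_ne x y) (1 / 6) (1 / 6) (-1 / 3) y
  have h2 : (fun t => f (sa x t)) = fun t : ℝ => f (sa x y + (t - y) • pt (1 / 6) (1 / 6) (-1 / 3)) := by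
    funext t
    rw [dst_sy x y t]
  rw [h2]
  refine h.congr_deriv ?_
  ring

private theorem dst_nx (x y : ℝ) :
    HasDerivAt (fun t => nW (sa t y)) ((8 * x + 2 * y) / (24 * nW (sa x y))) x := by
  have hn := nW_pos x y
  have h1 : HasDerivAt (fun t : ℝ => (8 + 4 * t ^ 2 + 2 * t * y + y ^ 2) / 12)
      ((8 * x + 2 * y) / 12) x := by
    have ha : HasDerivAt (fun t : ℝ => t ^ 2) (2 * x) x := by
      simpa using hasDerivAt_pow 2 x
    have hb : HasDerivAt (fun t : ℝ => 2 * t * y) (2 * y) x := by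
      have := ((hasDerivAt_id x).const_mul 2).mul_const y
      simpa using this
    have hc := ((((ha.const_mul 4).const_add 8).add hb).add_const (y ^ 2)).div_const 12
    refine hc.congr_deriv ?_
    ring
  have he : (fun t => nW (sa t y)) = fun t : ℝ => √((8 + 4 * t ^ 2 + 2 * t * y + y ^ 2) / 12) := by
    funext t
    have h0 : 0 ≤ nW (sa t y) := (nW_pos t y).le
    rw [← nW_sq t y, mul_div_cancel_left₀ _ (by norm_num : (12 : ℝ) ≠ 0), Real.sqrt_sq h0]
  have hq : (8 + 4 * x ^ 2 + 2 * x * y + y ^ 2) / 12 = nW (sa x y) ^ 2 := by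
    rw [← nW_sq x y]
    ring
  rw [he]
  have h2 := h1.sqrt (by rw [hq]; positivity)
  refine h2.congr_deriv ?_
  rw [hq, Real.sqrt_sq hn.le]
  field_simp
  ring

private theorem dst_ny (x y : ℝ) :
    HasDerivAt (fun t => nW (sa x t)) ((2 * x + 2 * y) / (24 * nW (sa x y))) y := by
  have hn := nW_pos x y
  have h1 : HasDerivAt (fun t : ℝ => (8 + 4 * x ^ 2 + 2 * x * t + t ^ 2) / 12)
      ((2 * x + 2 * y) / 12) y := by
    have ha : HasDerivAt (fun t : ℝ => t ^ 2) (2 * y) y := by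
      simpa using hasDerivAt_pow 2 y
    have hb : HasDerivAt (fun t : ℝ => 2 * x * t) (2 * x) y := by
      have := (hasDerivAt_id y).const_mul (2 * x)
      simpa using this
    have hc := ((hb.const_add (8 + 4 * x ^ 2)).add ha).div_const 12
    exact hc
  have he : (fun t => nW (sa x t)) = fun t : ℝ => √((8 + 4 * x ^ 2 + 2 * x * t + t ^ 2) / 12) := by
    funext t
    have h0 : 0 ≤ nW (sa x t) := (nW_pos x t).le
    rw [← nW_sq x t, mul_div_cancel_left₀ _ (by norm_num : (12 : ℝ) ≠ 0), Real.sqrt_sq h0]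
  have hq : (8 + 4 * x ^ 2 + 2 * x * y + y ^ 2) / 12 = nW (sa x y) ^ 2 := by
    rw [← nW_sq x y]
    ring
  rw [he]
  have h2 := h1.sqrt (by rw [hq]; positivity)
  refine h2.congr_deriv ?_
  rw [hq, Real.sqrt_sq hn.le]
  field_simp
  ring

private theorem dst_n3 {g : ℝ → ℝ} {d z : ℝ} (h : HasDerivAt g d z) (h0 : 0 < g z) :
    HasDerivAt (fun t => 1 / g t ^ 3) (-(3 * d) / g z ^ 4) z := by
  have h1 := (h.pow 3).inv (pow_pos h0 3).ne'
  have h2 : (fun t => 1 / g t ^ 3) = fun t => (g t ^ 3)⁻¹ := by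
    funext t
    rw [one_div]
  rw [h2]
  refine h1.congr_deriv ?_
  simp only [Pi.pow_apply]
  field_simp
  push_cast
  ring

private theorem dst_n1 {g : ℝ → ℝ} {d z : ℝ} (h : HasDerivAt g d z) (h0 : 0 < g z) :
    HasDerivAt (fun t => 1 / g t) (-d / g z ^ 2) z := by
  have h1 := h.inv h0.ne'
  have h2 : (fun t => 1 / g t) = fun t => (g t)⁻¹ := by
    funext t
    rw [one_div]
  rw [h2]
  exact h1

private theorem dst_val0 {T : E → ℝ} (hs : Sm 3 T) (hh : Hom 1 T) (k : Fin 3) (p q x y : ℝ) (P0 Q0 : Int)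
    (hP : (P0 : ℝ) = 6 * p) (hQ : (Q0 : ℝ) = 6 * q) :
    p * pd 0 (pd k T) (sa x y) + q * pd 1 (pd k T) (sa x y) + (-p - q) * pd 2 (pd k T) (sa x y) =
      dotL (evE x y (qPm Mp (d36 P0 Q0 k.val))) (st T (sa x y)) / (36 * (12 * nW (sa x y) ^ 2)) := by
  have hn := nW_pos x y
  have hM := ev_Mp x y
  rw [dotL_qPm, hM]
  have h12 : (12 * nW (sa x y) ^ 2) ≠ 0 := by positivity
  rw [mul_comm (36 : ℝ), mul_div_mul_left _ _ h12]
  rw [hess_st hs hh _ (sa_ne x y) (sa_sum x y) 0 k, hess_st hs hh _ (sa_ne x y) (sa_sum x y) 1 k,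
    hess_st hs hh _ (sa_ne x y) (sa_sum x y) 2 k]
  have hp : p = P0 / 6 := by linarith
  have hq : q = Q0 / 6 := by linarith
  subst hp
  subst hq
  have e0 := sa_0 x y
  have e1 := sa_1 x y
  fin_cases k
  · simp only [d36, evE, List.map_cons, List.map_nil, dotL, st, ev_pSm, ev_pAdd, U0, U1, ev, evL, e0, e1]
    simp
    ring
  · simp only [d36, evE, List.map_cons, List.map_nil, dotL, st, ev_pSm, ev_pAdd, U0, U1, ev, evL, e0, e1]
    simp
    ring
  · simp only [d36, evE, List.map_cons, List.map_nil, dotL, st, ev_pSm, ev_pAdd, U0, U1, ev, evL, e0, e1]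
    simp
    ring

private theorem dst_k {T : E → ℝ} (a : E) (k : Fin 3) : (st T a).getD (k.val + 1) 0 = pd k T a := by
  fin_cases k <;> rfl

private theorem dst_sm {T : E → ℝ} (hs : Sm 3 T) (k : Fin 3) : Sm 1 (pd k T) :=
  sm_mono (sm_pd (n := 2) hs k) (by omega)

theorem st_dx {T : E → ℝ} (hs : Sm 3 T) (hh : Hom 1 T) (k : ℕ) (hk : k ≤ 3) (x y : ℝ) :
    HasDerivAt (fun t => (st T (sa t y)).getD k 0)
      (dotL (evE x y (mdx k)) (st T (sa x y)) / (36 * (12 * nW (sa x y) ^ 2))) x := by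
  have hn := nW_pos x y
  rcases Nat.eq_zero_or_pos k with rfl | hk0
  · refine (dst_n3 (dst_nx x y) hn).congr_deriv ?_
    simp only [mdx]
    rw [dotL_un]
    have e : (st T (sa x y)).getD 0 0 = 1 / nW (sa x y) ^ 3 := rfl
    rw [e]
    simp only [ev, evL]
    push_cast
    field_simp
    ring
  · obtain ⟨m, rfl⟩ : ∃ m, k = m + 1 := ⟨k - 1, by omega⟩
    have hm : m < 3 := by omega
    have h1 := dst_val0 hs hh ⟨m, hm⟩ (2 / 3) (-1 / 3) x y 4 (-2) (by norm_num) (by norm_num)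
    have h2 := comp_dx (dst_sm hs ⟨m, hm⟩) x y
    have h3 : (fun t => (st T (sa t y)).getD (m + 1) 0) = fun t => pd ⟨m, hm⟩ T (sa t y) := by
      funext t
      exact dst_k (sa t y) ⟨m, hm⟩
    rw [h3]
    refine h2.congr_deriv ?_
    change _ = dotL (evE x y (qPm Mp (d36 4 (-2) m))) (st T (sa x y)) / (36 * (12 * nW (sa x y) ^ 2))
    rw [← h1]
    ring
theorem st_dy {T : E → ℝ} (hs : Sm 3 T) (hh : Hom 1 T) (k : ℕ) (hk : k ≤ 3) (x y : ℝ) :
    HasDerivAt (fun t => (st T (sa x t)).getD k 0)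
      (dotL (evE x y (mdy k)) (st T (sa x y)) / (36 * (12 * nW (sa x y) ^ 2))) y := by
  have hn := nW_pos x y
  rcases Nat.eq_zero_or_pos k with rfl | hk0
  · refine (dst_n3 (dst_ny x y) hn).congr_deriv ?_
    simp only [mdy]
    rw [dotL_un]
    have e : (st T (sa x y)).getD 0 0 = 1 / nW (sa x y) ^ 3 := rfl
    rw [e]
    simp only [ev, evL]
    push_cast
    field_simp
    ring
  · obtain ⟨m, rfl⟩ : ∃ m, k = m + 1 := ⟨k - 1, by omega⟩
    have hm : m < 3 := by omega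
    have h1 := dst_val0 hs hh ⟨m, hm⟩ (1 / 6) (1 / 6) x y 1 1 (by norm_num) (by norm_num)
    have h2 := comp_dy (dst_sm hs ⟨m, hm⟩) x y
    have h3 : (fun t => (st T (sa x t)).getD (m + 1) 0) = fun t => pd ⟨m, hm⟩ T (sa x t) := by
      funext t
      exact dst_k (sa x t) ⟨m, hm⟩
    rw [h3]
    refine h2.congr_deriv ?_
    change _ = dotL (evE x y (qPm Mp (d36 1 1 m))) (st T (sa x y)) / (36 * (12 * nW (sa x y) ^ 2))
    rw [← h1]
    ring
/-- derivative of `1 / n` -/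
theorem ninv_dx (x y : ℝ) :
    HasDerivAt (fun t => 1 / nW (sa t y)) (-(ev x y Mx) / (24 * nW (sa x y) ^ 3)) x := by
  have hn := nW_pos x y
  refine (dst_n1 (dst_nx x y) hn).congr_deriv ?_
  simp only [ev, evL, Mx]
  push_cast
  field_simp
  ring
theorem ninv_dy (x y : ℝ) :
    HasDerivAt (fun t => 1 / nW (sa x t)) (-(ev x y My) / (24 * nW (sa x y) ^ 3)) y := by
  have hn := nW_pos x y
  refine (dst_n1 (dst_ny x y) hn).congr_deriv ?_
  simp only [ev, evL, My]
  push_cast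
  field_simp
  ring

end Pool.Agent.MTR
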