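import Pool.Agent.MTR.Comp
import Pool.Agent.MGF.FF
/-!
MTR (triangles of the Meissner cells): real part, definitions.
-/
set_option autoImplicit false

open MeasureTheory Set Metric Pool.Agent.MEIS Pool.Agent.MSQ Pool.Agent.MGE Pool.Agent.MGF

namespace Pool.Agent.MTR

noncomputable section

/-- point of the sector `a 0 ≥ a 1 ≥ a 2` of the plane: `x A + y B + (1-x-y) C` -/
def sa (x y : ℝ) : E :=
  pt (x + y / 2 + (1 - x - y) / 3) (y / 2 + (1 - x - y) / 3) ((1 - x - y) / 3)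

/-- `- D²T (e_i - e_2, e_j - e_2)` -/
def AA (i j : Fin 3) (T : E → ℝ) (a : E) : ℝ :=
  -(pd i (pd j T) a - pd i (pd 2 T) a - pd 2 (pd j T) a + pd 2 (pd 2 T) a)

/-- the states -/
def st (T : E → ℝ) (a : E) : List ℝ :=
  [1 / nW a ^ 3, pd 0 T a, pd 1 T a, pd 2 T a, AA 0 0 T a, AA 0 1 T a, AA 1 1 T a]

/-- the density of the functional of a triangle -/
def dS (T : E → ℝ) (a : E) : ℝ := 2 * T a / nW a ^ 4 + T a * Lp T a / nW a ^ 3

/-- component of the gauge field in the sector -/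
def gV (D : Int) (c : List P) (T : E → ℝ) (x y : ℝ) : ℝ :=
  qf (evE x y (gq c)) (st T (sa x y)) / (D * nW (sa x y))

/-- permutation of the coordinates -/
def pmE (σ : Equiv.Perm (Fin 3)) (a : E) : E := pt (a (σ 0)) (a (σ 1)) (a (σ 2))
def TP (σ : Equiv.Perm (Fin 3)) (T : E → ℝ) : E → ℝ := fun a => T (pmE σ a)

/-- the side functional of the data -/
def FFd (F : FD) : ℝ → ℝ → ℝ → ℝ → ℝ := FF F.D F.f0 F.f1 F.f2 F.f3 F.f4 F.f5 F.f6

/-- validity of the range of `b` -/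
def rOK (r : Rg) : Prop := 0 ≤ r.ln ∧ 0 < r.ld ∧ 0 < r.bd

/-- `b` is in the range -/
def inR (r : Rg) (b : ℝ) : Prop := (r.ln : ℝ) ≤ r.ld * b ∧ (r.bd : ℝ) * b ≤ r.bn

/-- bounds of `n^3` at a point -/
def nB (b : Bx) (s t N : ℝ) : Prop := 0 < b.dN ∧ ev s t b.nL ≤ b.dN * N ^ 3 ∧ b.dN * N ^ 3 ≤ ev s t b.nU

end

end Pool.Agent.MTR
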