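import Pool.Agent.MTR.Defs2
import Pool.Agent.MTR.Comp3
/-!
MTR: definitions for the soundness of the packed side test.
-/
set_option autoImplicit false

open MeasureTheory Set Metric Pool.Agent.MEIS Pool.Agent.MSQ Pool.Agent.MGE Pool.Agent.MGF Pool.Agent.PKD

namespace Pool.Agent.MTR

noncomputable section

/-- a side interval has been tested -/
def SideOK (ln ld bn bd : ℕ) (g : Gg) (F : FD) (b : Bn) : Prop :=
  ∃ (bt : Bt) (nf : ℕ), bt.bd = b ∧ sfchk ln ld bn bd g F nf bt = true

end

end Pool.Agent.MTR
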