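import Pool.Agent.MTR.Defs3
import Pool.Agent.MTR.Comp4
/-!
MTR: definitions for the homogeneous case.
-/
set_option autoImplicit false

open MeasureTheory Set Metric Pool.Agent.MEIS Pool.Agent.MSQ Pool.Agent.MGE Pool.Agent.MGF Pool.Agent.PKD

namespace Pool.Agent.MTR

noncomputable section

/-- the part of a quadratic form (list of 28 numbers) which is linear in `τ` and in `A` -/
def cA (q : List ℝ) (a0 a1 a2 : ℝ) : ℝ := q.getD 4 0 * a0 + q.getD 5 0 * a1 + q.getD 6 0 * a2

/-- a box has been tested (homogeneous case) -/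
def BoxH (bn bd : ℕ) (g : Gg) (b : Bn) : Prop := ∃ bt : Bt, bt.bd = b ∧ hfchk bn bd g bt = true

/-- a side interval has been tested (homogeneous case) -/
def SideH (bn bd : ℕ) (g : Gg) (F : FD) (b : Bn) : Prop :=
  ∃ (bt : Bt) (nf : ℕ), bt.bd = b ∧ shchk bn bd g F nf bt = true

end

end Pool.Agent.MTR
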