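import Pool.Agent.MTR.SAP
import Pool.Agent.MEIS.PDR
import Pool.Agent.MEIS.HOM
/-!
EUL (120 lines). Euler relations for a 1-homogeneous function, expressed in the states; the coefficients of `T6`, `L72`, `d36`.
PROOF. Hom 1 T: differentiate T (t a) = t T a at t = 1: Σ a_k pd k T a = T a (there are Euler lemmas in MEIS/HOM.lean or MGE/MGF: search euler);
pd k T is homogeneous of degree 0: Σ_j a_j pd j (pd k T) a = 0. pd i (pd j T) = pd j (pd i T) (pd_comm, MEIS). From this, with a 0 + a 1 + a 2 = 1: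
for v with v 0 + v 1 + v 2 = 0: Σ_j v_j pd j (pd k T) a = - (u_0 v_0 A_00 + (u_0 v_1 + u_1 v_0) A_01 + u_1 v_1 A_11), u = (δ_k0 - a 0, δ_k1 - a 1): because
e_k = a + u_0 (e_0 - e_2) + u_1 (e_1 - e_2) and D²T a = 0 (a linear system; linear_combination with the three Euler relations; first prove the formula
for pd i (pd j T) a itself: H_ij = - Σ U^i_p U^j_q A_pq, U^i = (δ_i0 - a 0, δ_i1 - a 1)). L72: Lp T = 3/2 (H00+H11+H22) - (H01+H02+H12).
-/
set_option autoImplicit false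

open MeasureTheory Set Metric Pool.Agent.MEIS Pool.Agent.MSQ Pool.Agent.MGE Pool.Agent.MGF

namespace Pool.Agent.MTR

theorem euler0 {T : E → ℝ} (hs : Sm 3 T) (hh : Hom 1 T) (a : E) (ha : a ≠ 0) :
    T a = a 0 * pd 0 T a + a 1 * pd 1 T a + a 2 * pd 2 T a := by
  have h := hom_euler (sm_mono hs (by norm_num)) hh ha
  rw [Fin.sum_univ_three] at h
  push_cast at h
  linarith

/-- the second derivatives from the states -/
theorem hess_st {T : E → ℝ} (hs : Sm 3 T) (hh : Hom 1 T) (a : E) (ha : a ≠ 0) (h1 : a 0 + a 1 + a 2 = 1)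
    (i j : Fin 3) :
    pd i (pd j T) a = -(((if i = 0 then 1 else 0) - a 0) * ((if j = 0 then 1 else 0) - a 0) * AA 0 0 T a +
      (((if i = 0 then 1 else 0) - a 0) * ((if j = 1 then 1 else 0) - a 1) +
        ((if i = 1 then 1 else 0) - a 1) * ((if j = 0 then 1 else 0) - a 0)) * AA 0 1 T a +
      ((if i = 1 then 1 else 0) - a 1) * ((if j = 1 then 1 else 0) - a 1) * AA 1 1 T a) := by
  have hs2 : Sm 2 T := sm_mono hs (by norm_num)
  have e0 := euler_two hs2 hh ha 0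
  have e1 := euler_two hs2 hh ha 1
  have e2 := euler_two hs2 hh ha 2
  rw [Fin.sum_univ_three] at e0 e1 e2
  have c10 := pd_comm hs2 ha 1 0
  have c20 := pd_comm hs2 ha 2 0
  have c21 := pd_comm hs2 ha 2 1
  have h2 : a 2 = 1 - a 0 - a 1 := by linarith
  rw [h2] at e0 e1 e2
  rw [c10] at e1
  rw [c20, c21] at e2
  fin_cases i <;> fin_cases j <;> simp [AA]
  · rw [c20, c21]
    linear_combination 2 * e0 - a 0 * e0 - a 1 * e1 - (1 - a 0 - a 1) * e2
  · rw [c20, c21]
    linear_combination e0 + e1 - a 0 * e0 - a 1 * e1 - (1 - a 0 - a 1) * e2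
  · rw [c20, c21]
    linear_combination e0 + e2 - a 0 * e0 - a 1 * e1 - (1 - a 0 - a 1) * e2
  · rw [c10, c20, c21]
    linear_combination e0 + e1 - a 0 * e0 - a 1 * e1 - (1 - a 0 - a 1) * e2
  · rw [c20, c21]
    linear_combination 2 * e1 - a 0 * e0 - a 1 * e1 - (1 - a 0 - a 1) * e2
  · rw [c20, c21]
    linear_combination e1 + e2 - a 0 * e0 - a 1 * e1 - (1 - a 0 - a 1) * e2
  · rw [c20, c21]
    linear_combination e0 + e2 - a 0 * e0 - a 1 * e1 - (1 - a 0 - a 1) * e2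
  · rw [c20, c21]
    linear_combination e1 + e2 - a 0 * e0 - a 1 * e1 - (1 - a 0 - a 1) * e2
  · rw [c20, c21]
    linear_combination 2 * e2 - a 0 * e0 - a 1 * e1 - (1 - a 0 - a 1) * e2

theorem T6_val {T : E → ℝ} (hs : Sm 3 T) (hh : Hom 1 T) (x y : ℝ) :
    dotL (evE x y T6) (st T (sa x y)) = 6 * T (sa x y) := by
  obtain ⟨h0, h1, h2⟩ := sa_a6 x y
  have h := euler0 hs hh (sa x y) (sa_ne x y)
  simp only [T6, evE, List.map, dotL, st, h0, h1, h2, ev_nil]
  rw [h]
  ring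

private theorem eul_U0 (x y : ℝ) (k : ℕ) : ev x y (U0 k) = 6 * ((if k = 0 then 1 else 0) - sa x y 0) := by
  rw [sa_0]
  cases k with
  | zero => simp [U0, ev, evL]; ring
  | succ k => simp [U0, ev, evL]; ring

private theorem eul_U1 (x y : ℝ) (k : ℕ) : ev x y (U1 k) = 6 * ((if k = 1 then 1 else 0) - sa x y 1) := by
  rw [sa_1]
  match k with
  | 0 => simp [U1, ev, evL]; ring
  | 1 => simp [U1, ev, evL]; ring
  | k + 2 => simp [U1, ev, evL]; ring

theorem L72_val {T : E → ℝ} (hs : Sm 3 T) (hh : Hom 1 T) (x y : ℝ) :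
    dotL (evE x y L72) (st T (sa x y)) = 72 * Lp T (sa x y) := by
  have hH := hess_st hs hh (sa x y) (sa_ne x y) (sa_sum x y)
  have hz : ev x y [] = 0 := ev_nil x y
  simp only [L72, evE, List.map, dotL, st, ev_sumP, ev_pSm, ev_pMul, eul_U0, eul_U1, hz, List.sum_cons,
    List.sum_nil]
  unfold MGF.Lp
  rw [hH 0 0, hH 1 1, hH 2 2]
  simp only [hH 0 1, hH 0 2, hH 1 2, hH 1 0, hH 2 0, hH 2 1]
  push_cast
  simp
  ring

end Pool.Agent.MTR
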