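import Pool.Agent.MTR.EUL
import Pool.Agent.MEIS.HOM
import Pool.Agent.MGF.WPF
/-!
FRA (120 lines). Lower bounds from concavity.
PROOF. T is concave on the segments avoiding 0 (here: on the closed cone a ≥ 0 without 0, which is convex): second derivative along a line is Σ v_i v_j pd i (pd j T) ≤ 0 (conc;
compare the gradient inequality proofs in MGF, e.g. LEI or TRH). Gradient inequality: T b ≤ Σ b_k pd k T a for a, b in the cone (from concavity and Euler T a = Σ a_k pd k T a;
or from 1-homogeneity). (1) e_k ≥ 0: b = a + s single k, T b ≥ 0 for all s > 0: 0 ≤ T a + s pd k T a, s → ∞ (s = large). (2) b = (1,1,1): β ≤ Σ pd k T a. (3) superadditivity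
T (a + b) ≥ T a + T b on the cone (gradient inequality at a + b twice); a = a_2 (1,1,1) + (a_0 - a_2) V_0 + (a_1 - a_2) V_1 gives T a ≥ a_2 β; a_0 (1,1,1) = a + (a_0 - a_1) V_1 + (a_0 - a_2) V_2
gives a_0 β ≥ T a (homogeneity: T (t a) = t T a for t > 0; T (0) : use only positive coefficients or treat zero coefficients separately: the statement for t = 0 is trivial because the
summand vanishes).
-/
set_option autoImplicit false

open MeasureTheory Set Metric Pool.Agent.MEIS Pool.Agent.MSQ Pool.Agent.MGE Pool.Agent.MGF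

namespace Pool.Agent.MTR

private theorem fra_smul (t : ℝ) (a : E) (k : Fin 3) : (t • a) k = t * a k := rfl
private theorem fra_add (a b : E) (k : Fin 3) : (a + b) k = a k + b k := rfl
private theorem fra_sub (a b : E) (k : Fin 3) : (a - b) k = a k - b k := rfl

private theorem fra_pos {a : E} (ha : ∀ k, 0 ≤ a k) (ha0 : a ≠ 0) : 0 < a 0 + a 1 + a 2 := by
  by_contra hn
  have h0 := ha 0
  have h1 := ha 1
  have h2 := ha 2
  apply ha0
  ext m
  fin_cases m
  · change a 0 = 0
    linarith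
  · change a 1 = 0
    linarith
  · change a 2 = 0
    linarith

private theorem fra_ne {a : E} (h : 0 < a 0 + a 1 + a 2) : a ≠ 0 := by
  intro e
  rw [e] at h
  have : ∀ k : Fin 3, (0 : E) k = 0 := fun k => rfl
  rw [this, this, this] at h
  norm_num at h

private theorem fra_line {S : E → ℝ} (hs : Sm 1 S) (a v : E) (t : ℝ) (hne : a + t • v ≠ 0) :
    HasDerivAt (fun s : ℝ => S (a + s • v)) (∑ i, v i * pd i S (a + t • v)) t := by
  have h1 : HasDerivAt (fun s : ℝ => a + s • v) v t := by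
    have h2 : HasDerivAt (fun s : ℝ => s • v) ((1 : ℝ) • v) t := (hasDerivAt_id t).smul_const v
    rw [one_smul] at h2
    exact h2.const_add a
  have h3 := (sm_differentiableAt hs hne).hasFDerivAt.comp_hasDerivAt t h1
  rw [fderiv_pd] at h3
  exact h3

private theorem fra_grad {S : E → ℝ} (hs : Sm 3 S) (hh : Hom 1 S)
    (hc : ∀ a : E, a ≠ 0 → ∀ v : E, 0 ≤ ∑ i, ∑ j, v i * v j * pd i (pd j S) a)
    {a b : E} (ha : ∀ k, 0 ≤ a k) (hb : ∀ k, 0 ≤ b k) (ha0 : a ≠ 0) (hb0 : b ≠ 0) :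
    b 0 * pd 0 S a + b 1 * pd 1 S a + b 2 * pd 2 S a ≤ S b := by
  have pa := fra_pos ha ha0
  have pb := fra_pos hb hb0
  have hs1 : Sm 1 S := sm_mono hs (by norm_num)
  have hs2 : ∀ j, Sm 1 (pd j S) := fun j => sm_mono (sm_pd (n := 2) hs j) (by norm_num)
  set v : E := b - a with hv
  have hne : ∀ t : ℝ, 0 ≤ t → t ≤ 1 → a + t • v ≠ 0 := by
    intro t h0 h1
    apply fra_ne
    simp only [fra_add, fra_smul, hv, fra_sub]
    have e : a 0 + t * (b 0 - a 0) + (a 1 + t * (b 1 - a 1)) + (a 2 + t * (b 2 - a 2))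
        = (1 - t) * (a 0 + a 1 + a 2) + t * (b 0 + b 1 + b 2) := by ring
    rw [e]
    rcases le_or_gt t (1 / 2) with h | h
    · have := mul_pos (show 0 < 1 - t by linarith) pa
      have := mul_nonneg h0 pb.le
      linarith
    · have := mul_nonneg (show 0 ≤ 1 - t by linarith) pa.le
      have := mul_pos (show 0 < t by linarith) pb
      linarith
  have d1 : ∀ t : ℝ, 0 ≤ t → t ≤ 1 →
      HasDerivAt (fun s : ℝ => S (a + s • v)) (∑ i, v i * pd i S (a + t • v)) t :=
    fun t h0 h1 => fra_line hs1 a v t (hne t h0 h1)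
  have d2 : ∀ t : ℝ, 0 ≤ t → t ≤ 1 →
      HasDerivAt (fun s : ℝ => ∑ i, v i * pd i S (a + s • v))
        (∑ j, v j * ∑ i, v i * pd i (pd j S) (a + t • v)) t := by
    intro t h0 h1
    exact HasDerivAt.fun_sum fun j _ => (fra_line (hs2 j) a v t (hne t h0 h1)).const_mul (v j)
  have d3 : ∀ t : ℝ, 0 ≤ t → t ≤ 1 → 0 ≤ ∑ j, v j * ∑ i, v i * pd i (pd j S) (a + t • v) := by
    intro t h0 h1
    have h := hc _ (hne t h0 h1) v
    rw [Finset.sum_comm] at h
    refine h.trans (le_of_eq ?_)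
    refine Finset.sum_congr rfl fun j _ => ?_
    rw [Finset.mul_sum]
    refine Finset.sum_congr rfl fun i _ => ?_
    ring
  obtain ⟨c, hc1, hc2⟩ := exists_hasDerivAt_eq_slope (fun s : ℝ => S (a + s • v))
    (fun t => ∑ i, v i * pd i S (a + t • v)) (zero_lt_one' ℝ)
    (fun t ht => (d1 t ht.1 ht.2).continuousAt.continuousWithinAt)
    (fun t ht => d1 t ht.1.le ht.2.le)
  obtain ⟨c', hc1', hc2'⟩ := exists_hasDerivAt_eq_slope (fun t => ∑ i, v i * pd i S (a + t • v))
    (fun t => ∑ j, v j * ∑ i, v i * pd i (pd j S) (a + t • v)) hc1.1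
    (fun t ht => (d2 t ht.1 (ht.2.trans hc1.2.le)).continuousAt.continuousWithinAt)
    (fun t ht => d2 t ht.1.le (ht.2.le.trans hc1.2.le))
  have h5 := d3 c' hc1'.1.le (hc1'.2.le.trans hc1.2.le)
  have h5' : 0 ≤ ((∑ i, v i * pd i S (a + c • v)) - ∑ i, v i * pd i S (a + (0 : ℝ) • v)) / (c - 0) := by
    have e := hc2'
    simp only at e
    rw [← e]
    exact h5
  rw [sub_zero] at h5'
  have h6 : 0 ≤ (∑ i, v i * pd i S (a + c • v)) - ∑ i, v i * pd i S (a + (0 : ℝ) • v) := by
    by_contra hn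
    push_neg at hn
    have := div_neg_of_neg_of_pos hn hc1.1
    linarith
  have h7 : ∑ i, v i * pd i S (a + c • v) = S (a + (1 : ℝ) • v) - S (a + (0 : ℝ) • v) := by
    have e := hc2
    simp only at e
    rw [e]
    norm_num
  rw [h7, zero_smul, add_zero, one_smul, hv, add_sub_cancel] at h6
  have h8 := hom_euler hs1 hh ha0
  rw [Fin.sum_univ_three] at h6 h8
  simp only [fra_sub] at h6
  push_cast at h8
  linarith

private theorem fra_pt {x y z : ℝ} (hx : 0 ≤ x) (hy : 0 ≤ y) (hz : 0 ≤ z) (k : Fin 3) : 0 ≤ pt x y z k := by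
  fin_cases k
  · exact hx
  · exact hy
  · exact hz

private theorem fra_ptne {x y z : ℝ} (h : 0 < x + y + z) : pt x y z ≠ 0 := by
  apply fra_ne
  rw [pt0, pt1, pt2]
  exact h

theorem grad_le {T : E → ℝ} {β : ℝ} (h : TrHyp T β) {a b : E} (ha : ∀ k, 0 ≤ a k) (hb : ∀ k, 0 ≤ b k)
    (ha0 : a ≠ 0) (hb0 : b ≠ 0) : T b ≤ b 0 * pd 0 T a + b 1 * pd 1 T a + b 2 * pd 2 T a := by
  have hT1 : Sm 1 T := sm_mono h.sm (by norm_num)
  have hT2 : ∀ j, Sm 1 (pd j T) := fun j => sm_mono (sm_pd (n := 2) h.sm j) (by norm_num)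
  have k1 : ∀ y : E, y ≠ 0 → ∀ j, pd j (fun y => (-1) * T y) y = (-1) * pd j T y :=
    fun y hy j => pd_cmul (-1) hT1 hy j
  have k2 : ∀ y : E, y ≠ 0 → ∀ i j, pd i (pd j (fun y => (-1) * T y)) y = (-1) * pd i (pd j T) y := by
    intro y hy i j
    rw [pd_congr (g := fun y => (-1) * pd j T y) (fun z hz => k1 z hz j) hy i, pd_cmul (-1) (hT2 j) hy i]
  have key := fra_grad (S := fun y => (-1) * T y) (sm_cmul (-1) h.sm) (hom_cmul (-1) h.hom)
    (by
      intro y hy v
      simp only [k2 y hy]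
      have hc := h.conc y hy v
      have e : ∑ i, ∑ j, v i * v j * (-1 * pd i (pd j T) y) = - ∑ i, ∑ j, v i * v j * pd i (pd j T) y := by
        simp only [Fin.sum_univ_three]
        ring
      rw [e]
      linarith) ha hb ha0 hb0
  rw [k1 a ha0, k1 a ha0, k1 a ha0] at key
  linarith

theorem e_nonneg {T : E → ℝ} {β : ℝ} (h : TrHyp T β) {a : E} (ha : ∀ k, 0 ≤ a k) (ha0 : a ≠ 0) (k : Fin 3) :
    0 ≤ pd k T a := by
  by_contra hn
  push Not at hn
  have hTa := h.nonneg a (ha 0) (ha 1) (ha 2)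
  have he := euler0 h.sm h.hom a ha0
  have hpa := fra_pos ha ha0
  have hs : ∀ s : ℝ, 0 < s → 0 ≤ T a + s * pd k T a := by
    intro s hs
    have hb : ∀ j, 0 ≤ (a + s • (EuclideanSpace.single k (1 : ℝ) : E)) j := by
      intro j
      rw [fra_add, fra_smul]
      have h1 := ha j
      have h2 : 0 ≤ (EuclideanSpace.single k (1 : ℝ) : E) j := by
        simp [Pi.single_apply]
        split_ifs <;> norm_num
      have := mul_nonneg hs.le h2
      linarith
    have hb0 : a + s • (EuclideanSpace.single k (1 : ℝ) : E) ≠ 0 := by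
      apply fra_ne
      simp only [fra_add, fra_smul]
      have h2 : ∀ j, 0 ≤ (EuclideanSpace.single k (1 : ℝ) : E) j := by
        intro j
        simp [Pi.single_apply]
        split_ifs <;> norm_num
      have h20 := mul_nonneg hs.le (h2 0)
      have h21 := mul_nonneg hs.le (h2 1)
      have h22 := mul_nonneg hs.le (h2 2)
      linarith
    have g := grad_le h ha hb ha0 hb0
    have nn := h.nonneg _ (hb 0) (hb 1) (hb 2)
    simp only [fra_add, fra_smul] at g
    have e2 : (EuclideanSpace.single k (1 : ℝ) : E) 0 * pd 0 T a + (EuclideanSpace.single k (1 : ℝ) : E) 1 * pd 1 T a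
        + (EuclideanSpace.single k (1 : ℝ) : E) 2 * pd 2 T a = pd k T a := by
      fin_cases k <;> simp
    have e3 : (a 0 + s * (EuclideanSpace.single k (1 : ℝ) : E) 0) * pd 0 T a +
        (a 1 + s * (EuclideanSpace.single k (1 : ℝ) : E) 1) * pd 1 T a +
        (a 2 + s * (EuclideanSpace.single k (1 : ℝ) : E) 2) * pd 2 T a =
        (a 0 * pd 0 T a + a 1 * pd 1 T a + a 2 * pd 2 T a) +
        s * ((EuclideanSpace.single k (1 : ℝ) : E) 0 * pd 0 T a + (EuclideanSpace.single k (1 : ℝ) : E) 1 * pd 1 T a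
        + (EuclideanSpace.single k (1 : ℝ) : E) 2 * pd 2 T a) := by ring
    rw [e3, e2, ← he] at g
    exact nn.trans g
  have hp : 0 < (T a + 1) / (- pd k T a) := div_pos (by linarith) (by linarith)
  have := hs _ hp
  have e4 : (T a + 1) / (- pd k T a) * pd k T a = -(T a + 1) := by
    rw [div_neg, neg_mul, div_mul_cancel₀ _ hn.ne]
  rw [e4] at this
  linarith

theorem e_sum {T : E → ℝ} {β : ℝ} (h : TrHyp T β) {a : E} (ha : ∀ k, 0 ≤ a k) (ha0 : a ≠ 0) :
    β ≤ pd 0 T a + pd 1 T a + pd 2 T a := by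
  have g := grad_le h ha (b := pt 1 1 1) (fra_pt (by norm_num) (by norm_num) (by norm_num)) ha0
    (fra_ptne (by norm_num))
  rw [pt0, pt1, pt2, h.cen] at g
  linarith

private theorem fra_super {T : E → ℝ} {β : ℝ} (h : TrHyp T β) {a b : E} (ha : ∀ k, 0 ≤ a k) (hb : ∀ k, 0 ≤ b k)
    (ha0 : a ≠ 0) (hb0 : b ≠ 0) : T a + T b ≤ T (a + b) := by
  have pa := fra_pos ha ha0
  have pb := fra_pos hb hb0
  have hc : ∀ k, 0 ≤ (a + b) k := by
    intro k
    rw [fra_add]
    exact add_nonneg (ha k) (hb k)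
  have hc0 : a + b ≠ 0 := by
    apply fra_ne
    simp only [fra_add]
    linarith
  have g1 := grad_le h hc ha hc0 ha0
  have g2 := grad_le h hc hb hc0 hb0
  have he := euler0 h.sm h.hom (a + b) hc0
  simp only [fra_add] at he
  rw [he]
  linarith

private theorem fra_diag {T : E → ℝ} {β : ℝ} (h : TrHyp T β) {t : ℝ} (ht : 0 < t) : T (pt t t t) = t * β := by
  have e : pt t t t = t • pt 1 1 1 := by
    ext k
    rw [fra_smul]
    fin_cases k
    · change pt t t t 0 = t * pt 1 1 1 0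
      rw [pt0, pt0, mul_one]
    · change pt t t t 1 = t * pt 1 1 1 1
      rw [pt1, pt1, mul_one]
    · change pt t t t 2 = t * pt 1 1 1 2
      rw [pt2, pt2, mul_one]
  rw [e, h.hom t ht _ (fra_ptne (by norm_num)), h.cen, zpow_one]

theorem T_lo {T : E → ℝ} {β : ℝ} (h : TrHyp T β) {a : E} (h2 : 0 ≤ a 2) (h1 : a 2 ≤ a 1) (h0 : a 1 ≤ a 0)
    (ha0 : a ≠ 0) : a 2 * β ≤ T a := by
  rcases h2.eq_or_lt with h3 | h3
  · rw [← h3, zero_mul]
    exact h.nonneg a (by linarith) (by linarith) h2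
  have e : a = pt (a 2) (a 2) (a 2) + pt (a 0 - a 2) (a 1 - a 2) 0 := by
    ext k
    rw [fra_add]
    fin_cases k
    · change a 0 = pt (a 2) (a 2) (a 2) 0 + pt (a 0 - a 2) (a 1 - a 2) 0 0
      rw [pt0, pt0]
      ring
    · change a 1 = pt (a 2) (a 2) (a 2) 1 + pt (a 0 - a 2) (a 1 - a 2) 0 1
      rw [pt1, pt1]
      ring
    · change a 2 = pt (a 2) (a 2) (a 2) 2 + pt (a 0 - a 2) (a 1 - a 2) 0 2
      rw [pt2, pt2]
      ring
  rcases (show a 2 ≤ a 0 by linarith).eq_or_lt with h4 | h4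
  · have e5 : pt (a 0 - a 2) (a 1 - a 2) 0 = 0 := by
      ext k
      fin_cases k
      · change pt (a 0 - a 2) (a 1 - a 2) 0 0 = 0
        rw [pt0]
        linarith
      · change pt (a 0 - a 2) (a 1 - a 2) 0 1 = 0
        rw [pt1]
        linarith
      · change pt (a 0 - a 2) (a 1 - a 2) 0 2 = 0
        rw [pt2]
    rw [e5, add_zero] at e
    have e6 := fra_diag h h3
    rw [← e] at e6
    rw [e6]
  · have g := fra_super h (a := pt (a 2) (a 2) (a 2)) (b := pt (a 0 - a 2) (a 1 - a 2) 0)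
      (fra_pt h2 h2 h2) (fra_pt (by linarith) (by linarith) le_rfl) (fra_ptne (by linarith))
      (fra_ptne (by linarith))
    rw [← e, fra_diag h h3] at g
    have nn := h.nonneg (pt (a 0 - a 2) (a 1 - a 2) 0) (by rw [pt0]; linarith) (by rw [pt1]; linarith)
      (by rw [pt2])
    linarith

theorem T_hi {T : E → ℝ} {β : ℝ} (h : TrHyp T β) {a : E} (h2 : 0 ≤ a 2) (h1 : a 2 ≤ a 1) (h0 : a 1 ≤ a 0)
    (ha0 : a ≠ 0) : T a ≤ a 0 * β := by
  have hp : 0 < a 0 := by
    have := fra_pos (a := a) (by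
      intro k
      fin_cases k
      · change 0 ≤ a 0
        linarith
      · change 0 ≤ a 1
        linarith
      · exact h2) ha0
    linarith
  have e : pt (a 0) (a 0) (a 0) = a + pt 0 (a 0 - a 1) (a 0 - a 2) := by
    ext k
    rw [fra_add]
    fin_cases k
    · change pt (a 0) (a 0) (a 0) 0 = a 0 + pt 0 (a 0 - a 1) (a 0 - a 2) 0
      rw [pt0, pt0]
      ring
    · change pt (a 0) (a 0) (a 0) 1 = a 1 + pt 0 (a 0 - a 1) (a 0 - a 2) 1
      rw [pt1, pt1]
      ring
    · change pt (a 0) (a 0) (a 0) 2 = a 2 + pt 0 (a 0 - a 1) (a 0 - a 2) 2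
      rw [pt2, pt2]
      ring
  rcases (show a 2 ≤ a 0 by linarith).eq_or_lt with h4 | h4
  · have e5 : pt 0 (a 0 - a 1) (a 0 - a 2) = 0 := by
      ext k
      fin_cases k
      · change pt 0 (a 0 - a 1) (a 0 - a 2) 0 = 0
        rw [pt0]
      · change pt 0 (a 0 - a 1) (a 0 - a 2) 1 = 0
        rw [pt1]
        linarith
      · change pt 0 (a 0 - a 1) (a 0 - a 2) 2 = 0
        rw [pt2]
        linarith
    rw [e5, add_zero] at e
    have e6 := fra_diag h hp
    rw [e] at e6
    rw [e6]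
  · have g := fra_super h (a := a) (b := pt 0 (a 0 - a 1) (a 0 - a 2))
      (by
        intro k
        fin_cases k
        · change 0 ≤ a 0
          linarith
        · change 0 ≤ a 1
          linarith
        · exact h2) (fra_pt le_rfl (by linarith) (by linarith)) ha0 (fra_ptne (by linarith))
    rw [← e, fra_diag h hp] at g
    have nn := h.nonneg (pt 0 (a 0 - a 1) (a 0 - a 2)) (by rw [pt0]) (by rw [pt1]; linarith)
      (by rw [pt2]; linarith)
    linarith

end Pool.Agent.MTR
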