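import Pool.Agent.MTR.EUL
import Pool.Agent.MEIS.HOM
import Pool.Agent.MGF.WPF
/-!
FRB (100 lines). Upper bounds from the convexity of `nW + T`.
PROOF. S = nW + T is 1-homogeneous, smooth off 0, D²S ≥ 0 (curv), so convex on the cone a ≥ 0, a ≠ 0: gradient inequality S b ≥ Σ b_k pd k S a (as FRA.grad_le with the opposite sign).
b = single k 1: S b = 1 + 0 (v0, v1, v2; nW of a vertex is 1). b = (1,1,1): S b = √6 + β, √6 ≤ 2.4495. pd k nW a = (a_k + Σ_j a_j)/(2 nW a) (derivative of the square root; there is a lemma on pd of nW in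
MGF: search pd 0 nW / nW_sm / WPF), = (1 + a_k)/(2 nW a) when Σ a_j = 1. Sum: 4/(2 nW).
-/
set_option autoImplicit false

open MeasureTheory Set Metric Pool.Agent.MEIS Pool.Agent.MSQ Pool.Agent.MGE Pool.Agent.MGF

namespace Pool.Agent.MTR

private theorem frb_smul (t : ℝ) (a : E) (k : Fin 3) : (t • a) k = t * a k := rfl
private theorem frb_add (a b : E) (k : Fin 3) : (a + b) k = a k + b k := rfl
private theorem frb_sub (a b : E) (k : Fin 3) : (a - b) k = a k - b k := rfl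

private theorem frb_pos {a : E} (ha : ∀ k, 0 ≤ a k) (ha0 : a ≠ 0) : 0 < a 0 + a 1 + a 2 := by
  by_contra hn
  have h0 := ha 0
  have h1 := ha 1
  have h2 := ha 2
  apply ha0
  ext m
  fin_cases m
  · change a 0 = 0
    linarith
  · change a 1 = 0
    linarith
  · change a 2 = 0
    linarith

private theorem frb_ne {a : E} (h : 0 < a 0 + a 1 + a 2) : a ≠ 0 := by
  intro e
  rw [e] at h
  have : ∀ k : Fin 3, (0 : E) k = 0 := fun k => rfl
  rw [this, this, this] at h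
  norm_num at h

private theorem frb_line {S : E → ℝ} (hs : Sm 1 S) (a v : E) (t : ℝ) (hne : a + t • v ≠ 0) :
    HasDerivAt (fun s : ℝ => S (a + s • v)) (∑ i, v i * pd i S (a + t • v)) t := by
  have h1 : HasDerivAt (fun s : ℝ => a + s • v) v t := by
    have h2 : HasDerivAt (fun s : ℝ => s • v) ((1 : ℝ) • v) t := (hasDerivAt_id t).smul_const v
    rw [one_smul] at h2
    exact h2.const_add a
  have h3 := (sm_differentiableAt hs hne).hasFDerivAt.comp_hasDerivAt t h1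
  rw [fderiv_pd] at h3
  exact h3

private theorem frb_grad {S : E → ℝ} (hs : Sm 3 S) (hh : Hom 1 S)
    (hc : ∀ a : E, a ≠ 0 → ∀ v : E, 0 ≤ ∑ i, ∑ j, v i * v j * pd i (pd j S) a)
    {a b : E} (ha : ∀ k, 0 ≤ a k) (hb : ∀ k, 0 ≤ b k) (ha0 : a ≠ 0) (hb0 : b ≠ 0) :
    b 0 * pd 0 S a + b 1 * pd 1 S a + b 2 * pd 2 S a ≤ S b := by
  have pa := frb_pos ha ha0
  have pb := frb_pos hb hb0
  have hs1 : Sm 1 S := sm_mono hs (by norm_num)
  have hs2 : ∀ j, Sm 1 (pd j S) := fun j => sm_mono (sm_pd (n := 2) hs j) (by norm_num)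
  set v : E := b - a with hv
  have hne : ∀ t : ℝ, 0 ≤ t → t ≤ 1 → a + t • v ≠ 0 := by
    intro t h0 h1
    apply frb_ne
    simp only [frb_add, frb_smul, hv, frb_sub]
    have e : a 0 + t * (b 0 - a 0) + (a 1 + t * (b 1 - a 1)) + (a 2 + t * (b 2 - a 2))
        = (1 - t) * (a 0 + a 1 + a 2) + t * (b 0 + b 1 + b 2) := by ring
    rw [e]
    rcases le_or_gt t (1 / 2) with h | h
    · have := mul_pos (show 0 < 1 - t by linarith) pa
      have := mul_nonneg h0 pb.le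
      linarith
    · have := mul_nonneg (show 0 ≤ 1 - t by linarith) pa.le
      have := mul_pos (show 0 < t by linarith) pb
      linarith
  have d1 : ∀ t : ℝ, 0 ≤ t → t ≤ 1 →
      HasDerivAt (fun s : ℝ => S (a + s • v)) (∑ i, v i * pd i S (a + t • v)) t :=
    fun t h0 h1 => frb_line hs1 a v t (hne t h0 h1)
  have d2 : ∀ t : ℝ, 0 ≤ t → t ≤ 1 →
      HasDerivAt (fun s : ℝ => ∑ i, v i * pd i S (a + s • v))
        (∑ j, v j * ∑ i, v i * pd i (pd j S) (a + t • v)) t := by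
    intro t h0 h1
    exact HasDerivAt.fun_sum fun j _ => (frb_line (hs2 j) a v t (hne t h0 h1)).const_mul (v j)
  have d3 : ∀ t : ℝ, 0 ≤ t → t ≤ 1 → 0 ≤ ∑ j, v j * ∑ i, v i * pd i (pd j S) (a + t • v) := by
    intro t h0 h1
    have h := hc _ (hne t h0 h1) v
    rw [Finset.sum_comm] at h
    refine h.trans (le_of_eq ?_)
    refine Finset.sum_congr rfl fun j _ => ?_
    rw [Finset.mul_sum]
    refine Finset.sum_congr rfl fun i _ => ?_
    ring
  obtain ⟨c, hc1, hc2⟩ := exists_hasDerivAt_eq_slope (fun s : ℝ => S (a + s • v))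
    (fun t => ∑ i, v i * pd i S (a + t • v)) (zero_lt_one' ℝ)
    (fun t ht => (d1 t ht.1 ht.2).continuousAt.continuousWithinAt)
    (fun t ht => d1 t ht.1.le ht.2.le)
  obtain ⟨c', hc1', hc2'⟩ := exists_hasDerivAt_eq_slope (fun t => ∑ i, v i * pd i S (a + t • v))
    (fun t => ∑ j, v j * ∑ i, v i * pd i (pd j S) (a + t • v)) hc1.1
    (fun t ht => (d2 t ht.1 (ht.2.trans hc1.2.le)).continuousAt.continuousWithinAt)
    (fun t ht => d2 t ht.1.le (ht.2.le.trans hc1.2.le))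
  have h5 := d3 c' hc1'.1.le (hc1'.2.le.trans hc1.2.le)
  have h5' : 0 ≤ ((∑ i, v i * pd i S (a + c • v)) - ∑ i, v i * pd i S (a + (0 : ℝ) • v)) / (c - 0) := by
    have e := hc2'
    simp only at e
    rw [← e]
    exact h5
  rw [sub_zero] at h5'
  have h6 : 0 ≤ (∑ i, v i * pd i S (a + c • v)) - ∑ i, v i * pd i S (a + (0 : ℝ) • v) := by
    by_contra hn
    push_neg at hn
    have := div_neg_of_neg_of_pos hn hc1.1
    linarith
  have h7 : ∑ i, v i * pd i S (a + c • v) = S (a + (1 : ℝ) • v) - S (a + (0 : ℝ) • v) := by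
    have e := hc2
    simp only at e
    rw [e]
    norm_num
  rw [h7, zero_smul, add_zero, one_smul, hv, add_sub_cancel] at h6
  have h8 := hom_euler hs1 hh ha0
  rw [Fin.sum_univ_three] at h6 h8
  simp only [frb_sub] at h6
  push_cast at h8
  linarith

private theorem frb_S {T : E → ℝ} {β : ℝ} (h : TrHyp T β) {a b : E} (ha : ∀ k, 0 ≤ a k) (hb : ∀ k, 0 ≤ b k)
    (ha0 : a ≠ 0) (hb0 : b ≠ 0) :
    b 0 * (pd 0 nW a + pd 0 T a) + b 1 * (pd 1 nW a + pd 1 T a) + b 2 * (pd 2 nW a + pd 2 T a)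
      ≤ nW b + T b := by
  have hT1 : Sm 1 T := sm_mono h.sm (by norm_num)
  have hN1 : Sm 1 nW := sm_mono nW_sm (by norm_num)
  have hT2 : ∀ j, Sm 1 (pd j T) := fun j => sm_mono (sm_pd (n := 2) h.sm j) (by norm_num)
  have hN2 : ∀ j, Sm 1 (pd j nW) := fun j => sm_mono (sm_pd (n := 2) nW_sm j) (by norm_num)
  have k1 : ∀ y : E, y ≠ 0 → ∀ j, pd j (fun y => nW y + T y) y = pd j nW y + pd j T y :=
    fun y hy j => pd_add hN1 hT1 hy j
  have k2 : ∀ y : E, y ≠ 0 → ∀ i j, pd i (pd j (fun y => nW y + T y)) y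
      = pd i (pd j T) y + pd i (pd j nW) y := by
    intro y hy i j
    rw [pd_congr (g := fun y => pd j nW y + pd j T y) (fun z hz => k1 z hz j) hy i,
      pd_add (hN2 j) (hT2 j) hy i, add_comm]
  have key := frb_grad (S := fun y => nW y + T y) (sm_add nW_sm h.sm) (hom_add nW_hom h.hom)
    (by
      intro y hy v
      simp only [k2 y hy]
      exact h.curv y hy v) ha hb ha0 hb0
  rw [k1 a ha0, k1 a ha0, k1 a ha0] at key
  exact key

private theorem frb_v (x y z : ℝ) : nW (pt x y z) = √(x ^ 2 + y ^ 2 + z ^ 2 + x * y + x * z + y * z) := by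
  unfold nW
  rw [pt0, pt1, pt2]

private theorem frb_one {x y z : ℝ} (h : x ^ 2 + y ^ 2 + z ^ 2 + x * y + x * z + y * z = 1) :
    nW (pt x y z) = 1 := by
  rw [frb_v, h, Real.sqrt_one]

private theorem frb_pt {x y z : ℝ} (hx : 0 ≤ x) (hy : 0 ≤ y) (hz : 0 ≤ z) (k : Fin 3) : 0 ≤ pt x y z k := by
  fin_cases k
  · exact hx
  · exact hy
  · exact hz

private theorem frb_ptne {x y z : ℝ} (h : 0 < x + y + z) : pt x y z ≠ 0 := by
  apply frb_ne
  rw [pt0, pt1, pt2]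
  exact h

theorem pd_nW (k : Fin 3) {a : E} (ha : a ≠ 0) :
    pd k nW a = (a k + (a 0 + a 1 + a 2)) / (2 * nW a) := by
  have h : ∀ j : Fin 3, HasFDerivAt (fun y : E => y j) (EuclideanSpace.proj (𝕜 := ℝ) j : E →L[ℝ] ℝ) a :=
    fun j => (EuclideanSpace.proj (𝕜 := ℝ) j : E →L[ℝ] ℝ).hasFDerivAt
  have hp : 0 < a 0 * a 0 + a 1 * a 1 + a 2 * a 2 + a 0 * a 1 + a 0 * a 2 + a 1 * a 2 := by
    have h1 := pow_pos (Pool.Agent.MGF.nW_pos ha) 2
    rw [Pool.Agent.MGF.nW_sq] at h1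
    linarith
  have hq := ((((((h 0).mul (h 0)).add ((h 1).mul (h 1))).add ((h 2).mul (h 2))).add
    ((h 0).mul (h 1))).add ((h 0).mul (h 2))).add ((h 1).mul (h 2))
  have hr := hq.sqrt hp.ne'
  have e : nW = fun y : E => √(y 0 * y 0 + y 1 * y 1 + y 2 * y 2 + y 0 * y 1 + y 0 * y 2 + y 1 * y 2) := by
    funext y
    unfold nW
    congr 1
    ring
  have e2 : nW a = √(a 0 * a 0 + a 1 * a 1 + a 2 * a 2 + a 0 * a 1 + a 0 * a 2 + a 1 * a 2) := by
    rw [e]
  unfold pd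
  rw [e2]
  conv_lhs => rw [e]
  have hr2 := hr.fderiv
  have e3 : fderiv ℝ (fun y : E => √(y 0 * y 0 + y 1 * y 1 + y 2 * y 2 + y 0 * y 1 + y 0 * y 2 + y 1 * y 2)) a =
    _ := hr2
  rw [e3]
  have hsq : 0 < √(a 0 * a 0 + a 1 * a 1 + a 2 * a 2 + a 0 * a 1 + a 0 * a 2 + a 1 * a 2) := Real.sqrt_pos.2 hp
  fin_cases k
  · simp
    field_simp
    ring
  · simp
    field_simp
    ring
  · simp
    field_simp
    ring
theorem e_up {T : E → ℝ} {β : ℝ} (h : TrHyp T β) {a : E} (ha : ∀ k, 0 ≤ a k) (h1 : a 0 + a 1 + a 2 = 1)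
    (k : Fin 3) : pd k T a + (1 + a k) / (2 * nW a) ≤ 1 := by
  have ha0 : a ≠ 0 := frb_ne (by rw [h1]; exact one_pos)
  have e := pd_nW k ha0
  rw [h1, add_comm (a k) 1] at e
  rw [← e]
  fin_cases k
  · have key := frb_S h ha (b := pt 1 0 0) (frb_pt (by norm_num) le_rfl le_rfl) ha0 (frb_ptne (by norm_num))
    rw [pt0, pt1, pt2, h.v0, frb_one (by norm_num)] at key
    change pd 0 T a + pd 0 nW a ≤ 1
    linarith
  · have key := frb_S h ha (b := pt 0 1 0) (frb_pt le_rfl (by norm_num) le_rfl) ha0 (frb_ptne (by norm_num))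
    rw [pt0, pt1, pt2, h.v1, frb_one (by norm_num)] at key
    change pd 1 T a + pd 1 nW a ≤ 1
    linarith
  · have key := frb_S h ha (b := pt 0 0 1) (frb_pt le_rfl le_rfl (by norm_num)) ha0 (frb_ptne (by norm_num))
    rw [pt0, pt1, pt2, h.v2, frb_one (by norm_num)] at key
    change pd 2 T a + pd 2 nW a ≤ 1
    linarith
theorem e_sum_up {T : E → ℝ} {β : ℝ} (h : TrHyp T β) {a : E} (ha : ∀ k, 0 ≤ a k) (h1 : a 0 + a 1 + a 2 = 1) :
    pd 0 T a + pd 1 T a + pd 2 T a + 2 / nW a ≤ β + 2.4495 := by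
  have ha0 : a ≠ 0 := frb_ne (by rw [h1]; exact one_pos)
  have e0 := pd_nW 0 ha0
  have e1 := pd_nW 1 ha0
  have e2 := pd_nW 2 ha0
  have hN := Pool.Agent.MGF.nW_pos ha0
  have es : pd 0 nW a + pd 1 nW a + pd 2 nW a = 2 / nW a := by
    rw [e0, e1, e2, h1]
    field_simp
    linarith
  have key := frb_S h ha (b := pt 1 1 1) (frb_pt (by norm_num) (by norm_num) (by norm_num)) ha0
    (frb_ptne (by norm_num))
  rw [pt0, pt1, pt2, h.cen, frb_v] at key
  have h6 : √((1 : ℝ) ^ 2 + 1 ^ 2 + 1 ^ 2 + 1 * 1 + 1 * 1 + 1 * 1) ≤ 2.4495 := by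
    rw [Real.sqrt_le_left (by norm_num)]
    norm_num
  rw [← es]
  refine le_trans (le_of_eq ?_) (le_trans (key.trans (add_le_add_left h6 β)) (le_of_eq (add_comm _ _)))
  ring

end Pool.Agent.MTR
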