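import Pool.Agent.MTR.FRA
import Pool.Agent.MTR.FRB
import Pool.Agent.MTR.QML
import Pool.Agent.MTR.SUB
/-!
FRM (130 lines). The twelve linear forms are nonnegative.
PROOF. Let a = sa (1-s) (s(1-t)) (in the sector: sa_ord), N = nW a, τ = 1/N^3; ev s t nL ≤ dN N^3 gives ev nL * τ ≤ dN, ev nU * τ ≥ dN. Expand frm (k = 0..11; evE is a map, dotL unfolds; ev_pAdd, ev_pSm, ev_pMul;
literals `[[c]]` evaluate by simp [ev, evL]; sa_b6, ev_Ms). (0) τ ≥ 0. (1) 6 (ld dN T a - ln a_2 nL τ) ≥ 6 dN (ld T - ln a_2) ≥ 0 by T_lo. (2) T ≥ 0. (3) ld dN Σe - ln nL τ ≥ dN (ld Σ e - ln) ≥ 0. (4)-(6) e_nonneg.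
(7)-(9) 144 (nU τ - dN e_k) - dN 12 N² (6 + 6 a_k) τ ≥ 144 dN (1 - e_k - (1 + a_k)/(2 N)) ≥ 0. (10) 6 (bn a_0 nU τ - bd dN T) ≥ 0. (11) 6(10000 bn + 24495 bd) nU τ - 10000 bd dN 12 N² τ - 60000 bd dN Σe ≥
60000 dN bd (bn/bd + 2.4495 - 2/N - Σe) ≥ 0. For k ≥ 12 the form is []. 6 T a = b60 e0 + b61 e1 + b62 e2 by euler0.
-/
set_option autoImplicit false

open MeasureTheory Set Metric Pool.Agent.MEIS Pool.Agent.MSQ Pool.Agent.MGE Pool.Agent.MGF

namespace Pool.Agent.MTR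

private theorem frm_lit (s t : ℝ) (c : Int) : ev s t [[c]] = c := by
  simp [ev, evL]

theorem frm_nonneg (r : Rg) (hr : rOK r) (b : Bx) {T : E → ℝ} {β : ℝ} (h : TrHyp T β) (hβ : inR r β) (s t : ℝ)
    (hs0 : 0 ≤ s) (hs1 : s ≤ 1) (ht0 : 0 ≤ t) (ht1 : t ≤ 1)
    (hn : nB b s t (nW (sa (1 - s) (s * (1 - t))))) (k : ℕ) :
    0 ≤ dotL (evE s t (frm r b k)) (st T (sa (1 - s) (s * (1 - t)))) := by
  have hx : 0 ≤ 1 - s := by linarith
  have hy : 0 ≤ s * (1 - t) := mul_nonneg hs0 (by linarith)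
  have hxy : (1 - s) + s * (1 - t) ≤ 1 := by nlinarith [mul_nonneg hs0 ht0]
  obtain ⟨a2n, a21, a10⟩ := sa_ord _ _ hx hy hxy
  have hne := sa_ne (1 - s) (s * (1 - t))
  have hsum := sa_sum (1 - s) (s * (1 - t))
  obtain ⟨b0, b1, b2⟩ := sa_b6 s t
  have hM := ev_Ms s t
  have hN := nW_pos (1 - s) (s * (1 - t))
  generalize sa (1 - s) (s * (1 - t)) = a at a2n a21 a10 hne hsum b0 b1 b2 hM hN hn ⊢
  have a1n : 0 ≤ a 1 := a2n.trans a21
  have a0n : 0 ≤ a 0 := a1n.trans a10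
  have han : ∀ k, 0 ≤ a k := by
    intro k
    fin_cases k
    · exact a0n
    · exact a1n
    · exact a2n
  have hT := euler0 h.sm h.hom a hne
  have hT0 := h.nonneg a a0n a1n a2n
  have hlo := T_lo h a2n a21 a10 hne
  have hhi := T_hi h a2n a21 a10 hne
  have he0 := e_nonneg h han hne 0
  have he1 := e_nonneg h han hne 1
  have he2 := e_nonneg h han hne 2
  have hes := e_sum h han hne
  have hu0 := e_up h han hsum 0
  have hu1 := e_up h han hsum 1
  have hu2 := e_up h han hsum 2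
  have hus := e_sum_up h han hsum
  have hβ0 : 0 ≤ β := by
    rw [← h.cen]
    refine h.nonneg _ ?_ ?_ ?_
    · show (0 : ℝ) ≤ 1
      norm_num
    · show (0 : ℝ) ≤ 1
      norm_num
    · show (0 : ℝ) ≤ 1
      norm_num
  obtain ⟨hdN, hL, hU⟩ := hn
  obtain ⟨hln, hld, hbd⟩ := hr
  obtain ⟨hr1, hr2⟩ := hβ
  have dN' : (0 : ℝ) < b.dN := by exact_mod_cast hdN
  have ln' : (0 : ℝ) ≤ r.ln := by exact_mod_cast hln
  have ld' : (0 : ℝ) < r.ld := by exact_mod_cast hld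
  have bd' : (0 : ℝ) < r.bd := by exact_mod_cast hbd
  have bn' : (0 : ℝ) ≤ r.bn := le_trans (mul_nonneg bd'.le hβ0) hr2
  have hz : ev s t [] = 0 := ev_nil s t
  have hτ : 0 < 1 / nW a ^ 3 := by positivity
  have hLτ : ev s t b.nL * (1 / nW a ^ 3) ≤ b.dN := by
    have h1 := mul_le_mul_of_nonneg_right hL hτ.le
    have h2 : (b.dN : ℝ) * nW a ^ 3 * (1 / nW a ^ 3) = b.dN := by
      field_simp
    linarith
  have hUτ : (b.dN : ℝ) ≤ ev s t b.nU * (1 / nW a ^ 3) := by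
    have h1 := mul_le_mul_of_nonneg_right hU hτ.le
    have h2 : (b.dN : ℝ) * nW a ^ 3 * (1 / nW a ^ 3) = b.dN := by
      field_simp
    linarith
  obtain ⟨ν, hν⟩ : ∃ ν : ℝ, ν = 1 / nW a := ⟨_, rfl⟩
  have hN2 : nW a ^ 2 * (1 / nW a ^ 3) = ν := by
    rw [hν]
    field_simp
  have hk0 : (1 + a 0) / (2 * nW a) = (1 + a 0) * ν / 2 := by
    rw [hν]
    field_simp
  have hk1 : (1 + a 1) / (2 * nW a) = (1 + a 1) * ν / 2 := by
    rw [hν]
    field_simp
  have hk2 : (1 + a 2) / (2 * nW a) = (1 + a 2) * ν / 2 := by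
    rw [hν]
    field_simp
  have hks : 2 / nW a = 2 * ν := by
    rw [hν]
    field_simp
  rw [hk0] at hu0
  rw [hk1] at hu1
  rw [hk2] at hu2
  rw [hks] at hus
  match k with
  | 0 =>
    simp only [frm, dotL_un]
    simp only [c1, frm_lit, st, List.getD_cons_zero]
    push_cast
    linarith
  | 1 =>
    refine le_of_le_of_eq (b := 6 * (r.ln * a 2 * (b.dN - ev s t b.nL * (1 / nW a ^ 3))) +
      6 * (b.dN * (r.ld * (T a - a 2 * β) + a 2 * (r.ld * β - r.ln)))) ?_ ?_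
    · have h1 : 0 ≤ (r.ln : ℝ) * a 2 * (b.dN - ev s t b.nL * (1 / nW a ^ 3)) :=
        mul_nonneg (mul_nonneg ln' a2n) (by linarith)
      have h2 : 0 ≤ (b.dN : ℝ) * (r.ld * (T a - a 2 * β) + a 2 * (r.ld * β - r.ln)) :=
        mul_nonneg dN'.le (add_nonneg (mul_nonneg ld'.le (by linarith)) (mul_nonneg a2n (by linarith)))
      linarith
    · simp only [frm, evE, List.map, dotL, st, ev_pAdd, ev_pSm, ev_pMul, hz, frm_lit, b0, b1, b2, hM]
      push_cast
      linear_combination (6 * (b.dN : ℝ) * r.ld) * hT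
  | 2 =>
    refine le_of_le_of_eq (b := 6 * T a) (by linarith) ?_
    simp only [frm, evE, List.map, dotL, st, ev_pAdd, ev_pSm, ev_pMul, hz, frm_lit, b0, b1, b2, hM]
    linear_combination 6 * hT
  | 3 =>
    refine le_of_le_of_eq (b := r.ln * (b.dN - ev s t b.nL * (1 / nW a ^ 3)) +
      b.dN * (r.ld * (pd 0 T a + pd 1 T a + pd 2 T a - β) + (r.ld * β - r.ln))) ?_ ?_
    · have h1 : 0 ≤ (r.ln : ℝ) * (b.dN - ev s t b.nL * (1 / nW a ^ 3)) :=
        mul_nonneg ln' (by linarith)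
      have h2 : 0 ≤ (b.dN : ℝ) * (r.ld * (pd 0 T a + pd 1 T a + pd 2 T a - β) + (r.ld * β - r.ln)) :=
        mul_nonneg dN'.le (add_nonneg (mul_nonneg ld'.le (by linarith)) (by linarith))
      linarith
    · simp only [frm, evE, List.map, dotL, st, ev_pAdd, ev_pSm, ev_pMul, hz, frm_lit, b0, b1, b2, hM]
      push_cast
      ring
  | 4 =>
    simp only [frm, dotL_un]
    simp only [c1, frm_lit, st, List.getD_cons_zero, List.getD_cons_succ]
    push_cast
    linarith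
  | 5 =>
    simp only [frm, dotL_un]
    simp only [c1, frm_lit, st, List.getD_cons_zero, List.getD_cons_succ]
    push_cast
    linarith
  | 6 =>
    simp only [frm, dotL_un]
    simp only [c1, frm_lit, st, List.getD_cons_zero, List.getD_cons_succ]
    push_cast
    linarith
  | 7 =>
    refine le_of_le_of_eq (b := 144 * (ev s t b.nU * (1 / nW a ^ 3) - b.dN) +
      144 * (b.dN * (1 - (pd 0 T a + (1 + a 0) * ν / 2)))) ?_ ?_
    · have h2 : 0 ≤ (b.dN : ℝ) * (1 - (pd 0 T a + (1 + a 0) * ν / 2)) :=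
        mul_nonneg dN'.le (by linarith)
      linarith
    · simp only [frm, evE, List.map, dotL, st, ev_pAdd, ev_pSm, ev_pMul, hz, frm_lit, b0, b1, b2, hM]
      push_cast
      linear_combination (72 * (b.dN : ℝ) * (1 + a 0)) * hN2
  | 8 =>
    refine le_of_le_of_eq (b := 144 * (ev s t b.nU * (1 / nW a ^ 3) - b.dN) +
      144 * (b.dN * (1 - (pd 1 T a + (1 + a 1) * ν / 2)))) ?_ ?_
    · have h2 : 0 ≤ (b.dN : ℝ) * (1 - (pd 1 T a + (1 + a 1) * ν / 2)) :=
        mul_nonneg dN'.le (by linarith)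
      linarith
    · simp only [frm, evE, List.map, dotL, st, ev_pAdd, ev_pSm, ev_pMul, hz, frm_lit, b0, b1, b2, hM]
      push_cast
      linear_combination (72 * (b.dN : ℝ) * (1 + a 1)) * hN2
  | 9 =>
    refine le_of_le_of_eq (b := 144 * (ev s t b.nU * (1 / nW a ^ 3) - b.dN) +
      144 * (b.dN * (1 - (pd 2 T a + (1 + a 2) * ν / 2)))) ?_ ?_
    · have h2 : 0 ≤ (b.dN : ℝ) * (1 - (pd 2 T a + (1 + a 2) * ν / 2)) :=
        mul_nonneg dN'.le (by linarith)
      linarith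
    · simp only [frm, evE, List.map, dotL, st, ev_pAdd, ev_pSm, ev_pMul, hz, frm_lit, b0, b1, b2, hM]
      push_cast
      linear_combination (72 * (b.dN : ℝ) * (1 + a 2)) * hN2
  | 10 =>
    refine le_of_le_of_eq (b := 6 * (r.bn * a 0 * (ev s t b.nU * (1 / nW a ^ 3) - b.dN)) +
      6 * (b.dN * (r.bd * (a 0 * β - T a) + a 0 * (r.bn - r.bd * β)))) ?_ ?_
    · have h1 : 0 ≤ (r.bn : ℝ) * a 0 * (ev s t b.nU * (1 / nW a ^ 3) - b.dN) :=
        mul_nonneg (mul_nonneg bn' a0n) (by linarith)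
      have h2 : 0 ≤ (b.dN : ℝ) * (r.bd * (a 0 * β - T a) + a 0 * (r.bn - r.bd * β)) :=
        mul_nonneg dN'.le (add_nonneg (mul_nonneg bd'.le (by linarith)) (mul_nonneg a0n (by linarith)))
      linarith
    · simp only [frm, evE, List.map, dotL, st, ev_pAdd, ev_pSm, ev_pMul, hz, frm_lit, b0, b1, b2, hM]
      push_cast
      linear_combination (-6 * (b.dN : ℝ) * r.bd) * hT
  | 11 =>
    refine le_of_le_of_eq (b := 6 * (10000 * r.bn + 24495 * r.bd) * (ev s t b.nU * (1 / nW a ^ 3) - b.dN) +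
      60000 * (b.dN * (r.bd * (β + 2.4495 - (pd 0 T a + pd 1 T a + pd 2 T a + 2 * ν)) +
        (r.bn - r.bd * β)))) ?_ ?_
    · have h1 : 0 ≤ 6 * (10000 * (r.bn : ℝ) + 24495 * r.bd) * (ev s t b.nU * (1 / nW a ^ 3) - b.dN) :=
        mul_nonneg (by positivity) (by linarith)
      have h2 : 0 ≤ (b.dN : ℝ) * (r.bd * (β + 2.4495 - (pd 0 T a + pd 1 T a + pd 2 T a + 2 * ν)) +
        (r.bn - r.bd * β)) :=
        mul_nonneg dN'.le (add_nonneg (mul_nonneg bd'.le (by linarith)) (by linarith))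
      linarith
    · simp only [frm, evE, List.map, dotL, st, ev_pAdd, ev_pSm, ev_pMul, hz, frm_lit, b0, b1, b2, hM]
      push_cast
      linear_combination (120000 * (b.dN : ℝ) * r.bd) * hN2
  | k + 12 =>
    have e : frm r b (k + 12) = [] := rfl
    rw [e]
    simp only [evE, List.map, dotL]
    exact le_refl 0

theorem frm_length (r : Rg) (b : Bx) (k : ℕ) (hk : k ≤ 11) : (frm r b k).length = 7 := by
  match k with
  | 0 => exact un_length _ (by omega) _
  | 1 => rfl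
  | 2 => rfl
  | 3 => rfl
  | 4 => exact un_length _ (by omega) _
  | 5 => exact un_length _ (by omega) _
  | 6 => exact un_length _ (by omega) _
  | 7 => rfl
  | 8 => rfl
  | 9 => rfl
  | 10 => rfl
  | 11 => rfl
  | k + 12 => omega

end Pool.Agent.MTR
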