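import Pool.Agent.MTR.KLA
/-!
KFR (110 lines). Relations for the forms and the Hessians.
PROOF. Cases k = 0..11, k + 12: each entry by R3.add, sub, mul, nat; total degree 4: vU, vL degree 3 (pvI_rel with RW.g3), one^3 degree 3 (pw_rel, 3 * 1), la degree 1. vSm_rel, tail of an F3. SK: degree at most 6 (R3.mono for the first).
-/
set_option autoImplicit false

open MeasureTheory Set Metric Pool.Agent.MEIS Pool.Agent.MSQ Pool.Agent.MGE Pool.Agent.MGF Pool.Agent.PKD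

namespace Pool.Agent.MTR

variable {C : Cx} {v w : Va ℕ} {v' : Va ℝ}

private theorem kfr_z (n : ℕ) : R3 C n n (z0 C.om) (z0 C.rr) (z0 ON) := R3.nat C n n 0

private theorem kfr_nm {n a c : ℕ} {r : ℝ} (k : ℕ) (h : R3 C n n a r c) :
    R3 C n n (C.om.mul (C.om.nat k) a) (C.rr.mul (C.rr.nat k) r) (ON.mul (ON.nat k) c) :=
  ((R3.nat C 0 0 k).mul h).mono (by omega) (by omega) le_rfl

private theorem kfr_mul {n n1 n2 a c a1 c1 : ℕ} {r r1 : ℝ} (h : R3 C n n a r c) (h1 : R3 C n1 n1 a1 r1 c1)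
    (hn : n + n1 = n2) :
    R3 C n2 n2 (C.om.mul a a1) (C.rr.mul r r1) (ON.mul c c1) :=
  (h.mul h1).mono (by omega) (by omega) le_rfl

private theorem kfr_pw (h : R1 C v v' w) (k : ℕ) :
    R3 C k k (pw C.om v.one k) (pw C.rr v'.one k) (pw ON w.one k) :=
  (pw_rel h.one k).mono (by omega) (by omega) le_rfl

private theorem kfr_la0 (h : R1 C v v' w) : R3 C 1 1 (la0 C.om v) (la0 C.rr v') (la0 ON w) := lin_rel h 2 4 1 0 0 0
private theorem kfr_la1 (h : R1 C v v' w) : R3 C 1 1 (la1 C.om v) (la1 C.rr v') (la1 ON w) := lin_rel h 2 0 1 0 2 0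
private theorem kfr_la2 (h : R1 C v v' w) : R3 C 1 1 (la2 C.om v) (la2 C.rr v') (la2 ON w) := lin_rel h 2 0 0 0 2 2

private theorem kfr_vU {dm : ℕ} (h' : RW C dm v v' w) (b : Bt) :
    R3 C 3 3 (vU C.om b v) (vU C.rr b v') (vU ON b w) := pvI_rel h'.g3 b.nU
private theorem kfr_vL {dm : ℕ} (h' : RW C dm v v' w) (b : Bt) :
    R3 C 3 3 (vL C.om b v) (vL C.rr b v') (vL ON b w) := pvI_rel h'.g3 b.nL

private theorem kfr_tail {α β γ : Type} {R : α → β → γ → Prop} {A : List α} {B : List β} {D : List γ}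
    (h : F3 R A B D) : F3 R A.tail B.tail D.tail := by
  cases h with
  | nil => exact F3.nil
  | cons h t => exact t

private theorem kfr_789 {dm : ℕ} (h : R1 C v v' w) (h' : RW C dm v v' w) (b : Bt) {a c : ℕ} {r : ℝ}
    (ha : R3 C 1 1 a r c) :
    R3 C 4 4
      (C.om.mul v.one (C.om.sub (C.om.mul (C.om.nat 144) (vU C.om b v))
        (C.om.mul (C.om.nat b.dN) (C.om.mul (lM C.om v) (C.om.add (C.om.mul (C.om.nat 6) v.one) a)))))
      (C.rr.mul v'.one (C.rr.sub (C.rr.mul (C.rr.nat 144) (vU C.rr b v'))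
        (C.rr.mul (C.rr.nat b.dN) (C.rr.mul (lM C.rr v') (C.rr.add (C.rr.mul (C.rr.nat 6) v'.one) r)))))
      (ON.mul w.one (ON.sub (ON.mul (ON.nat 144) (vU ON b w))
        (ON.mul (ON.nat b.dN) (ON.mul (lM ON w) (ON.add (ON.mul (ON.nat 6) w.one) c))))) :=
  kfr_mul h.one ((kfr_nm 144 (kfr_vU h' b)).sub
    (kfr_nm b.dN (kfr_mul (lM_rel h) ((kfr_nm 6 h.one).add ha) (show 2 + 1 = 3 by norm_num))))
    (show 1 + 3 = 4 by norm_num)

theorem frK_rel {dm : ℕ} (h : R1 C v v' w) (h' : RW C dm v v' w) (ln ld bn bd : ℕ) (b : Bt) (k : ℕ) :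
    L3 C 4 4 (frK C.om ln ld bn bd b v k) (frK C.rr ln ld bn bd b v' k) (frK ON ln ld bn bd b w k) := by
  have z : R3 C 4 4 (z0 C.om) (z0 C.rr) (z0 ON) := kfr_z 4
  have o4 := kfr_pw h 4
  have o3 := kfr_pw h 3
  have U := kfr_vU h' b
  have L := kfr_vL h' b
  have a0 := kfr_la0 h
  have a1 := kfr_la1 h
  have a2 := kfr_la2 h
  match k with
  | 0 => exact unK_rel 0 o4
  | 1 =>
    exact F3.cons (z.sub (kfr_nm ln (kfr_mul a2 L (by norm_num))))
      (F3.cons (kfr_mul (kfr_nm _ o3) a0 (by norm_num))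
      (F3.cons (kfr_mul (kfr_nm _ o3) a1 (by norm_num))
      (F3.cons (kfr_mul (kfr_nm _ o3) a2 (by norm_num))
      (F3.cons z (F3.cons z (F3.cons z F3.nil))))))
  | 2 => exact L3.mono (vSm_rel o3 (T6K_rel h)) (by norm_num) (by norm_num)
  | 3 =>
    exact F3.cons (z.sub (kfr_nm ln (kfr_mul h.one L (by norm_num))))
      (F3.cons (kfr_nm _ o4) (F3.cons (kfr_nm _ o4) (F3.cons (kfr_nm _ o4)
      (F3.cons z (F3.cons z (F3.cons z F3.nil))))))
  | 4 => exact unK_rel 1 o4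
  | 5 => exact unK_rel 2 o4
  | 6 => exact unK_rel 3 o4
  | 7 =>
    exact F3.cons (kfr_789 h h' b a0) (F3.cons (z.sub (kfr_nm _ o4))
      (F3.cons z (F3.cons z (F3.cons z (F3.cons z (F3.cons z F3.nil))))))
  | 8 =>
    exact F3.cons (kfr_789 h h' b a1) (F3.cons z (F3.cons (z.sub (kfr_nm _ o4))
      (F3.cons z (F3.cons z (F3.cons z (F3.cons z F3.nil))))))
  | 9 =>
    exact F3.cons (kfr_789 h h' b a2) (F3.cons z (F3.cons z (F3.cons (z.sub (kfr_nm _ o4))
      (F3.cons z (F3.cons z (F3.cons z F3.nil))))))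
  | 10 =>
    have t := vSm_rel (R3.sub (kfr_z 3) (kfr_nm (Nat.mul bd b.dN) o3)) (T6K_rel h)
    exact F3.cons (kfr_nm bn (kfr_mul a0 U (by norm_num)))
      (kfr_tail (L3.mono t (show 3 + 1 ≤ 4 by norm_num) (show 3 + 1 ≤ 4 by norm_num)))
  | 11 =>
    have t := z.sub (kfr_nm (Nat.mul 60000 (Nat.mul bd b.dN)) o4)
    exact F3.cons ((kfr_nm _ (kfr_mul h.one U (by norm_num))).sub
      (kfr_nm _ (kfr_mul (lM_rel h) (h.one.mul h.one) (by norm_num))))
      (F3.cons t (F3.cons t (F3.cons t (F3.cons z (F3.cons z (F3.cons z F3.nil))))))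
  | k + 12 => exact L3.rep z
theorem heK_rel (h : R1 C v v' w) (B : Bool) (k : ℕ) :
    L3 C 4 4 (heK C.om v B k) (heK C.rr v' B k) (heK ON w B k) := by
  have z : R3 C 4 4 (z0 C.om) (z0 C.rr) (z0 ON) := kfr_z 4
  have o4 := kfr_pw h 4
  have a0 := kfr_la0 h
  have a1 := kfr_la1 h
  have a2 := kfr_la2 h
  have d0 := a0.sub a2
  have d1 := a1.sub a2
  have o2 := h.one.mul h.one
  have m := z.sub (kfr_nm 144 (kfr_mul o2 o2 (show 1 + 1 + (1 + 1) = 4 by norm_num)))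
  have M := lM_rel h
  cases B
  · exact unK_rel (4 + k) o4
  · match k with
    | 0 =>
      exact F3.cons (kfr_mul o2 ((kfr_nm 12 M).sub (kfr_mul d0 d0 (by norm_num))) (by norm_num))
        (F3.cons z (F3.cons z (F3.cons z (F3.cons m (F3.cons z (F3.cons z F3.nil))))))
    | 1 =>
      exact F3.cons (kfr_mul o2 ((kfr_nm 6 M).sub (kfr_mul d0 d1 (by norm_num))) (by norm_num))
        (F3.cons z (F3.cons z (F3.cons z (F3.cons z (F3.cons m (F3.cons z F3.nil))))))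
    | k + 2 =>
      exact F3.cons (kfr_mul o2 ((kfr_nm 12 M).sub (kfr_mul d1 d1 (by norm_num))) (by norm_num))
        (F3.cons z (F3.cons z (F3.cons z (F3.cons z (F3.cons z (F3.cons m F3.nil))))))
theorem SK_rel {dm : ℕ} (h : R1 C v v' w) (h' : RW C dm v v' w) (b : Bt) :
    L3 C 6 6 (SK C.om b v) (SK C.rr b v') (SK ON b w) := by
  have U := kfr_vU h' b
  have L := kfr_vL h' b
  have M := lM_rel h
  have M3 := kfr_nm (Nat.mul b.dN b.dN) (kfr_mul M (M.mul M) (show 2 + (2 + 2) = 6 by norm_num))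
  exact F3.cons (U.mono (by norm_num) (by norm_num) le_rfl)
    (F3.cons ((kfr_nm 1728 (kfr_mul U U (by norm_num))).sub M3)
    (F3.cons (M3.sub (kfr_nm 1728 (kfr_mul L L (by norm_num)))) F3.nil))

end Pool.Agent.MTR
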