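import Pool.Agent.MTR.KRK
import Pool.Agent.MTR.KFR
import Pool.Agent.PKD.RC2
/-!
KGR (130 lines). Bound of all entries of the matrix MK.
PROOF. muK: pvo_rel with RW.gm. C2 calculus (RC2): vSm, vAdd, vMul; heK: L3.toC2 with bound heN (mxL of mxL's: le_mxL). Sums of the bounds: mono with le_of_eq (ring). m4K: cases of the list of length 10, otherwise zero lists. Degrees: dm + 4, then
4 + (dm + 4) ≤ 8 + dm. MK: RK part: L3.toC2 (RK_rel) with bound RC, times w: C2.vSm (R3.nat C 0 0) ; g.d + 3 = 8 + dm.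
-/
set_option autoImplicit false

open MeasureTheory Set Metric Pool.Agent.MEIS Pool.Agent.MSQ Pool.Agent.MGE Pool.Agent.MGF Pool.Agent.PKD

namespace Pool.Agent.MTR

variable {C : Cx} {v w : Va ℕ} {v' : Va ℝ}

theorem muK_rel {dm : ℕ} (h : RW C dm v v' w) (K k N : ℕ) :
    R3 C dm dm (muK C.om dm v K k N) (muK C.rr dm v' K k N) (muK ON dm w K k N) :=
  pvo_rel h.gm K (Nat.pow K (dm + 1)) k N

private theorem heK_c2 (h : R1 C v v' w) (B : Bool) {k : ℕ} (hk : k = 0 ∨ k = 1 ∨ k = 2) :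
    C2 C 4 (heN w B) (heK C.om v B k) (heK C.rr v' B k) := by
  refine L3.toC2 (heK_rel h B k) ?_
  unfold heN
  apply le_mxL
  rcases hk with rfl | rfl | rfl <;> simp

private theorem rep0 (n κ k : ℕ) :
    C2 C n κ (List.replicate k (z0 C.om)) (List.replicate k (z0 C.rr)) :=
  C2.zero C n κ k

private theorem prK_c2 {dm : ℕ} (h : RW C dm v v' w) {F : ℕ → List ℕ} {F' : ℕ → List ℝ} {φ : ℕ → ℕ}
    (hF : ∀ k, C2 C 4 (φ k) (F k) (F' k)) (K : ℕ) (l : List (ℕ × ℕ)) :
    C2 C (dm + 4) (prN φ dm K w l) (prK C.om F dm K v l) (prK C.rr F' dm K v' l) := by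
  induction l with
  | nil => exact rep0 _ _ _
  | cons z l ih => exact C2.vAdd (C2.vSm (muK_rel h K 0 z.2) (hF z.1)) ih

private theorem hsK_c2 {dm : ℕ} (h1 : R1 C v v' w) (h : RW C dm v v' w) (K k : ℕ) (B : Bool) (l : List ℕ) :
    C2 C (dm + 4) (hsN dm K k w (heN w B) l) (hsK C.om dm K k v B l) (hsK C.rr dm K k v' B l) := by
  match l with
  | [] => exact rep0 _ _ _
  | [_] => exact rep0 _ _ _
  | [_, _] => exact rep0 _ _ _
  | [w0, w1, w2] =>
    refine C2.mono (C2.vAdd (C2.vSm (muK_rel h K k w0) (heK_c2 h1 B (Or.inl rfl)))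
      (C2.vAdd (C2.vSm (muK_rel h K k w1) (heK_c2 h1 B (Or.inr (Or.inl rfl))))
        (C2.vSm (muK_rel h K k w2) (heK_c2 h1 B (Or.inr (Or.inr rfl)))))) le_rfl (le_of_eq ?_)
    show _ = (muK ON dm w K k w0 + (muK ON dm w K k w1 + muK ON dm w K k w2)) * heN w B
    ring
  | _ :: _ :: _ :: _ :: _ => exact rep0 _ _ _

private theorem grK_c2 {dm : ℕ} (h1 : R1 C v v' w) (h : RW C dm v v' w) {F : ℕ → List ℕ} {F' : ℕ → List ℝ}
    {φ : ℕ → ℕ} (hF : ∀ k, C2 C 4 (φ k) (F k) (F' k)) (g : Gr) :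
    C2 C (4 + (dm + 4)) (grN φ (heN w false) (heN w true) dm w g) (grK C.om F dm v g) (grK C.rr F' dm v' g) := by
  refine C2.mono (C2.vMul (hF g.i) (C2.vAdd (prK_c2 h hF g.K g.pr)
    (C2.vAdd (hsK_c2 h1 h g.K g.h false g.WA) (hsK_c2 h1 h g.K g.h true g.WB)))) le_rfl (le_of_eq ?_)
  show _ = (2 * φ g.i) * (prN φ dm g.K w g.pr + (hsN dm g.K g.h w (heN w false) g.WA
    + hsN dm g.K g.h w (heN w true) g.WB))
  ring

private theorem m4K_c2 {dm : ℕ} (h1 : R1 C v v' w) (h : RW C dm v v' w) (K k : ℕ) (l : List ℕ) :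
    C2 C (4 + (dm + 4)) (m4N (heN w false) (heN w true) dm K k w l) (m4K C.om dm K k v l)
      (m4K C.rr dm K k v' l) := by
  by_cases hl : ∃ g0 g1 g2 g3 g4 g5 g6 g7 g8 g9 : ℕ, l = [g0, g1, g2, g3, g4, g5, g6, g7, g8, g9]
  · obtain ⟨g0, g1, g2, g3, g4, g5, g6, g7, g8, g9, rfl⟩ := hl
    have a0 := heK_c2 h1 false (Or.inl rfl)
    have a1 := heK_c2 h1 false (Or.inr (Or.inl rfl))
    have a2 := heK_c2 h1 false (Or.inr (Or.inr rfl))
    have b0 := heK_c2 h1 true (Or.inl rfl)
    have b1 := heK_c2 h1 true (Or.inr (Or.inl rfl))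
    have b2 := heK_c2 h1 true (Or.inr (Or.inr rfl))
    have mu := muK_rel h K k
    refine C2.mono (C2.vAdd (C2.vMul a0 (C2.vAdd (C2.vSm (mu g0) b0) (C2.vAdd (C2.vSm (mu g1) b1)
        (C2.vSm (mu g4) b2))))
      (C2.vAdd (C2.vMul a1 (C2.vAdd (C2.vSm (mu g2) b0) (C2.vAdd (C2.vSm ((mu g3).add (mu g5)) b1)
          (C2.vSm (mu g6) b2))))
        (C2.vMul a2 (C2.vAdd (C2.vSm (mu g7) b0) (C2.vAdd (C2.vSm (mu g8) b1) (C2.vSm (mu g9) b2))))))
      le_rfl (le_of_eq ?_)
    show _ = (2 * (heN w false * heN w true)) * (muK ON dm w K k g0 + (muK ON dm w K k g1 +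
      (muK ON dm w K k g2 + (muK ON dm w K k g3 + (muK ON dm w K k g4 + (muK ON dm w K k g5 +
      (muK ON dm w K k g6 + (muK ON dm w K k g7 + (muK ON dm w K k g8 + (muK ON dm w K k g9 + 0))))))))))
    show _ + (2 * (heN w false * (_ + ((muK ON dm w K k g3 + muK ON dm w K k g5) * _ + _))) + _) = _
    ring
  · have e1 : m4K C.om dm K k v l = List.replicate 28 (z0 C.om) := by
      unfold m4K
      split
      · exact absurd ⟨_, _, _, _, _, _, _, _, _, _, rfl⟩ hl
      · rfl
    have e2 : m4K C.rr dm K k v' l = List.replicate 28 (z0 C.rr) := by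
      unfold m4K
      split
      · exact absurd ⟨_, _, _, _, _, _, _, _, _, _, rfl⟩ hl
      · rfl
    rw [e1, e2]
    exact rep0 _ _ _

private theorem grsK_c2 {dm : ℕ} (h1 : R1 C v v' w) (h : RW C dm v v' w) {F : ℕ → List ℕ} {F' : ℕ → List ℝ}
    {φ : ℕ → ℕ} (hF : ∀ k, C2 C 4 (φ k) (F k) (F' k)) (l : List Gr) :
    C2 C (4 + (dm + 4)) (grsN φ (heN w false) (heN w true) dm w l) (grsK C.om F dm v l)
      (grsK C.rr F' dm v' l) := by
  induction l with
  | nil => exact rep0 _ _ _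
  | cons g l ih => exact C2.vAdd (grK_c2 h1 h hF g) ih

theorem MK_c2 {w0 : Va ℕ} {ln ld bn bd : ℕ} {g : Gg} {sg : Bool} {pay RC : ℕ} {b : Bt} (hg : 5 ≤ g.d)
    (hd : g.d = 5 + b.dm) (h0 : RV C g.d v v' w0) (hR : mxL (RK ON g sg pay w0) ≤ RC) (h : R1 C v v' w)
    (h' : RW C b.dm v v' w) :
    C2 C (8 + b.dm) (MN ln ld bn bd RC b w) (MK C.om ln ld bn bd g sg pay b v) (MK C.rr ln ld bn bd g sg pay b v') := by
  have hF : ∀ k, C2 C 4 (mxL (frK ON ln ld bn bd b w k)) (frK C.om ln ld bn bd b v k)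
      (frK C.rr ln ld bn bd b v' k) := fun k => L3.toC2 (frK_rel h h' ln ld bn bd b k) le_rfl
  have e1 : C2 C (8 + b.dm) (b.w * RC) (vSm C.om (C.om.nat b.w) (RK C.om g sg pay v))
      (vSm C.rr (C.rr.nat b.w) (RK C.rr g sg pay v')) :=
    C2.mono (C2.vSm (R3.nat C 0 0 b.w) (L3.toC2 (RK_rel hg h0 sg pay) hR)) (by omega) le_rfl
  have e2 : C2 C (8 + b.dm) (m4N (heN w false) (heN w true) b.dm b.Km b.hm w b.m4 +
      grsN (fun k => mxL (frK ON ln ld bn bd b w k)) (heN w false) (heN w true) b.dm w b.gr)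
      (vAdd C.om (m4K C.om b.dm b.Km b.hm v b.m4) (grsK C.om (frK C.om ln ld bn bd b v) b.dm v b.gr))
      (vAdd C.rr (m4K C.rr b.dm b.Km b.hm v' b.m4) (grsK C.rr (frK C.rr ln ld bn bd b v') b.dm v' b.gr)) :=
    C2.mono (C2.vAdd (m4K_c2 h h' b.Km b.hm b.m4) (grsK_c2 h h' hF b.gr)) (by omega) le_rfl
  exact C2.vSub e1 e2

private theorem len_unK {α : Type} (O : Ops α) (k : ℕ) (hk : k ≤ 6) (p : α) : (unK O k p).length = 7 := by
  simp only [unK, List.length_append, List.length_replicate, List.length_cons]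
  omega

theorem len_frK {α : Type} (O : Ops α) (ln ld bn bd : ℕ) (b : Bt) (v : Va α) (k : ℕ) :
    (frK O ln ld bn bd b v k).length = 7 := by
  unfold frK
  split <;> first
    | exact len_unK O _ (by norm_num) _
    | rfl
    | (rw [len_vSm]; rfl)
    | simp
theorem len_heK {α : Type} (O : Ops α) (v : Va α) (B : Bool) (k : ℕ) (hk : k ≤ 2) : (heK O v B k).length = 7 := by
  unfold heK
  cases B with
  | false => exact len_unK O _ (by omega) _
  | true =>
    dsimp only
    split <;> rfl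

private theorem len_mdk {α : Type} (O : Ops α) (v : Va α) (dir : Bool) (k : ℕ) : (mdk O v dir k).length = 7 := by
  cases k with
  | zero =>
    unfold mdk
    cases dir <;> exact len_unK O _ (by norm_num) _
  | succ k =>
    unfold mdk
    rw [len_vSm]
    unfold dek
    cases dir <;> rfl

private theorem len_dvK {α : Type} (O : Ops α) (v : Va α) (dir : Bool) (c cd : α) (x y : ℕ) (hx : x ≤ 6)
    (hy : y ≤ 6) : (dvK O v dir c cd x y).length = 28 := by
  unfold dvK
  dsimp only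
  have h1 : ∀ p q : α, (vMul O (unK O x p) (unK O y q)).length = 28 := fun p q =>
    len_vMul O (len_unK O x hx p) (len_unK O y hy q)
  have h2 : ∀ p q : α, (vMul O (vSm O p (mdk O v dir x)) (unK O y q)).length = 28 := fun p q =>
    len_vMul O (by rw [len_vSm, len_mdk]) (len_unK O y hy q)
  have h3 : ∀ p q : α, (vMul O (vSm O p (mdk O v dir y)) (unK O x q)).length = 28 := fun p q =>
    len_vMul O (by rw [len_vSm, len_mdk]) (len_unK O x hx q)
  rw [len_vAdd, h1]
  rw [h1, len_vAdd, h2]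
  rw [h2, h3]

private theorem len_sum28 {α : Type} (O : Ops α) (l : List (List α)) (h : ∀ a ∈ l, a.length = 28) :
    (sum28 O l).length = 28 := by
  induction l with
  | nil => simp [sum28]
  | cons a l ih =>
    have i := ih fun b hb => h b (List.mem_cons_of_mem _ hb)
    have j := h a List.mem_cons_self
    unfold sum28
    rw [len_vAdd O (by rw [i, j]), j]

private theorem len_zipD {α : Type} (O : Ops α) (gd ge : List (α × List α)) (f : α → α → ℕ → ℕ → List α)
    (Pl Ql : List MSQ.P) (Z : List (ℕ × ℕ)) (hf : ∀ a b, ∀ z ∈ Z, (f a b z.1 z.2).length = 28) :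
    ∀ a ∈ zipD O gd ge f Pl Ql Z, a.length = 28 := by
  induction Pl generalizing Ql Z with
  | nil => intro a ha; simp [zipD] at ha
  | cons p ps ih =>
    cases Ql with
    | nil => intro a ha; simp [zipD] at ha
    | cons q qs =>
      cases Z with
      | nil => intro a ha; simp [zipD] at ha
      | cons z zs =>
        intro a ha
        rw [zipD, List.mem_cons] at ha
        rcases ha with rfl | ha
        · exact hf _ _ z List.mem_cons_self
        · exact ih qs zs (fun a b z hz => hf a b z (List.mem_cons_of_mem _ hz)) a ha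

private theorem len_sd {α : Type} (O : Ops α) (v : Va α) (dir : Bool) (Pl Ql : List MSQ.P) :
    (sum28 O (zipD O v.gd v.ge (dvK O v dir) Pl Ql prs)).length = 28 := by
  refine len_sum28 O _ (len_zipD O _ _ _ _ _ _ ?_)
  intro a b z hz
  have hz' : z.1 ≤ 6 ∧ z.2 ≤ 6 := by
    simp only [prs, List.mem_cons, List.not_mem_nil, or_false] at hz
    rcases hz with rfl | rfl | rfl | rfl | rfl | rfl | rfl | rfl | rfl | rfl <;> norm_num
  exact len_dvK O v dir a b z.1 z.2 hz'.1 hz'.2

theorem len_RK {α : Type} (O : Ops α) (g : Gg) (sg : Bool) (pay : ℕ) (v : Va α) : (RK O g sg pay v).length = 28 := by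
  unfold RK
  have hu : ∀ p : α, (unK O 0 p).length = 7 := len_unK O 0 (by norm_num)
  have hT : (T6K O v).length = 7 := rfl
  have hL : (L72K O v).length = 7 := rfl
  have e1 : ∀ p q : α, (vMul O (unK O 0 p) (unK O 0 q)).length = 28 := fun p q => len_vMul O (hu p) (hu q)
  have e2 : ∀ p : α, (vMul O (unK O 0 p) (T6K O v)).length = 28 := fun p => len_vMul O (hu p) hT
  have e3 : ∀ p : α, (vMul O (vSm O p (T6K O v)) (L72K O v)).length = 28 := fun p =>
    len_vMul O (by rw [len_vSm, hT]) hL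
  have e4 := len_sd O v false g.cP g.dP
  have e5 := len_sd O v true g.cQ g.dQ
  have e6 := (len_vAdd O (e4.trans e5.symm)).trans e4
  have e7 := fun p => (len_vAdd O ((e3 p).trans e6.symm)).trans (e3 p)
  have e8 := fun p q => (len_vAdd O ((e2 p).trans (e7 q).symm)).trans (e2 p)
  exact (len_vAdd O ((e1 _ _).trans (e8 _ _).symm)).trans (e1 _ _)

private theorem len_prK {α : Type} (O : Ops α) {F : ℕ → List α} (hF : ∀ k, (F k).length = 7) (dm K : ℕ) (v : Va α)
    (l : List (ℕ × ℕ)) : (prK O F dm K v l).length = 7 := by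
  induction l with
  | nil => simp [prK]
  | cons z l ih =>
    unfold prK
    have e : (vSm O (muK O dm v K 0 z.2) (F z.1)).length = 7 := by rw [len_vSm, hF]
    rw [len_vAdd O (e.trans ih.symm), e]

private theorem len_hsK {α : Type} (O : Ops α) (dm K k : ℕ) (v : Va α) (B : Bool) (l : List ℕ) :
    (hsK O dm K k v B l).length = 7 := by
  unfold hsK
  split
  · have e : ∀ c j, j ≤ 2 → (vSm O c (heK O v B j)).length = 7 := fun c j hj => by
      rw [len_vSm, len_heK O v B j hj]
    have e1 := fun c c' => (len_vAdd O ((e c 1 (by norm_num)).trans (e c' 2 (by norm_num)).symm)).trans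
      (e c 1 (by norm_num))
    exact (len_vAdd O ((e _ 0 (by norm_num)).trans (e1 _ _).symm)).trans (e _ 0 (by norm_num))
  · simp

private theorem len_grK {α : Type} (O : Ops α) {F : ℕ → List α} (hF : ∀ k, (F k).length = 7) (dm : ℕ) (v : Va α)
    (g : Gr) : (grK O F dm v g).length = 28 := by
  unfold grK
  have a := len_hsK O dm g.K g.h v false g.WA
  have b := len_hsK O dm g.K g.h v true g.WB
  have c := (len_vAdd O (a.trans b.symm)).trans a
  have d := len_prK O hF dm g.K v g.pr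
  exact len_vMul O (hF _) ((len_vAdd O (d.trans c.symm)).trans d)

private theorem len_grsK {α : Type} (O : Ops α) {F : ℕ → List α} (hF : ∀ k, (F k).length = 7) (dm : ℕ) (v : Va α)
    (l : List Gr) : (grsK O F dm v l).length = 28 := by
  induction l with
  | nil => simp [grsK]
  | cons g l ih =>
    unfold grsK
    have e := len_grK O hF dm v g
    rw [len_vAdd O (e.trans ih.symm), e]

private theorem len_m4K {α : Type} (O : Ops α) (dm K k : ℕ) (v : Va α) (l : List ℕ) :
    (m4K O dm K k v l).length = 28 := by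
  unfold m4K
  split
  · have e : ∀ c j, j ≤ 2 → (vSm O c (heK O v true j)).length = 7 := fun c j hj => by
      rw [len_vSm, len_heK O v true j hj]
    have e1 := fun c c' => (len_vAdd O ((e c 1 (by norm_num)).trans (e c' 2 (by norm_num)).symm)).trans
      (e c 1 (by norm_num))
    have e2 := fun c c' c'' => (len_vAdd O ((e c 0 (by norm_num)).trans (e1 c' c'').symm)).trans
      (e c 0 (by norm_num))
    have e3 := fun j (hj : j ≤ 2) c c' c'' => len_vMul O (len_heK O v false j hj) (e2 c c' c'')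
    have e4 := fun c1 c2 c3 d1 d2 d3 => (len_vAdd O ((e3 1 (by norm_num) c1 c2 c3).trans
      (e3 2 (by norm_num) d1 d2 d3).symm)).trans (e3 1 (by norm_num) c1 c2 c3)
    exact (len_vAdd O ((e3 0 (by norm_num) _ _ _).trans (e4 _ _ _ _ _ _).symm)).trans
      (e3 0 (by norm_num) _ _ _)
  · simp

theorem len_MK {α : Type} (O : Ops α) (ln ld bn bd : ℕ) (g : Gg) (sg : Bool) (pay : ℕ) (b : Bt) (v : Va α) :
    (MK O ln ld bn bd g sg pay b v).length = 28 := by
  unfold MK
  have e1 : (vSm O (O.nat b.w) (RK O g sg pay v)).length = 28 := by rw [len_vSm, len_RK]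
  have e2 := len_m4K O b.dm b.Km b.hm v b.m4
  have e3 := len_grsK O (F := frK O ln ld bn bd b v) (len_frK O ln ld bn bd b v) b.dm v b.gr
  have e4 := (len_vAdd O (e2.trans e3.symm)).trans e2
  rw [len_vSub O (e1.trans e4.symm), e1]

end Pool.Agent.MTR
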