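import Pool.Agent.MTR.Defs2
import Pool.Agent.PKD.PSM
import Pool.Agent.PKD.RQF
import Pool.Agent.MTR.PRD
/-!
KMC (70 lines). The final test of the matrix in both modes.
PROOF. hm = false: mchk_sound with n = 7, length 28 = 7*8/2. hm = true: write S = σ0 :: S' with S' = [e0,e1,e2,a0,a1,a2]. qf F S = F0 σ0² + σ0 (F1 e0 + F2 e1 + F3 e2) + σ0 (F4 a0 + F5 a1 + F6 a2) + qf (F.drop 7) S'. F0..F3 ≥ 0 by
nnchk_sound; [F4, F5, F6] : mchk_sound with n = 2 gives F4 p² + F5 p q + F6 q² ≥ 0 for all p, q, and with (a0, a1, a2) psd: tr2 (PRD): F4 a0 + F5 a1 + F6 a2 ≥ 0. The 6x6 part by mchk_sound with n = 6 (length 21).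
-/
set_option autoImplicit false

open MeasureTheory Set Metric Pool.Agent.MEIS Pool.Agent.MSQ Pool.Agent.MGE Pool.Agent.MGF Pool.Agent.PKD

namespace Pool.Agent.MTR

private theorem forall2_len {C : Cx} {d κ : ℕ} {A : List ℕ} {B : List ℝ} (h : C2 C d κ A B) :
    A.length = B.length := List.Forall₂.length_eq h

private theorem qf_step (M : List ℝ) (x : ℝ) (v : List ℝ) :
    qf M (x :: v) = x * dotL (M.take (v.length + 1)) (x :: v) + qf (M.drop (v.length + 1)) v := by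
  rw [qf]

private theorem two_form {f4 f5 f6 p q : ℝ} (h : 0 ≤ qf [f4, f5, f6] [p, q]) :
    0 ≤ f4 * p ^ 2 + 2 * (f5 / 2) * (p * q) + f6 * q ^ 2 := by
  have e : qf [f4, f5, f6] [p, q] = f4 * p ^ 2 + 2 * (f5 / 2) * (p * q) + f6 * q ^ 2 := by
    simp only [qf, dotL, List.take, List.drop, List.length]
    ring
  rw [← e]
  exact h

private theorem sev_form {f0 f1 f2 f3 f4 f5 f6 σ0 e0 e1 e2 a0 a1 a2 : ℝ} {FR : List ℝ} (q0 : 0 ≤ f0) (q1 : 0 ≤ f1)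
    (q2 : 0 ≤ f2) (q3 : 0 ≤ f3) (ht : 0 ≤ f4 * a0 + 2 * (f5 / 2) * a1 + f6 * a2)
    (h6 : 0 ≤ qf FR [e0, e1, e2, a0, a1, a2]) (h0 : 0 ≤ σ0) (he0 : 0 ≤ e0) (he1 : 0 ≤ e1) (he2 : 0 ≤ e2) :
    0 ≤ qf (f0 :: f1 :: f2 :: f3 :: f4 :: f5 :: f6 :: FR) [σ0, e0, e1, e2, a0, a1, a2] := by
  have e : qf (f0 :: f1 :: f2 :: f3 :: f4 :: f5 :: f6 :: FR) [σ0, e0, e1, e2, a0, a1, a2] =
      σ0 * (f0 * σ0 + (f1 * e0 + (f2 * e1 + (f3 * e2 + (f4 * a0 + (f5 * a1 + (f6 * a2 + 0))))))) +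
        qf FR [e0, e1, e2, a0, a1, a2] := by
    rw [qf_step]
    have h1 : (List.length [e0, e1, e2, a0, a1, a2] + 1) = 7 := rfl
    rw [h1]
    have h2 : (f0 :: f1 :: f2 :: f3 :: f4 :: f5 :: f6 :: FR).drop 7 = FR := by simp
    have h3 : (f0 :: f1 :: f2 :: f3 :: f4 :: f5 :: f6 :: FR).take 7 = [f0, f1, f2, f3, f4, f5, f6] := by simp
    rw [h2, h3]
    simp only [dotL]
  rw [e]
  have hs : 0 ≤ f0 * σ0 + (f1 * e0 + (f2 * e1 + (f3 * e2 + (f4 * a0 + (f5 * a1 + (f6 * a2 + 0)))))) := by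
    have k0 := mul_nonneg q0 h0
    have k1 := mul_nonneg q1 he0
    have k2 := mul_nonneg q2 he1
    have k3 := mul_nonneg q3 he2
    linarith
  have := mul_nonneg h0 hs
  linarith

private theorem list28 {α : Type} (l : List α) (h : l.length = 28) :
    ∃ f0 f1 f2 f3 f4 f5 f6 : α, ∃ r : List α, l = f0 :: f1 :: f2 :: f3 :: f4 :: f5 :: f6 :: r ∧ r.length = 21 := by
  match l, h with
  | f0 :: f1 :: f2 :: f3 :: f4 :: f5 :: f6 :: r, h =>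
    exact ⟨f0, f1, f2, f3, f4, f5, f6, r, rfl, by simpa using h⟩

theorem Mchk_sound {C : Cx} {d rd H zb z2 : ℕ} {hm : Bool} {Z : List ℕ} {F : List ℝ} (hF : C2 C d (rd * H) Z F)
    (hl : Z.length = 28) (hY : C.Y = 2 * (rd * H) + 1) (hX : C.X = C.Y ^ (d + 1))
    (hN : C.N = C.Y ^ ((d + 1) * (d + 1))) (hτ : 0 ≤ C.τ) (hσ : 0 ≤ C.σ)
    (hc : Mchk hm ((d + 1) * (d + 1)) C.Y rd H zb z2 Z = true) (σ0 e0 e1 e2 a0 a1 a2 : ℝ) (h0 : 0 ≤ σ0)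
    (he0 : 0 ≤ e0) (he1 : 0 ≤ e1) (he2 : 0 ≤ e2) (ha : ∀ p q : ℝ, 0 ≤ p ^ 2 * a0 + 2 * p * q * a1 + q ^ 2 * a2) :
    0 ≤ qf F [σ0, e0, e1, e2, a0, a1, a2] := by
  cases hm with
  | false =>
    exact mchk_sound (n := 7) hF (by rw [hl]) hY hX hN hτ hσ hc _ rfl
  | true =>
    obtain ⟨z0, z1, z2', z3, z4, z5, z6, ZR, rfl, hZR⟩ := list28 Z hl
    have hlF : F.length = 28 := by rw [← forall2_len hF]; exact hl
    obtain ⟨f0, f1, f2, f3, f4, f5, f6, FR, rfl, hFR⟩ := list28 F hlF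
    simp only [C2, List.forall₂_cons] at hF
    obtain ⟨r0, r1, r2, r3, r4, r5, r6, hR⟩ := hF
    simp only [Mchk, List.take, List.drop, List.all_cons, List.all_nil, Bool.and_true, Bool.and_eq_true] at hc
    obtain ⟨⟨⟨c0, c1, c2, c3⟩, cm⟩, cR⟩ := hc
    have q0 : 0 ≤ f0 := nnchk_sound r0 le_rfl hY hX hN hτ hσ c0
    have q1 : 0 ≤ f1 := nnchk_sound r1 le_rfl hY hX hN hτ hσ c1
    have q2 : 0 ≤ f2 := nnchk_sound r2 le_rfl hY hX hN hτ hσ c2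
    have q3 : 0 ≤ f3 := nnchk_sound r3 le_rfl hY hX hN hτ hσ c3
    have hq : ∀ p q : ℝ, 0 ≤ f4 * p ^ 2 + 2 * (f5 / 2) * (p * q) + f6 * q ^ 2 := fun p q =>
      two_form (mchk_sound (n := 2) (Z := [z4, z5, z6]) (F := [f4, f5, f6])
        (by simp only [C2, List.forall₂_cons]; exact ⟨r4, r5, r6, List.Forall₂.nil⟩) (by simp) hY hX hN hτ hσ cm
        [p, q] rfl)
    exact sev_form q0 q1 q2 q3 (tr2 hq ha)
      (mchk_sound (n := 6) hR (by rw [hZR]) hY hX hN hτ hσ cR [e0, e1, e2, a0, a1, a2] rfl) h0 he0 he1 he2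

end Pool.Agent.MTR
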