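import Pool.Agent.MTR.Defs2
import Pool.Agent.MTR.PRD
import Pool.Agent.PKD.RQF
import Pool.Agent.PKD.PSV
import Pool.Agent.PKD.RC2
/-!
KPS (130 lines). The products are nonnegative (O = OR τ σ, τ, σ ≥ 0).
PROOF. muK O dm v K 0 N ≥ 0 by pvo_nonneg (v.gm = tens ..). Group: qf_vMul: dotL (F i) S * dotL (sum) S; sum: prK: induction, dotL_vAdd, dotL_vSm; hsK: list of three: tr2 (PRD) with w0 = muK w0, 2 w1 = muK w1, w2 = muK w2; hw from psT_pvo with n = 2,
M = [[w0, w1], [w2]], s = [p, q]: qf [c0, c1, c2] [p, q] = c0 p² + c1 p q + c2 q². m4K: tr4 with psT_pvo n = 4. Other lists: zero. All lists have length 7 (hF, hH), vMul's length 28.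
-/
set_option autoImplicit false

open MeasureTheory Set Metric Pool.Agent.MEIS Pool.Agent.MSQ Pool.Agent.MGE Pool.Agent.MGF Pool.Agent.PKD

namespace Pool.Agent.MTR

private theorem lenPr {α : Type} (O : Ops α) {F : ℕ → List α} (hF : ∀ k, (F k).length = 7) (dm K : ℕ) (v : Va α)
    (l : List (ℕ × ℕ)) : (prK O F dm K v l).length = 7 := by
  induction l with
  | nil => simp [prK]
  | cons z l ih =>
    unfold prK
    have e : (vSm O (muK O dm v K 0 z.2) (F z.1)).length = 7 := by rw [len_vSm, hF]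
    rw [len_vAdd O (e.trans ih.symm), e]

private theorem lenHs {α : Type} (O : Ops α) (dm K k : ℕ) (v : Va α)
    (hl : ∀ B k, k ≤ 2 → (heK O v B k).length = 7) (B : Bool) (l : List ℕ) :
    (hsK O dm K k v B l).length = 7 := by
  unfold hsK
  split
  · have e : ∀ c j, j ≤ 2 → (vSm O c (heK O v B j)).length = 7 := fun c j hj => by
      rw [len_vSm, hl B j hj]
    have e1 := fun c c' => (len_vAdd O ((e c 1 (by norm_num)).trans (e c' 2 (by norm_num)).symm)).trans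
      (e c 1 (by norm_num))
    exact (len_vAdd O ((e _ 0 (by norm_num)).trans (e1 _ _).symm)).trans (e _ 0 (by norm_num))
  · simp

private theorem lenGr {α : Type} (O : Ops α) {F : ℕ → List α} (hF : ∀ k, (F k).length = 7) (dm : ℕ) (v : Va α)
    (hl : ∀ B k, k ≤ 2 → (heK O v B k).length = 7) (g : Gr) : (grK O F dm v g).length = 28 := by
  unfold grK
  have a := lenHs O dm g.K g.h v hl false g.WA
  have b := lenHs O dm g.K g.h v hl true g.WB
  have c := (len_vAdd O (a.trans b.symm)).trans a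
  have d := lenPr O hF dm g.K v g.pr
  exact len_vMul O (hF _) ((len_vAdd O (d.trans c.symm)).trans d)

private theorem lenGrs {α : Type} (O : Ops α) (F : ℕ → List α) (hF : ∀ k, (F k).length = 7) (dm : ℕ) (v : Va α)
    (hl : ∀ B k, k ≤ 2 → (heK O v B k).length = 7) (L : List Gr) : (grsK O F dm v L).length = 28 := by
  induction L with
  | nil => simp [grsK]
  | cons g l ih =>
    unfold grsK
    have e := lenGr O hF dm v hl g
    rw [len_vAdd O (e.trans ih.symm), e]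

private theorem lenRow {α : Type} (O : Ops α) (v : Va α) (hl : ∀ B k, k ≤ 2 → (heK O v B k).length = 7)
    (c c' c'' : α) : (vAdd O (vSm O c (heK O v true 0)) (vAdd O (vSm O c' (heK O v true 1))
      (vSm O c'' (heK O v true 2)))).length = 7 := by
  have e : ∀ c j, j ≤ 2 → (vSm O c (heK O v true j)).length = 7 := fun c j hj => by
    rw [len_vSm, hl true j hj]
  have e1 := (len_vAdd O ((e c' 1 (by norm_num)).trans (e c'' 2 (by norm_num)).symm)).trans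
    (e c' 1 (by norm_num))
  exact (len_vAdd O ((e c 0 (by norm_num)).trans e1.symm)).trans (e c 0 (by norm_num))

section
variable {τ σ : ℝ}

private theorem mu_nn (hτ : 0 ≤ τ) (hσ : 0 ≤ σ) {v : Va ℝ} {dm : ℕ}
    (hv : v.gm = tens (mkV (OR τ σ) τ ((OR τ σ).nat 1) dm) (mkV (OR τ σ) σ ((OR τ σ).nat 1) dm))
    {K : ℕ} (hK : 1 ≤ K) (N : ℕ) : 0 ≤ muK (OR τ σ) dm v K 0 N := by
  unfold muK
  rw [hv]
  exact pvo_nonneg hτ hσ K dm N hK

private theorem pr_nn (hτ : 0 ≤ τ) (hσ : 0 ≤ σ) {v : Va ℝ} {dm : ℕ}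
    (hv : v.gm = tens (mkV (OR τ σ) τ ((OR τ σ).nat 1) dm) (mkV (OR τ σ) σ ((OR τ σ).nat 1) dm))
    {F : ℕ → List ℝ} (hF : ∀ k, (F k).length = 7) {S : List ℝ} (hp : ∀ k ≤ 11, 0 ≤ dotL (F k) S)
    {K : ℕ} (hK : 1 ≤ K) (l : List (ℕ × ℕ)) (h : (l.all fun z => Nat.ble z.1 11) = true) :
    0 ≤ dotL (prK (OR τ σ) F dm K v l) S := by
  induction l with
  | nil => exact (dotL_zero τ σ 7 S).ge
  | cons z l ih =>
    rw [List.all_cons, Bool.and_eq_true] at h
    unfold prK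
    rw [dotL_vAdd τ σ (by rw [len_vSm, hF, lenPr _ hF]), dotL_vSm]
    exact add_nonneg (mul_nonneg (mu_nn hτ hσ hv hK _) (hp _ (Nat.le_of_ble_eq_true h.1))) (ih h.2)

private theorem hs_nn (hτ : 0 ≤ τ) (hσ : 0 ≤ σ) {v : Va ℝ} {dm z2 : ℕ}
    (hv : v.gm = tens (mkV (OR τ σ) τ ((OR τ σ).nat 1) dm) (mkV (OR τ σ) σ ((OR τ σ).nat 1) dm))
    {S : List ℝ} (hl : ∀ B k, k ≤ 2 → (heK (OR τ σ) v B k).length = 7)
    (hH : ∀ (B : Bool) (p q : ℝ), 0 ≤ p ^ 2 * dotL (heK (OR τ σ) v B 0) S +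
      2 * p * q * dotL (heK (OR τ σ) v B 1) S + q ^ 2 * dotL (heK (OR τ σ) v B 2) S)
    {K k : ℕ} (hK : 1 ≤ K) (B : Bool) (l : List ℕ) (h : wOK dm K k z2 l = true) :
    0 ≤ dotL (hsK (OR τ σ) dm K k v B l) S := by
  match l, h with
  | [], _ => exact (dotL_zero τ σ 7 S).ge
  | [_], _ => exact (dotL_zero τ σ 7 S).ge
  | [_, _], _ => exact (dotL_zero τ σ 7 S).ge
  | [w0, w1, w2], h =>
    have e0 := hl B 0 (by norm_num)
    have e1 := hl B 1 (by norm_num)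
    have e2 := hl B 2 (by norm_num)
    unfold hsK
    rw [dotL_vAdd τ σ (by rw [len_vSm, len_vAdd, len_vSm, e0, e1]; rw [len_vSm, len_vSm, e1, e2]),
      dotL_vAdd τ σ (by rw [len_vSm, len_vSm, e1, e2]), dotL_vSm, dotL_vSm, dotL_vSm]
    have hT : isTN 2 [[w0, w1], [w2]] := ⟨_, _, rfl, rfl, _, _, rfl, rfl, rfl⟩
    have key := tr2 (w0 := muK (OR τ σ) dm v K k w0) (w1 := muK (OR τ σ) dm v K k w1 / 2)
      (w2 := muK (OR τ σ) dm v K k w2) (fun p q => by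
        have := psT_pvo hτ hσ 2 K dm k z2 hK [[w0, w1], [w2]] hT h [p, q] rfl
        rw [← hv] at this
        refine this.trans (le_of_eq ?_)
        show p * (muK (OR τ σ) dm v K k w0 * p + (muK (OR τ σ) dm v K k w1 * q + 0)) +
          (q * (muK (OR τ σ) dm v K k w2 * q + 0) + 0) = _
        ring) (hH B)
    refine key.trans (le_of_eq ?_)
    ring
  | _ :: _ :: _ :: _ :: _, _ => exact (dotL_zero τ σ 7 S).ge

end

theorem grsK_nonneg {τ σ : ℝ} (hτ : 0 ≤ τ) (hσ : 0 ≤ σ) {v : Va ℝ} {dm z2 : ℕ}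
    (hv : v.gm = tens (mkV (OR τ σ) τ ((OR τ σ).nat 1) dm) (mkV (OR τ σ) σ ((OR τ σ).nat 1) dm)) (F : ℕ → List ℝ)
    (hF : ∀ k, (F k).length = 7) (S : List ℝ) (hS : S.length = 7) (hp : ∀ k ≤ 11, 0 ≤ dotL (F k) S)
    (hl : ∀ B k, k ≤ 2 → (heK (OR τ σ) v B k).length = 7)
    (hH : ∀ (B : Bool) (p q : ℝ), 0 ≤ p ^ 2 * dotL (heK (OR τ σ) v B 0) S +
      2 * p * q * dotL (heK (OR τ σ) v B 1) S + q ^ 2 * dotL (heK (OR τ σ) v B 2) S) (L : List Gr)
    (hid : (L.all fun g => Nat.ble g.i 11 && g.pr.all fun z => Nat.ble z.1 11) = true)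
    (hw : (L.all fun g => Nat.ble 1 g.K && wOK dm g.K g.h z2 g.WA && wOK dm g.K g.h z2 g.WB) = true) :
    0 ≤ qf (grsK (OR τ σ) F dm v L) S := by
  induction L with
  | nil => exact (qf_zero τ σ 28 S).ge
  | cons g L ih =>
    rw [List.all_cons, Bool.and_eq_true] at hid hw
    obtain ⟨hid1, hid2⟩ := hid
    obtain ⟨hw1, hw2⟩ := hw
    simp only [Bool.and_eq_true] at hid1 hw1
    obtain ⟨⟨hK, hA⟩, hB⟩ := hw1
    have hK' : 1 ≤ g.K := Nat.le_of_ble_eq_true hK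
    unfold grsK
    rw [qf_vAdd τ σ (by rw [lenGr _ hF dm v hl g, lenGrs _ F hF dm v hl L])]
    refine add_nonneg ?_ (ih hid2 hw2)
    unfold grK
    have a := lenHs (OR τ σ) dm g.K g.h v hl false g.WA
    have b := lenHs (OR τ σ) dm g.K g.h v hl true g.WB
    have c := (len_vAdd (OR τ σ) (a.trans b.symm)).trans a
    have d := lenPr (OR τ σ) hF dm g.K v g.pr
    rw [qf_vMul τ σ ((hF _).trans hS.symm) (((len_vAdd (OR τ σ) (d.trans c.symm)).trans d).trans hS.symm),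
      dotL_vAdd τ σ (d.trans c.symm), dotL_vAdd τ σ (a.trans b.symm)]
    exact mul_nonneg (hp _ (Nat.le_of_ble_eq_true hid1.1)) (add_nonneg (pr_nn hτ hσ hv hF hp hK' _ hid1.2)
      (add_nonneg (hs_nn hτ hσ hv hl hH hK' _ _ hA) (hs_nn hτ hσ hv hl hH hK' _ _ hB)))
theorem m4K_nonneg {τ σ : ℝ} (hτ : 0 ≤ τ) (hσ : 0 ≤ σ) {v : Va ℝ} (b : Bt) (hK : 1 ≤ b.Km)
    (hv : v.gm = tens (mkV (OR τ σ) τ ((OR τ σ).nat 1) b.dm) (mkV (OR τ σ) σ ((OR τ σ).nat 1) b.dm))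
    (S : List ℝ) (hS : S.length = 7) (hl : ∀ B k, k ≤ 2 → (heK (OR τ σ) v B k).length = 7)
    (hH : ∀ (B : Bool) (p q : ℝ), 0 ≤ p ^ 2 * dotL (heK (OR τ σ) v B 0) S +
      2 * p * q * dotL (heK (OR τ σ) v B 1) S + q ^ 2 * dotL (heK (OR τ σ) v B 2) S)
    (hw : w4OK b b.m4 = true) : 0 ≤ qf (m4K (OR τ σ) b.dm b.Km b.hm v b.m4) S := by
  by_cases hm : ∃ g0 g1 g2 g3 g4 g5 g6 g7 g8 g9 : ℕ, b.m4 = [g0, g1, g2, g3, g4, g5, g6, g7, g8, g9]
  · obtain ⟨g0, g1, g2, g3, g4, g5, g6, g7, g8, g9, hm⟩ := hm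
    rw [hm] at hw ⊢
    have hp : psT 4 b.Km 1 b.hm b.z4 ((b.dm + 1) * (b.dm + 1))
      [[g0, g1, g2, g3], [g4, g5, g6], [g7, g8], [g9]] = true := hw
    have hT : isTN 4 [[g0, g1, g2, g3], [g4, g5, g6], [g7, g8], [g9]] :=
      ⟨_, _, rfl, rfl, _, _, rfl, rfl, _, _, rfl, rfl, _, _, rfl, rfl, rfl⟩
    have a0 := (hl false 0 (by norm_num)).trans hS.symm
    have a1 := (hl false 1 (by norm_num)).trans hS.symm
    have a2 := (hl false 2 (by norm_num)).trans hS.symm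
    have f0 := hl false 0 (by norm_num)
    have f1 := hl false 1 (by norm_num)
    have f2 := hl false 2 (by norm_num)
    have b0 := hl true 0 (by norm_num)
    have b1 := hl true 1 (by norm_num)
    have b2 := hl true 2 (by norm_num)
    have r := lenRow (OR τ σ) v hl
    have r2 : ∀ c c' : ℝ, (vSm (OR τ σ) c (heK (OR τ σ) v true 1)).length =
        (vSm (OR τ σ) c' (heK (OR τ σ) v true 2)).length := fun c c' => by
      rw [len_vSm, len_vSm, b1, b2]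
    have r1 : ∀ c c' c'' : ℝ, (vSm (OR τ σ) c (heK (OR τ σ) v true 0)).length =
        (vAdd (OR τ σ) (vSm (OR τ σ) c' (heK (OR τ σ) v true 1))
          (vSm (OR τ σ) c'' (heK (OR τ σ) v true 2))).length := fun c c' c'' => by
      rw [len_vAdd _ (r2 c' c''), len_vSm, len_vSm, b1, b0]
    have rv : ∀ c c' c'' : ℝ, dotL (vAdd (OR τ σ) (vSm (OR τ σ) c (heK (OR τ σ) v true 0))
        (vAdd (OR τ σ) (vSm (OR τ σ) c' (heK (OR τ σ) v true 1))
          (vSm (OR τ σ) c'' (heK (OR τ σ) v true 2)))) S =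
        c * dotL (heK (OR τ σ) v true 0) S + (c' * dotL (heK (OR τ σ) v true 1) S +
          c'' * dotL (heK (OR τ σ) v true 2) S) := fun c c' c'' => by
      rw [dotL_vAdd τ σ (r1 c c' c''), dotL_vAdd τ σ (r2 c' c''), dotL_vSm, dotL_vSm, dotL_vSm]
    have q0 := fun c c' c'' => len_vMul (OR τ σ) f0 (r c c' c'')
    have q1 := fun c c' c'' => len_vMul (OR τ σ) f1 (r c c' c'')
    have q2 := fun c c' c'' => len_vMul (OR τ σ) f2 (r c c' c'')
    have q12 := fun c c' c'' d d' d'' => (q1 c c' c'').trans (q2 d d' d'').symm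
    unfold m4K
    rw [qf_vAdd τ σ ((q0 _ _ _).trans ((len_vAdd (OR τ σ) (q12 _ _ _ _ _ _)).trans (q1 _ _ _)).symm),
      qf_vAdd τ σ (q12 _ _ _ _ _ _), qf_vMul τ σ a0 ((r _ _ _).trans hS.symm),
      qf_vMul τ σ a1 ((r _ _ _).trans hS.symm), qf_vMul τ σ a2 ((r _ _ _).trans hS.symm), rv, rv, rv]
    have key := tr4 (g0 := muK (OR τ σ) b.dm v b.Km b.hm g0) (g1 := muK (OR τ σ) b.dm v b.Km b.hm g1 / 2)
      (g2 := muK (OR τ σ) b.dm v b.Km b.hm g2 / 2) (g3 := muK (OR τ σ) b.dm v b.Km b.hm g3 / 2)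
      (g4 := muK (OR τ σ) b.dm v b.Km b.hm g4) (g5 := muK (OR τ σ) b.dm v b.Km b.hm g5 / 2)
      (g6 := muK (OR τ σ) b.dm v b.Km b.hm g6 / 2) (g7 := muK (OR τ σ) b.dm v b.Km b.hm g7)
      (g8 := muK (OR τ σ) b.dm v b.Km b.hm g8 / 2) (g9 := muK (OR τ σ) b.dm v b.Km b.hm g9)
      (fun p q u w => by
        have := psT_pvo hτ hσ 4 b.Km b.dm b.hm b.z4 hK [[g0, g1, g2, g3], [g4, g5, g6], [g7, g8], [g9]] hT hp
          [p, q, u, w] rfl
        rw [← hv] at this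
        refine this.trans (le_of_eq ?_)
        show p * (muK (OR τ σ) b.dm v b.Km b.hm g0 * p + (muK (OR τ σ) b.dm v b.Km b.hm g1 * q +
            (muK (OR τ σ) b.dm v b.Km b.hm g2 * u + (muK (OR τ σ) b.dm v b.Km b.hm g3 * w + 0)))) +
          (q * (muK (OR τ σ) b.dm v b.Km b.hm g4 * q + (muK (OR τ σ) b.dm v b.Km b.hm g5 * u +
            (muK (OR τ σ) b.dm v b.Km b.hm g6 * w + 0))) +
          (u * (muK (OR τ σ) b.dm v b.Km b.hm g7 * u + (muK (OR τ σ) b.dm v b.Km b.hm g8 * w + 0)) +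
          (w * (muK (OR τ σ) b.dm v b.Km b.hm g9 * w + 0) + 0))) = _
        ring) (hH false) (hH true)
    refine key.trans (le_of_eq ?_)
    show _ = _ * (_ * _ + (_ * _ + _ * _)) + (_ * (_ * _ + ((muK (OR τ σ) b.dm v b.Km b.hm g3 +
      muK (OR τ σ) b.dm v b.Km b.hm g5) * _ + _ * _)) + _ * (_ * _ + (_ * _ + _ * _)))
    ring
  · have e1 : m4K (OR τ σ) b.dm b.Km b.hm v b.m4 = List.replicate 28 (z0 (OR τ σ)) := by
      unfold m4K
      split
      · rename_i h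
        exact absurd ⟨_, _, _, _, _, _, _, _, _, _, h⟩ hm
      · rfl
    rw [e1]
    exact (qf_zero τ σ 28 S).ge
theorem len_grsK {α : Type} (O : Ops α) (F : ℕ → List α) (hF : ∀ k, (F k).length = 7) (dm : ℕ) (v : Va α)
    (hl : ∀ B k, k ≤ 2 → (heK O v B k).length = 7) (L : List Gr) : (grsK O F dm v L).length = 28 :=
  lenGrs O F hF dm v hl L
theorem len_m4K {α : Type} (O : Ops α) (dm K h : ℕ) (v : Va α) (hl : ∀ B k, k ≤ 2 → (heK O v B k).length = 7)
    (l : List ℕ) : (m4K O dm K h v l).length = 28 := by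
  unfold m4K
  split
  · have e2 := lenRow O v hl
    have e3 := fun j (hj : j ≤ 2) c c' c'' => len_vMul O (hl false j hj) (e2 c c' c'')
    have e4 := fun c1 c2 c3 d1 d2 d3 => (len_vAdd O ((e3 1 (by norm_num) c1 c2 c3).trans
      (e3 2 (by norm_num) d1 d2 d3).symm)).trans (e3 1 (by norm_num) c1 c2 c3)
    exact (len_vAdd O ((e3 0 (by norm_num) _ _ _).trans (e4 _ _ _ _ _ _).symm)).trans
      (e3 0 (by norm_num) _ _ _)
  · simp

end Pool.Agent.MTR
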