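import Pool.Agent.MTR.Defs2
/-!
KRE (120 lines). The point of a box.
PROOF. τ = (q s - x0)/(x1 - q s) ≥ 0, σ = (q t - y0)/(y1 - q t) ≥ 0: with A = q (1 + τ), a = x0 + x1 τ: a = A s; A - a = (q - x0) + (q - x1) τ = A (1 - s) (casts of Nat.sub by bdOK). ω = A B. g3: mkV a A 3 = [A³, a A², a² A, a³] = A³ s^i, so the sum over rows is
A³ B³ ev s t p; ev and evL by lists of length ≤ 4 (len3): cases or a general lemma: dI (OR) (mkV a A n) l = A^n evL (a/A) l for l.length ≤ n + 1 (induction on n generalizing; better: dI (OR) (v.map (c * ·)) l = c * dI v l).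
gd: triR x y z k c: row values c * z^.. : lemma by induction on k: lenOK k p → pvI (OR) (triR x y z k c) p = c * z^k * ev (x/z) (y/z) p; z ≠ 0 (p has at most k + 1 rows with content: for lenOK 0 the further rows are empty lists, ev of them 0).
-/
set_option autoImplicit false

open MeasureTheory Set Metric Pool.Agent.MEIS Pool.Agent.MSQ Pool.Agent.MGE Pool.Agent.MGF Pool.Agent.PKD

namespace Pool.Agent.MTR

private theorem sm_pw (τ σ A : ℝ) : ∀ n : ℕ, pw (OR τ σ) A n = A ^ n := by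
  intro n
  induction n with
  | zero => simp [pw, OR]
  | succ n ih => rw [pw, ih, pow_succ']; rfl

private theorem dI_nil (τ σ : ℝ) (l : List ℤ) : dI (OR τ σ) [] l = 0 := by
  show ((0 : ℕ) : ℝ) = 0
  simp

private theorem dI_cons_nil (τ σ y : ℝ) (v : List ℝ) : dI (OR τ σ) (y :: v) [] = 0 := by
  show ((0 : ℕ) : ℝ) = 0
  simp

private theorem dI_cons (τ σ y : ℝ) (v : List ℝ) (c : ℤ) (l : List ℤ) :
    dI (OR τ σ) (y :: v) (c :: l) = c * y + dI (OR τ σ) v l := by
  cases c with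
  | ofNat n =>
    show (n : ℝ) * y + dI (OR τ σ) v l = ((n : ℤ) : ℝ) * y + dI (OR τ σ) v l
    simp
  | negSucc n =>
    show dI (OR τ σ) v l - ((Nat.succ n : ℕ) : ℝ) * y = ((Int.negSucc n : ℤ) : ℝ) * y + dI (OR τ σ) v l
    rw [Int.cast_negSucc]
    push_cast
    ring

private theorem dI_nil_right (τ σ : ℝ) (v : List ℝ) : dI (OR τ σ) v [] = 0 := by
  cases v with
  | nil => exact dI_nil τ σ []
  | cons y v => exact dI_cons_nil τ σ y v

private theorem dI_map (τ σ c : ℝ) : ∀ (v : List ℝ) (l : List ℤ),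
    dI (OR τ σ) (v.map ((OR τ σ).mul c)) l = c * dI (OR τ σ) v l := by
  intro v
  induction v with
  | nil => intro l; simp [dI_nil]
  | cons y v ih =>
    intro l
    cases l with
    | nil => simp [dI_nil_right]
    | cons a l =>
      rw [List.map_cons, dI_cons, dI_cons, ih l]
      show (a : ℝ) * (c * y) + c * dI (OR τ σ) v l = _
      ring

private theorem dI_mkV (τ σ A s : ℝ) : ∀ (n : ℕ) (l : List ℤ), l.length ≤ n + 1 →
    dI (OR τ σ) (mkV (OR τ σ) (A * s) A n) l = A ^ n * evL s l := by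
  intro n
  induction n with
  | zero =>
    intro l hl
    cases l with
    | nil => simp [dI_nil_right, evL]
    | cons a l =>
      have : l = [] := by
        simp only [List.length_cons] at hl
        exact List.length_eq_zero_iff.mp (by omega)
      subst this
      rw [mkV, dI_cons, dI_nil]
      simp [evL, OR]
  | succ n ih =>
    intro l hl
    cases l with
    | nil => simp [dI_nil_right, evL]
    | cons a l =>
      simp only [List.length_cons] at hl
      rw [mkV, dI_cons, dI_map, ih l (by omega), sm_pw, evL]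
      ring

private theorem pvI_nil (τ σ : ℝ) (p : List (List ℤ)) : pvI (OR τ σ) [] p = 0 := by
  show ((0 : ℕ) : ℝ) = 0
  simp

private theorem pvI_nil_right (τ σ : ℝ) (u : List (ℝ × List ℝ)) : pvI (OR τ σ) u [] = 0 := by
  cases u with
  | nil => exact pvI_nil τ σ []
  | cons y v =>
    show ((0 : ℕ) : ℝ) = 0
    simp

private theorem pvI_cons (τ σ : ℝ) (x : ℝ × List ℝ) (u : List (ℝ × List ℝ)) (r : List ℤ) (p : List (List ℤ)) :
    pvI (OR τ σ) (x :: u) (r :: p) = x.1 * dI (OR τ σ) x.2 r + pvI (OR τ σ) u p := rfl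

private theorem pvI_tens_map (τ σ c : ℝ) (v : List ℝ) : ∀ (u : List ℝ) (p : List (List ℤ)),
    pvI (OR τ σ) (tens (u.map ((OR τ σ).mul c)) v) p = c * pvI (OR τ σ) (tens u v) p := by
  intro u
  induction u with
  | nil => intro p; simp [tens, pvI_nil]
  | cons y u ih =>
    intro p
    cases p with
    | nil => simp [pvI_nil_right]
    | cons r p =>
      have h := ih p
      simp only [tens, List.map_cons] at h ⊢
      rw [pvI_cons, pvI_cons, h]
      show c * y * dI (OR τ σ) v r + c * _ = _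
      ring

private theorem pvI_tens (τ σ A s t c : ℝ) (v : List ℝ) : ∀ (n : ℕ) (p : List (List ℤ)), p.length ≤ n + 1 →
    (∀ r ∈ p, dI (OR τ σ) v r = c * evL t r) →
    pvI (OR τ σ) (tens (mkV (OR τ σ) (A * s) A n) v) p = A ^ n * c * ev s t p := by
  intro n
  induction n with
  | zero =>
    intro p hp hr
    cases p with
    | nil => simp [pvI_nil_right, ev]
    | cons r p =>
      have : p = [] := by
        simp only [List.length_cons] at hp
        exact List.length_eq_zero_iff.mp (by omega)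
      subst this
      rw [mkV, tens, List.map_cons, List.map_nil, pvI_cons, pvI_nil, hr r (by simp)]
      simp [ev, OR]
  | succ n ih =>
    intro p hp hr
    cases p with
    | nil => simp [pvI_nil_right, ev]
    | cons r p =>
      simp only [List.length_cons] at hp
      have h1 := pvI_tens_map τ σ (A * s) v (mkV (OR τ σ) (A * s) A n) p
      have h2 := ih p (by omega) (fun r' h' => hr r' (by simp [h']))
      rw [h2] at h1
      rw [mkV]
      simp only [tens, List.map_cons] at h1 ⊢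
      rw [pvI_cons, h1, ev]
      simp only
      rw [hr r (by simp), sm_pw]
      ring

private theorem ev_empty (x y : ℝ) : ∀ l : List (List ℤ), (l.all fun r => r.isEmpty) = true → ev x y l = 0 := by
  intro l
  induction l with
  | nil => intro _; rfl
  | cons r l ih =>
    intro h
    simp only [List.all_cons, Bool.and_eq_true, List.isEmpty_iff] at h
    rw [ev, h.1, ih h.2]
    simp [evL]

private theorem pvI_tri (τ σ w X Y : ℝ) : ∀ (k : ℕ) (c : ℝ) (p : List (List ℤ)), lenOK k p = true →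
    pvI (OR τ σ) (triR (OR τ σ) (w * X) (w * Y) w k c) p = c * w ^ k * ev X Y p := by
  intro k
  induction k with
  | zero =>
    intro c p hp
    cases p with
    | nil => simp [pvI_nil_right, ev]
    | cons r p =>
      simp only [lenOK, Bool.and_eq_true] at hp
      have h1 : r.length ≤ 1 := Nat.le_of_ble_eq_true hp.1
      have h2 := dI_mkV τ σ 1 Y 0 r (by omega)
      rw [mkV] at h2
      rw [triR, pvI_cons, pvI_nil, ev, ev_empty _ _ _ hp.2]
      simp only
      rw [h2]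
      ring
  | succ k ih =>
    intro c p hp
    cases p with
    | nil => simp [pvI_nil_right, ev]
    | cons r p =>
      simp only [lenOK, Bool.and_eq_true] at hp
      have h1 : r.length ≤ k + 2 := Nat.le_of_ble_eq_true hp.1
      have h2 := dI_mkV τ σ w Y (k + 1) r (by omega)
      have h3 := ih (c * (w * X)) p hp.2
      rw [triR, pvI_cons, ev]
      simp only
      have h4 : (OR τ σ).mul c (w * X) = c * (w * X) := rfl
      rw [h2, h4, h3]
      ring

theorem mkVa_RE (b : Bn) (hb : bdOK b = true) (d dm : ℕ) (s t : ℝ) (h : inBn b s t) :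
    ∃ τ σ ω : ℝ, 0 ≤ τ ∧ 0 ≤ σ ∧ RE (OR τ σ) (mkVa (OR τ σ) b d dm) ω s t d := by
  obtain ⟨hx0, hx1, hy0, hy1⟩ := h
  simp only [bdOK, Bool.and_eq_true] at hb
  obtain ⟨⟨⟨⟨hq, bx0⟩, bx1⟩, by0⟩, by1⟩ := hb
  have hq := Nat.le_of_ble_eq_true hq
  have bx0 := Nat.le_of_ble_eq_true bx0
  have bx1 := Nat.le_of_ble_eq_true bx1
  have by0 := Nat.le_of_ble_eq_true by0
  have by1 := Nat.le_of_ble_eq_true by1
  have hqp : (0 : ℝ) < b.q := by exact_mod_cast hq
  have dx : (0 : ℝ) < b.x1 - b.q * s := by linarith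
  have dy : (0 : ℝ) < b.y1 - b.q * t := by linarith
  obtain ⟨τ, hτ⟩ : ∃ τ : ℝ, τ = (b.q * s - b.x0) / (b.x1 - b.q * s) := ⟨_, rfl⟩
  obtain ⟨σ, hσ⟩ : ∃ σ : ℝ, σ = (b.q * t - b.y0) / (b.y1 - b.q * t) := ⟨_, rfl⟩
  have τ0 : 0 ≤ τ := by rw [hτ]; exact div_nonneg (by linarith) dx.le
  have σ0 : 0 ≤ σ := by rw [hσ]; exact div_nonneg (by linarith) dy.le
  have τe : τ * (b.x1 - b.q * s) = b.q * s - b.x0 := by rw [hτ]; field_simp
  have σe : σ * (b.y1 - b.q * t) = b.q * t - b.y0 := by rw [hσ]; field_simp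
  have eA : vA (OR τ σ) b = b.q * (1 + τ) := by
    show ((b.q : ℕ) : ℝ) * (((1 : ℕ) : ℝ) + τ) = _
    simp
  have eB : vB (OR τ σ) b = b.q * (1 + σ) := by
    show ((b.q : ℕ) : ℝ) * (((1 : ℕ) : ℝ) + σ) = _
    simp
  obtain ⟨A, hA⟩ : ∃ A : ℝ, A = b.q * (1 + τ) := ⟨_, rfl⟩
  obtain ⟨B, hB⟩ : ∃ B : ℝ, B = b.q * (1 + σ) := ⟨_, rfl⟩
  have ea : va (OR τ σ) b = A * s := by
    show ((b.x0 : ℕ) : ℝ) + ((b.x1 : ℕ) : ℝ) * τ = _
    rw [hA]; linear_combination τe
  have eb : vb (OR τ σ) b = B * t := by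
    show ((b.y0 : ℕ) : ℝ) + ((b.y1 : ℕ) : ℝ) * σ = _
    rw [hB]; linear_combination σe
  have ec : vc (OR τ σ) b = A * (1 - s) := by
    show ((Nat.sub b.q b.x0 : ℕ) : ℝ) + ((Nat.sub b.q b.x1 : ℕ) : ℝ) * τ = _
    have e1 : ((Nat.sub b.q b.x0 : ℕ) : ℝ) = (b.q : ℝ) - b.x0 := Nat.cast_sub bx0
    have e2 : ((Nat.sub b.q b.x1 : ℕ) : ℝ) = (b.q : ℝ) - b.x1 := Nat.cast_sub bx1
    rw [e1, e2, hA]; linear_combination -τe
  have ee : ve (OR τ σ) b = B * (1 - t) := by
    show ((Nat.sub b.q b.y0 : ℕ) : ℝ) + ((Nat.sub b.q b.y1 : ℕ) : ℝ) * σ = _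
    have e1 : ((Nat.sub b.q b.y0 : ℕ) : ℝ) = (b.q : ℝ) - b.y0 := Nat.cast_sub by0
    have e2 : ((Nat.sub b.q b.y1 : ℕ) : ℝ) = (b.q : ℝ) - b.y1 := Nat.cast_sub by1
    rw [e1, e2, hB]; linear_combination -σe
  rw [← hA] at eA
  rw [← hB] at eB
  have Ap : 0 < A := by rw [hA]; positivity
  have Bp : 0 < B := by rw [hB]; positivity
  have xx : (OR τ σ).mul (vc (OR τ σ) b) (vB (OR τ σ) b) = A * B * (1 - s) := by
    rw [ec, eB]
    show A * (1 - s) * B = _
    ring
  have yy : (OR τ σ).mul (va (OR τ σ) b) (ve (OR τ σ) b) = A * B * (s * (1 - t)) := by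
    rw [ea, ee]
    show A * s * (B * (1 - t)) = _
    ring
  have oo : (OR τ σ).mul (vA (OR τ σ) b) (vB (OR τ σ) b) = A * B := by
    rw [eA, eB]; rfl
  have n1 : (OR τ σ).nat 1 = 1 := by show ((1 : ℕ) : ℝ) = 1; simp
  refine ⟨τ, σ, A * B, τ0, σ0, ⟨mul_pos Ap Bp, oo, xx, yy, ?_, ?_, ?_⟩⟩
  · intro p hp
    simp only [len3, Bool.and_eq_true, List.all_eq_true] at hp
    have h1 : p.length ≤ 4 := Nat.le_of_ble_eq_true hp.1
    show pvI (OR τ σ) (tens (mkV (OR τ σ) (va (OR τ σ) b) (vA (OR τ σ) b) 3)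
      (mkV (OR τ σ) (vb (OR τ σ) b) (vB (OR τ σ) b) 3)) p = _
    rw [ea, eb, eA, eB, pvI_tens τ σ A s t (B ^ 3) _ 3 p h1
      (fun r hr => dI_mkV τ σ B t 3 r (Nat.le_of_ble_eq_true (hp.2 r hr)))]
    ring
  · intro p hp
    show pvI (OR τ σ) (triR (OR τ σ) ((OR τ σ).mul (vc (OR τ σ) b) (vB (OR τ σ) b))
      ((OR τ σ).mul (va (OR τ σ) b) (ve (OR τ σ) b)) ((OR τ σ).mul (vA (OR τ σ) b) (vB (OR τ σ) b)) d
      ((OR τ σ).nat 1)) p = _
    rw [xx, yy, oo, n1, pvI_tri τ σ (A * B) (1 - s) (s * (1 - t)) d 1 p hp]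
    ring
  · intro p hp
    show pvI (OR τ σ) (triR (OR τ σ) ((OR τ σ).mul (vc (OR τ σ) b) (vB (OR τ σ) b))
      ((OR τ σ).mul (va (OR τ σ) b) (ve (OR τ σ) b)) ((OR τ σ).mul (vA (OR τ σ) b) (vB (OR τ σ) b)) (d - 1)
      ((OR τ σ).nat 1)) p = _
    rw [xx, yy, oo, n1, pvI_tri τ σ (A * B) (1 - s) (s * (1 - t)) (d - 1) 1 p hp]
    ring

end Pool.Agent.MTR
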