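import Pool.Agent.MTR.Defs
import Pool.Agent.MSQ.EvA
/-!
SAP (100 lines). The points of the sector.
PROOF. Coordinates: pt (a, b, c) 0 = a etc. by rfl; direct computation (ring, linarith, nlinarith). a 0 ≥ a 1 ≥ a 2 ≥ 0 in the triangle
x, y ≥ 0, x + y ≤ 1. nW^2 = (8 + 4 x^2 + 2 x y + y^2)/12 (Real.sq_sqrt). On the triangle nW ≤ 1: n^2 = (8 + 4x^2+2xy+y^2)/12 ≤ (8 + 4 (x+y)^2)/12 ≤ 1.
-/
set_option autoImplicit false

open MeasureTheory Set Metric Pool.Agent.MEIS Pool.Agent.MSQ Pool.Agent.MGE Pool.Agent.MGF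

namespace Pool.Agent.MTR

theorem sa_0 (x y : ℝ) : sa x y 0 = x + y / 2 + (1 - x - y) / 3 := rfl
theorem sa_1 (x y : ℝ) : sa x y 1 = y / 2 + (1 - x - y) / 3 := rfl
theorem sa_2 (x y : ℝ) : sa x y 2 = (1 - x - y) / 3 := rfl
theorem sa_sum (x y : ℝ) : sa x y 0 + sa x y 1 + sa x y 2 = 1 := by
  rw [sa_0, sa_1, sa_2]
  ring
theorem sa_ne (x y : ℝ) : sa x y ≠ 0 := by
  intro h
  have h1 := sa_sum x y
  rw [h] at h1
  simp at h1
theorem sa_ord (x y : ℝ) (hx : 0 ≤ x) (hy : 0 ≤ y) (hxy : x + y ≤ 1) :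
    0 ≤ sa x y 2 ∧ sa x y 2 ≤ sa x y 1 ∧ sa x y 1 ≤ sa x y 0 := by
  rw [sa_0, sa_1, sa_2]
  refine ⟨by linarith, by linarith, by linarith⟩
theorem sa_a6 (x y : ℝ) : ev x y a60 = 6 * sa x y 0 ∧ ev x y a61 = 6 * sa x y 1 ∧ ev x y a62 = 6 * sa x y 2 := by
  rw [sa_0, sa_1, sa_2]
  simp only [ev, evL, a60, a61, a62]
  push_cast
  refine ⟨by ring, by ring, by ring⟩
theorem sa_b6 (s t : ℝ) : ev s t b60 = 6 * sa (1 - s) (s * (1 - t)) 0 ∧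
    ev s t b61 = 6 * sa (1 - s) (s * (1 - t)) 1 ∧ ev s t b62 = 6 * sa (1 - s) (s * (1 - t)) 2 := by
  rw [sa_0, sa_1, sa_2]
  simp only [ev, evL, b60, b61, b62]
  push_cast
  refine ⟨by ring, by ring, by ring⟩
private theorem sap_sq (x y : ℝ) : 12 * nW (sa x y) ^ 2 = 8 + 4 * x ^ 2 + 2 * x * y + y ^ 2 := by
  unfold nW
  rw [Real.sq_sqrt, sa_0, sa_1, sa_2]
  · ring
  · rw [sa_0, sa_1, sa_2]
    nlinarith [sq_nonneg (x + y), sq_nonneg x, sq_nonneg y]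
theorem nW_pos (x y : ℝ) : 0 < nW (sa x y) := by
  have h := sap_sq x y
  have h0 : 0 ≤ nW (sa x y) := Real.sqrt_nonneg _
  rcases h0.lt_or_eq with h1 | h1
  · exact h1
  · exfalso
    rw [← h1] at h
    nlinarith [sq_nonneg (x + y), sq_nonneg x, sq_nonneg y]
theorem nW_le (x y : ℝ) (hx : 0 ≤ x) (hy : 0 ≤ y) (hxy : x + y ≤ 1) : nW (sa x y) ≤ 1 := by
  have h := sap_sq x y
  have h0 : 0 ≤ nW (sa x y) := Real.sqrt_nonneg _
  have h2 : 12 * nW (sa x y) ^ 2 ≤ 12 := by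
    rw [h]
    nlinarith [mul_nonneg hx hy, mul_nonneg (sub_nonneg.2 hxy) (add_nonneg hx hy), mul_nonneg hx hx,
      mul_nonneg hy hy]
  nlinarith
theorem nW_sq (x y : ℝ) : 12 * nW (sa x y) ^ 2 = 8 + 4 * x ^ 2 + 2 * x * y + y ^ 2 := by
  exact sap_sq x y
theorem ev_Mp (x y : ℝ) : ev x y Mp = 12 * nW (sa x y) ^ 2 := by
  rw [nW_sq]
  simp only [ev, evL, Mp]
  push_cast
  ring
theorem ev_Ms (s t : ℝ) : ev s t Ms = 12 * nW (sa (1 - s) (s * (1 - t))) ^ 2 := by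
  rw [nW_sq]
  simp only [ev, evL, Ms]
  push_cast
  ring
/-- the side `t = 0` -/
theorem sa_side (r : ℝ) : sa r (1 - r) = pt ((1 + r) / 2) ((1 - r) / 2) 0 := by
  unfold sa
  have h1 : r + (1 - r) / 2 + (1 - r - (1 - r)) / 3 = (1 + r) / 2 := by ring
  have h2 : (1 - r) / 2 + (1 - r - (1 - r)) / 3 = (1 - r) / 2 := by ring
  have h3 : (1 - r - (1 - r)) / 3 = 0 := by ring
  rw [h1, h2, h3]
/-- `lt` of FF is `√2 nW` -/
theorem lt_side (r : ℝ) : lt r = √2 * nW (sa r (1 - r)) := by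
  have h0 : 0 ≤ nW (sa r (1 - r)) := Real.sqrt_nonneg _
  have h := nW_sq r (1 - r)
  unfold lt
  rw [← Real.sqrt_sq h0, ← Real.sqrt_mul (by norm_num)]
  congr 1
  nlinarith

end Pool.Agent.MTR
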