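import Pool.Agent.MTR.KRA
import Pool.Agent.MTR.SAP
/-!
KRF (110 lines). Forms, Hessians and bounds of n³ at the point of a box.
PROOF. Cases k = 0..11: both sides explicit (frm with r = rgOf, b = bxOf: casts), vU = ω³ ev s t nU etc. (RE.g3, len3), dotL of lists of 7 with S = [a,..,g]. SK: the three values are ω³ ev nU, ω⁶ (1728 nU² - dN² M³), ω⁶ (dN² M³ - 1728 nL²), with M = 12 n² at
sa (1-s) (s(1-t)) (see BOX/SAP: ev s t Ms = 12 nW²), so M³ = 1728 n⁶: nU ≥ dN n³ (squares, nU ≥ 0), nL ≤ dN n³ (abs_le_of_sq_le). dN ≥ 1.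
-/
set_option autoImplicit false

open MeasureTheory Set Metric Pool.Agent.MEIS Pool.Agent.MSQ Pool.Agent.MGE Pool.Agent.MGF Pool.Agent.PKD

namespace Pool.Agent.MTR

variable {τ σ ω s t : ℝ} {v : Va ℝ} {d : ℕ}

private theorem krf_len7 {S : List ℝ} (hS : S.length = 7) :
    ∃ s0 s1 s2 s3 s4 s5 s6 : ℝ, S = [s0, s1, s2, s3, s4, s5, s6] := by
  match S, hS with
  | [s0, s1, s2, s3, s4, s5, s6], _ => exact ⟨s0, s1, s2, s3, s4, s5, s6, rfl⟩

private theorem krf_add (a b : ℝ) : (OR τ σ).add a b = a + b := rfl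
private theorem krf_sub (a b : ℝ) : (OR τ σ).sub a b = a - b := rfl
private theorem krf_mul (a b : ℝ) : (OR τ σ).mul a b = a * b := rfl
private theorem krf_nat (n : ℕ) : (OR τ σ).nat n = (n : ℝ) := rfl
private theorem krf_z0 : z0 (OR τ σ) = 0 := by
  simp only [z0, krf_nat, Nat.cast_zero]
private theorem krf_natmul (a b : ℕ) : Nat.mul a b = a * b := rfl
private theorem krf_vnil (c : ℝ) : vSm (OR τ σ) c [] = [] := rfl
private theorem krf_vcons (c a : ℝ) (l : List ℝ) :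
    vSm (OR τ σ) c (a :: l) = c * a :: vSm (OR τ σ) c l := rfl
private theorem krf_pw (A : ℝ) (n : ℕ) : pw (OR τ σ) A n = A ^ n := by
  induction n with
  | zero => simp [pw, krf_nat]
  | succ n ih =>
    simp only [pw, krf_mul, ih]
    ring
private theorem krf_const (x y : ℝ) (a : ℤ) : ev x y [[a]] = (a : ℝ) := by
  simp only [ev, evL]
  ring

theorem frK_val (h : RE (OR τ σ) v ω s t d) (ln ld bn bd : ℕ) (b : Bt) (hU : len3 b.nU = true)
    (hL : len3 b.nL = true) (k : ℕ) (hk : k ≤ 11) (S : List ℝ) (hS : S.length = 7) :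
    dotL (frK (OR τ σ) ln ld bn bd b v k) S = ω ^ 4 * dotL (evE s t (frm (rgOf ln ld bn bd) (bxOf b) k)) S := by
  obtain ⟨s0, s1, s2, s3, s4, s5, s6, rfl⟩ := krf_len7 hS
  have e0 := (la0_val h).2
  have e1 := (la1_val h).2
  have e2 := (la2_val h).2
  have eM := (lM_val h).2
  have eU : vU (OR τ σ) b v = ω ^ 3 * ev s t b.nU := h.g3 _ hU
  have eL : vL (OR τ σ) b v = ω ^ 3 * ev s t b.nL := h.g3 _ hL
  have e3 := h.one
  have hk' : k = 0 ∨ k = 1 ∨ k = 2 ∨ k = 3 ∨ k = 4 ∨ k = 5 ∨ k = 6 ∨ k = 7 ∨ k = 8 ∨ k = 9 ∨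
      k = 10 ∨ k = 11 := by omega
  rcases hk' with rfl | rfl | rfl | rfl | rfl | rfl | rfl | rfl | rfl | rfl | rfl | rfl
  · simp only [frK, frm, dotL_unK, dotL_un, krf_pw, e3, c1, krf_const]
    push_cast
    ring
  · simp only [frK, frm, rgOf, bxOf, krf_pw, krf_mul, krf_sub, krf_nat, krf_z0, krf_natmul, e0, e1, e2, e3, eL,
      evE, List.map_cons, List.map_nil, dotL, ev_pSm, ev_pMul, ev_nil]
    push_cast
    ring
  · simp only [frK, frm, T6K, krf_vcons, krf_vnil, krf_pw, krf_z0, e0, e1, e2, e3, evE, List.map_cons, List.map_nil,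
      dotL, ev_nil]
    ring
  · simp only [frK, frm, rgOf, bxOf, krf_pw, krf_mul, krf_sub, krf_nat, krf_z0, krf_natmul, e3, eL,
      evE, List.map_cons, List.map_nil, dotL, ev_pSm, krf_const, ev_nil]
    push_cast
    ring
  · simp only [frK, frm, dotL_unK, dotL_un, krf_pw, e3, c1, krf_const]
    push_cast
    ring
  · simp only [frK, frm, dotL_unK, dotL_un, krf_pw, e3, c1, krf_const]
    push_cast
    ring
  · simp only [frK, frm, dotL_unK, dotL_un, krf_pw, e3, c1, krf_const]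
    push_cast
    ring
  · simp only [frK, frm, rgOf, bxOf, krf_pw, krf_mul, krf_sub, krf_add, krf_nat, krf_z0, krf_natmul, e0, e3, eU,
      eM, evE, List.map_cons, List.map_nil, dotL, ev_pAdd, ev_pSm, ev_pMul, krf_const, ev_nil]
    push_cast
    ring
  · simp only [frK, frm, rgOf, bxOf, krf_pw, krf_mul, krf_sub, krf_add, krf_nat, krf_z0, krf_natmul, e1, e3, eU,
      eM, evE, List.map_cons, List.map_nil, dotL, ev_pAdd, ev_pSm, ev_pMul, krf_const, ev_nil]
    push_cast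
    ring
  · simp only [frK, frm, rgOf, bxOf, krf_pw, krf_mul, krf_sub, krf_add, krf_nat, krf_z0, krf_natmul, e2, e3, eU,
      eM, evE, List.map_cons, List.map_nil, dotL, ev_pAdd, ev_pSm, ev_pMul, krf_const, ev_nil]
    push_cast
    ring
  · simp only [frK, frm, rgOf, bxOf, T6K, krf_vcons, krf_vnil, List.tail_cons, krf_pw, krf_mul, krf_sub, krf_nat,
      krf_z0, krf_natmul, e0, e1, e2, e3, eU, evE, List.map_cons, List.map_nil, dotL, ev_pSm, ev_pMul, ev_nil]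
    push_cast
    ring
  · simp only [frK, frm, rgOf, bxOf, krf_pw, krf_mul, krf_sub, krf_add, krf_nat, krf_z0, krf_natmul, e3, eU,
      eM, evE, List.map_cons, List.map_nil, dotL, ev_pAdd, ev_pSm, krf_const, ev_nil]
    push_cast
    ring
theorem heK_val (h : RE (OR τ σ) v ω s t d) (B : Bool) (k : ℕ) (hk : k ≤ 2) (S : List ℝ) (hS : S.length = 7) :
    dotL (heK (OR τ σ) v B k) S = ω ^ 4 * dotL (evE s t (hes B k)) S := by
  obtain ⟨s0, s1, s2, s3, s4, s5, s6, rfl⟩ := krf_len7 hS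
  have e0 := (la0_val h).2
  have e1 := (la1_val h).2
  have e2 := (la2_val h).2
  have eM := (lM_val h).2
  have e3 := h.one
  cases B with
  | false =>
    simp only [heK, hes, dotL_unK, dotL_un, krf_pw, e3, c1, krf_const]
    push_cast
    ring
  | true =>
    have hk' : k = 0 ∨ k = 1 ∨ k = 2 := by omega
    rcases hk' with rfl | rfl | rfl
    · simp only [heK, hes, krf_mul, krf_sub, krf_nat, krf_z0, e0, e2, e3, eM, evE, List.map_cons, List.map_nil, dotL,
        ev_pAdd, ev_pSm, ev_pMul, krf_const, ev_nil]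
      push_cast
      ring
    · simp only [heK, hes, krf_mul, krf_sub, krf_nat, krf_z0, e0, e1, e2, e3, eM, evE, List.map_cons, List.map_nil,
        dotL, ev_pAdd, ev_pSm, ev_pMul, krf_const, ev_nil]
      push_cast
      ring
    · simp only [heK, hes, krf_mul, krf_sub, krf_nat, krf_z0, e1, e2, e3, eM, evE, List.map_cons, List.map_nil, dotL,
        ev_pAdd, ev_pSm, ev_pMul, krf_const, ev_nil]
      push_cast
      ring
theorem SK_nB (h : RE (OR τ σ) v ω s t d) (b : Bt) (hU : len3 b.nU = true) (hL : len3 b.nL = true) (hd : 1 ≤ b.dN)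
    (h0 : ∀ z ∈ SK (OR τ σ) b v, 0 ≤ z) (hs0 : 0 ≤ s) (hs1 : s ≤ 1) (ht0 : 0 ≤ t) (ht1 : t ≤ 1) :
    nB (bxOf b) s t (nW (sa (1 - s) (s * (1 - t)))) := by
  have eM := (lM_val h).2
  have eU : vU (OR τ σ) b v = ω ^ 3 * ev s t b.nU := h.g3 _ hU
  have eL : vL (OR τ σ) b v = ω ^ 3 * ev s t b.nL := h.g3 _ hL
  have hω := h.pos
  have k1 := h0 (vU (OR τ σ) b v) (by simp [SK])
  have k2 := h0 ((OR τ σ).sub ((OR τ σ).mul ((OR τ σ).nat 1728) ((OR τ σ).mul (vU (OR τ σ) b v) (vU (OR τ σ) b v)))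
      ((OR τ σ).mul ((OR τ σ).nat (Nat.mul b.dN b.dN)) ((OR τ σ).mul (lM (OR τ σ) v)
        ((OR τ σ).mul (lM (OR τ σ) v) (lM (OR τ σ) v))))) (by simp [SK])
  have k3 := h0 ((OR τ σ).sub ((OR τ σ).mul ((OR τ σ).nat (Nat.mul b.dN b.dN)) ((OR τ σ).mul (lM (OR τ σ) v)
        ((OR τ σ).mul (lM (OR τ σ) v) (lM (OR τ σ) v))))
      ((OR τ σ).mul ((OR τ σ).nat 1728) ((OR τ σ).mul (vL (OR τ σ) b v) (vL (OR τ σ) b v)))) (by simp [SK])
  simp only [krf_mul, krf_sub, krf_nat, krf_natmul, eM, eU, eL] at k1 k2 k3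
  push_cast at k2 k3
  have hMs := ev_Ms s t
  rw [hMs] at k2 k3
  have hnp : 0 < nW (sa (1 - s) (s * (1 - t))) := nW_pos _ _
  have hd' : (0 : ℝ) < b.dN := by exact_mod_cast hd
  generalize nW (sa (1 - s) (s * (1 - t))) = N at hnp k2 k3 ⊢
  have hx : 0 ≤ (b.dN : ℝ) * N ^ 3 := by positivity
  have hω3 : 0 < ω ^ 3 := by positivity
  have hω6 : 0 < ω ^ 6 := by positivity
  have j1 : 0 ≤ ev s t b.nU := nonneg_of_mul_nonneg_right k1 hω3
  have j2 : ((b.dN : ℝ) * N ^ 3) ^ 2 ≤ (ev s t b.nU) ^ 2 := by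
    have : 0 ≤ ω ^ 6 * (1728 * ((ev s t b.nU) ^ 2 - ((b.dN : ℝ) * N ^ 3) ^ 2)) := by
      refine le_of_le_of_eq k2 ?_
      ring
    have := nonneg_of_mul_nonneg_right this hω6
    linarith
  have j3 : (ev s t b.nL) ^ 2 ≤ ((b.dN : ℝ) * N ^ 3) ^ 2 := by
    have : 0 ≤ ω ^ 6 * (1728 * (((b.dN : ℝ) * N ^ 3) ^ 2 - (ev s t b.nL) ^ 2)) := by
      refine le_of_le_of_eq k3 ?_
      ring
    have := nonneg_of_mul_nonneg_right this hω6
    linarith
  refine ⟨by simp only [bxOf]; exact_mod_cast hd, ?_, ?_⟩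
  · have := (abs_le_of_sq_le_sq' j3 hx).2
    simp only [bxOf]
    push_cast
    exact this
  · have := (abs_le_of_sq_le_sq' j2 j1).2
    simp only [bxOf]
    push_cast
    exact this

end Pool.Agent.MTR
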