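import Pool.Agent.MTR.KRA
/-!
KRR (130 lines). The residual at the point of a box.
PROOF. dvK: qf_vAdd, qf_vMul (lengths 7: unK, mdk), dotL_unK, mdk values; dvx: qf_sumQ, qf_qPm, qf_qMul, dotL_un (QML); ss α β: qf = S_α S_β. Cases α, β = 0 or k+1 for the factor o2. pDX p at (x, y). zipD / zipWith: induction on the lists (all elements satisfy
lenOK, dP = cP.map pDX: from gchk). The pairs prs have entries ≤ 3 (dotL_un needs no bound; un_length needs k ≤ 6): prove the induction for lists of pairs with entries ≤ 6. sum28: qf of the sum = sum (all lists have length 28: len_vAdd, len_vMul in RC2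
are in PKD.RC2: import it if useful). Rst: evE_sub, qf_qAdd, qf_one. ω^(d-1) * ω^.. : d ≥ 5. payP: cases sg; for sg = true and pay = 0 both sides are 0 (payP 0).
-/
set_option autoImplicit false

open MeasureTheory Set Metric Pool.Agent.MEIS Pool.Agent.MSQ Pool.Agent.MGE Pool.Agent.MGF Pool.Agent.PKD

namespace Pool.Agent.MTR

variable {τ σ ω s t : ℝ} {v : Va ℝ}

private theorem krr_add (a b : ℝ) : (OR τ σ).add a b = a + b := rfl
private theorem krr_sub (a b : ℝ) : (OR τ σ).sub a b = a - b := rfl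
private theorem krr_mul (a b : ℝ) : (OR τ σ).mul a b = a * b := rfl
private theorem krr_nat (n : ℕ) : (OR τ σ).nat n = (n : ℝ) := rfl
private theorem krr_z0 : z0 (OR τ σ) = 0 := by
  simp only [z0, krr_nat, Nat.cast_zero]
private theorem krr_natmul (a b : ℕ) : Nat.mul a b = a * b := rfl
private theorem krr_pw (A : ℝ) (n : ℕ) : pw (OR τ σ) A n = A ^ n := by
  induction n with
  | zero => simp [pw, krr_nat]
  | succ n ih =>
    simp only [pw, krr_mul, ih]
    ring
private theorem krr_const (x y : ℝ) (a : ℤ) : ev x y [[a]] = (a : ℝ) := by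
  simp only [ev, evL]
  ring

/-! lengths -/

private theorem krr_len_vAdd {α : Type} (O : Ops α) (A B : List α) (h : A.length = B.length) :
    (vAdd O A B).length = A.length := by
  induction A generalizing B with
  | nil => rfl
  | cons a A ih =>
    cases B with
    | nil => simp at h
    | cons b B =>
      have e : vAdd O (a :: A) (b :: B) = O.add a b :: vAdd O A B := rfl
      rw [e, List.length_cons, List.length_cons, ih B (by simpa using h)]
private theorem krr_len_vSm {α : Type} (O : Ops α) (c : α) (A : List α) : (vSm O c A).length = A.length := by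
  induction A with
  | nil => rfl
  | cons a A ih =>
    have e : vSm O c (a :: A) = O.mul c a :: vSm O c A := rfl
    rw [e, List.length_cons, List.length_cons, ih]
private theorem krr_len_rowK {α : Type} (O : Ops α) (l m : α) (T A B : List α) (h : A.length = B.length) :
    (rowK O l m T A B).length = A.length + T.length := by
  induction A generalizing B with
  | nil =>
    have e : rowK O l m T [] B = T := rfl
    rw [e]
    simp
  | cons a A ih =>
    cases B with
    | nil => simp at h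
    | cons b B =>
      have e : rowK O l m T (a :: A) (b :: B) = O.add (O.mul l b) (O.mul m a) :: rowK O l m T A B := rfl
      rw [e, List.length_cons, List.length_cons, ih B (by simpa using h)]
      omega
private theorem krr_len_vMul {α : Type} (O : Ops α) (A B : List α) (h : A.length = B.length) :
    2 * (vMul O A B).length = A.length * (A.length + 1) := by
  induction A generalizing B with
  | nil => rfl
  | cons a A ih =>
    cases B with
    | nil => simp at h
    | cons b B =>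
      have e : vMul O (a :: A) (b :: B) = O.mul a b :: rowK O a b (vMul O A B) A B := rfl
      have h' : A.length = B.length := by simpa using h
      have := ih B h'
      rw [e, List.length_cons, List.length_cons, krr_len_rowK O a b _ A B h']
      nlinarith
private theorem krr_len28 {α : Type} (O : Ops α) (A B : List α) (hA : A.length = 7) (hB : B.length = 7) :
    (vMul O A B).length = 28 := by
  have h := krr_len_vMul O A B (hA.trans hB.symm)
  rw [hA] at h
  omega
private theorem krr_len_unK {α : Type} (O : Ops α) (k : ℕ) (hk : k ≤ 6) (p : α) : (unK O k p).length = 7 := by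
  simp only [unK, List.length_append, List.length_replicate, List.length_cons]
  omega
private theorem krr_len_dek {α : Type} (O : Ops α) (v : Va α) (dir : Bool) (k : ℕ) :
    (dek O v dir k).length = 7 := by
  cases dir <;> rfl
private theorem krr_len_mdk {α : Type} (O : Ops α) (v : Va α) (dir : Bool) (k : ℕ) :
    (mdk O v dir k).length = 7 := by
  cases k with
  | zero => cases dir <;> rfl
  | succ k =>
    have e : mdk O v dir (k + 1) = vSm O (lM O v) (dek O v dir k) := by
      simp only [mdk]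
    rw [e, krr_len_vSm, krr_len_dek]
private theorem krr_len_dvK {α : Type} (O : Ops α) (v : Va α) (dir : Bool) (c cd : α) (x y : ℕ) (hx : x ≤ 6)
    (hy : y ≤ 6) : (dvK O v dir c cd x y).length = 28 := by
  unfold dvK
  have e1 : ∀ a b : α, (vMul O (unK O x a) (unK O y b)).length = 28 := fun a b =>
    krr_len28 O _ _ (krr_len_unK O x hx _) (krr_len_unK O y hy _)
  have e2 : ∀ a b : α, (vMul O (vSm O a (mdk O v dir x)) (unK O y b)).length = 28 := fun a b =>
    krr_len28 O _ _ (by rw [krr_len_vSm, krr_len_mdk]) (krr_len_unK O y hy _)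
  have e3 : ∀ a b : α, (vMul O (vSm O a (mdk O v dir y)) (unK O x b)).length = 28 := fun a b =>
    krr_len28 O _ _ (by rw [krr_len_vSm, krr_len_mdk]) (krr_len_unK O x hx _)
  have e4 : ∀ a b a' b' : α, (vAdd O (vMul O (vSm O a (mdk O v dir x)) (unK O y b))
      (vMul O (vSm O a' (mdk O v dir y)) (unK O x b'))).length = 28 := fun a b a' b' => by
    rw [krr_len_vAdd _ _ _ (by rw [e2, e3]), e2]
  rw [krr_len_vAdd _ _ _ (by rw [e1, e4]), e1]
private theorem krr_len_mdx (k : ℕ) : (mdx k).length = 7 := by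
  cases k with
  | zero => rfl
  | succ k =>
    simp only [mdx, qPm_length]
    rfl
private theorem krr_len_mdy (k : ℕ) : (mdy k).length = 7 := by
  cases k with
  | zero => rfl
  | succ k =>
    simp only [mdy, qPm_length]
    rfl

theorem dvK_val {d : ℕ} (hd : 1 ≤ d) (h : RE (OR τ σ) v ω s t d) (p : P) (x y : ℕ) (hx : x ≤ 6) (hy : y ≤ 6)
    (S : List ℝ) (hS : S.length = 7) :
    qf (dvK (OR τ σ) v false (ω ^ d * ev (1 - s) (s * (1 - t)) p) (ω ^ (d - 1) * ev (1 - s) (s * (1 - t)) (pDX p)) x y) S =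
      -(ω ^ (d + 3) * qf (evE (1 - s) (s * (1 - t)) (dvx p x y)) S) ∧
    qf (dvK (OR τ σ) v true (ω ^ d * ev (1 - s) (s * (1 - t)) p) (ω ^ (d - 1) * ev (1 - s) (s * (1 - t)) (pDY p)) x y) S =
      -(ω ^ (d + 3) * qf (evE (1 - s) (s * (1 - t)) (dvy p x y)) S) := by
  obtain ⟨d, rfl⟩ : ∃ d', d = d' + 1 := ⟨d - 1, by omega⟩
  simp only [Nat.add_sub_cancel]
  have e1 : ∀ a b : ℝ, (vMul (OR τ σ) (unK (OR τ σ) x a) (unK (OR τ σ) y b)).length = 28 := fun a b =>
    krr_len28 _ _ _ (krr_len_unK _ x hx _) (krr_len_unK _ y hy _)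
  have e2 : ∀ (a b : ℝ) (dir : Bool),
      (vMul (OR τ σ) (vSm (OR τ σ) a (mdk (OR τ σ) v dir x)) (unK (OR τ σ) y b)).length = 28 := fun a b dir =>
    krr_len28 _ _ _ (by rw [krr_len_vSm, krr_len_mdk]) (krr_len_unK _ y hy _)
  have e3 : ∀ (a b : ℝ) (dir : Bool),
      (vMul (OR τ σ) (vSm (OR τ σ) a (mdk (OR τ σ) v dir y)) (unK (OR τ σ) x b)).length = 28 := fun a b dir =>
    krr_len28 _ _ _ (by rw [krr_len_vSm, krr_len_mdk]) (krr_len_unK _ x hx _)
  have hq1 : ∀ a b : ℝ, qf (vMul (OR τ σ) (unK (OR τ σ) x a) (unK (OR τ σ) y b)) S =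
      (a * S.getD x 0) * (b * S.getD y 0) := fun a b => by
    rw [qf_vMul τ σ (by rw [krr_len_unK _ x hx, hS]) (by rw [krr_len_unK _ y hy, hS]), dotL_unK, dotL_unK]
  have hq2 : ∀ (a b : ℝ) (dir : Bool),
      qf (vMul (OR τ σ) (vSm (OR τ σ) a (mdk (OR τ σ) v dir x)) (unK (OR τ σ) y b)) S =
      (a * dotL (mdk (OR τ σ) v dir x) S) * (b * S.getD y 0) := fun a b dir => by
    rw [qf_vMul τ σ (by rw [krr_len_vSm, krr_len_mdk, hS]) (by rw [krr_len_unK _ y hy, hS]), dotL_vSm, dotL_unK]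
  have hq3 : ∀ (a b : ℝ) (dir : Bool),
      qf (vMul (OR τ σ) (vSm (OR τ σ) a (mdk (OR τ σ) v dir y)) (unK (OR τ σ) x b)) S =
      (a * dotL (mdk (OR τ σ) v dir y) S) * (b * S.getD x 0) := fun a b dir => by
    rw [qf_vMul τ σ (by rw [krr_len_vSm, krr_len_mdk, hS]) (by rw [krr_len_unK _ x hx, hS]), dotL_vSm, dotL_unK]
  have hss : qf (evE (1 - s) (s * (1 - t)) (ss x y)) S = S.getD x 0 * S.getD y 0 := by
    rw [ss, qf_qMul _ _ _ _ _ (by rw [un_length x hx, hS]) (by rw [un_length y hy, hS]), dotL_un, dotL_un,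
      c1, krr_const]
    push_cast
    ring
  have hm1 : qf (evE (1 - s) (s * (1 - t)) (qMul (mdx x) (un y c1))) S =
      dotL (evE (1 - s) (s * (1 - t)) (mdx x)) S * S.getD y 0 := by
    rw [qf_qMul _ _ _ _ _ (by rw [krr_len_mdx, hS]) (by rw [un_length y hy, hS]), dotL_un, c1, krr_const]
    push_cast
    ring
  have hm2 : qf (evE (1 - s) (s * (1 - t)) (qMul (un x c1) (mdx y))) S =
      S.getD x 0 * dotL (evE (1 - s) (s * (1 - t)) (mdx y)) S := by
    rw [qf_qMul _ _ _ _ _ (by rw [un_length x hx, hS]) (by rw [krr_len_mdx, hS]), dotL_un, c1, krr_const]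
    push_cast
    ring
  have hm3 : qf (evE (1 - s) (s * (1 - t)) (qMul (mdy x) (un y c1))) S =
      dotL (evE (1 - s) (s * (1 - t)) (mdy x)) S * S.getD y 0 := by
    rw [qf_qMul _ _ _ _ _ (by rw [krr_len_mdy, hS]) (by rw [un_length y hy, hS]), dotL_un, c1, krr_const]
    push_cast
    ring
  have hm4 : qf (evE (1 - s) (s * (1 - t)) (qMul (un x c1) (mdy y))) S =
      S.getD x 0 * dotL (evE (1 - s) (s * (1 - t)) (mdy y)) S := by
    rw [qf_qMul _ _ _ _ _ (by rw [un_length x hx, hS]) (by rw [krr_len_mdy, hS]), dotL_un, c1, krr_const]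
    push_cast
    ring
  have ho := h.one
  have hM := (lM_val h).1
  have hMx := lMx_val h
  have hMy := lMy_val h
  have g0 := mdk0_val h S hS
  have gs := fun k => mdkS_val h k S hS
  constructor
  · have hr : qf (evE (1 - s) (s * (1 - t)) (dvx p x y)) S =
        36 * (ev (1 - s) (s * (1 - t)) Mp * ev (1 - s) (s * (1 - t)) (pDX p)) * (S.getD x 0 * S.getD y 0) +
        ev (1 - s) (s * (1 - t)) p * (dotL (evE (1 - s) (s * (1 - t)) (mdx x)) S * S.getD y 0) +
        ev (1 - s) (s * (1 - t)) p * (S.getD x 0 * dotL (evE (1 - s) (s * (1 - t)) (mdx y)) S) -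
        18 * (ev (1 - s) (s * (1 - t)) Mx * ev (1 - s) (s * (1 - t)) p) * (S.getD x 0 * S.getD y 0) := by
      simp only [dvx, qf_sumQ, List.map_cons, List.map_nil, List.sum_cons, List.sum_nil, qf_qPm, hss, hm1, hm2,
        ev_pSm, ev_pMul]
      push_cast
      ring
    rw [hr]
    unfold dvK
    simp only []
    rw [qf_vAdd _ _ (by rw [krr_len_vAdd _ _ _ (by rw [e2, e3]), e1, e2]), qf_vAdd _ _ (by rw [e2, e3]),
      hq1, hq2, hq3]
    simp only [krr_mul, krr_sub, krr_nat, krr_z0, ho, hM, hMx]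
    rcases x with _ | x <;> rcases y with _ | y <;>
      simp only [g0.1, (gs _).1, krr_mul] <;> push_cast <;> ring
  · have hr : qf (evE (1 - s) (s * (1 - t)) (dvy p x y)) S =
        36 * (ev (1 - s) (s * (1 - t)) Mp * ev (1 - s) (s * (1 - t)) (pDY p)) * (S.getD x 0 * S.getD y 0) +
        ev (1 - s) (s * (1 - t)) p * (dotL (evE (1 - s) (s * (1 - t)) (mdy x)) S * S.getD y 0) +
        ev (1 - s) (s * (1 - t)) p * (S.getD x 0 * dotL (evE (1 - s) (s * (1 - t)) (mdy y)) S) -
        18 * (ev (1 - s) (s * (1 - t)) My * ev (1 - s) (s * (1 - t)) p) * (S.getD x 0 * S.getD y 0) := by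
      simp only [dvy, qf_sumQ, List.map_cons, List.map_nil, List.sum_cons, List.sum_nil, qf_qPm, hss, hm3, hm4,
        ev_pSm, ev_pMul]
      push_cast
      ring
    rw [hr]
    unfold dvK
    simp only []
    rw [qf_vAdd _ _ (by rw [krr_len_vAdd _ _ _ (by rw [e2, e3]), e1, e2]), qf_vAdd _ _ (by rw [e2, e3]),
      hq1, hq2, hq3]
    simp only [krr_mul, krr_sub, krr_nat, krr_z0, ho, hM, hMy]
    rcases x with _ | x <;> rcases y with _ | y <;>
      simp only [g0.2, (gs _).2, krr_mul] <;> push_cast <;> ring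

private theorem krr_len_sum28 {α : Type} (O : Ops α) (gd ge : List (α × List α)) (f : α → α → ℕ → ℕ → List α)
    (hf : ∀ a b x y, x ≤ 6 → y ≤ 6 → (f a b x y).length = 28) (zs : List (ℕ × ℕ))
    (hz : ∀ z ∈ zs, z.1 ≤ 6 ∧ z.2 ≤ 6) (cs ds : List P) :
    (sum28 O (zipD O gd ge f cs ds zs)).length = 28 := by
  induction cs generalizing ds zs with
  | nil => simp [zipD, sum28]
  | cons c cs ih =>
    cases ds with
    | nil => simp [zipD, sum28]
    | cons e ds =>
      cases zs with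
      | nil => simp [zipD, sum28]
      | cons z zs =>
        have h1 := ih zs (fun w hw => hz w (List.mem_cons_of_mem _ hw)) ds
        have h2 := hf (pvI O gd c) (pvI O ge e) z.1 z.2 (hz z List.mem_cons_self).1 (hz z List.mem_cons_self).2
        simp only [zipD, sum28]
        rw [krr_len_vAdd _ _ _ (h2.trans h1.symm), h2]

private theorem krr_sumX {d : ℕ} (hd : 1 ≤ d) (h : RE (OR τ σ) v ω s t d) (S : List ℝ) (hS : S.length = 7)
    (cs : List P) (hc : ∀ p ∈ cs, lenOK d p = true ∧ lenOK (d - 1) (pDX p) = true) (zs : List (ℕ × ℕ))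
    (hz : ∀ z ∈ zs, z.1 ≤ 6 ∧ z.2 ≤ 6) :
    qf (sum28 (OR τ σ) (zipD (OR τ σ) v.gd v.ge (dvK (OR τ σ) v false) cs (cs.map pDX) zs)) S =
      -(ω ^ (d + 3) * qf (evE (1 - s) (s * (1 - t))
        (sumQ (List.zipWith (fun p ab => dvx p ab.1 ab.2) cs zs))) S) := by
  induction cs generalizing zs with
  | nil =>
    have e : qf (List.replicate 28 (z0 (OR τ σ))) S = 0 := qf_zero τ σ 28 S
    simp only [zipD, sum28, e, List.zipWith_nil_left, qf_sumQ, List.map_nil, List.sum_nil]
    ring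
  | cons c cs ih =>
    cases zs with
    | nil =>
      have e : qf (List.replicate 28 (z0 (OR τ σ))) S = 0 := qf_zero τ σ 28 S
      simp only [zipD, sum28, e, List.map_cons, List.zipWith_nil_right, qf_sumQ, List.map_nil, List.sum_nil]
      ring
    | cons z zs =>
      have hz1 := hz z List.mem_cons_self
      have hz2 : ∀ w ∈ zs, w.1 ≤ 6 ∧ w.2 ≤ 6 := fun w hw => hz w (List.mem_cons_of_mem _ hw)
      have hc1 := hc c List.mem_cons_self
      have h1 := ih (fun p hp => hc p (List.mem_cons_of_mem _ hp)) zs hz2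
      have l1 := krr_len_sum28 (OR τ σ) v.gd v.ge (dvK (OR τ σ) v false)
        (fun a b x y hx hy => krr_len_dvK _ v false a b x y hx hy) zs hz2 cs (cs.map pDX)
      have l2 := krr_len_dvK (OR τ σ) v false (pvI (OR τ σ) v.gd c) (pvI (OR τ σ) v.ge (pDX c)) z.1 z.2 hz1.1 hz1.2
      have h2 := (dvK_val hd h c z.1 z.2 hz1.1 hz1.2 S hS).1
      simp only [zipD, sum28, List.map_cons]
      rw [qf_vAdd _ _ (l2.trans l1.symm), h1, h.gd c hc1.1, h.ge (pDX c) hc1.2, h2]
      simp only [List.zipWith_cons_cons, qf_sumQ, List.map_cons, List.sum_cons]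
      ring

private theorem krr_sumY {d : ℕ} (hd : 1 ≤ d) (h : RE (OR τ σ) v ω s t d) (S : List ℝ) (hS : S.length = 7)
    (cs : List P) (hc : ∀ p ∈ cs, lenOK d p = true ∧ lenOK (d - 1) (pDY p) = true) (zs : List (ℕ × ℕ))
    (hz : ∀ z ∈ zs, z.1 ≤ 6 ∧ z.2 ≤ 6) :
    qf (sum28 (OR τ σ) (zipD (OR τ σ) v.gd v.ge (dvK (OR τ σ) v true) cs (cs.map pDY) zs)) S =
      -(ω ^ (d + 3) * qf (evE (1 - s) (s * (1 - t))
        (sumQ (List.zipWith (fun p ab => dvy p ab.1 ab.2) cs zs))) S) := by
  induction cs generalizing zs with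
  | nil =>
    have e : qf (List.replicate 28 (z0 (OR τ σ))) S = 0 := qf_zero τ σ 28 S
    simp only [zipD, sum28, e, List.zipWith_nil_left, qf_sumQ, List.map_nil, List.sum_nil]
    ring
  | cons c cs ih =>
    cases zs with
    | nil =>
      have e : qf (List.replicate 28 (z0 (OR τ σ))) S = 0 := qf_zero τ σ 28 S
      simp only [zipD, sum28, e, List.map_cons, List.zipWith_nil_right, qf_sumQ, List.map_nil, List.sum_nil]
      ring
    | cons z zs =>
      have hz1 := hz z List.mem_cons_self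
      have hz2 : ∀ w ∈ zs, w.1 ≤ 6 ∧ w.2 ≤ 6 := fun w hw => hz w (List.mem_cons_of_mem _ hw)
      have hc1 := hc c List.mem_cons_self
      have h1 := ih (fun p hp => hc p (List.mem_cons_of_mem _ hp)) zs hz2
      have l1 := krr_len_sum28 (OR τ σ) v.gd v.ge (dvK (OR τ σ) v true)
        (fun a b x y hx hy => krr_len_dvK _ v true a b x y hx hy) zs hz2 cs (cs.map pDY)
      have l2 := krr_len_dvK (OR τ σ) v true (pvI (OR τ σ) v.gd c) (pvI (OR τ σ) v.ge (pDY c)) z.1 z.2 hz1.1 hz1.2
      have h2 := (dvK_val hd h c z.1 z.2 hz1.1 hz1.2 S hS).2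
      simp only [zipD, sum28, List.map_cons]
      rw [qf_vAdd _ _ (l2.trans l1.symm), h1, h.gd c hc1.1, h.ge (pDY c) hc1.2, h2]
      simp only [List.zipWith_cons_cons, qf_sumQ, List.map_cons, List.sum_cons]
      ring

private theorem krr_prs : ∀ z ∈ prs, z.1 ≤ 6 ∧ z.2 ≤ 6 := by
  decide

theorem RK_val {g : Gg} (hg : gchk g = true) (h : RE (OR τ σ) v ω s t g.d) (sg : Bool) (pay : ℕ) (S : List ℝ)
    (hS : S.length = 7) :
    qf (RK (OR τ σ) g sg pay v) S =
      ω ^ (g.d + 3) * qf (evE s t (Rst g.D g.cP g.cQ (payOf sg pay))) S := by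
  simp only [gchk, Bool.and_eq_true, decide_eq_true_eq, List.all_eq_true, Nat.ble_eq] at hg
  obtain ⟨⟨⟨⟨⟨⟨⟨⟨⟨hd5, hD⟩, hcP⟩, hcQ⟩, hdP⟩, hdQ⟩, _⟩, _⟩, heP⟩, heQ⟩ := hg
  have hd1 : 1 ≤ g.d := by omega
  have hPc : ∀ p ∈ g.cP, lenOK g.d p = true ∧ lenOK (g.d - 1) (pDX p) = true := fun p hp =>
    ⟨hcP p hp, hdP _ (by rw [heP]; exact List.mem_map_of_mem hp)⟩
  have hQc : ∀ p ∈ g.cQ, lenOK g.d p = true ∧ lenOK (g.d - 1) (pDY p) = true := fun p hp =>
    ⟨hcQ p hp, hdQ _ (by rw [heQ]; exact List.mem_map_of_mem hp)⟩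
  have hX := krr_sumX hd1 h S hS g.cP hPc prs krr_prs
  have hY := krr_sumY hd1 h S hS g.cQ hQc prs krr_prs
  rw [← heP] at hX
  rw [← heQ] at hY
  have lX := krr_len_sum28 (OR τ σ) v.gd v.ge (dvK (OR τ σ) v false)
    (fun a b x y hx hy => krr_len_dvK _ v false a b x y hx hy) prs krr_prs g.cP g.dP
  have lY := krr_len_sum28 (OR τ σ) v.gd v.ge (dvK (OR τ σ) v true)
    (fun a b x y hx hy => krr_len_dvK _ v true a b x y hx hy) prs krr_prs g.cQ g.dQ
  have lT : (T6K (OR τ σ) v).length = 7 := rfl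
  have lL : (L72K (OR τ σ) v).length = 7 := rfl
  have l0 : ∀ a : ℝ, (unK (OR τ σ) 0 a).length = 7 := fun a => krr_len_unK _ 0 (by omega) a
  have lXY := krr_len_vAdd (OR τ σ) _ _ (lX.trans lY.symm)
  rw [lX] at lXY
  have m3 : ∀ c : ℝ, (vMul (OR τ σ) (vSm (OR τ σ) c (T6K (OR τ σ) v)) (L72K (OR τ σ) v)).length = 28 := fun c =>
    krr_len28 _ _ _ (by rw [krr_len_vSm, lT]) lL
  have m2 : ∀ c : ℝ, (vMul (OR τ σ) (unK (OR τ σ) 0 c) (T6K (OR τ σ) v)).length = 28 := fun c =>
    krr_len28 _ _ _ (l0 c) lT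
  have m1 : ∀ a b : ℝ, (vMul (OR τ σ) (unK (OR τ σ) 0 a) (unK (OR τ σ) 0 b)).length = 28 := fun a b =>
    krr_len28 _ _ _ (l0 a) (l0 b)
  have hT := T6K_val h S hS
  have hL := L72K_val h S hS
  have hpay := payK_val h pay
  have hM := (lM_val h).1
  have ho := h.one
  obtain ⟨S0, S', rfl⟩ : ∃ S0 S', S = S0 :: S' := by
    cases S with
    | nil => simp at hS
    | cons a l => exact ⟨a, l, rfl⟩
  have hgd : (S0 :: S').getD 0 0 = S0 := rfl
  have hRHS : qf (evE s t (Rst g.D g.cP g.cQ (payOf sg pay))) (S0 :: S') =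
      12 * (g.D : ℝ) * (ev (1 - s) (s * (1 - t)) Mp * (S0 * dotL (evE (1 - s) (s * (1 - t)) T6) (S0 :: S'))) +
      (g.D : ℝ) * (dotL (evE (1 - s) (s * (1 - t)) T6) (S0 :: S') *
        dotL (evE (1 - s) (s * (1 - t)) L72) (S0 :: S')) -
      qf (evE (1 - s) (s * (1 - t)) (sumQ (List.zipWith (fun p ab => dvx p ab.1 ab.2) g.cP prs))) (S0 :: S') -
      qf (evE (1 - s) (s * (1 - t)) (sumQ (List.zipWith (fun p ab => dvy p ab.1 ab.2) g.cQ prs))) (S0 :: S') +
      ev s t (payP (payOf sg pay)) * S0 ^ 2 := by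
    have u0 : (un 0 c1).length = (S0 :: S').length := by rw [un_length 0 (by omega), hS]
    have u1 : T6.length = (S0 :: S').length := by rw [hS]; rfl
    have u2 : L72.length = (S0 :: S').length := by rw [hS]; rfl
    unfold Rst RR
    rw [qf_qAdd, evE_sub, qf_one, qf_sumQ]
    simp only [List.map_cons, List.map_nil, List.sum_cons, List.sum_nil]
    rw [qf_qSm, qf_qSm, qf_qSm, qf_qSm, qf_qPm, qf_qMul _ _ _ _ _ u0 u1, qf_qMul _ _ _ _ _ u1 u2, dotL_un, hgd,
      c1, krr_const]
    push_cast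
    ring
  rw [hRHS]
  unfold RK
  rw [qf_vAdd _ _ (by rw [m1, krr_len_vAdd _ _ _ (by rw [m2, krr_len_vAdd _ _ _ (by rw [m3, lXY]), m3]), m2]),
    qf_vAdd _ _ (by rw [m2, krr_len_vAdd _ _ _ (by rw [m3, lXY]), m3]), qf_vAdd _ _ (by rw [m3, lXY]),
    qf_vAdd _ _ (lX.trans lY.symm), hX, hY]
  rw [qf_vMul τ σ (by rw [l0, hS]) (by rw [l0, hS]), qf_vMul τ σ (by rw [l0, hS]) (by rw [lT, hS]),
    qf_vMul τ σ (by rw [krr_len_vSm, lT, hS]) (by rw [lL, hS]), dotL_vSm]
  simp only [dotL_unK, hgd, hT.1, hL, krr_pw, krr_mul, krr_sub, krr_nat, krr_z0, krr_natmul, hM, ho]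
  obtain ⟨k, hk⟩ : ∃ k, g.d = k + 5 := ⟨g.d - 5, by omega⟩
  have hk5 : g.d - 5 = k := by omega
  cases sg with
  | false =>
    have hp : ev s t (payP (payOf false pay)) = -(pay * ev s t Gp) := by
      have : (0 : ℤ) ≤ (pay : ℤ) := Int.natCast_nonneg pay
      simp only [payOf, Bool.false_eq_true, if_false, payP, this, if_true, ev_pSm]
      push_cast
      ring
    rw [hp]
    simp only [hpay.1, hk5, hk]
    push_cast
    ring
  | true =>
    have hp : ev s t (payP (payOf true pay)) = pay * ev s t Gm := by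
      rcases Nat.eq_zero_or_pos pay with h0 | h0
      · subst h0
        simp [payOf, payP, ev_pSm]
      · have : ¬ (0 : ℤ) ≤ -(pay : ℤ) := by omega
        simp only [payOf, if_true, payP, this, if_false, ev_pSm]
        push_cast
        ring
    rw [hp]
    simp only [hpay.2, hk5, hk]
    push_cast
    ring

end Pool.Agent.MTR
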