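import Pool.Agent.MTR.KVA
import Pool.Agent.MTR.KGR
import Pool.Agent.MTR.KRE
import Pool.Agent.MTR.KRR
import Pool.Agent.MTR.KRF
import Pool.Agent.MTR.KPS
import Pool.Agent.MTR.KMC
import Pool.Agent.MTR.FRM
import Pool.Agent.MTR.HES
import Pool.Agent.MTR.BOX
/-!
KBX (130 lines). Soundness of the packed test of a box.
PROOF. mkVa_RE gives τ, σ, ω. Contexts: C = ⟨Y^(9+dm), Y, Y^((9+dm)²), _, τ, σ⟩ with Y = 2 rd H + 1 (om = OM N X Y by rfl; (9+dm) = (8+dm)+1) and C' = ⟨Y^7, Y, Y^49, ..⟩ for SK. SK values ≥ 0: SK_rel, L3.toC2 or entrywise, nnchk_sound with d = 6, so SK_nB.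
MK: MK_c2 with w0 = vN .. (vN_rel, rchk), w = mkVa ON; Mchk_sound with S = st T (sa ..): st = [1/n³, e0, e1, e2, A00, A01, A11]; e_k ≥ 0 by FRM for k = 4, 5, 6 (or frm_nonneg), A psd by hesA_psd. So qf (MK) S ≥ 0:
qf MK = w qf RK - (qf m4K + qf grsK) (qf_vSub, qf_vSm, qf_vAdd), products ≥ 0 (KPS, with frK_val + frm_nonneg, heK_val + hesA_psd, hesB_psd: dotL (heK ..) S = ω⁴ dotL (evE ..)). RK_val, ω > 0, w ≥ 1. (mkVa O b d dm).gm = tens .. by rfl.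
-/
set_option autoImplicit false

open MeasureTheory Set Metric Pool.Agent.MEIS Pool.Agent.MSQ Pool.Agent.MGE Pool.Agent.MGF Pool.Agent.PKD

namespace Pool.Agent.MTR

private theorem kbx_f2 {R : ℕ → ℝ → Prop} {p : ℕ → Prop} (hR : ∀ a r, R a r → p a → 0 ≤ r) {A : List ℕ}
    {B : List ℝ} (h : List.Forall₂ R A B) (hA : ∀ a ∈ A, p a) : ∀ z ∈ B, 0 ≤ z := by
  induction h with
  | nil => intro z hz; simp at hz
  | cons h0 _ ih =>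
    intro z hz
    rcases List.mem_cons.1 hz with rfl | hz
    · exact hR _ _ h0 (hA _ List.mem_cons_self)
    · exact ih (fun a ha => hA a (List.mem_cons_of_mem _ ha)) z hz

private theorem kbx_SK {τ σ : ℝ} (hτ : 0 ≤ τ) (hσ : 0 ≤ σ) (b : Bt) (d Y : ℕ) (hY : Y = 2 * (b.rd * b.H) + 1)
    (hN : mxL (SK ON b (mkVa ON b.bd d b.dm)) ≤ b.rd * b.H)
    (hc : ((SK (OM (Y ^ 49) (Y ^ 7) Y) b (mkVa (OM (Y ^ 49) (Y ^ 7) Y) b.bd d b.dm)).all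
      (nnchk Y (b.rd * b.H) 49)) = true) : ∀ z ∈ SK (OR τ σ) b (mkVa (OR τ σ) b.bd d b.dm), 0 ≤ z := by
  have hY0 : 0 < Y := by omega
  obtain ⟨C, hC⟩ : ∃ C : Cx, C = ⟨Y ^ 7, Y, Y ^ 49, pow_pos hY0 49, τ, σ⟩ := ⟨_, rfl⟩
  have e1 : C.om = OM (Y ^ 49) (Y ^ 7) Y := by rw [hC]; rfl
  have e2 : C.rr = OR τ σ := by rw [hC]; rfl
  have eY : C.Y = Y := by rw [hC]
  have eX : C.X = C.Y ^ (6 + 1) := by rw [hC]
  have eN : C.N = C.Y ^ ((6 + 1) * (6 + 1)) := by rw [hC]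
  have et : 0 ≤ C.τ := by rw [hC]; exact hτ
  have es : 0 ≤ C.σ := by rw [hC]; exact hσ
  rw [← e1] at hc
  rw [← e2]
  obtain ⟨h1, h2⟩ := mkVa_rel C b.bd d b.dm
  have h3 := L3.toC2 (SK_rel h1.toR1 h2 b) hN
  refine kbx_f2 (p := fun a => nnchk Y (b.rd * b.H) 49 a = true) ?_ h3 (List.all_eq_true.1 hc)
  intro a r hr ha
  exact nnchk_sound hr le_rfl (eY.trans hY) eX eN et es (by rw [eY]; exact ha)

private theorem kbx_MK {τ σ : ℝ} (hτ : 0 ≤ τ) (hσ : 0 ≤ σ) {ln ld bn bd : ℕ} {g : Gg} {sg : Bool} {pay RC : ℕ}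
    {hm : Bool} {b : Bt} (hR : rchk g sg pay b.bd.q RC = true) (hbd : bdOK b.bd = true) (hd : g.d = 5 + b.dm)
    (Y : ℕ) (hY : Y = 2 * (b.rd * b.H) + 1)
    (hN : MN ln ld bn bd RC b (mkVa ON b.bd g.d b.dm) ≤ b.rd * b.H)
    (hc : Mchk hm ((9 + b.dm) * (9 + b.dm)) Y b.rd b.H b.zb b.z2
      (MK (OM (Y ^ ((9 + b.dm) * (9 + b.dm))) (Y ^ (9 + b.dm)) Y) ln ld bn bd g sg pay b
        (mkVa (OM (Y ^ ((9 + b.dm) * (9 + b.dm))) (Y ^ (9 + b.dm)) Y) b.bd g.d b.dm)) = true)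
    (σ0 e0 e1 e2 a0 a1 a2 : ℝ) (h0 : 0 ≤ σ0)
    (he0 : 0 ≤ e0) (he1 : 0 ≤ e1) (he2 : 0 ≤ e2) (ha : ∀ p q : ℝ, 0 ≤ p ^ 2 * a0 + 2 * p * q * a1 + q ^ 2 * a2) :
    0 ≤ qf (MK (OR τ σ) ln ld bn bd g sg pay b (mkVa (OR τ σ) b.bd g.d b.dm)) [σ0, e0, e1, e2, a0, a1, a2] := by
  have hY0 : 0 < Y := by omega
  obtain ⟨C, hC⟩ : ∃ C : Cx, C = ⟨Y ^ (9 + b.dm), Y, Y ^ ((9 + b.dm) * (9 + b.dm)), pow_pos hY0 _, τ, σ⟩ := ⟨_, rfl⟩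
  have f1 : C.om = OM (Y ^ ((9 + b.dm) * (9 + b.dm))) (Y ^ (9 + b.dm)) Y := by rw [hC]; rfl
  have f2 : C.rr = OR τ σ := by rw [hC]; rfl
  have eY : C.Y = Y := by rw [hC]
  have e9 : 8 + b.dm + 1 = 9 + b.dm := by omega
  have eX : C.X = C.Y ^ (8 + b.dm + 1) := by rw [e9, hC]
  have eN : C.N = C.Y ^ ((8 + b.dm + 1) * (8 + b.dm + 1)) := by rw [e9, hC]
  have et : 0 ≤ C.τ := by rw [hC]; exact hτ
  have es : 0 ≤ C.σ := by rw [hC]; exact hσ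
  rw [← f1] at hc
  rw [← f2]
  obtain ⟨h1, h2⟩ := mkVa_rel C b.bd g.d b.dm
  have h3 := C2.mono (MK_c2 (ln := ln) (ld := ld) (bn := bn) (bd := bd) (by omega) hd
    (vN_rel C b.bd hbd g.d b.dm) (Nat.le_of_ble_eq_true hR) h1.toR1 h2) le_rfl hN
  exact Mchk_sound h3 (len_MK _ _ _ _ _ _ _ _ _ _) (eY.trans hY) eX eN et es (by rw [e9, eY]; exact hc)
    σ0 e0 e1 e2 a0 a1 a2 h0 he0 he1 he2 ha

private theorem kbx_st (T : E → ℝ) (a : E) (s t : ℝ) :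
    dotL (evE s t (un 0 c1)) (st T a) = 1 / nW a ^ 3 ∧ dotL (evE s t (un 1 c1)) (st T a) = pd 0 T a ∧
    dotL (evE s t (un 2 c1)) (st T a) = pd 1 T a ∧ dotL (evE s t (un 3 c1)) (st T a) = pd 2 T a ∧
    dotL (evE s t (un 4 c1)) (st T a) = AA 0 0 T a ∧ dotL (evE s t (un 5 c1)) (st T a) = AA 0 1 T a ∧
    dotL (evE s t (un 6 c1)) (st T a) = AA 1 1 T a := by
  refine ⟨?_, ?_, ?_, ?_, ?_, ?_, ?_⟩ <;>
    simp [un, c1, evE, ev, evL, dotL, st, List.replicate]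

theorem fchk_sound {ln ld bn bd : ℕ} (hr : rOK (rgOf ln ld bn bd)) {g : Gg} (hg : gchk g = true) {sg : Bool} {pay RC : ℕ}
    {hm : Bool} {b : Bt} (hR : rchk g sg pay b.bd.q RC = true) (hb : fchk ln ld bn bd g sg pay RC hm b = true)
    {T : E → ℝ} {β : ℝ} (h : TrHyp T β) (hβ : inR (rgOf ln ld bn bd) β) (s t : ℝ) (hs0 : 0 ≤ s) (hs1 : s ≤ 1)
    (ht0 : 0 ≤ t) (ht1 : t ≤ 1) (hst : inBn b.bd s t) :
    0 ≤ qf (evE s t (Rst g.D g.cP g.cQ (payOf sg pay))) (st T (sa (1 - s) (s * (1 - t)))) := by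
  unfold fchk at hb
  simp only [Bool.and_eq_true] at hb
  obtain ⟨⟨⟨⟨⟨⟨⟨⟨⟨⟨⟨⟨⟨⟨hd, hbd⟩, hw⟩, hdN⟩, hKm⟩, hid⟩, hU⟩, hL⟩, hH⟩, hgr⟩, hm4⟩, hSN⟩, hMN⟩, hSK⟩, hMK⟩ := hb
  have hd' : g.d = 5 + b.dm := Nat.eq_of_beq_eq_true hd
  have hw' : 1 ≤ b.w := Nat.le_of_ble_eq_true hw
  obtain ⟨τ, σ, ω, hτ, hσ, hE⟩ := mkVa_RE b.bd hbd g.d b.dm s t hst
  have hS1 := kbx_SK hτ hσ b g.d (2 * (b.rd * b.H) + 1) rfl (Nat.le_of_ble_eq_true hSN) hSK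
  have hnB := SK_nB hE b hU hL (Nat.le_of_ble_eq_true hdN) hS1 hs0 hs1 ht0 ht1
  have hfrm := frm_nonneg (rgOf ln ld bn bd) hr (bxOf b) h hβ s t hs0 hs1 ht0 ht1 hnB
  obtain ⟨u0, u1, u2, u3, u4, u5, u6⟩ := kbx_st T (sa (1 - s) (s * (1 - t))) s t
  have n0 : 0 ≤ 1 / nW (sa (1 - s) (s * (1 - t))) ^ 3 := by rw [← u0]; exact hfrm 0
  have n1 : 0 ≤ pd 0 T (sa (1 - s) (s * (1 - t))) := by rw [← u1]; exact hfrm 4
  have n2 : 0 ≤ pd 1 T (sa (1 - s) (s * (1 - t))) := by rw [← u2]; exact hfrm 5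
  have n3 : 0 ≤ pd 2 T (sa (1 - s) (s * (1 - t))) := by rw [← u3]; exact hfrm 6
  have nA : ∀ p q : ℝ, 0 ≤ p ^ 2 * AA 0 0 T (sa (1 - s) (s * (1 - t))) +
      2 * p * q * AA 0 1 T (sa (1 - s) (s * (1 - t))) + q ^ 2 * AA 1 1 T (sa (1 - s) (s * (1 - t))) := by
    intro p q
    rw [← u4, ← u5, ← u6]
    exact hesA_psd h s t p q
  have hM : 0 ≤ qf (MK (OR τ σ) ln ld bn bd g sg pay b (mkVa (OR τ σ) b.bd g.d b.dm))
      (st T (sa (1 - s) (s * (1 - t)))) :=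
    kbx_MK hτ hσ hR hbd hd' (2 * (b.rd * b.H) + 1) rfl (Nat.le_of_ble_eq_true hMN) hMK _ _ _ _ _ _ _ n0 n1 n2 n3 nA
  have hS : (st T (sa (1 - s) (s * (1 - t)))).length = 7 := rfl
  have hA := hesA_psd h s t
  have hB := hesB_psd h s t
  have hlh := len_heK (OR τ σ) (mkVa (OR τ σ) b.bd g.d b.dm)
  have hlf := len_frK (OR τ σ) ln ld bn bd b (mkVa (OR τ σ) b.bd g.d b.dm)
  have hR2 := RK_val hg hE sg pay (st T (sa (1 - s) (s * (1 - t)))) hS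
  have hF2 := fun k hk => frK_val hE ln ld bn bd b hU hL k hk (st T (sa (1 - s) (s * (1 - t)))) hS
  have hH2 := fun B k hk => heK_val hE B k hk (st T (sa (1 - s) (s * (1 - t)))) hS
  have hv : (mkVa (OR τ σ) b.bd g.d b.dm).gm = tens (mkV (OR τ σ) τ ((OR τ σ).nat 1) b.dm)
    (mkV (OR τ σ) σ ((OR τ σ).nat 1) b.dm) := rfl
  have hp := hE.pos
  generalize st T (sa (1 - s) (s * (1 - t))) = S at hM hS hfrm hA hB hR2 hF2 hH2 ⊢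
  generalize mkVa (OR τ σ) b.bd g.d b.dm = v at hM hlh hlf hR2 hF2 hH2 hv
  have hfr : ∀ k ≤ 11, 0 ≤ dotL (frK (OR τ σ) ln ld bn bd b v k) S := fun k hk => by
    rw [hF2 k hk]
    exact mul_nonneg (pow_nonneg hp.le 4) (hfrm k)
  have hhe : ∀ (B : Bool) (p q : ℝ), 0 ≤ p ^ 2 * dotL (heK (OR τ σ) v B 0) S +
      2 * p * q * dotL (heK (OR τ σ) v B 1) S + q ^ 2 * dotL (heK (OR τ σ) v B 2) S := by
    intro B p q
    rw [hH2 B 0 (by norm_num), hH2 B 1 (by norm_num), hH2 B 2 (by norm_num)]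
    have k1 : 0 ≤ ω ^ 4 * (p ^ 2 * dotL (evE s t (hes B 0)) S + 2 * p * q * dotL (evE s t (hes B 1)) S +
        q ^ 2 * dotL (evE s t (hes B 2)) S) := by
      refine mul_nonneg (pow_nonneg hp.le 4) ?_
      cases B
      · exact hA p q
      · exact hB p q
    refine k1.trans (le_of_eq ?_)
    ring
  have hP1 := m4K_nonneg hτ hσ b (Nat.le_of_ble_eq_true hKm) hv S hS hlh hhe hm4
  have hP2 := grsK_nonneg hτ hσ hv (frK (OR τ σ) ln ld bn bd b v) hlf S hS hfr hlh hhe b.gr hid hgr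
  have l1 : (vSm (OR τ σ) ((OR τ σ).nat b.w) (RK (OR τ σ) g sg pay v)).length = 28 := by
    rw [len_vSm, len_RK]
  have l2 := len_m4K (OR τ σ) b.dm b.Km b.hm v hlh b.m4
  have l3 := len_grsK (OR τ σ) (frK (OR τ σ) ln ld bn bd b v) hlf b.dm v hlh b.gr
  have l4 := (len_vAdd (OR τ σ) (l2.trans l3.symm)).trans l2
  unfold MK at hM
  rw [qf_vSub τ σ (l1.trans l4.symm), qf_vSm, qf_vAdd τ σ (l2.trans l3.symm), hR2] at hM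
  have hM' : 0 ≤ (b.w : ℝ) * (ω ^ (g.d + 3) * qf (evE s t (Rst g.D g.cP g.cQ (payOf sg pay))) S) -
    (qf (m4K (OR τ σ) b.dm b.Km b.hm v b.m4) S +
      qf (grsK (OR τ σ) (frK (OR τ σ) ln ld bn bd b v) b.dm v b.gr) S) := hM
  have k2 : 0 ≤ (b.w : ℝ) * ω ^ (g.d + 3) * qf (evE s t (Rst g.D g.cP g.cQ (payOf sg pay))) S := by
    linarith
  have k3 : 0 < (b.w : ℝ) * ω ^ (g.d + 3) := mul_pos (by exact_mod_cast hw') (pow_pos hp _)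
  exact nonneg_of_mul_nonneg_right k2 k3

end Pool.Agent.MTR
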