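import Pool.Agent.MTR.Defs2
import Pool.Agent.PKD.RPV
/-!
KLA. Relations for the elementary polynomials.
-/
set_option autoImplicit false

open MeasureTheory Set Metric Pool.Agent.MEIS Pool.Agent.MSQ Pool.Agent.MGE Pool.Agent.MGF Pool.Agent.PKD

namespace Pool.Agent.MTR

variable {C : Cx} {v w : Va ℕ} {v' : Va ℝ}

private theorem KLA_nm {n m a c : ℕ} {r : ℝ} (k : ℕ) (h : R3 C n m a r c) :
    R3 C n m (C.om.mul (C.om.nat k) a) (C.rr.mul (C.rr.nat k) r) (ON.mul (ON.nat k) c) :=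
  ((R3.nat C 0 0 k).mul h).mono (by omega) (by omega) le_rfl

private theorem KLA_mul {n m a c n1 m1 a1 c1 n2 m2 : ℕ} {r r1 : ℝ} (h : R3 C n m a r c) (h1 : R3 C n1 m1 a1 r1 c1)
    (hn : n + n1 = n2) (hm : m + m1 = m2) :
    R3 C n2 m2 (C.om.mul a a1) (C.rr.mul r r1) (ON.mul c c1) :=
  (h.mul h1).mono (by omega) (by omega) le_rfl

private theorem KLA_z (n m : ℕ) : R3 C n m (z0 C.om) (z0 C.rr) (z0 ON) := R3.nat C n m 0

theorem lin_rel (h : R1 C v v' w) (p0 p1 p2 n0 n1 n2 : ℕ) :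
    R3 C 1 1 (lin C.om v p0 p1 p2 n0 n1 n2) (lin C.rr v' p0 p1 p2 n0 n1 n2) (lin ON w p0 p1 p2 n0 n1 n2) := by
  unfold lin
  exact (((KLA_nm p0 h.one).add (KLA_nm p1 h.xx)).add (KLA_nm p2 h.yy)).sub
    (((KLA_nm n0 h.one).add (KLA_nm n1 h.xx)).add (KLA_nm n2 h.yy))
theorem lU0_rel (h : R1 C v v' w) (k : ℕ) : R3 C 1 1 (lU0 C.om v k) (lU0 C.rr v' k) (lU0 ON w k) := by
  rcases k with _ | k
  · exact lin_rel h _ _ _ _ _ _
  · exact lin_rel h _ _ _ _ _ _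
theorem lU1_rel (h : R1 C v v' w) (k : ℕ) : R3 C 1 1 (lU1 C.om v k) (lU1 C.rr v' k) (lU1 ON w k) := by
  rcases k with _ | _ | k
  · exact lin_rel h _ _ _ _ _ _
  · exact lin_rel h _ _ _ _ _ _
  · exact lin_rel h _ _ _ _ _ _
theorem lM_rel (h : R1 C v v' w) : R3 C 2 2 (lM C.om v) (lM C.rr v') (lM ON w) := by
  unfold lM
  exact ((KLA_nm 8 (h.one.mul h.one)).add (KLA_nm 4 (h.xx.mul h.xx))).add
    ((KLA_nm 2 (h.xx.mul h.yy)).add (h.yy.mul h.yy))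
theorem unK_rel {n m p q : ℕ} {r : ℝ} (k : ℕ) (h : R3 C n m p r q) :
    L3 C n m (unK C.om k p) (unK C.rr k r) (unK ON k q) := by
  unfold unK
  exact L3.app (L3.rep (KLA_z n m)) (F3.cons h (L3.rep (KLA_z n m)))
theorem dek_rel (h : R1 C v v' w) (dir : Bool) (k : ℕ) :
    L3 C 1 1 (dek C.om v dir k) (dek C.rr v' dir k) (dek ON w dir k) := by
  have z : R3 C 1 1 (z0 C.om) (z0 C.rr) (z0 ON) := KLA_z 1 1
  have u0 := lU0_rel h k
  have u1 := lU1_rel h k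
  cases dir
  · exact F3.cons z (F3.cons z (F3.cons z (F3.cons z (F3.cons (z.sub (KLA_nm 4 u0))
      (F3.cons ((KLA_nm 2 u0).sub (KLA_nm 4 u1)) (F3.cons (KLA_nm 2 u1) F3.nil))))))
  · exact F3.cons z (F3.cons z (F3.cons z (F3.cons z (F3.cons (z.sub u0)
      (F3.cons (z.sub (u1.add u0)) (F3.cons (z.sub u1) F3.nil))))))
theorem mdk0_rel (h : R1 C v v' w) (dir : Bool) :
    L3 C 1 1 (mdk C.om v dir 0) (mdk C.rr v' dir 0) (mdk ON w dir 0) := by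
  cases dir
  · exact unK_rel 0 (lin_rel h 0 0 0 0 432 108)
  · exact unK_rel 0 (lin_rel h 0 0 0 0 108 108)
theorem mdkS_rel (h : R1 C v v' w) (dir : Bool) (k : ℕ) :
    L3 C 3 3 (mdk C.om v dir (k + 1)) (mdk C.rr v' dir (k + 1)) (mdk ON w dir (k + 1)) :=
  vSm_rel (lM_rel h) (dek_rel h dir k)
theorem T6K_rel (h : R1 C v v' w) : L3 C 1 1 (T6K C.om v) (T6K C.rr v') (T6K ON w) := by
  have z : R3 C 1 1 (z0 C.om) (z0 C.rr) (z0 ON) := KLA_z 1 1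
  have a0 : R3 C 1 1 (la0 C.om v) (la0 C.rr v') (la0 ON w) := lin_rel h 2 4 1 0 0 0
  have a1 : R3 C 1 1 (la1 C.om v) (la1 C.rr v') (la1 ON w) := lin_rel h 2 0 1 0 2 0
  have a2 : R3 C 1 1 (la2 C.om v) (la2 C.rr v') (la2 ON w) := lin_rel h 2 0 0 0 2 2
  exact F3.cons z (F3.cons a0 (F3.cons a1 (F3.cons a2 (F3.cons z (F3.cons z (F3.cons z F3.nil))))))
theorem L72K_rel (h : R1 C v v' w) : L3 C 2 2 (L72K C.om v) (L72K C.rr v') (L72K ON w) := by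
  have z : R3 C 2 2 (z0 C.om) (z0 C.rr) (z0 ON) := KLA_z 2 2
  have a := lU0_rel h 0
  have b := lU0_rel h 1
  have c := lU0_rel h 2
  have p := lU1_rel h 0
  have q := lU1_rel h 1
  have r := lU1_rel h 2
  exact F3.cons z (F3.cons z (F3.cons z (F3.cons z (F3.cons
    ((KLA_nm 2 ((a.mul b).add ((a.mul c).add (b.mul c)))).sub
      (KLA_nm 3 ((a.mul a).add ((b.mul b).add (c.mul c)))))
    (F3.cons
      ((KLA_nm 2 (((a.mul q).add ((a.mul r).add (b.mul r))).add ((p.mul b).add ((p.mul c).add (q.mul c))))).sub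
        (KLA_nm 6 ((a.mul p).add ((b.mul q).add (c.mul r)))))
    (F3.cons
      ((KLA_nm 2 ((p.mul q).add ((p.mul r).add (q.mul r)))).sub
        (KLA_nm 3 ((p.mul p).add ((q.mul q).add (r.mul r))))) F3.nil))))))
theorem payK_rel (h : R1 C v v' w) (sg : Bool) (pay : ℕ) :
    R3 C 8 8 (payK C.om v sg pay) (payK C.rr v' sg pay) (payK ON w sg pay) := by
  have M := lM_rel h
  have o2 := h.one.mul h.one
  have w2 := (KLA_nm 12 o2).sub M
  cases sg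
  · exact KLA_nm pay (KLA_mul (M.mul M) (((KLA_nm 144000 (o2.mul o2)).add
      (KLA_nm 1711 (w2.mul w2))).sub (KLA_nm 29748 (w2.mul o2))) rfl rfl)
  · exact KLA_nm pay (KLA_mul (M.mul M) (((KLA_nm 144000 (o2.mul o2)).add
      (KLA_nm 1760 (w2.mul w2))).sub (KLA_nm 30000 (w2.mul o2))) rfl rfl)

end Pool.Agent.MTR
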