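import Pool.Agent.MTR.Defs2
import Pool.Agent.PKD.RQF
import Pool.Agent.MTR.SUB
import Pool.Agent.MTR.QML
/-!
KRA (120 lines). Real values of the elementary polynomials; x = 1 - s, y = s (1 - t).
PROOF. Unfold (OR operations are the real operations by rfl / simp [OR]), ev of the explicit lists by simp [ev, evL], ring after rewriting one, xx, yy. For the lists: dotL of explicit lists of 7 against S: dotL_un (QML) and dotL unfolding need S of length 7:
write S = [a,b,c,d,e,f,g].
-/
set_option autoImplicit false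

open MeasureTheory Set Metric Pool.Agent.MEIS Pool.Agent.MSQ Pool.Agent.MGE Pool.Agent.MGF Pool.Agent.PKD

namespace Pool.Agent.MTR

variable {τ σ ω s t : ℝ} {v : Va ℝ} {d : ℕ}

private theorem orA (a b : ℝ) : (OR τ σ).add a b = a + b := rfl
private theorem orS (a b : ℝ) : (OR τ σ).sub a b = a - b := rfl
private theorem orM (a b : ℝ) : (OR τ σ).mul a b = a * b := rfl
private theorem orN (n : ℕ) : (OR τ σ).nat n = (n : ℝ) := rfl

private theorem lin_val (h : RE (OR τ σ) v ω s t d) (p0 p1 p2 n0 n1 n2 : ℕ) :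
    lin (OR τ σ) v p0 p1 p2 n0 n1 n2 = ω * (((p0 : ℝ) + p1 * (1 - s) + p2 * (s * (1 - t)))
      - ((n0 : ℝ) + n1 * (1 - s) + n2 * (s * (1 - t)))) := by
  simp only [lin, orA, orS, orM, orN, h.one, h.xx, h.yy]
  ring

theorem la0_val (h : RE (OR τ σ) v ω s t d) :
    la0 (OR τ σ) v = ω * ev (1 - s) (s * (1 - t)) a60 ∧ la0 (OR τ σ) v = ω * ev s t b60 := by
  constructor <;> · rw [la0, lin_val h]; simp only [a60, b60, ev, evL]; push_cast; ring
theorem la1_val (h : RE (OR τ σ) v ω s t d) :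
    la1 (OR τ σ) v = ω * ev (1 - s) (s * (1 - t)) a61 ∧ la1 (OR τ σ) v = ω * ev s t b61 := by
  constructor <;> · rw [la1, lin_val h]; simp only [a61, b61, ev, evL]; push_cast; ring
theorem la2_val (h : RE (OR τ σ) v ω s t d) :
    la2 (OR τ σ) v = ω * ev (1 - s) (s * (1 - t)) a62 ∧ la2 (OR τ σ) v = ω * ev s t b62 := by
  constructor <;> · rw [la2, lin_val h]; simp only [a62, b62, ev, evL]; push_cast; ring
theorem lU0_val (h : RE (OR τ σ) v ω s t d) (k : ℕ) : lU0 (OR τ σ) v k = ω * ev (1 - s) (s * (1 - t)) (U0 k) := by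
  rcases k with _ | k
  · rw [lU0, lin_val h]; simp only [U0, ev, evL]; push_cast; ring
  · rw [lU0, lin_val h]
    · simp only [U0, ev, evL]; push_cast; ring
    · simp
theorem lU1_val (h : RE (OR τ σ) v ω s t d) (k : ℕ) : lU1 (OR τ σ) v k = ω * ev (1 - s) (s * (1 - t)) (U1 k) := by
  rcases k with _ | _ | k
  · rw [lU1, lin_val h]
    · simp only [U1, ev, evL]; push_cast; ring
    · simp
  · rw [lU1, lin_val h]; simp only [U1, ev, evL]; push_cast; ring
  · rw [lU1, lin_val h]
    · simp only [U1, ev, evL]; push_cast; ring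
    · simp
theorem lM_val (h : RE (OR τ σ) v ω s t d) :
    lM (OR τ σ) v = ω ^ 2 * ev (1 - s) (s * (1 - t)) Mp ∧ lM (OR τ σ) v = ω ^ 2 * ev s t Ms := by
  constructor <;> · simp only [lM, orA, orS, orM, orN, h.one, h.xx, h.yy, Mp, Ms, ev, evL]; push_cast; ring
theorem lMx_val (h : RE (OR τ σ) v ω s t d) : lMx (OR τ σ) v = ω * ev (1 - s) (s * (1 - t)) Mx := by
  rw [lMx, lin_val h]; simp only [Mx, ev, evL]; push_cast; ring
theorem lMy_val (h : RE (OR τ σ) v ω s t d) : lMy (OR τ σ) v = ω * ev (1 - s) (s * (1 - t)) My := by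
  rw [lMy, lin_val h]; simp only [My, ev, evL]; push_cast; ring

private theorem dotL_repK (n : ℕ) (S : List ℝ) : dotL (List.replicate n (z0 (OR τ σ))) S = 0 := by
  induction n generalizing S with
  | zero => simp [dotL]
  | succ n ih =>
    cases S with
    | nil => simp [List.replicate_succ, dotL]
    | cons a S =>
      simp only [List.replicate_succ, dotL, ih]
      simp [z0, OR]

private theorem dotL_unK_aux (k n : ℕ) (p : ℝ) (S : List ℝ) :
    dotL (List.replicate k (z0 (OR τ σ)) ++ (p :: List.replicate n (z0 (OR τ σ)))) S = p * S.getD k 0 := by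
  induction k generalizing S with
  | zero =>
    cases S with
    | nil => simp [dotL]
    | cons a S => simp [dotL, dotL_repK]
  | succ k ih =>
    cases S with
    | nil => simp [List.replicate_succ, dotL]
    | cons a S =>
      simp only [List.replicate_succ, List.cons_append, dotL, ih, List.getD_cons_succ]
      simp [z0, OR]

theorem dotL_unK (k : ℕ) (p : ℝ) (S : List ℝ) : dotL (unK (OR τ σ) k p) S = p * S.getD k 0 :=
  dotL_unK_aux k (6 - k) p S

private theorem len7 {S : List ℝ} (hS : S.length = 7) : ∃ a b c d e f g : ℝ, S = [a, b, c, d, e, f, g] := by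
  match S, hS with
  | [a, b, c, d, e, f, g], _ => exact ⟨a, b, c, d, e, f, g, rfl⟩

private theorem z0_val : z0 (OR τ σ) = 0 := by simp [z0, OR]

theorem T6K_val (h : RE (OR τ σ) v ω s t d) (S : List ℝ) (hS : S.length = 7) :
    dotL (T6K (OR τ σ) v) S = ω * dotL (evE (1 - s) (s * (1 - t)) T6) S ∧
      dotL (T6K (OR τ σ) v) S = ω * dotL (evE s t [[], b60, b61, b62, [], [], []]) S := by
  obtain ⟨a, b, c, d, e, f, g, rfl⟩ := len7 hS
  constructor
  · simp only [T6K, T6, evE, List.map, dotL, z0_val, (la0_val h).1, (la1_val h).1, (la2_val h).1, ev_nil]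
    ring
  · simp only [T6K, evE, List.map, dotL, z0_val, (la0_val h).2, (la1_val h).2, (la2_val h).2, ev_nil]
    ring

theorem L72K_val (h : RE (OR τ σ) v ω s t d) (S : List ℝ) (hS : S.length = 7) :
    dotL (L72K (OR τ σ) v) S = ω ^ 2 * dotL (evE (1 - s) (s * (1 - t)) L72) S := by
  obtain ⟨a, b, c, d, e, f, g, rfl⟩ := len7 hS
  simp only [L72K, L72, evE, List.map, dotL, z0_val, lU0_val h, lU1_val h, ev_nil, ev_sumP, ev_pSm, ev_pMul,
    List.sum_cons, List.sum_nil, orA, orS, orM, orN]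
  push_cast
  ring

private theorem dotL_vSmK (c : ℝ) (A S : List ℝ) : dotL (vSm (OR τ σ) c A) S = c * dotL A S :=
  dotL_vSm τ σ c A S

theorem mdk0_val (h : RE (OR τ σ) v ω s t d) (S : List ℝ) (hS : S.length = 7) :
    dotL (mdk (OR τ σ) v false 0) S = ω * dotL (evE (1 - s) (s * (1 - t)) (mdx 0)) S ∧
      dotL (mdk (OR τ σ) v true 0) S = ω * dotL (evE (1 - s) (s * (1 - t)) (mdy 0)) S := by
  constructor
  · simp only [mdk, mdx]
    rw [dotL_unK, dotL_un, lin_val h]
    simp only [ev, evL]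
    push_cast
    ring
  · simp only [mdk, mdy]
    rw [dotL_unK, dotL_un, lin_val h]
    simp only [ev, evL]
    push_cast
    ring

theorem mdkS_val (h : RE (OR τ σ) v ω s t d) (k : ℕ) (S : List ℝ) (hS : S.length = 7) :
    dotL (mdk (OR τ σ) v false (k + 1)) S = ω ^ 3 * dotL (evE (1 - s) (s * (1 - t)) (mdx (k + 1))) S ∧
      dotL (mdk (OR τ σ) v true (k + 1)) S = ω ^ 3 * dotL (evE (1 - s) (s * (1 - t)) (mdy (k + 1))) S := by
  obtain ⟨a, b, c, d, e, f, g, rfl⟩ := len7 hS
  constructor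
  · simp only [mdk, mdx]
    rw [dotL_vSmK, dotL_qPm, (lM_val h).1]
    simp only [dek, d36, evE, List.map, dotL, z0_val, lU0_val h, lU1_val h, ev_nil, ev_pAdd, ev_pSm, orA, orS, orM, orN]
    push_cast
    ring
  · simp only [mdk, mdy]
    rw [dotL_vSmK, dotL_qPm, (lM_val h).1]
    simp only [dek, d36, evE, List.map, dotL, z0_val, lU0_val h, lU1_val h, ev_nil, ev_pAdd, ev_pSm, orA, orS, orM, orN]
    push_cast
    ring

theorem payK_val (h : RE (OR τ σ) v ω s t d) (pay : ℕ) :
    payK (OR τ σ) v false pay = ω ^ 8 * (pay * ev s t Gp) ∧ payK (OR τ σ) v true pay = ω ^ 8 * (pay * ev s t Gm) := by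
  constructor
  · simp only [payK, Gp, ev_pMul, ev_sumP, ev_pAdd, ev_pSm, List.map, List.sum_cons, List.sum_nil, (lM_val h).2, h.one]
    simp only [orA, orS, orM, orN, ev, evL]
    push_cast
    ring
  · simp only [payK, Gm, ev_pMul, ev_sumP, ev_pAdd, ev_pSm, List.map, List.sum_cons, List.sum_nil, (lM_val h).2, h.one]
    simp only [orA, orS, orM, orN, ev, evL]
    push_cast
    ring

end Pool.Agent.MTR
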