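import Pool.Agent.MTR.KLA
/-!
KRK (110 lines). Relation for the residual.
PROOF. dvK: cases of x, y (0 or k+1) for the factor `p x c` (o2 * c of degree d + 2 with mdk 0 of degree 1; c of degree d with mdk (k+1) of degree 3); first product: 18 Mv c o2: degree 1 + d + 2; 36 M cd o2: 2 + (d - 1) + 2 = d + 3 (d ≥ 1).
unK y (nat 1) : degree 0. zipD: induction on the lists; sum28: induction. RK: payment: pw one (d-5) * payK: degree (d - 5) + 8 = d + 3; 12 D M one^d T6: 2 + d + 1; D one^d T6 L72: d + 1 + 2. Mind `sg`: match by cases.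
-/
set_option autoImplicit false

open MeasureTheory Set Metric Pool.Agent.MEIS Pool.Agent.MSQ Pool.Agent.MGE Pool.Agent.MGF Pool.Agent.PKD

namespace Pool.Agent.MTR

variable {C : Cx} {v w : Va ℕ} {v' : Va ℝ}

private theorem krk_mono {n m : ℕ} {a c : ℕ} {r : ℝ} (h : R3 C n n a r c) (hn : n ≤ m) : R3 C m m a r c :=
  R3.mono h hn hn (le_refl c)

private theorem krk_z0 (n : ℕ) : R3 C n n (z0 C.om) (z0 C.rr) (z0 ON) := R3.nat C n n 0

private theorem krk_Mv (h : R1 C v v' w) (dir : Bool) :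
    R3 C 1 1 (match dir with | false => lMx C.om v | true => lMy C.om v)
      (match dir with | false => lMx C.rr v' | true => lMy C.rr v')
      (match dir with | false => lMx ON w | true => lMy ON w) := by
  cases dir
  · exact lin_rel h 0 8 2 0 0 0
  · exact lin_rel h 0 2 2 0 0 0

private theorem krk_o2 (h : R1 C v v' w) :
    R3 C 2 2 (C.om.mul v.one v.one) (C.rr.mul v'.one v'.one) (ON.mul w.one w.one) :=
  R3.mul h.one h.one

private theorem krk_p (h : R1 C v v' w) {d : ℕ} {c c' : ℕ} {r : ℝ} (hc : R3 C d d c r c') (dir : Bool) (x : ℕ) :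
    L3 C (d + 3) (d + 3)
      (vSm C.om (C.om.sub (z0 C.om) ((match x with
        | 0 => C.om.mul (C.om.mul v.one v.one) c
        | _ => c))) (mdk C.om v dir x))
      (vSm C.rr (C.rr.sub (z0 C.rr) ((match x with
        | 0 => C.rr.mul (C.rr.mul v'.one v'.one) r
        | _ => r))) (mdk C.rr v' dir x))
      (vSm ON (ON.sub (z0 ON) ((match x with
        | 0 => ON.mul (ON.mul w.one w.one) c'
        | _ => c'))) (mdk ON w dir x)) := by
  rcases x with _ | k
  · have h1 := R3.sub (krk_z0 (C := C) (2 + d)) (R3.mul (krk_o2 h) hc)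
    exact L3.mono (vSm_rel h1 (mdk0_rel h dir)) (by omega) (by omega)
  · have h1 := R3.sub (krk_z0 (C := C) d) hc
    exact L3.mono (vSm_rel h1 (mdkS_rel h dir k)) (by omega) (by omega)

theorem dvK_rel (h : R1 C v v' w) {d : ℕ} (hd : 1 ≤ d) {c c' e e' : ℕ} {r r' : ℝ} (hc : R3 C d d c r c')
    (he : R3 C (d - 1) (d - 1) e r' e') (dir : Bool) (x y : ℕ) :
    L3 C (d + 3) (d + 3) (dvK C.om v dir c e x y) (dvK C.rr v' dir r r' x y) (dvK ON w dir c' e' x y) := by
  have hu : ∀ z : ℕ, L3 C 0 0 (unK C.om z (C.om.nat 1)) (unK C.rr z (C.rr.nat 1)) (unK ON z (ON.nat 1)) :=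
    fun z => unK_rel z (R3.nat C 0 0 1)
  have t1 := R3.mul (R3.mul (R3.nat C 0 0 18) (R3.mul (krk_Mv h dir) hc)) (krk_o2 h)
  have t2 := R3.mul (R3.mul (R3.nat C 0 0 36) (R3.mul (lM_rel h) he)) (krk_o2 h)
  have t3 := R3.sub (krk_mono t1 (show 0 + (1 + d) + 2 ≤ d + 3 by omega))
    (krk_mono t2 (show 0 + (2 + (d - 1)) + 2 ≤ d + 3 by omega))
  have s1 := vMul_rel (unK_rel x t3) (hu y)
  have s2 := vMul_rel (krk_p h hc dir x) (hu y)
  have s3 := vMul_rel (krk_p h hc dir y) (hu x)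
  exact vAdd_rel (n := d + 3) (m := d + 3) s1 (vAdd_rel (n := d + 3) (m := d + 3) s2 s3)

private theorem krk_zip (h : R1 C v v' w) {d : ℕ} (hd : 1 ≤ d) {u s : List (ℕ × List ℕ)} {t : List (ℝ × List ℝ)}
    {u' s' : List (ℕ × List ℕ)} {t' : List (ℝ × List ℝ)} (hu : RG C d d u t s)
    (hu' : RG C (d - 1) (d - 1) u' t' s') (dir : Bool) :
    ∀ (ps qs : List P) (zs : List (ℕ × ℕ)),
      F3 (L3 C (d + 3) (d + 3)) (zipD C.om u u' (dvK C.om v dir) ps qs zs)
        (zipD C.rr t t' (dvK C.rr v' dir) ps qs zs) (zipD ON s s' (dvK ON w dir) ps qs zs) := by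
  intro ps
  induction ps with
  | nil =>
    intro qs zs
    exact F3.nil
  | cons p ps ih =>
    intro qs zs
    rcases qs with _ | ⟨q, qs⟩
    · exact F3.nil
    · rcases zs with _ | ⟨z, zs⟩
      · exact F3.nil
      · exact F3.cons (dvK_rel h hd (pvI_rel hu p) (pvI_rel hu' q) dir z.1 z.2) (ih qs zs)

private theorem krk_sum28 {n : ℕ} {A D : List (List ℕ)} {B : List (List ℝ)} (h : F3 (L3 C n n) A B D) :
    L3 C n n (sum28 C.om A) (sum28 C.rr B) (sum28 ON D) := by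
  induction h with
  | nil => exact L3.rep (krk_z0 n)
  | cons h t ih => exact vAdd_rel h ih

private theorem krk_pay {n : ℕ} {a c : ℕ} {r : ℝ} (hp : R3 C n n a r c) (sg : Bool) :
    L3 C n n
      (vMul C.om (unK C.om 0 (match sg with
        | false => C.om.sub (z0 C.om) a
        | true => a)) (unK C.om 0 (C.om.nat 1)))
      (vMul C.rr (unK C.rr 0 (match sg with
        | false => C.rr.sub (z0 C.rr) r
        | true => r)) (unK C.rr 0 (C.rr.nat 1)))
      (vMul ON (unK ON 0 (match sg with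
        | false => ON.sub (z0 ON) c
        | true => c)) (unK ON 0 (ON.nat 1))) := by
  have hu : L3 C 0 0 (unK C.om 0 (C.om.nat 1)) (unK C.rr 0 (C.rr.nat 1)) (unK ON 0 (ON.nat 1)) :=
    unK_rel 0 (R3.nat C 0 0 1)
  cases sg
  · have h1 := vMul_rel (unK_rel 0 (R3.sub (krk_z0 n) hp)) hu
    exact h1
  · have h1 := vMul_rel (unK_rel 0 hp) hu
    exact h1

theorem RK_rel {g : Gg} (hg : 5 ≤ g.d) (h : RV C g.d v v' w) (sg : Bool) (pay : ℕ) :
    L3 C (g.d + 3) (g.d + 3) (RK C.om g sg pay v) (RK C.rr g sg pay v') (RK ON g sg pay w) := by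
  have h1 : R1 C v v' w := h.toR1
  have hp := R3.mul (pw_rel h1.one (g.d - 5)) (payK_rel h1 sg pay)
  have hp' := krk_mono hp (show (g.d - 5) * 1 + 8 ≤ g.d + 3 by omega)
  have a1 := krk_pay hp' sg
  have a2 := vMul_rel (unK_rel 0 (R3.mul (R3.mul (R3.nat C 0 0 (Nat.mul 12 g.D)) (lM_rel h1))
    (pw_rel h1.one g.d))) (T6K_rel h1)
  have a2' := L3.mono a2 (show 0 + 2 + g.d * 1 + 1 ≤ g.d + 3 by omega) (show 0 + 2 + g.d * 1 + 1 ≤ g.d + 3 by omega)
  have a3 := vMul_rel (vSm_rel (R3.mul (R3.nat C 0 0 g.D) (pw_rel h1.one g.d)) (T6K_rel h1)) (L72K_rel h1)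
  have a3' := L3.mono a3 (show 0 + g.d * 1 + 1 + 2 ≤ g.d + 3 by omega) (show 0 + g.d * 1 + 1 + 2 ≤ g.d + 3 by omega)
  have a4 := krk_sum28 (krk_zip h1 (show 1 ≤ g.d by omega) h.gd h.ge false g.cP g.dP prs)
  have a5 := krk_sum28 (krk_zip h1 (show 1 ≤ g.d by omega) h.gd h.ge true g.cQ g.dQ prs)
  have a6 := vAdd_rel a1 (vAdd_rel a2' (vAdd_rel a3' (vAdd_rel a4 a5)))
  cases sg
  · exact a6
  · exact a6

end Pool.Agent.MTR
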