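import Pool.Agent.MTR.Defs2
import Pool.Agent.PKD.RPV
/-!
KVA (90 lines). Relations for the basic values of a box.
PROOF. mkVa is built from R3.add, mul, nat, X, Y: vA: degree (1,0) (nat q : R3.nat C 0 0, add of nat and X in degree (1,0)); one = vA vB: degree (1,1). g3: tens_rel of mkV_rel (3 * 1, 3 * 0) and (3 * 0, 3 * 1). gm: mkV_rel with X of degree (1,0) and
nat 1 of degree (1,0). gd: triR_rel with n0 = m0 = 0. vN: the norms of one, xx, yy are at most 4 q²: (q+q)(q+q), ((q-x0)+(q-x1))(q+q), (x0+x1)((q-y0)+(q-y1)), using bdOK; R3.mono. ON.mul a b = a*b, ON.add a b = a+b by rfl.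
-/
set_option autoImplicit false

open MeasureTheory Set Metric Pool.Agent.MEIS Pool.Agent.MSQ Pool.Agent.MGE Pool.Agent.MGF Pool.Agent.PKD

namespace Pool.Agent.MTR

theorem vA_rel (C : Cx) (b : Bn) : R3 C 1 0 (vA C.om b) (vA C.rr b) (vA ON b) :=
  (R3.nat C 0 0 b.q).mul ((R3.nat C 1 0 1).add (R3.X C 1 0 le_rfl))
theorem va_rel (C : Cx) (b : Bn) : R3 C 1 0 (va C.om b) (va C.rr b) (va ON b) :=
  (R3.nat C 1 0 b.x0).add ((R3.nat C 0 0 b.x1).mul (R3.X C 1 0 le_rfl))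
theorem vc_rel (C : Cx) (b : Bn) : R3 C 1 0 (vc C.om b) (vc C.rr b) (vc ON b) :=
  (R3.nat C 1 0 (Nat.sub b.q b.x0)).add ((R3.nat C 0 0 (Nat.sub b.q b.x1)).mul (R3.X C 1 0 le_rfl))
theorem vB_rel (C : Cx) (b : Bn) : R3 C 0 1 (vB C.om b) (vB C.rr b) (vB ON b) :=
  (R3.nat C 0 0 b.q).mul ((R3.nat C 0 1 1).add (R3.Y C 0 1 le_rfl))
theorem vb_rel (C : Cx) (b : Bn) : R3 C 0 1 (vb C.om b) (vb C.rr b) (vb ON b) :=
  (R3.nat C 0 1 b.y0).add ((R3.nat C 0 0 b.y1).mul (R3.Y C 0 1 le_rfl))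
theorem ve_rel (C : Cx) (b : Bn) : R3 C 0 1 (ve C.om b) (ve C.rr b) (ve ON b) :=
  (R3.nat C 0 1 (Nat.sub b.q b.y0)).add ((R3.nat C 0 0 (Nat.sub b.q b.y1)).mul (R3.Y C 0 1 le_rfl))
theorem one_rel (C : Cx) (b : Bn) :
    R3 C 1 1 (C.om.mul (vA C.om b) (vB C.om b)) (C.rr.mul (vA C.rr b) (vB C.rr b)) (ON.mul (vA ON b) (vB ON b)) :=
  (vA_rel C b).mul (vB_rel C b)
theorem xx_rel (C : Cx) (b : Bn) :
    R3 C 1 1 (C.om.mul (vc C.om b) (vB C.om b)) (C.rr.mul (vc C.rr b) (vB C.rr b)) (ON.mul (vc ON b) (vB ON b)) :=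
  (vc_rel C b).mul (vB_rel C b)
theorem yy_rel (C : Cx) (b : Bn) :
    R3 C 1 1 (C.om.mul (va C.om b) (ve C.om b)) (C.rr.mul (va C.rr b) (ve C.rr b)) (ON.mul (va ON b) (ve ON b)) :=
  (va_rel C b).mul (ve_rel C b)

theorem rgCast {C : Cx} {n m n' m' : ℕ} {u w : List (ℕ × List ℕ)} {v : List (ℝ × List ℝ)} (h : RG C n m u v w)
    (hn : n = n') (hm : m = m') : RG C n' m' u v w := by
  subst hn hm
  exact h

theorem mkVa_rel (C : Cx) (b : Bn) (d dm : ℕ) :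
    RV C d (mkVa C.om b d dm) (mkVa C.rr b d dm) (mkVa ON b d dm) ∧
      RW C dm (mkVa C.om b d dm) (mkVa C.rr b d dm) (mkVa ON b d dm) := by
  refine ⟨⟨⟨one_rel C b, xx_rel C b, yy_rel C b⟩, ?_, ?_⟩, ⟨?_, ?_⟩⟩
  · exact rgCast (triR_rel (xx_rel C b) (yy_rel C b) (one_rel C b) d 0 0 (R3.nat C 0 0 1)) (by ring) (by ring)
  · exact rgCast (triR_rel (xx_rel C b) (yy_rel C b) (one_rel C b) (d - 1) 0 0 (R3.nat C 0 0 1)) (by ring) (by ring)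
  · exact tens_rel (mkV_rel (va_rel C b) (vA_rel C b) 3) (mkV_rel (vb_rel C b) (vB_rel C b) 3)
  · exact rgCast (tens_rel (mkV_rel (R3.X C 1 0 le_rfl) (R3.nat C 1 0 1) dm)
      (mkV_rel (R3.Y C 0 1 le_rfl) (R3.nat C 0 1 1) dm)) (by ring) (by ring)
theorem vN_rel (C : Cx) (b : Bn) (hb : bdOK b = true) (d dm : ℕ) :
    RV C d (mkVa C.om b d dm) (mkVa C.rr b d dm) (vN (Nat.mul 4 (Nat.mul b.q b.q)) d) := by
  have hb' : 1 ≤ b.q ∧ b.x0 ≤ b.q ∧ b.x1 ≤ b.q ∧ b.y0 ≤ b.q ∧ b.y1 ≤ b.q := by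
    unfold bdOK at hb
    simp only [Bool.and_eq_true, Nat.ble_eq] at hb
    exact ⟨hb.1.1.1.1, hb.1.1.1.2, hb.1.1.2, hb.1.2, hb.2⟩
  obtain ⟨h0, h1, h2, h3, h4⟩ := hb'
  have hq : (b.q + b.q) * (b.q + b.q) ≤ 4 * (b.q * b.q) := le_of_eq (by ring)
  have n1 : ON.mul (vA ON b) (vB ON b) ≤ Nat.mul 4 (Nat.mul b.q b.q) := by
    show (b.q * (1 + 1)) * (b.q * (1 + 1)) ≤ 4 * (b.q * b.q)
    exact le_of_eq (by ring)
  have n2 : ON.mul (vc ON b) (vB ON b) ≤ Nat.mul 4 (Nat.mul b.q b.q) := by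
    show ((b.q - b.x0) + (b.q - b.x1) * 1) * (b.q * (1 + 1)) ≤ 4 * (b.q * b.q)
    refine le_trans (Nat.mul_le_mul ?_ ?_) hq
    · omega
    · omega
  have n3 : ON.mul (va ON b) (ve ON b) ≤ Nat.mul 4 (Nat.mul b.q b.q) := by
    show (b.x0 + b.x1 * 1) * ((b.q - b.y0) + (b.q - b.y1) * 1) ≤ 4 * (b.q * b.q)
    refine le_trans (Nat.mul_le_mul ?_ ?_) hq
    · omega
    · omega
  have r1 := (one_rel C b).mono le_rfl le_rfl n1
  have r2 := (xx_rel C b).mono le_rfl le_rfl n2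
  have r3 := (yy_rel C b).mono le_rfl le_rfl n3
  have g1 := rgCast (n' := d) (m' := d) (triR_rel r2 r3 r1 d 0 0 (R3.nat C 0 0 1)) (by ring) (by ring)
  have g2 := rgCast (n' := d - 1) (m' := d - 1) (triR_rel r2 r3 r1 (d - 1) 0 0 (R3.nat C 0 0 1)) (by ring) (by ring)
  exact ⟨⟨r1, r2, r3⟩, g1, g2⟩

end Pool.Agent.MTR
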