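import Pool.Agent.MTR.FRM
import Pool.Agent.MTR.HES
import Pool.Agent.MTR.PRD
/-!
SID (100 lines). Soundness of the test of a side interval (the side t = 0). Same as BOX with at0: ev s t (at0 p) = ev s 0 p (ev_at0 in MSQ.EvA), so all polynomials
are evaluated at t = 0; the positivity tests hold for every t in [0,1], use t = 0.
-/
set_option autoImplicit false

open MeasureTheory Set Metric Pool.Agent.MEIS Pool.Agent.MSQ Pool.Agent.MGE Pool.Agent.MGF

namespace Pool.Agent.MTR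

private theorem sid_dotL_nil (s : List ℝ) : dotL [] s = 0 := by
  cases s <;> rfl

private theorem sid_qf_nil : ∀ s : List ℝ, qf [] s = 0
  | [] => rfl
  | x :: s => by
    unfold qf
    rw [List.take_nil, List.drop_nil, sid_dotL_nil, sid_qf_nil s]
    ring

private theorem sid_st_length (T : E → ℝ) (a : E) : (st T a).length = 7 := rfl

private theorem sid_frm (r : Rg) (b : Bx) (k : ℕ) (hk : 11 < k) : frm r b k = [] := by
  obtain ⟨m, rfl⟩ : ∃ m, k = m + 12 := ⟨k - 12, by omega⟩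
  rfl

private theorem sid_qMul_nil (A : List P) : qMul A [] = [] := by
  cases A <;> rfl

private theorem sid_qMul_nil' (A : List P) : qMul [] A = [] := by
  cases A <;> rfl

private theorem sid_evE_at0 (s : ℝ) (A : List P) : evE s 0 (A.map at0) = evE s 0 A := by
  unfold evE
  rw [List.map_map]
  apply List.map_congr_left
  intro p _
  exact ev_at0 s 0 p

private theorem sid_qf1 (s t : ℝ) (p : P) : qf (evE s t [p]) [1] = ev s t p := by
  simp [qf, evE, dotL]

private theorem sid_prS (r : Rg) (b : Bx) (s : ℝ) (T : E → ℝ) (a : E)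
    (hf : ∀ k : ℕ, 0 ≤ dotL (evE s 0 (frm r b k)) (st T a)) (z : Nat × Nat × P) (hz : 0 ≤ ev s 0 z.2.2) :
    0 ≤ qf (evE s 0 (prS r b z)) (st T a) := by
  unfold prS
  rw [qf_qPm]
  refine mul_nonneg hz ?_
  by_cases h1 : 11 < z.1
  · rw [sid_frm r b _ h1, List.map_nil, sid_qMul_nil']
    exact (sid_qf_nil _).ge
  · by_cases h2 : 11 < z.2.1
    · rw [sid_frm r b _ h2, List.map_nil, sid_qMul_nil]
      exact (sid_qf_nil _).ge
    · rw [qf_qMul s 0 _ _ _ (by rw [List.length_map]; exact frm_length r b _ (by omega))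
        (by rw [List.length_map]; exact frm_length r b _ (by omega)), sid_evE_at0, sid_evE_at0]
      exact mul_nonneg (hf _) (hf _)

theorem schk_sound (r : Rg) (hr : rOK r) (S : List P) (b : Bx) (hb : schk r S b = true) {T : E → ℝ} {β : ℝ}
    (h : TrHyp T β) (hβ : inR r β) (s : ℝ) (hs0 : 0 ≤ s) (hs1 : s ≤ 1)
    (h0 : (b.s0 : ℝ) ≤ 64 * s) (h1 : 64 * s ≤ b.s1) :
    0 ≤ qf (evE s 0 S) (st T (sa (1 - s) s)) := by
  have hS : ∀ (n : ℕ) (L : List P), chkM n L b.s0 b.s1 64 0 64 64 = true → ∀ v : List ℝ,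
      v.length = n → 0 ≤ qf (evE s 0 L) v := by
    intro n L hL v hv
    exact chkM_sound n L b.s0 b.s1 64 0 64 64 hL s 0 (by exact_mod_cast h0) (by exact_mod_cast h1)
      (by norm_num) (by norm_num) v hv
  simp only [schk, Bool.and_eq_true, decide_eq_true_eq, List.all_eq_true] at hb
  obtain ⟨⟨⟨hw, hN⟩, hm1⟩, hR⟩ := hb
  have hsa : sa (1 - s) s = sa (1 - s) (s * (1 - 0)) := by rw [sub_zero, mul_one]
  rw [hsa]
  have hn : nB b s 0 (nW (sa (1 - s) (s * (1 - 0)))) := by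
    simp only [nOKs, Bool.and_eq_true, decide_eq_true_eq] at hN
    obtain ⟨⟨⟨hd, hU⟩, hU2⟩, hL2⟩ := hN
    have k1 := hS 1 _ hU [1] rfl
    have k2 := hS 1 _ hU2 [1] rfl
    have k3 := hS 1 _ hL2 [1] rfl
    have hMs := ev_Ms s 0
    have hnp : 0 < nW (sa (1 - s) (s * (1 - 0))) := nW_pos _ _
    have hd' : (0 : ℝ) < b.dN := by exact_mod_cast hd
    rw [sid_qf1] at k1 k2 k3
    simp only [ev_pAdd, ev_pSm, ev_pMul, ev_at0, hMs] at k2 k3
    generalize nW (sa (1 - s) (s * (1 - 0))) = N at hnp k2 k3 ⊢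
    push_cast at k2 k3
    have hx : 0 ≤ (b.dN : ℝ) * N ^ 3 := by positivity
    refine ⟨hd, ?_, ?_⟩
    · refine abs_le_of_sq_le_sq' ?_ hx |>.2
      nlinarith [k3]
    · refine (abs_le_of_sq_le_sq' ?_ k1).2
      nlinarith [k2]
  have hf := frm_nonneg r hr b h hβ s 0 hs0 hs1 le_rfl zero_le_one hn
  have hP : 0 ≤ qf (evE s 0 (sumQ (b.m1.map (prS r b)))) (st T (sa (1 - s) (s * (1 - 0)))) := by
    rw [qf_sumQ]
    apply List.sum_nonneg
    intro x hx
    rw [List.map_map] at hx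
    obtain ⟨z, hz, rfl⟩ := List.mem_map.mp hx
    have k := hS 1 _ (hm1 z hz) [1] rfl
    rw [sid_qf1] at k
    exact sid_prS r b s T _ hf z k
  have k := hS 7 _ hR (st T (sa (1 - s) (s * (1 - 0)))) (sid_st_length _ _)
  rw [qf_qAdd, qf_qSm, qf_qSm] at k
  push_cast at k
  have hw' : (0 : ℝ) < b.w := by exact_mod_cast hw
  have k2 : 0 ≤ (b.w : ℝ) * qf (evE s 0 S) (st T (sa (1 - s) (s * (1 - 0)))) := by linarith
  exact nonneg_of_mul_nonneg_right k2 hw'

end Pool.Agent.MTR
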