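import Pool.Agent.MTR.SAP
import Pool.Agent.MGF.SIM
/-!
SPL (140 lines). Splitting of the integral over a triangle into its six sectors, for g continuous along planes.
PROOF. Let I P Q R := ∫ x in 0..1, ∫ y in 0..(1-x), g (x P + y Q + (1-x-y) R), P, Q, R points of the plane. (1) I P Q R = I Q P R (tri_swap, MGF.SIM) and
I P Q R = I P R Q (inner substitution y = 1 - x - y'). (2) for l in [0,1], S = (1-l) Q + l R: I P Q R = l I P Q S + (1-l) I P S R: split the inner integral at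
(1-l) (1-x), substitute linearly. (3) with V0, V1, V2 the
vertices, M01 the midpoint, C the centre: I V0 V1 V2 = 1/2 I V2 V0 M01 + 1/2 I V2 M01 V1; each half: on the segment V2 M01 the centre C is at (1/3) V2 + (2/3) M01:
I V0 V2 M01 = (2/3) I V0 V2 C + (1/3) I V0 C M01, and I C V0 V2 = 1/2 I C V0 M02 + 1/2 I C M02 V2. Every sector gets 1/6.
-/
set_option autoImplicit false

open MeasureTheory Set Metric Pool.Agent.MEIS Pool.Agent.MSQ Pool.Agent.MGE Pool.Agent.MGF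

namespace Pool.Agent.MTR

private noncomputable def spJ (f : ℝ × ℝ → ℝ) (p q r : ℝ × ℝ) : ℝ :=
  ∫ x in (0 : ℝ)..1, ∫ y in (0 : ℝ)..(1 - x),
    f (x * p.1 + y * q.1 + (1 - x - y) * r.1, x * p.2 + y * q.2 + (1 - x - y) * r.2)

private theorem spJ_pq {f : ℝ × ℝ → ℝ} (hf : Continuous f) (p q r : ℝ × ℝ) :
    spJ f p q r = spJ f q p r := by
  unfold spJ
  have h := tri_swap (u := fun z : ℝ × ℝ =>
    f (z.1 * p.1 + z.2 * q.1 + (1 - z.1 - z.2) * r.1, z.1 * p.2 + z.2 * q.2 + (1 - z.1 - z.2) * r.2))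
    (by fun_prop)
  rw [h]
  refine intervalIntegral.integral_congr fun x _ => ?_
  refine intervalIntegral.integral_congr fun y _ => ?_
  simp only
  congr 2 <;> ring

private theorem spJ_qr (f : ℝ × ℝ → ℝ) (p q r : ℝ × ℝ) :
    spJ f p q r = spJ f p r q := by
  unfold spJ
  refine intervalIntegral.integral_congr fun x _ => ?_
  have h := intervalIntegral.integral_comp_sub_left (a := 0) (b := 1 - x)
    (fun y : ℝ => f (x * p.1 + y * q.1 + (1 - x - y) * r.1, x * p.2 + y * q.2 + (1 - x - y) * r.2))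
    (1 - x)
  simp only [sub_self, sub_zero] at h
  rw [← h]
  refine intervalIntegral.integral_congr fun y _ => ?_
  congr 2 <;> ring

private theorem spJ_split {f : ℝ × ℝ → ℝ} (hf : Continuous f) (p q r s : ℝ × ℝ) (l : ℝ)
    (h1 : s.1 = (1 - l) * q.1 + l * r.1) (h2 : s.2 = (1 - l) * q.2 + l * r.2) :
    spJ f p q r = l * spJ f p q s + (1 - l) * spJ f p s r := by
  unfold spJ
  have hc : ∀ a b c : ℝ × ℝ, Continuous fun x : ℝ => ∫ y in (0 : ℝ)..(1 - x),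
      f (x * a.1 + y * b.1 + (1 - x - y) * c.1, x * a.2 + y * b.2 + (1 - x - y) * c.2) := by
    intro a b c
    exact intervalIntegral.continuous_parametric_intervalIntegral_of_continuous
      (f := fun x y =>
        f (x * a.1 + y * b.1 + (1 - x - y) * c.1, x * a.2 + y * b.2 + (1 - x - y) * c.2))
      (by fun_prop) (by fun_prop)
  rw [← intervalIntegral.integral_const_mul, ← intervalIntegral.integral_const_mul,
    ← intervalIntegral.integral_add (((hc p q s).const_mul l).intervalIntegrable _ _)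
      (((hc p s r).const_mul (1 - l)).intervalIntegrable _ _)]
  refine intervalIntegral.integral_congr fun x _ => ?_
  have e1 := intervalIntegral.smul_integral_comp_mul_add (a := 0) (b := 1 - x)
    (fun y : ℝ => f (x * p.1 + y * q.1 + (1 - x - y) * r.1, x * p.2 + y * q.2 + (1 - x - y) * r.2))
    l ((1 - l) * (1 - x))
  have e2 := intervalIntegral.smul_integral_comp_mul_add (a := 0) (b := 1 - x)
    (fun y : ℝ => f (x * p.1 + y * q.1 + (1 - x - y) * r.1, x * p.2 + y * q.2 + (1 - x - y) * r.2))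
    (1 - l) 0
  rw [smul_eq_mul] at e1 e2
  rw [show l * 0 + (1 - l) * (1 - x) = (1 - l) * (1 - x) from by ring,
    show l * (1 - x) + (1 - l) * (1 - x) = 1 - x from by ring] at e1
  rw [show (1 - l) * 0 + 0 = (0 : ℝ) from by ring,
    show (1 - l) * (1 - x) + 0 = (1 - l) * (1 - x) from by ring] at e2
  rw [← intervalIntegral.integral_add_adjacent_intervals (a := 0) (b := (1 - l) * (1 - x))
    (c := 1 - x) (Continuous.intervalIntegrable (by fun_prop) _ _)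
    (Continuous.intervalIntegrable (by fun_prop) _ _), ← e1, ← e2, add_comm]
  congr 1
  · congr 1
    refine intervalIntegral.integral_congr fun y _ => ?_
    simp only [h1, h2]
    congr 2 <;> ring
  · congr 1
    refine intervalIntegral.integral_congr fun y _ => ?_
    simp only [h1, h2]
    congr 2 <;> ring

private theorem spJ_six {f : ℝ × ℝ → ℝ} (hf : Continuous f) :
    spJ f (1, 0) (0, 1) (0, 0) = 1 / 6 *
      (spJ f (1, 0) (1 / 2, 1 / 2) (1 / 3, 1 / 3) + spJ f (1, 0) (1 / 2, 0) (1 / 3, 1 / 3) +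
       spJ f (0, 1) (1 / 2, 1 / 2) (1 / 3, 1 / 3) + spJ f (0, 1) (0, 1 / 2) (1 / 3, 1 / 3) +
       spJ f (0, 0) (1 / 2, 0) (1 / 3, 1 / 3) + spJ f (0, 0) (0, 1 / 2) (1 / 3, 1 / 3)) := by
  have a1 : spJ f (1, 0) (0, 1) (0, 0) = spJ f (0, 0) (1, 0) (0, 1) := by
    rw [spJ_qr, spJ_pq hf]
  have a2 := spJ_split hf (0, 0) (1, 0) (0, 1) (1 / 2, 1 / 2) (1 / 2) (by norm_num) (by norm_num)
  have b1 : spJ f (0, 0) (1, 0) (1 / 2, 1 / 2) = spJ f (1, 0) (0, 0) (1 / 2, 1 / 2) := spJ_pq hf _ _ _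
  have b2 := spJ_split hf (1, 0) (0, 0) (1 / 2, 1 / 2) (1 / 3, 1 / 3) (2 / 3) (by norm_num)
    (by norm_num)
  have b3 : spJ f (1, 0) (1 / 3, 1 / 3) (1 / 2, 1 / 2) = spJ f (1, 0) (1 / 2, 1 / 2) (1 / 3, 1 / 3) :=
    spJ_qr f _ _ _
  have b4 : spJ f (1, 0) (0, 0) (1 / 3, 1 / 3) = spJ f (1 / 3, 1 / 3) (1, 0) (0, 0) := by
    rw [spJ_qr, spJ_pq hf]
  have b5 := spJ_split hf (1 / 3, 1 / 3) (1, 0) (0, 0) (1 / 2, 0) (1 / 2) (by norm_num) (by norm_num)
  have b6 : spJ f (1 / 3, 1 / 3) (1, 0) (1 / 2, 0) = spJ f (1, 0) (1 / 2, 0) (1 / 3, 1 / 3) := by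
    rw [spJ_pq hf, spJ_qr]
  have b7 : spJ f (1 / 3, 1 / 3) (1 / 2, 0) (0, 0) = spJ f (0, 0) (1 / 2, 0) (1 / 3, 1 / 3) := by
    rw [spJ_qr, spJ_pq hf, spJ_qr]
  have c1 : spJ f (0, 0) (1 / 2, 1 / 2) (0, 1) = spJ f (0, 1) (0, 0) (1 / 2, 1 / 2) := by
    rw [spJ_qr, spJ_pq hf]
  have c2 := spJ_split hf (0, 1) (0, 0) (1 / 2, 1 / 2) (1 / 3, 1 / 3) (2 / 3) (by norm_num)
    (by norm_num)
  have c3 : spJ f (0, 1) (1 / 3, 1 / 3) (1 / 2, 1 / 2) = spJ f (0, 1) (1 / 2, 1 / 2) (1 / 3, 1 / 3) :=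
    spJ_qr f _ _ _
  have c4 : spJ f (0, 1) (0, 0) (1 / 3, 1 / 3) = spJ f (1 / 3, 1 / 3) (0, 1) (0, 0) := by
    rw [spJ_qr, spJ_pq hf]
  have c5 := spJ_split hf (1 / 3, 1 / 3) (0, 1) (0, 0) (0, 1 / 2) (1 / 2) (by norm_num) (by norm_num)
  have c6 : spJ f (1 / 3, 1 / 3) (0, 1) (0, 1 / 2) = spJ f (0, 1) (0, 1 / 2) (1 / 3, 1 / 3) := by
    rw [spJ_pq hf, spJ_qr]
  have c7 : spJ f (1 / 3, 1 / 3) (0, 1 / 2) (0, 0) = spJ f (0, 0) (0, 1 / 2) (1 / 3, 1 / 3) := by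
    rw [spJ_qr, spJ_pq hf, spJ_qr]
  rw [a1, a2, b1, b2, b3, b4, b5, b6, b7, c1, c2, c3, c4, c5, c6, c7]
  ring

private theorem spJ_eq {g : E → ℝ} {h : ℝ → ℝ → E} {p q : ℝ × ℝ}
    (hh : ∀ x y, h x y = bp (x * p.1 + y * q.1 + (1 - x - y) * (1 / 3))
      (x * p.2 + y * q.2 + (1 - x - y) * (1 / 3))) :
    (∫ x in (0 : ℝ)..1, ∫ y in (0 : ℝ)..(1 - x), g (h x y)) =
      spJ (fun z => g (bp z.1 z.2)) p q (1 / 3, 1 / 3) := by
  unfold spJ
  simp only [hh]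

theorem tri_six {g : E → ℝ} (hg : Continuous fun z : ℝ × ℝ => g (bp z.1 z.2)) :
    ∫ x in (0 : ℝ)..1, ∫ y in (0 : ℝ)..(1 - x), g (bp x y) =
      1 / 6 * ∑ σ : Equiv.Perm (Fin 3), ∫ x in (0 : ℝ)..1, ∫ y in (0 : ℝ)..(1 - x), g (pmE σ (sa x y)) := by
  have h0 : ∫ x in (0 : ℝ)..1, ∫ y in (0 : ℝ)..(1 - x), g (bp x y) =
      spJ (fun z => g (bp z.1 z.2)) (1, 0) (0, 1) (0, 0) := by
    unfold spJ
    refine intervalIntegral.integral_congr fun x _ => ?_
    refine intervalIntegral.integral_congr fun y _ => ?_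
    simp only
    congr 2 <;> ring
  have key : ∀ (σ : Equiv.Perm (Fin 3)) (a b c : Fin 3), σ 0 = a → σ 1 = b → σ 2 = c →
      ∀ x y, pmE σ (sa x y) = pt (sa x y a) (sa x y b) (sa x y c) := by
    intro σ a b c h1 h2 h3 x y
    unfold pmE
    rw [h1, h2, h3]
  have hu : (Finset.univ : Finset (Equiv.Perm (Fin 3))) =
      {1, Equiv.swap 0 1, Equiv.swap 0 2, Equiv.swap 1 2, finRotate 3, (finRotate 3)⁻¹} := by
    decide
  rw [h0, spJ_six hg, hu, Finset.sum_insert (by decide), Finset.sum_insert (by decide),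
    Finset.sum_insert (by decide), Finset.sum_insert (by decide), Finset.sum_insert (by decide),
    Finset.sum_singleton]
  have k1 : (∫ x in (0 : ℝ)..1, ∫ y in (0 : ℝ)..(1 - x), g (pmE 1 (sa x y))) =
      spJ (fun z => g (bp z.1 z.2)) (1, 0) (1 / 2, 1 / 2) (1 / 3, 1 / 3) := by
    refine spJ_eq fun x y => ?_
    rw [key 1 0 1 2 (by decide) (by decide) (by decide), sa_0, sa_1, sa_2]
    unfold bp
    congr 1 <;> ring
  have k2 : (∫ x in (0 : ℝ)..1, ∫ y in (0 : ℝ)..(1 - x), g (pmE (Equiv.swap 0 1) (sa x y))) =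
      spJ (fun z => g (bp z.1 z.2)) (0, 1) (1 / 2, 1 / 2) (1 / 3, 1 / 3) := by
    refine spJ_eq fun x y => ?_
    rw [key (Equiv.swap 0 1) 1 0 2 (by decide) (by decide) (by decide), sa_0, sa_1, sa_2]
    unfold bp
    congr 1 <;> ring
  have k3 : (∫ x in (0 : ℝ)..1, ∫ y in (0 : ℝ)..(1 - x), g (pmE (Equiv.swap 0 2) (sa x y))) =
      spJ (fun z => g (bp z.1 z.2)) (0, 0) (0, 1 / 2) (1 / 3, 1 / 3) := by
    refine spJ_eq fun x y => ?_
    rw [key (Equiv.swap 0 2) 2 1 0 (by decide) (by decide) (by decide), sa_0, sa_1, sa_2]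
    unfold bp
    congr 1 <;> ring
  have k4 : (∫ x in (0 : ℝ)..1, ∫ y in (0 : ℝ)..(1 - x), g (pmE (Equiv.swap 1 2) (sa x y))) =
      spJ (fun z => g (bp z.1 z.2)) (1, 0) (1 / 2, 0) (1 / 3, 1 / 3) := by
    refine spJ_eq fun x y => ?_
    rw [key (Equiv.swap 1 2) 0 2 1 (by decide) (by decide) (by decide), sa_0, sa_1, sa_2]
    unfold bp
    congr 1 <;> ring
  have k5 : (∫ x in (0 : ℝ)..1, ∫ y in (0 : ℝ)..(1 - x), g (pmE (finRotate 3) (sa x y))) =
      spJ (fun z => g (bp z.1 z.2)) (0, 0) (1 / 2, 0) (1 / 3, 1 / 3) := by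
    refine spJ_eq fun x y => ?_
    rw [key (finRotate 3) 1 2 0 (by decide) (by decide) (by decide), sa_0, sa_1, sa_2]
    unfold bp
    congr 1 <;> ring
  have k6 : (∫ x in (0 : ℝ)..1, ∫ y in (0 : ℝ)..(1 - x), g (pmE (finRotate 3)⁻¹ (sa x y))) =
      spJ (fun z => g (bp z.1 z.2)) (0, 1) (0, 1 / 2) (1 / 3, 1 / 3) := by
    refine spJ_eq fun x y => ?_
    rw [key (finRotate 3)⁻¹ 2 0 1 (by decide) (by decide) (by decide), sa_0, sa_1, sa_2]
    unfold bp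
    congr 1 <;> ring
  rw [k1, k2, k3, k4, k5, k6]
  ring

end Pool.Agent.MTR
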