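import Pool.Agent.MTR.XQF
import Pool.Agent.MTR.PRD
import Pool.Agent.MSQ.ChkS
/-!
XCC (100 lines). The matrix `C` is positive semidefinite.
PROOF. Unfold cchk, Cst; case Cst g = [a, b, c] (other cases: false). With Rst of length 28 (len_Rst), the entries 4, 5, 6 of
evE s t (Rst ..) are ev s t a, ev s t b, ev s t c (evE = map ev). eqPz p q = true implies ev s t p = ev s t q (isZP: all
coefficients zero; ev_pAdd, ev_pSm; look for the lemma used in TIE.lean). So ev a = s E1, ev (2a+b) = s t E2, ev (a+b+c) = s t E3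
with E1 = ev s t E1 etc. chkM_sound (n = 2) on [0,1]^2: 0 ≤ E1 p² + E2 p q + E3 q² for all p, q.
cA = s (E1 A_tt + t E2 A_tn + t E3 A_nn), A_tt = a0 - 2 a1 + a2, A_tn = a1 - a2, A_nn = a2 (ring).
The form (p, q) ↦ p² A_tt + 2 p q A_tn + q² A_nn is nonnegative: it is ha at (p, q - p). Trace of a product of two positive
semidefinite matrices: PRD.tr2 (or directly). E1 A_tt + t E2 A_tn + t E3 A_nn = t (E1 A_tt + E2 A_tn + E3 A_nn) + (1-t) E1 A_tt.
-/
set_option autoImplicit false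

open MeasureTheory Set Metric Pool.Agent.MEIS Pool.Agent.MSQ Pool.Agent.MGE Pool.Agent.MGF Pool.Agent.PKD

namespace Pool.Agent.MTR

private theorem xc_evL (y : ℝ) : ∀ r : List Int, (r.all (· == 0)) = true → evL y r = 0
  | [], _ => rfl
  | a :: r, h => by
    simp only [List.all_cons, Bool.and_eq_true, beq_iff_eq] at h
    have ih := xc_evL y r h.2
    simp only [evL, ih, h.1]
    simp

private theorem xc_isZP (x y : ℝ) : ∀ p : P, isZP p = true → ev x y p = 0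
  | [], _ => rfl
  | r :: l, h => by
    unfold isZP at h
    rw [List.all_cons, Bool.and_eq_true] at h
    have ih := xc_isZP x y l h.2
    simp only [ev, ih, xc_evL y r h.1]
    simp

private theorem xc_eqPz (x y : ℝ) {p q : P} (h : eqPz p q = true) : ev x y p = ev x y q := by
  have h1 := xc_isZP x y _ h
  rw [ev_pAdd, ev_pSm] at h1
  push_cast at h1
  linarith

private theorem xc_s (s t : ℝ) : ev s t [[], [1]] = s := by
  simp [ev, evL]

private theorem xc_st (s t : ℝ) : ev s t [[], [0, 1]] = s * t := by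
  simp [ev, evL]

private theorem xc_list28 {α : Type} (l : List α) (h : l.length = 28) :
    ∃ f0 f1 f2 f3 f4 f5 f6 : α, ∃ r : List α, l = f0 :: f1 :: f2 :: f3 :: f4 :: f5 :: f6 :: r := by
  match l, h with
  | f0 :: f1 :: f2 :: f3 :: f4 :: f5 :: f6 :: r, h =>
    exact ⟨f0, f1, f2, f3, f4, f5, f6, r, rfl⟩

private theorem xc_core {s t e1 e2 e3 a0 a1 a2 : ℝ} (hs0 : 0 ≤ s) (ht0 : 0 ≤ t) (ht1 : t ≤ 1)
    (hE : ∀ p q : ℝ, 0 ≤ e1 * p ^ 2 + 2 * (e2 / 2) * (p * q) + e3 * q ^ 2)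
    (ha : ∀ p q : ℝ, 0 ≤ p ^ 2 * a0 + 2 * p * q * a1 + q ^ 2 * a2) :
    0 ≤ s * (e1 * (a0 - 2 * a1 + a2) + t * (e2 * (a1 - a2) + e3 * a2)) := by
  have hA : ∀ p q : ℝ, 0 ≤ p ^ 2 * (a0 - 2 * a1 + a2) + 2 * p * q * (a1 - a2) + q ^ 2 * a2 := fun p q =>
    (ha p (q - p)).trans (le_of_eq (by ring))
  have h1 := tr2 hE hA
  have h2 : 0 ≤ e1 := (hE 1 0).trans (le_of_eq (by ring))
  have h3 : 0 ≤ a0 - 2 * a1 + a2 := (hA 1 0).trans (le_of_eq (by ring))
  have h4 := mul_nonneg h2 h3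
  have h5 := mul_nonneg ht0 h1
  have h6 := mul_nonneg (sub_nonneg.2 ht1) h4
  refine mul_nonneg hs0 ?_
  nlinarith

theorem cchk_sound {g : Gg} {E1 E2 E3 : P} (h : cchk g E1 E2 E3 = true) (s t : ℝ) (hs0 : 0 ≤ s) (hs1 : s ≤ 1)
    (ht0 : 0 ≤ t) (ht1 : t ≤ 1) (a0 a1 a2 : ℝ)
    (ha : ∀ p q : ℝ, 0 ≤ p ^ 2 * a0 + 2 * p * q * a1 + q ^ 2 * a2) :
    0 ≤ cA (evE s t (Rst g.D g.cP g.cQ 0)) a0 a1 a2 := by
  unfold cchk at h
  rw [Bool.and_eq_true] at h
  obtain ⟨hc, hm⟩ := h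
  obtain ⟨f0, f1, f2, f3, f4, f5, f6, FR, hR⟩ := xc_list28 _ (len_Rst (g.D : Int) g.cP g.cQ 0)
  have e : Cst g = [f4, f5, f6] := by
    unfold Cst
    rw [hR]
    simp
  rw [e] at hc
  simp only [Bool.and_eq_true] at hc
  obtain ⟨⟨c1', c2'⟩, c3'⟩ := hc
  have k1 := xc_eqPz s t c1'
  have k2 := xc_eqPz s t c2'
  have k3 := xc_eqPz s t c3'
  rw [ev_pMul, xc_s] at k1
  rw [ev_pMul, xc_st, ev_pAdd, ev_pSm] at k2
  rw [ev_pMul, xc_st, ev_pAdd, ev_pAdd] at k3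
  push_cast at k2
  rw [hR]
  show 0 ≤ ev s t f4 * a0 + ev s t f5 * a1 + ev s t f6 * a2
  have hE : ∀ p q : ℝ, 0 ≤ ev s t E1 * p ^ 2 + 2 * (ev s t E2 / 2) * (p * q) + ev s t E3 * q ^ 2 := by
    intro p q
    have h0 := chkM_sound 2 [E1, E2, E3] 0 1 1 0 1 1 hm s t (by simpa using hs0) (by simpa using hs1)
      (by simpa using ht0) (by simpa using ht1) [p, q] rfl
    refine h0.trans (le_of_eq ?_)
    simp only [evE, List.map_cons, List.map_nil, qf, dotL, List.take, List.drop, List.length]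
    ring
  refine (xc_core hs0 ht0 ht1 hE ha).trans (le_of_eq ?_)
  linear_combination (-(a0 - 2 * a1 + a2)) * k1 - (a1 - a2) * k2 - a2 * k3

end Pool.Agent.MTR
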