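import Pool.Agent.MTR.XQF
import Pool.Agent.MTR.KMC
/-!
XHM (130 lines). Soundness of the test of the blocks.
PROOF. As Mchk_sound (KMC.lean), case hm = true: nnchk_sound for single entries, mchk_sound for blocks (n = 2, 3); entries 4, 5, 6 and
22..27 vanish: ≥ 0 by M and by M' (hn). F = [f0, .., f27] explicit. qf F S = σ0² f0 + σ0 (e0 f1 + e1 f2 + e2 f3) + (3 × 3 form in e with
f7 f8 f9 f13 f14 f18) + Σ e_k (f a0 + f' a1 + f'' a2), triples (f10, f11, f12), (f15, f16, f17), (f19, f20, f21); each triple is a positive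
semidefinite form f p² + f' p q + f'' q² (mchk_sound n = 2), so the trace with A is ≥ 0 (PRD.tr2 as in KMC).
-/
set_option autoImplicit false

open MeasureTheory Set Metric Pool.Agent.MEIS Pool.Agent.MSQ Pool.Agent.MGE Pool.Agent.MGF Pool.Agent.PKD

namespace Pool.Agent.MTR

private theorem l7 {α : Type} (l : List α) {n : ℕ} (h : l.length = n + 7) :
    ∃ f0 f1 f2 f3 f4 f5 f6 : α, ∃ r : List α, l = f0 :: f1 :: f2 :: f3 :: f4 :: f5 :: f6 :: r ∧ r.length = n := by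
  match l, h with
  | f0 :: f1 :: f2 :: f3 :: f4 :: f5 :: f6 :: r, h =>
    exact ⟨f0, f1, f2, f3, f4, f5, f6, r, rfl, by simpa using h⟩

private theorem l28 {α : Type} (l : List α) (h : l.length = 28) :
    ∃ f0 f1 f2 f3 f4 f5 f6 f7 f8 f9 f10 f11 f12 f13 f14 f15 f16 f17 f18 f19 f20 f21 f22 f23 f24 f25 f26 f27 : α,
      l = [f0, f1, f2, f3, f4, f5, f6, f7, f8, f9, f10, f11, f12, f13, f14, f15, f16, f17, f18, f19, f20, f21, f22, f23, f24, f25, f26, f27] := by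
  obtain ⟨f0, f1, f2, f3, f4, f5, f6, r1, rfl, hr1⟩ := l7 (n := 21) l h
  obtain ⟨f7, f8, f9, f10, f11, f12, f13, r2, rfl, hr2⟩ := l7 (n := 14) r1 hr1
  obtain ⟨f14, f15, f16, f17, f18, f19, f20, r3, rfl, hr3⟩ := l7 (n := 7) r2 hr2
  obtain ⟨f21, f22, f23, f24, f25, f26, f27, r4, rfl, hr4⟩ := l7 (n := 0) r3 hr3
  obtain rfl := List.eq_nil_of_length_eq_zero hr4
  exact ⟨f0, f1, f2, f3, f4, f5, f6, f7, f8, f9, f10, f11, f12, f13, f14, f15, f16, f17, f18, f19, f20, f21, f22, f23, f24, f25, f26, f27, rfl⟩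

private theorem row {l M : List ℝ} {x : ℝ} {v : List ℝ} (h : l.length = v.length + 1) :
    qf (l ++ M) (x :: v) = x * dotL l (x :: v) + qf M v := by
  have e : qf (l ++ M) (x :: v) =
      x * dotL ((l ++ M).take (v.length + 1)) (x :: v) + qf ((l ++ M).drop (v.length + 1)) v := by rw [qf]
  rw [e, ← h]
  simp

private theorem tri {f4 f5 f6 : ℝ} (h : ∀ s : List ℝ, s.length = 2 → 0 ≤ qf [f4, f5, f6] s) {a0 a1 a2 : ℝ}
    (ha : ∀ p q : ℝ, 0 ≤ p ^ 2 * a0 + 2 * p * q * a1 + q ^ 2 * a2) : 0 ≤ f4 * a0 + f5 * a1 + f6 * a2 := by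
  have hq : ∀ p q : ℝ, 0 ≤ f4 * p ^ 2 + 2 * (f5 / 2) * (p * q) + f6 * q ^ 2 := by
    intro p q
    have e : qf [f4, f5, f6] [p, q] = f4 * p ^ 2 + 2 * (f5 / 2) * (p * q) + f6 * q ^ 2 := by
      simp only [qf, dotL, List.take, List.drop, List.length]
      ring
    rw [← e]
    exact h [p, q] rfl
  have := tr2 hq ha
  linarith

private theorem form {f0 f1 f2 f3 f4 f5 f6 f7 f8 f9 f10 f11 f12 f13 f14 f15 f16 f17 f18 f19 f20 f21 f22 f23 f24 f25 f26 f27 : ℝ} {σ0 e0 e1 e2 a0 a1 a2 : ℝ} :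
    qf [f0, f1, f2, f3, f4, f5, f6, f7, f8, f9, f10, f11, f12, f13, f14, f15, f16, f17, f18, f19, f20, f21, f22, f23, f24, f25, f26, f27] [σ0, e0, e1, e2, a0, a1, a2] =
      σ0 * (f0 * σ0 + (f1 * e0 + (f2 * e1 + (f3 * e2 + (f4 * a0 + (f5 * a1 + (f6 * a2 + 0))))))) +
      (e0 * (f7 * e0 + (f8 * e1 + (f9 * e2 + (f10 * a0 + (f11 * a1 + (f12 * a2 + 0)))))) +
      (e1 * (f13 * e1 + (f14 * e2 + (f15 * a0 + (f16 * a1 + (f17 * a2 + 0))))) +
      (e2 * (f18 * e2 + (f19 * a0 + (f20 * a1 + (f21 * a2 + 0)))) +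
      (a0 * (f22 * a0 + (f23 * a1 + (f24 * a2 + 0))) +
      (a1 * (f25 * a1 + (f26 * a2 + 0)) + (a2 * (f27 * a2 + 0) + 0)))))) := by
  have h1 := row (l := [f0, f1, f2, f3, f4, f5, f6])
    (M := [f7, f8, f9, f10, f11, f12, f13, f14, f15, f16, f17, f18, f19, f20, f21, f22, f23, f24, f25, f26, f27])
    (x := σ0) (v := [e0, e1, e2, a0, a1, a2]) rfl
  have h2 := row (l := [f7, f8, f9, f10, f11, f12])
    (M := [f13, f14, f15, f16, f17, f18, f19, f20, f21, f22, f23, f24, f25, f26, f27])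
    (x := e0) (v := [e1, e2, a0, a1, a2]) rfl
  have h3 := row (l := [f13, f14, f15, f16, f17])
    (M := [f18, f19, f20, f21, f22, f23, f24, f25, f26, f27]) (x := e1) (v := [e2, a0, a1, a2]) rfl
  have h4 := row (l := [f18, f19, f20, f21]) (M := [f22, f23, f24, f25, f26, f27]) (x := e2) (v := [a0, a1, a2]) rfl
  have h5 := row (l := [f22, f23, f24]) (M := [f25, f26, f27]) (x := a0) (v := [a1, a2]) rfl
  have h6 := row (l := [f25, f26]) (M := [f27]) (x := a1) (v := [a2]) rfl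
  have h7 := row (l := [f27]) (M := []) (x := a2) (v := []) rfl
  have h8 : qf ([] : List ℝ) [] = 0 := rfl
  simp only [List.cons_append, List.nil_append] at h1 h2 h3 h4 h5 h6 h7
  rw [h1, h2, h3, h4, h5, h6, h7, h8]
  simp only [dotL]

private theorem blk {f7 f8 f9 f13 f14 f18 e0 e1 e2 : ℝ} (h : 0 ≤ qf [f7, f8, f9, f13, f14, f18] [e0, e1, e2]) :
    0 ≤ e0 * (f7 * e0 + f8 * e1 + f9 * e2) + e1 * (f13 * e1 + f14 * e2) + e2 * (f18 * e2) := by
  have e : qf [f7, f8, f9, f13, f14, f18] [e0, e1, e2] =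
      e0 * (f7 * e0 + f8 * e1 + f9 * e2) + e1 * (f13 * e1 + f14 * e2) + e2 * (f18 * e2) := by
    simp only [qf, dotL, List.take, List.drop, List.length]
    ring
  rw [← e]
  exact h

theorem Hchk_sound {C : Cx} {d rd H z2 z3 : ℕ} {Z Z' : List ℕ} {F F' : List ℝ} (hF : C2 C d (rd * H) Z F)
    (hF' : C2 C d (rd * H) Z' F') (hn : ∀ k, F'.getD k 0 = -F.getD k 0) (hl : Z.length = 28) (hl' : Z'.length = 28)
    (hY : C.Y = 2 * (rd * H) + 1) (hX : C.X = C.Y ^ (d + 1))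
    (hN : C.N = C.Y ^ ((d + 1) * (d + 1))) (hτ : 0 ≤ C.τ) (hσ : 0 ≤ C.σ)
    (hc : Hchk ((d + 1) * (d + 1)) C.Y rd H z2 z3 Z Z' = true) (σ0 e0 e1 e2 a0 a1 a2 : ℝ) (h0 : 0 ≤ σ0)
    (he0 : 0 ≤ e0) (he1 : 0 ≤ e1) (he2 : 0 ≤ e2) (ha : ∀ p q : ℝ, 0 ≤ p ^ 2 * a0 + 2 * p * q * a1 + q ^ 2 * a2) :
    0 ≤ qf F [σ0, e0, e1, e2, a0, a1, a2] := by
  have hlF : F.length = 28 := by rw [← List.Forall₂.length_eq hF]; exact hl
  have hlF' : F'.length = 28 := by rw [← List.Forall₂.length_eq hF']; exact hl'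
  obtain ⟨z0, z1, z2, z3, z4, z5, z6, z7, z8, z9, z10, z11, z12, z13, z14, z15, z16, z17, z18, z19, z20, z21, z22, z23, z24, z25, z26, z27, rfl⟩ := l28 Z hl
  obtain ⟨y0, y1, y2, y3, y4, y5, y6, y7, y8, y9, y10, y11, y12, y13, y14, y15, y16, y17, y18, y19, y20, y21, y22, y23, y24, y25, y26, y27, rfl⟩ := l28 Z' hl'
  obtain ⟨f0, f1, f2, f3, f4, f5, f6, f7, f8, f9, f10, f11, f12, f13, f14, f15, f16, f17, f18, f19, f20, f21, f22, f23, f24, f25, f26, f27, rfl⟩ := l28 F hlF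
  obtain ⟨g0, g1, g2, g3, g4, g5, g6, g7, g8, g9, g10, g11, g12, g13, g14, g15, g16, g17, g18, g19, g20, g21, g22, g23, g24, g25, g26, g27, rfl⟩ := l28 F' hlF'
  simp only [C2, List.forall₂_cons] at hF hF'
  obtain ⟨r0, r1, r2, r3, r4, r5, r6, r7, r8, r9, r10, r11, r12, r13, r14, r15, r16, r17, r18, r19, r20, r21, r22, r23, r24, r25, r26, r27, -⟩ := hF
  obtain ⟨s0, s1, s2, s3, s4, s5, s6, s7, s8, s9, s10, s11, s12, s13, s14, s15, s16, s17, s18, s19, s20, s21, s22, s23, s24, s25, s26, s27, -⟩ := hF'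
  have n4 : g4 = -f4 := hn 4
  have n5 : g5 = -f5 := hn 5
  have n6 : g6 = -f6 := hn 6
  have n22 : g22 = -f22 := hn 22
  have n23 : g23 = -f23 := hn 23
  have n24 : g24 = -f24 := hn 24
  have n25 : g25 = -f25 := hn 25
  have n26 : g26 = -f26 := hn 26
  have n27 : g27 = -f27 := hn 27
  clear hn
  simp only [Hchk, List.take, List.drop, List.all_cons, List.all_nil, Bool.and_true, Bool.and_eq_true,
    List.cons_append, List.nil_append] at hc
  obtain ⟨⟨⟨⟨⟨⟨⟨⟨c0, c1, c2, c3, c4, c5, c6⟩, c22, c23, c24, c25, c26, c27⟩, d4, d5, d6⟩,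
    d22, d23, d24, d25, d26, d27⟩, m1⟩, m2⟩, m3⟩, m4⟩ := hc
  have q0 : 0 ≤ f0 := nnchk_sound r0 le_rfl hY hX hN hτ hσ c0
  have q1 : 0 ≤ f1 := nnchk_sound r1 le_rfl hY hX hN hτ hσ c1
  have q2 : 0 ≤ f2 := nnchk_sound r2 le_rfl hY hX hN hτ hσ c2
  have q3 : 0 ≤ f3 := nnchk_sound r3 le_rfl hY hX hN hτ hσ c3
  have v4 : f4 = 0 := by
    have p1 := nnchk_sound r4 le_rfl hY hX hN hτ hσ c4
    have p2 := nnchk_sound s4 le_rfl hY hX hN hτ hσ d4
    rw [n4] at p2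
    linarith
  have v5 : f5 = 0 := by
    have p1 := nnchk_sound r5 le_rfl hY hX hN hτ hσ c5
    have p2 := nnchk_sound s5 le_rfl hY hX hN hτ hσ d5
    rw [n5] at p2
    linarith
  have v6 : f6 = 0 := by
    have p1 := nnchk_sound r6 le_rfl hY hX hN hτ hσ c6
    have p2 := nnchk_sound s6 le_rfl hY hX hN hτ hσ d6
    rw [n6] at p2
    linarith
  have v22 : f22 = 0 := by
    have p1 := nnchk_sound r22 le_rfl hY hX hN hτ hσ c22
    have p2 := nnchk_sound s22 le_rfl hY hX hN hτ hσ d22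
    rw [n22] at p2
    linarith
  have v23 : f23 = 0 := by
    have p1 := nnchk_sound r23 le_rfl hY hX hN hτ hσ c23
    have p2 := nnchk_sound s23 le_rfl hY hX hN hτ hσ d23
    rw [n23] at p2
    linarith
  have v24 : f24 = 0 := by
    have p1 := nnchk_sound r24 le_rfl hY hX hN hτ hσ c24
    have p2 := nnchk_sound s24 le_rfl hY hX hN hτ hσ d24
    rw [n24] at p2
    linarith
  have v25 : f25 = 0 := by
    have p1 := nnchk_sound r25 le_rfl hY hX hN hτ hσ c25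
    have p2 := nnchk_sound s25 le_rfl hY hX hN hτ hσ d25
    rw [n25] at p2
    linarith
  have v26 : f26 = 0 := by
    have p1 := nnchk_sound r26 le_rfl hY hX hN hτ hσ c26
    have p2 := nnchk_sound s26 le_rfl hY hX hN hτ hσ d26
    rw [n26] at p2
    linarith
  have v27 : f27 = 0 := by
    have p1 := nnchk_sound r27 le_rfl hY hX hN hτ hσ c27
    have p2 := nnchk_sound s27 le_rfl hY hX hN hτ hσ d27
    rw [n27] at p2
    linarith
  have t1 : 0 ≤ f10 * a0 + f11 * a1 + f12 * a2 := tri (fun s hs => mchk_sound (n := 2) (Z := [z10, z11, z12])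
    (F := [f10, f11, f12]) (by simp only [C2, List.forall₂_cons]; exact ⟨r10, r11, r12, List.Forall₂.nil⟩) (by simp)
    hY hX hN hτ hσ m1 s hs) ha
  have t2 : 0 ≤ f15 * a0 + f16 * a1 + f17 * a2 := tri (fun s hs => mchk_sound (n := 2) (Z := [z15, z16, z17])
    (F := [f15, f16, f17]) (by simp only [C2, List.forall₂_cons]; exact ⟨r15, r16, r17, List.Forall₂.nil⟩) (by simp)
    hY hX hN hτ hσ m2 s hs) ha
  have t3 : 0 ≤ f19 * a0 + f20 * a1 + f21 * a2 := tri (fun s hs => mchk_sound (n := 2) (Z := [z19, z20, z21])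
    (F := [f19, f20, f21]) (by simp only [C2, List.forall₂_cons]; exact ⟨r19, r20, r21, List.Forall₂.nil⟩) (by simp)
    hY hX hN hτ hσ m3 s hs) ha
  have t4 := blk (mchk_sound (n := 3) (Z := [z7, z8, z9, z13, z14, z18])
    (F := [f7, f8, f9, f13, f14, f18]) (by
      simp only [C2, List.forall₂_cons]
      exact ⟨r7, r8, r9, r13, r14, r18, List.Forall₂.nil⟩) (by simp) hY hX hN hτ hσ m4 [e0, e1, e2] rfl)
  rw [form, v4, v5, v6, v22, v23, v24, v25, v26, v27]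
  have k1 := mul_nonneg he0 t1
  have k2 := mul_nonneg he1 t2
  have k3 := mul_nonneg he2 t3
  have k4 := mul_nonneg h0 (add_nonneg (add_nonneg (add_nonneg (mul_nonneg q0 h0) (mul_nonneg q1 he0))
    (mul_nonneg q2 he1)) (mul_nonneg q3 he2))
  nlinarith [k1, k2, k3, k4, t4]

end Pool.Agent.MTR
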