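import Pool.Agent.MTR.XQF
import Pool.Agent.MTR.KRR
import Pool.Agent.MTR.KRA
import Pool.Agent.MTR.KGR
/-!
XHV (70 lines). Real value of the homogeneous residual.
PROOF. RHK (OR ..) = vAdd (vSm c (z456 0 r)) (vMul (vSm bd T6K) (0 :: 0 :: 0 :: 0 :: ..)), r = RK (OR ..) g false 0 v (z0 (OR ..) = 0).
qf_vAdd, qf_vSm, qf_vMul (PKD), qf_z456, dotL_cA, T6K_val (second part), RK_val for all S, cA_of_qf with c = ω^(d+3)
(payOf false 0 = 0), len_RK, len_Rst, v.one = ω (h.one).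
-/
set_option autoImplicit false

open MeasureTheory Set Metric Pool.Agent.MEIS Pool.Agent.MSQ Pool.Agent.MGE Pool.Agent.MGF Pool.Agent.PKD

namespace Pool.Agent.MTR

theorem RHK_val {τ σ ω s t : ℝ} {v : Va ℝ} {g : Gg} (hg : gchk g = true) (h : RE (OR τ σ) v ω s t g.d) (bn bd : ℕ)
    (σ0 e0 e1 e2 a0 a1 a2 : ℝ) :
    qf (RHK (OR τ σ) g bn bd v) [σ0, e0, e1, e2, a0, a1, a2] =
      ω ^ (g.d + 4) * (6 * bn * (qf (evE s t (Rst g.D g.cP g.cQ 0)) [σ0, e0, e1, e2, a0, a1, a2] -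
          σ0 * cA (evE s t (Rst g.D g.cP g.cQ 0)) a0 a1 a2) +
        bd * dotL (evE s t [[], b60, b61, b62, [], [], []]) [σ0, e0, e1, e2, a0, a1, a2] *
          cA (evE s t (Rst g.D g.cP g.cQ 0)) a0 a1 a2) := by
  have hr : (RK (OR τ σ) g false 0 v).length = 28 := len_RK _ _ _ _ _
  have hq : (evE s t (Rst g.D g.cP g.cQ 0)).length = 28 := by
    simp only [evE, List.length_map]
    exact len_Rst _ _ _ _
  have hp : payOf false 0 = 0 := rfl
  have hR : ∀ S : List ℝ, S.length = 7 → qf (RK (OR τ σ) g false 0 v) S =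
      ω ^ (g.d + 3) * qf (evE s t (Rst g.D g.cP g.cQ 0)) S := by
    intro S hS
    have := RK_val hg h false 0 S hS
    rw [hp] at this
    exact this
  have hcc := cA_of_qf hr hq hR a0 a1 a2
  have hz : z0 (OR τ σ) = 0 := by simp [z0, OR]
  have hT := (T6K_val h [σ0, e0, e1, e2, a0, a1, a2] rfl).2
  have hd := dotL_cA hr σ0 e0 e1 e2 a0 a1 a2
  have hz4 := qf_z456 hr σ0 e0 e1 e2 a0 a1 a2
  have hl4 : (((RK (OR τ σ) g false 0 v).drop 4).take 3).length = 3 := by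
    simp [List.length_take, List.length_drop, hr]
  have hT7 : (T6K (OR τ σ) v).length = 7 := rfl
  have hA : (vSm (OR τ σ) ((OR τ σ).nat bd) (T6K (OR τ σ) v)).length = 7 := by rw [len_vSm, hT7]
  have hB : ((0 : ℝ) :: 0 :: 0 :: 0 :: ((RK (OR τ σ) g false 0 v).drop 4).take 3).length = 7 := by
    simp only [List.length_cons]
    rw [hl4]
  have hlen : (vSm (OR τ σ) ((OR τ σ).mul ((OR τ σ).nat (Nat.mul 6 bn)) v.one)
      (z456 0 (RK (OR τ σ) g false 0 v))).length =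
      (vMul (OR τ σ) (vSm (OR τ σ) ((OR τ σ).nat bd) (T6K (OR τ σ) v))
        (0 :: 0 :: 0 :: 0 :: ((RK (OR τ σ) g false 0 v).drop 4).take 3)).length := by
    rw [len_vSm, len_z456 _ hr, len_vMul _ hA hB]
  have w1 : (OR τ σ).mul ((OR τ σ).nat (Nat.mul 6 bn)) v.one = 6 * bn * ω := by
    have : (OR τ σ).mul ((OR τ σ).nat (Nat.mul 6 bn)) v.one = ((Nat.mul 6 bn : ℕ) : ℝ) * v.one := rfl
    rw [this, h.one]
    norm_num
  have w2 : (OR τ σ).nat bd = (bd : ℝ) := rfl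
  have hm := qf_vMul (τ := τ) (σ := σ) (A := vSm (OR τ σ) ((OR τ σ).nat bd) (T6K (OR τ σ) v))
    (B := 0 :: 0 :: 0 :: 0 :: ((RK (OR τ σ) g false 0 v).drop 4).take 3) (s := [σ0, e0, e1, e2, a0, a1, a2]) hA hB
  unfold RHK
  rw [hz, qf_vAdd _ _ hlen, qf_vSm, hm, dotL_vSm, hz4, hd, hT, hcc, hR _ rfl, w1, w2]
  ring

end Pool.Agent.MTR
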