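import Pool.Agent.MTR.XHR
import Pool.Agent.MTR.XHM
import Pool.Agent.MTR.XHV
import Pool.Agent.MTR.XCC
import Pool.Agent.MTR.KBX
import Pool.Agent.MTR.FRA
/-!
XBX (130 lines). Soundness of the homogeneous test of a box.
PROOF. Copy KBX.fchk_sound (same steps; private lemmas kbx_SK, kbx_st can be copied). The matrix: MHK_c2, ngK_c2, Hchk_sound give
0 ≤ qf (MHK (OR ..)) S, S = st T a = [1/n³, e0, e1, e2, A00, A01, A11], a = sa (1-s) (s(1-t)). qf MHK = w qf RHK - qf grsK ≥ 0 and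
grsK_nonneg, so qf RHK ≥ 0 (w ≥ 1, ω > 0); RHK_val: with q = qf (evE s t Rst) S, c = cA (evE s t Rst) A ≥ 0 (cchk_sound, hesA_psd):
0 ≤ 6 bn (q - c/n³) + bd (6 T) c, where dotL (evE s t [[], b60, ..]) S = 6 T(a) (b6k evaluate to 6 a_k on the sector; Euler: euler0, see
FRM.lean for the forms 2 and 10) and bd T ≤ bd β a0 ≤ bn a0 ≤ bn ≤ bn/n³ (T_hi, hβ.2: bd β ≤ bn; 0 < n ≤ 1 on the sector, see FRM.lean).
So 0 ≤ 6 bn q and bn ≥ 1.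
-/
set_option autoImplicit false

open MeasureTheory Set Metric Pool.Agent.MEIS Pool.Agent.MSQ Pool.Agent.MGE Pool.Agent.MGF Pool.Agent.PKD

namespace Pool.Agent.MTR

private theorem xbx_f2 {R : ℕ → ℝ → Prop} {p : ℕ → Prop} (hR : ∀ a r, R a r → p a → 0 ≤ r) {A : List ℕ}
    {B : List ℝ} (h : List.Forall₂ R A B) (hA : ∀ a ∈ A, p a) : ∀ z ∈ B, 0 ≤ z := by
  induction h with
  | nil => intro z hz; simp at hz
  | cons h0 _ ih =>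
    intro z hz
    rcases List.mem_cons.1 hz with rfl | hz
    · exact hR _ _ h0 (hA _ List.mem_cons_self)
    · exact ih (fun a ha => hA a (List.mem_cons_of_mem _ ha)) z hz

private theorem xbx_SK {τ σ : ℝ} (hτ : 0 ≤ τ) (hσ : 0 ≤ σ) (b : Bt) (d Y : ℕ) (hY : Y = 2 * (b.rd * b.H) + 1)
    (hN : mxL (SK ON b (mkVa ON b.bd d b.dm)) ≤ b.rd * b.H)
    (hc : ((SK (OM (Y ^ 49) (Y ^ 7) Y) b (mkVa (OM (Y ^ 49) (Y ^ 7) Y) b.bd d b.dm)).all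
      (nnchk Y (b.rd * b.H) 49)) = true) : ∀ z ∈ SK (OR τ σ) b (mkVa (OR τ σ) b.bd d b.dm), 0 ≤ z := by
  have hY0 : 0 < Y := by omega
  obtain ⟨C, hC⟩ : ∃ C : Cx, C = ⟨Y ^ 7, Y, Y ^ 49, pow_pos hY0 49, τ, σ⟩ := ⟨_, rfl⟩
  have e1 : C.om = OM (Y ^ 49) (Y ^ 7) Y := by rw [hC]; rfl
  have e2 : C.rr = OR τ σ := by rw [hC]; rfl
  have eY : C.Y = Y := by rw [hC]
  have eX : C.X = C.Y ^ (6 + 1) := by rw [hC]
  have eN : C.N = C.Y ^ ((6 + 1) * (6 + 1)) := by rw [hC]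
  have et : 0 ≤ C.τ := by rw [hC]; exact hτ
  have es : 0 ≤ C.σ := by rw [hC]; exact hσ
  rw [← e1] at hc
  rw [← e2]
  obtain ⟨h1, h2⟩ := mkVa_rel C b.bd d b.dm
  have h3 := L3.toC2 (SK_rel h1.toR1 h2 b) hN
  refine xbx_f2 (p := fun a => nnchk Y (b.rd * b.H) 49 a = true) ?_ h3 (List.all_eq_true.1 hc)
  intro a r hr ha
  exact nnchk_sound hr le_rfl (eY.trans hY) eX eN et es (by rw [eY]; exact ha)

private theorem xbx_MK {τ σ : ℝ} (hτ : 0 ≤ τ) (hσ : 0 ≤ σ) {bn bd : ℕ} {g : Gg} {b : Bt} (hg : 5 ≤ g.d)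
    (hd : g.d = 4 + b.dm) (Y : ℕ) (hY : Y = 2 * (b.rd * b.H) + 1)
    (hN : MHN bn bd (mxL (RHK ON g bn bd (mkVa ON b.bd g.d b.dm))) b (mkVa ON b.bd g.d b.dm) ≤ b.rd * b.H)
    (hc : Hchk ((9 + b.dm) * (9 + b.dm)) Y b.rd b.H b.z4 b.zb
      (MHK (OM (Y ^ ((9 + b.dm) * (9 + b.dm))) (Y ^ (9 + b.dm)) Y) bn bd g b
        (mkVa (OM (Y ^ ((9 + b.dm) * (9 + b.dm))) (Y ^ (9 + b.dm)) Y) b.bd g.d b.dm))
      (ngK (OM (Y ^ ((9 + b.dm) * (9 + b.dm))) (Y ^ (9 + b.dm)) Y)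
        (MHK (OM (Y ^ ((9 + b.dm) * (9 + b.dm))) (Y ^ (9 + b.dm)) Y) bn bd g b
          (mkVa (OM (Y ^ ((9 + b.dm) * (9 + b.dm))) (Y ^ (9 + b.dm)) Y) b.bd g.d b.dm))) = true)
    (σ0 e0 e1 e2 a0 a1 a2 : ℝ) (h0 : 0 ≤ σ0)
    (he0 : 0 ≤ e0) (he1 : 0 ≤ e1) (he2 : 0 ≤ e2) (ha : ∀ p q : ℝ, 0 ≤ p ^ 2 * a0 + 2 * p * q * a1 + q ^ 2 * a2) :
    0 ≤ qf (MHK (OR τ σ) bn bd g b (mkVa (OR τ σ) b.bd g.d b.dm)) [σ0, e0, e1, e2, a0, a1, a2] := by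
  have hY0 : 0 < Y := by omega
  obtain ⟨C, hC⟩ : ∃ C : Cx, C = ⟨Y ^ (9 + b.dm), Y, Y ^ ((9 + b.dm) * (9 + b.dm)), pow_pos hY0 _, τ, σ⟩ := ⟨_, rfl⟩
  have f1 : C.om = OM (Y ^ ((9 + b.dm) * (9 + b.dm))) (Y ^ (9 + b.dm)) Y := by rw [hC]; rfl
  have f2 : C.rr = OR τ σ := by rw [hC]; rfl
  have eY : C.Y = Y := by rw [hC]
  have e9 : 8 + b.dm + 1 = 9 + b.dm := by omega
  have eX : C.X = C.Y ^ (8 + b.dm + 1) := by rw [e9, hC]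
  have eN : C.N = C.Y ^ ((8 + b.dm + 1) * (8 + b.dm + 1)) := by rw [e9, hC]
  have et : 0 ≤ C.τ := by rw [hC]; exact hτ
  have es : 0 ≤ C.σ := by rw [hC]; exact hσ
  rw [← f1] at hc
  rw [← f2]
  obtain ⟨h1, h2⟩ := mkVa_rel C b.bd g.d b.dm
  have h3 := C2.mono (MHK_c2 (bn := bn) (bd := bd) hg hd h1 le_rfl h2) le_rfl hN
  have hl := len_MHK C.om bn bd g b (mkVa C.om b.bd g.d b.dm)
  obtain ⟨h4, h5, h6⟩ := ngK_c2 h3 hl
  exact Hchk_sound h3 h4 h6 hl h5 (eY.trans hY) eX eN et es (by rw [e9, eY]; exact hc)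
    σ0 e0 e1 e2 a0 a1 a2 h0 he0 he1 he2 ha

private theorem xbx_st (T : E → ℝ) (a : E) (s t : ℝ) :
    dotL (evE s t (un 0 c1)) (st T a) = 1 / nW a ^ 3 ∧ dotL (evE s t (un 1 c1)) (st T a) = pd 0 T a ∧
    dotL (evE s t (un 2 c1)) (st T a) = pd 1 T a ∧ dotL (evE s t (un 3 c1)) (st T a) = pd 2 T a ∧
    dotL (evE s t (un 4 c1)) (st T a) = AA 0 0 T a ∧ dotL (evE s t (un 5 c1)) (st T a) = AA 0 1 T a ∧
    dotL (evE s t (un 6 c1)) (st T a) = AA 1 1 T a := by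
  refine ⟨?_, ?_, ?_, ?_, ?_, ?_, ?_⟩ <;>
    simp [un, c1, evE, ev, evL, dotL, st, List.replicate]

private theorem xbx_dot (s t : ℝ) {T : E → ℝ} {β : ℝ} (h : TrHyp T β) :
    dotL (evE s t [[], b60, b61, b62, [], [], []]) (st T (sa (1 - s) (s * (1 - t)))) =
      6 * T (sa (1 - s) (s * (1 - t))) := by
  obtain ⟨b0, b1, b2⟩ := sa_b6 s t
  have hT := euler0 h.sm h.hom _ (sa_ne (1 - s) (s * (1 - t)))
  have hz : ev s t [] = 0 := ev_nil s t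
  simp only [evE, List.map, dotL, st, hz, b0, b1, b2]
  linear_combination (-6) * hT

private theorem xbx_one {N T β bn bd a0 : ℝ} (hN : 0 < N) (hN1 : N ≤ 1) (hbn : 0 ≤ bn) (hbd : 0 ≤ bd)
    (ha0 : 0 ≤ a0) (ha1 : a0 ≤ 1) (hT : T ≤ a0 * β) (hβ : bd * β ≤ bn) : bd * T ≤ bn * (1 / N ^ 3) := by
  have h1 : bd * T ≤ bd * (a0 * β) := mul_le_mul_of_nonneg_left hT hbd
  have h2 : a0 * (bd * β) ≤ a0 * bn := mul_le_mul_of_nonneg_left hβ ha0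
  have h3 : a0 * bn ≤ 1 * bn := mul_le_mul_of_nonneg_right ha1 hbn
  have h4 : (1 : ℝ) ≤ 1 / N ^ 3 := by
    rw [le_div_iff₀ (pow_pos hN 3), one_mul]
    exact pow_le_one₀ hN.le hN1
  have h5 := mul_le_mul_of_nonneg_left h4 hbn
  nlinarith

theorem hfchk_sound {bn bd : ℕ} (hbd : 0 < bd) {g : Gg} (hg : gchk g = true) {E1 E2 E3 : P}
    (hE : cchk g E1 E2 E3 = true) {b : Bt} (hb : hfchk bn bd g b = true)
    {T : E → ℝ} {β : ℝ} (h : TrHyp T β) (hβ : inR (rgOf 0 1 bn bd) β) (s t : ℝ) (hs0 : 0 ≤ s) (hs1 : s ≤ 1)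
    (ht0 : 0 ≤ t) (ht1 : t ≤ 1) (hst : inBn b.bd s t) :
    0 ≤ qf (evE s t (Rst g.D g.cP g.cQ 0)) (st T (sa (1 - s) (s * (1 - t)))) := by
  unfold hfchk at hb
  simp only [Bool.and_eq_true] at hb
  obtain ⟨⟨⟨⟨⟨⟨⟨⟨⟨⟨⟨⟨⟨hd, hbn⟩, hbdO⟩, hw⟩, hdN⟩, hid⟩, hU⟩, hL⟩, hH⟩, hgr⟩, hSN⟩, hMN⟩, hSK⟩, hMK⟩ := hb
  have hd' : g.d = 4 + b.dm := Nat.eq_of_beq_eq_true hd
  have hg5 : 5 ≤ g.d := by
    have hg' := hg
    unfold gchk at hg'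
    simp only [Bool.and_eq_true] at hg'
    exact Nat.le_of_ble_eq_true hg'.1.1.1.1.1.1.1.1.1
  have hw' : 1 ≤ b.w := Nat.le_of_ble_eq_true hw
  have hbn' : 1 ≤ bn := Nat.le_of_ble_eq_true hbn
  have hr : rOK (rgOf 0 1 bn bd) := by
    refine ⟨?_, ?_, ?_⟩
    · show (0 : ℤ) ≤ ((0 : ℕ) : ℤ)
      simp
    · show (0 : ℤ) < ((1 : ℕ) : ℤ)
      simp
    · show (0 : ℤ) < ((bd : ℕ) : ℤ)
      exact_mod_cast hbd
  obtain ⟨τ, σ, ω, hτ, hσ, hRE⟩ := mkVa_RE b.bd hbdO g.d b.dm s t hst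
  have hS1 := xbx_SK hτ hσ b g.d (2 * (b.rd * b.H) + 1) rfl (Nat.le_of_ble_eq_true hSN) hSK
  have hnB := SK_nB hRE b hU hL (Nat.le_of_ble_eq_true hdN) hS1 hs0 hs1 ht0 ht1
  have hfrm := frm_nonneg (rgOf 0 1 bn bd) hr (bxOf b) h hβ s t hs0 hs1 ht0 ht1 hnB
  obtain ⟨u0, u1, u2, u3, u4, u5, u6⟩ := xbx_st T (sa (1 - s) (s * (1 - t))) s t
  have n0 : 0 ≤ 1 / nW (sa (1 - s) (s * (1 - t))) ^ 3 := by rw [← u0]; exact hfrm 0
  have n1 : 0 ≤ pd 0 T (sa (1 - s) (s * (1 - t))) := by rw [← u1]; exact hfrm 4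
  have n2 : 0 ≤ pd 1 T (sa (1 - s) (s * (1 - t))) := by rw [← u2]; exact hfrm 5
  have n3 : 0 ≤ pd 2 T (sa (1 - s) (s * (1 - t))) := by rw [← u3]; exact hfrm 6
  have nA : ∀ p q : ℝ, 0 ≤ p ^ 2 * AA 0 0 T (sa (1 - s) (s * (1 - t))) +
      2 * p * q * AA 0 1 T (sa (1 - s) (s * (1 - t))) + q ^ 2 * AA 1 1 T (sa (1 - s) (s * (1 - t))) := by
    intro p q
    rw [← u4, ← u5, ← u6]
    exact hesA_psd h s t p q
  have hM : 0 ≤ qf (MHK (OR τ σ) bn bd g b (mkVa (OR τ σ) b.bd g.d b.dm))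
      (st T (sa (1 - s) (s * (1 - t)))) :=
    xbx_MK hτ hσ hg5 hd' (2 * (b.rd * b.H) + 1) rfl (Nat.le_of_ble_eq_true hMN) hMK _ _ _ _ _ _ _ n0 n1 n2 n3 nA
  have hS : (st T (sa (1 - s) (s * (1 - t)))).length = 7 := rfl
  have hA := hesA_psd h s t
  have hB := hesB_psd h s t
  have hlh := len_heK (OR τ σ) (mkVa (OR τ σ) b.bd g.d b.dm)
  have hlf := len_frK (OR τ σ) 0 1 bn bd b (mkVa (OR τ σ) b.bd g.d b.dm)
  have hR2 : qf (RHK (OR τ σ) g bn bd (mkVa (OR τ σ) b.bd g.d b.dm)) (st T (sa (1 - s) (s * (1 - t)))) =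
      ω ^ (g.d + 4) * (6 * bn * (qf (evE s t (Rst g.D g.cP g.cQ 0)) (st T (sa (1 - s) (s * (1 - t)))) -
          1 / nW (sa (1 - s) (s * (1 - t))) ^ 3 * cA (evE s t (Rst g.D g.cP g.cQ 0))
            (AA 0 0 T (sa (1 - s) (s * (1 - t)))) (AA 0 1 T (sa (1 - s) (s * (1 - t))))
            (AA 1 1 T (sa (1 - s) (s * (1 - t))))) +
        bd * dotL (evE s t [[], b60, b61, b62, [], [], []]) (st T (sa (1 - s) (s * (1 - t)))) *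
          cA (evE s t (Rst g.D g.cP g.cQ 0)) (AA 0 0 T (sa (1 - s) (s * (1 - t))))
            (AA 0 1 T (sa (1 - s) (s * (1 - t)))) (AA 1 1 T (sa (1 - s) (s * (1 - t))))) :=
    RHK_val hg hRE bn bd _ _ _ _ _ _ _
  have hF2 := fun k hk => frK_val hRE 0 1 bn bd b hU hL k hk (st T (sa (1 - s) (s * (1 - t)))) hS
  have hH2 := fun B k hk => heK_val hRE B k hk (st T (sa (1 - s) (s * (1 - t)))) hS
  have hv : (mkVa (OR τ σ) b.bd g.d b.dm).gm = tens (mkV (OR τ σ) τ ((OR τ σ).nat 1) b.dm)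
    (mkV (OR τ σ) σ ((OR τ σ).nat 1) b.dm) := rfl
  have hp := hRE.pos
  -- the point
  have hx : 0 ≤ 1 - s := by linarith
  have hy : 0 ≤ s * (1 - t) := mul_nonneg hs0 (by linarith)
  have hxy : (1 - s) + s * (1 - t) ≤ 1 := by nlinarith [mul_nonneg hs0 ht0]
  obtain ⟨a2n, a21, a10⟩ := sa_ord _ _ hx hy hxy
  have hne := sa_ne (1 - s) (s * (1 - t))
  have hsum := sa_sum (1 - s) (s * (1 - t))
  have hNp := nW_pos (1 - s) (s * (1 - t))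
  have hN1 := nW_le (1 - s) (s * (1 - t)) hx hy hxy
  have hThi := T_hi h a2n a21 a10 hne
  have hbβ : (bd : ℝ) * β ≤ bn := by
    have h2 := hβ.2
    simpa [rgOf] using h2
  have hc := cchk_sound hE s t hs0 hs1 ht0 ht1 _ _ _ nA
  have hone := xbx_one (bn := (bn : ℝ)) (bd := (bd : ℝ)) hNp hN1 (by positivity) (by positivity)
    (a2n.trans (a21.trans a10)) (by linarith) hThi hbβ
  rw [xbx_dot s t h] at hR2
  generalize hc0 : cA (evE s t (Rst g.D g.cP g.cQ 0)) (AA 0 0 T (sa (1 - s) (s * (1 - t))))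
    (AA 0 1 T (sa (1 - s) (s * (1 - t)))) (AA 1 1 T (sa (1 - s) (s * (1 - t)))) = c at hc hR2
  generalize 1 / nW (sa (1 - s) (s * (1 - t))) ^ 3 = σ0 at hone hR2
  generalize T (sa (1 - s) (s * (1 - t))) = T0 at hone hR2
  generalize st T (sa (1 - s) (s * (1 - t))) = S at hM hS hfrm hA hB hR2 hF2 hH2 ⊢
  generalize mkVa (OR τ σ) b.bd g.d b.dm = v at hM hlh hlf hR2 hF2 hH2 hv
  have hfr : ∀ k ≤ 11, 0 ≤ dotL (frK (OR τ σ) 0 1 bn bd b v k) S := fun k hk => by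
    rw [hF2 k hk]
    exact mul_nonneg (pow_nonneg hp.le 4) (hfrm k)
  have hhe : ∀ (B : Bool) (p q : ℝ), 0 ≤ p ^ 2 * dotL (heK (OR τ σ) v B 0) S +
      2 * p * q * dotL (heK (OR τ σ) v B 1) S + q ^ 2 * dotL (heK (OR τ σ) v B 2) S := by
    intro B p q
    rw [hH2 B 0 (by norm_num), hH2 B 1 (by norm_num), hH2 B 2 (by norm_num)]
    have k1 : 0 ≤ ω ^ 4 * (p ^ 2 * dotL (evE s t (hes B 0)) S + 2 * p * q * dotL (evE s t (hes B 1)) S +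
        q ^ 2 * dotL (evE s t (hes B 2)) S) := by
      refine mul_nonneg (pow_nonneg hp.le 4) ?_
      cases B
      · exact hA p q
      · exact hB p q
    refine k1.trans (le_of_eq ?_)
    ring
  have hP2 := grsK_nonneg hτ hσ hv (frK (OR τ σ) 0 1 bn bd b v) hlf S hS hfr hlh hhe b.gr hid hgr
  have l1 : (vSm (OR τ σ) ((OR τ σ).nat b.w) (RHK (OR τ σ) g bn bd v)).length = 28 := by
    rw [len_vSm, len_RHK]
  have l3 := len_grsK (OR τ σ) (frK (OR τ σ) 0 1 bn bd b v) hlf b.dm v hlh b.gr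
  unfold MHK at hM
  rw [qf_vSub τ σ (l1.trans l3.symm), qf_vSm, hR2] at hM
  generalize qf (evE s t (Rst g.D g.cP g.cQ 0)) S = q at hM ⊢
  generalize qf (grsK (OR τ σ) (frK (OR τ σ) 0 1 bn bd b v) b.dm v b.gr) S = G at hM hP2
  have hM' : 0 ≤ (b.w : ℝ) * (ω ^ (g.d + 4) * (6 * bn * (q - σ0 * c) + bd * (6 * T0) * c)) - G := hM
  have k2 : 0 ≤ ((b.w : ℝ) * ω ^ (g.d + 4)) * (6 * bn * (q - σ0 * c) + bd * (6 * T0) * c) := by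
    linarith
  have k3 : 0 < (b.w : ℝ) * ω ^ (g.d + 4) := mul_pos (by exact_mod_cast hw') (pow_pos hp _)
  have k4 := nonneg_of_mul_nonneg_right k2 k3
  have k5 : (bd : ℝ) * T0 * c ≤ bn * σ0 * c := mul_le_mul_of_nonneg_right hone hc
  have k6 : 0 ≤ (bn : ℝ) * q := by nlinarith
  have k7 : (0 : ℝ) < bn := by exact_mod_cast hbn'
  exact nonneg_of_mul_nonneg_right k6 k7

end Pool.Agent.MTR
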