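import Pool.Agent.MTR.XPT
import Pool.Agent.MTR.KFI
import Pool.Agent.MTR.ZFI
/-!
XFI (120 lines). The triangle certificate in the homogeneous case.
PROOF. Copy the proofs of KFI.tri_cert2 and ZFI.tri_cert3 with int_ptH and side_ptH (payment 0).
-/
set_option autoImplicit false

open MeasureTheory Set Metric Pool.Agent.MEIS Pool.Agent.MSQ Pool.Agent.MGE Pool.Agent.MGF Pool.Agent.PKD

namespace Pool.Agent.MTR

private theorem xfi_mono {f g : ℝ × ℝ → ℝ} (hf : Continuous f) (hg : Continuous g)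
    (h : ∀ x y : ℝ, 0 < x → 0 < y → x + y ≤ 1 → f (x, y) ≤ g (x, y)) :
    ∫ x in (0 : ℝ)..1, ∫ y in (0 : ℝ)..(1 - x), f (x, y) ≤
      ∫ x in (0 : ℝ)..1, ∫ y in (0 : ℝ)..(1 - x), g (x, y) := by
  have cf : Continuous fun x : ℝ => ∫ y in (0 : ℝ)..(1 - x), f (x, y) :=
    intervalIntegral.continuous_parametric_intervalIntegral_of_continuous
      (f := fun x y => f (x, y)) (by fun_prop) (by fun_prop)
  have cg : Continuous fun x : ℝ => ∫ y in (0 : ℝ)..(1 - x), g (x, y) :=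
    intervalIntegral.continuous_parametric_intervalIntegral_of_continuous
      (f := fun x y => g (x, y)) (by fun_prop) (by fun_prop)
  refine intervalIntegral.integral_mono_on_of_le_Ioo zero_le_one (cf.intervalIntegrable _ _)
    (cg.intervalIntegrable _ _) fun x hx => ?_
  have hx1 : (0 : ℝ) ≤ 1 - x := by linarith [hx.2]
  refine intervalIntegral.integral_mono_on_of_le_Ioo hx1 (Continuous.intervalIntegrable (by fun_prop) _ _)
    (Continuous.intervalIntegrable (by fun_prop) _ _) fun y hy => ?_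
  exact h x y hx.1 hy.1 (by linarith [hy.2])

private theorem xfi_const {f : ℝ × ℝ → ℝ} (hf : Continuous f) (c : ℝ) :
    ∫ x in (0 : ℝ)..1, ∫ y in (0 : ℝ)..(1 - x), (2 * c + f (x, y)) =
      c + ∫ x in (0 : ℝ)..1, ∫ y in (0 : ℝ)..(1 - x), f (x, y) := by
  have cf : Continuous fun x : ℝ => ∫ y in (0 : ℝ)..(1 - x), f (x, y) :=
    intervalIntegral.continuous_parametric_intervalIntegral_of_continuous
      (f := fun x y => f (x, y)) (by fun_prop) (by fun_prop)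
  have h1 : ∀ x : ℝ, ∫ y in (0 : ℝ)..(1 - x), (2 * c + f (x, y)) =
      2 * c * (1 - x) + ∫ y in (0 : ℝ)..(1 - x), f (x, y) := by
    intro x
    rw [intervalIntegral.integral_add (Continuous.intervalIntegrable (by fun_prop) _ _)
      (Continuous.intervalIntegrable (by fun_prop) _ _), intervalIntegral.integral_const,
      smul_eq_mul]
    ring
  simp only [h1]
  rw [intervalIntegral.integral_add (Continuous.intervalIntegrable (by fun_prop) _ _)
    (cf.intervalIntegrable _ _), intervalIntegral.integral_const_mul]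
  have h2 : ∫ x in (0 : ℝ)..1, (1 - x) = 1 / 2 := by
    rw [intervalIntegral.integral_sub (by simp) (by simp), intervalIntegral.integral_const, integral_id]
    norm_num
  rw [h2]
  ring

private theorem xfi_one (D : Int) (hD : 0 < D) (cP cQ : List P) (pay : Int)
    {T : E → ℝ} {β : ℝ} (h : TrHyp T β)
    (hpt : ∀ (u v x y : ℝ), 0 < x → 0 < y → x + y ≤ 1 →
      (432 * (D : ℝ) * nW (sa x y) ^ 3 * (dS T (sa x y) - u - v) = qf (evE x y (RR D cP cQ)) (st T (sa x y))) →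
      48000 * (pay : ℝ) / D + (u + v) ≤ dS T (sa x y)) :
    24000 * (pay : ℝ) / D + ((∫ x in (0 : ℝ)..1, (gV D cP T x (1 - x) + gV D cQ T x (1 - x))) -
      (∫ y in (0 : ℝ)..1, gV D cP T 0 y) - ∫ x in (0 : ℝ)..1, gV D cQ T x 0) ≤
      ∫ x in (0 : ℝ)..1, ∫ y in (0 : ℝ)..(1 - x), dS T (sa x y) := by
  obtain ⟨ux, vy, hux, hvy, h1, h2, h3⟩ := gauge_div h.sm h.hom hD cP cQ
  have hdiv := tri_div (U := fun z => gV D cP T z.1 z.2) (V := fun z => gV D cQ T z.1 z.2)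
    (gV_cont h.sm hD cP) (gV_cont h.sm hD cQ) hux hvy h1 h2
  have hm := xfi_mono (f := fun z => 2 * (24000 * (pay : ℝ) / D) + (ux z + vy z))
    (g := fun z => dS T (sa z.1 z.2)) (by fun_prop) (dS_cont h.sm) (fun x y hx hy hxy => by
      have := hpt _ _ x y hx hy hxy (h3 x y)
      have e : 2 * (24000 * (pay : ℝ) / D) = 48000 * pay / D := by ring
      show 2 * (24000 * (pay : ℝ) / D) + (ux (x, y) + vy (x, y)) ≤ dS T (sa x y)
      rw [e]
      exact this)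
  have hcst := xfi_const (f := fun z => ux z + vy z) (by fun_prop) (24000 * (pay : ℝ) / D)
  rw [hcst, hdiv] at hm
  exact hm

private theorem xfi_main (D : Int) (hD : 0 < D) (cP cQ : List P) (F : FD) (pay : Int)
    (hev : (evenL F.f0 && evenL F.f1 && oddL F.f2 && evenL F.f3 && evenL F.f4 && evenL F.f5 && oddL F.f6) = true)
    (tx : tieX cP = true) (ty : tieY cQ = true)
    {T : E → ℝ} {β : ℝ} (h : TrHyp T β)
    (hs1' : ∀ (σ : Equiv.Perm (Fin 3)) (t : ℝ), 0 < t → t ≤ 1 →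
      FFd F t (pd 0 (TP σ T) (pt ((1 + t) / 2) ((1 - t) / 2) 0)) (pd 1 (TP σ T) (pt ((1 + t) / 2) ((1 - t) / 2) 0))
      (pd 2 (TP σ T) (pt ((1 + t) / 2) ((1 - t) / 2) 0)) ≤
      1 / √2 * (1 / 6 * (gV D cP (TP σ T) t (1 - t) + gV D cQ (TP σ T) t (1 - t))))
    (hs2' : ∀ (σ : Equiv.Perm (Fin 3)) (u v x y : ℝ), 0 < x → 0 < y → x + y ≤ 1 →
      (432 * (D : ℝ) * nW (sa x y) ^ 3 * (dS (TP σ T) (sa x y) - u - v) =
        qf (evE x y (RR D cP cQ)) (st (TP σ T) (sa x y))) →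
      48000 * (pay : ℝ) / D + (u + v) ≤ dS (TP σ T) (sa x y)) :
    sF0 (FFd F) T + sF1 (FFd F) T + sF2 (FFd F) T + 24000 * pay / (√2 * D) ≤ CN T := by
  have hside := side_six (F := FFd F) (FF_sym _ _ _ _ _ _ _ _ hev) (FF_cont _ _ _ _ _ _ _ _) h.sm
  rw [hside, cn_split h.sm]
  have h2 : (0 : ℝ) < √2 := by positivity
  -- the outer side
  have hs1 : ∀ σ : Equiv.Perm (Fin 3), ∫ t in (0 : ℝ)..1,
      FFd F t (pd 0 (TP σ T) (pt ((1 + t) / 2) ((1 - t) / 2) 0)) (pd 1 (TP σ T) (pt ((1 + t) / 2) ((1 - t) / 2) 0))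
        (pd 2 (TP σ T) (pt ((1 + t) / 2) ((1 - t) / 2) 0)) ≤
      1 / √2 * (1 / 6 * ∫ x in (0 : ℝ)..1, (gV D cP (TP σ T) x (1 - x) + gV D cQ (TP σ T) x (1 - x))) := by
    intro σ
    have hσ := TrHyp_TP σ h
    rw [← intervalIntegral.integral_const_mul, ← intervalIntegral.integral_const_mul]
    have cd : Continuous fun t : ℝ => ((t, 1 - t) : ℝ × ℝ) := by fun_prop
    have c0 : ∀ i : Fin 3, Continuous fun t : ℝ => pd i (TP σ T) (pt ((1 + t) / 2) ((1 - t) / 2) 0) := by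
      intro i
      have := (comp_cont (f := pd i (TP σ T)) (sm_mono (sm_pd (n := 2) hσ.sm i) (by omega))).comp cd
      simpa only [Function.comp_def, sa_side] using this
    have c1 : Continuous fun t : ℝ => FFd F t (pd 0 (TP σ T) (pt ((1 + t) / 2) ((1 - t) / 2) 0))
        (pd 1 (TP σ T) (pt ((1 + t) / 2) ((1 - t) / 2) 0))
        (pd 2 (TP σ T) (pt ((1 + t) / 2) ((1 - t) / 2) 0)) :=
      (FF_cont F.D F.f0 F.f1 F.f2 F.f3 F.f4 F.f5 F.f6).comp
        (continuous_id.prodMk ((c0 0).prodMk ((c0 1).prodMk (c0 2))))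
    have cP1 := (gV_cont hσ.sm hD cP).comp cd
    have cQ1 := (gV_cont hσ.sm hD cQ).comp cd
    simp only [Function.comp_def] at cP1 cQ1
    refine intervalIntegral.integral_mono_on_of_le_Ioo zero_le_one (c1.intervalIntegrable _ _)
      (Continuous.intervalIntegrable (by fun_prop) _ _) fun t ht => ?_
    exact hs1' σ t ht.1 ht.2.le
  -- the sectors
  have hs2 : ∀ σ : Equiv.Perm (Fin 3), 24000 * (pay : ℝ) / D +
      ((∫ x in (0 : ℝ)..1, (gV D cP (TP σ T) x (1 - x) + gV D cQ (TP σ T) x (1 - x))) -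
      (∫ y in (0 : ℝ)..1, gV D cP (TP σ T) 0 y) - ∫ x in (0 : ℝ)..1, gV D cQ (TP σ T) x 0) ≤
      ∫ x in (0 : ℝ)..1, ∫ y in (0 : ℝ)..(1 - x), dS (TP σ T) (sa x y) := fun σ =>
    xfi_one D hD cP cQ pay (TrHyp_TP σ h) (hs2' σ)
  have hx0 : ∑ σ : Equiv.Perm (Fin 3), ∫ y in (0 : ℝ)..1, gV D cP (TP σ T) 0 y = 0 := by
    rw [← intervalIntegral.integral_finsetSum]
    · simp only [tie_x h.sm D cP tx]
      simp
    · intro σ _
      have cd : Continuous fun t : ℝ => ((0, t) : ℝ × ℝ) := by fun_prop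
      exact ((gV_cont (TrHyp_TP σ h).sm hD cP).comp cd).intervalIntegrable _ _
  have hy0 : ∑ σ : Equiv.Perm (Fin 3), ∫ x in (0 : ℝ)..1, gV D cQ (TP σ T) x 0 = 0 := by
    rw [← intervalIntegral.integral_finsetSum]
    · simp only [tie_y h.sm D cQ ty]
      simp
    · intro σ _
      have cd : Continuous fun t : ℝ => ((t, 0) : ℝ × ℝ) := by fun_prop
      exact ((gV_cont (TrHyp_TP σ h).sm hD cQ).comp cd).intervalIntegrable _ _
  have k1 := Finset.sum_le_sum fun (σ : Equiv.Perm (Fin 3)) (_ : σ ∈ Finset.univ) => hs1 σ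
  have k2 := Finset.sum_le_sum fun (σ : Equiv.Perm (Fin 3)) (_ : σ ∈ Finset.univ) => hs2 σ
  rw [Finset.sum_add_distrib, Finset.sum_sub_distrib, Finset.sum_sub_distrib, hx0, hy0,
    Finset.sum_const, Finset.card_univ, Fintype.card_perm, Fintype.card_fin] at k2
  rw [← Finset.mul_sum, ← Finset.mul_sum] at k1
  have k3 := mul_le_mul_of_nonneg_left k2 (show 0 ≤ 1 / √2 * (1 / 6) by positivity)
  have e1 : 24000 * (pay : ℝ) / (√2 * D) = 1 / √2 * (24000 * pay / D) := by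
    have hD' : (D : ℝ) ≠ 0 := by
      have : (0 : ℝ) < D := by exact_mod_cast hD
      exact this.ne'
    field_simp
  rw [e1]
  simp only [nsmul_eq_mul] at k3
  have e2 : ((Nat.factorial 3 : ℕ) : ℝ) = 6 := by
    norm_num [Nat.factorial]
  rw [e2] at k3
  linarith

private theorem xfi_D {g : Gg} (hg : gchk g = true) : 0 < g.D := by
  unfold gchk at hg
  simp only [Bool.and_eq_true] at hg
  exact Nat.le_of_ble_eq_true hg.1.1.1.1.1.1.1.1.2

theorem tri_certH {bn bd : ℕ} (hbd : 0 < bd) {g : Gg} (hg : gchk g = true) {E1 E2 E3 : P}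
    (hE : cchk g E1 E2 E3 = true) (Q n : ℕ) (hQ : 0 < Q) (L : List Bn) (hq : ∀ b ∈ L, 0 < b.q)
    (hc : covQ Q L n 0 Q 0 Q = true) (hb : ∀ b ∈ L, BoxH bn bd g b) (F : FD) (hF : 0 < F.D)
    (hev : (evenL F.f0 && evenL F.f1 && oddL F.f2 && evenL F.f3 && evenL F.f4 && evenL F.f5 && oddL F.f6) = true)
    (tx : tieX g.cP = true) (ty : tieY g.cQ = true) (LS : List Bn)
    (hcs : chn 0 1 LS = true) (hbs : ∀ b ∈ LS, SideH bn bd g F b)
    {T : E → ℝ} {β : ℝ} (h : TrHyp T β) (hβ : inR (rgOf 0 1 bn bd) β) :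
    sF0 (FFd F) T + sF1 (FFd F) T + sF2 (FFd F) T ≤ CN T := by
  have hD0 : 0 < g.D := xfi_D hg
  have hD : (0 : ℤ) < (g.D : ℤ) := by exact_mod_cast hD0
  have hs1' : ∀ (σ : Equiv.Perm (Fin 3)) (t : ℝ), 0 < t → t ≤ 1 →
      FFd F t (pd 0 (TP σ T) (pt ((1 + t) / 2) ((1 - t) / 2) 0)) (pd 1 (TP σ T) (pt ((1 + t) / 2) ((1 - t) / 2) 0))
      (pd 2 (TP σ T) (pt ((1 + t) / 2) ((1 - t) / 2) 0)) ≤
      1 / √2 * (1 / 6 * (gV (g.D : ℤ) g.cP (TP σ T) t (1 - t) + gV (g.D : ℤ) g.cQ (TP σ T) t (1 - t))) :=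
    fun σ t ht0 ht1 => side_ptH hbd hg F hF LS hcs hbs (TrHyp_TP σ h) hβ t ht0 ht1
  have hs2' : ∀ (σ : Equiv.Perm (Fin 3)) (u v x y : ℝ), 0 < x → 0 < y → x + y ≤ 1 →
      (432 * (((g.D : ℤ) : ℤ) : ℝ) * nW (sa x y) ^ 3 * (dS (TP σ T) (sa x y) - u - v) =
        qf (evE x y (RR (g.D : ℤ) g.cP g.cQ)) (st (TP σ T) (sa x y))) →
      48000 * ((0 : ℤ) : ℝ) / (((g.D : ℤ) : ℤ) : ℝ) + (u + v) ≤ dS (TP σ T) (sa x y) := by
    intro σ u v x y hx hy hxy he
    have := int_ptH hbd hg hE Q n hQ L hq hc hb (TrHyp_TP σ h) hβ x y hx hy hxy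
      (u := u) (v := v) (by simpa using he)
    simpa using this
  have key := xfi_main (g.D : ℤ) hD g.cP g.cQ F 0 hev tx ty h hs1' hs2'
  simpa using key

end Pool.Agent.MTR
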