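import Pool.Agent.MTR.XQF
import Pool.Agent.MTR.KRK
import Pool.Agent.MTR.KGR
import Pool.Agent.MTR.KRR
/-!
XHR (130 lines). Relations for the homogeneous residual.
PROOF. RHK_rel: RK_rel (KRK) with sg = false, pay = 0; z456, take, drop of an L3 relation (F3 is a relation of lists of the
same length; see private lemmas on take in ZSR.lean), z0 (KLA_z / kfr_z: R3 n m of 0), vSm_rel, vMul_rel, vAdd_rel, T6K_rel, mono.
MHK_c2: as MK_c2 (KGR.lean, copy its private lemmas for grsK), with vSm of RHK: C2 with bound w RC from L3.toC2.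
ngK_c2: vSub of zero: norm does not increase (R3.nat 0 has norm 0: bound 0 + κ). len_MHK: RHK has length 28
(len_vSm, len_z456, len_RK, len_vMul), grsK: len_grsK as in len_MK (KRR or KGR).
-/
set_option autoImplicit false

open MeasureTheory Set Metric Pool.Agent.MEIS Pool.Agent.MSQ Pool.Agent.MGE Pool.Agent.MGF Pool.Agent.PKD

namespace Pool.Agent.MTR

variable {C : Cx} {v w : Va ℕ} {v' : Va ℝ}

private theorem xr_take {α β γ : Type} {R : α → β → γ → Prop} {A : List α} {B : List β} {D : List γ}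
    (h : F3 R A B D) (k : ℕ) : F3 R (A.take k) (B.take k) (D.take k) := by
  induction h generalizing k with
  | nil =>
    rw [List.take_nil, List.take_nil, List.take_nil]
    exact F3.nil
  | cons h t ih =>
    cases k with
    | zero => exact F3.nil
    | succ k => exact F3.cons h (ih k)

private theorem xr_drop {α β γ : Type} {R : α → β → γ → Prop} {A : List α} {B : List β} {D : List γ}
    (h : F3 R A B D) (k : ℕ) : F3 R (A.drop k) (B.drop k) (D.drop k) := by
  induction h generalizing k with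
  | nil =>
    rw [List.drop_nil, List.drop_nil, List.drop_nil]
    exact F3.nil
  | cons h t ih =>
    cases k with
    | zero => exact F3.cons h t
    | succ k => exact ih k

private theorem xr_z (n : ℕ) : R3 C n n (z0 C.om) (z0 C.rr) (z0 ON) := R3.nat C n n 0

private theorem xr_heK_c2 (h : R1 C v v' w) (B : Bool) {k : ℕ} (hk : k = 0 ∨ k = 1 ∨ k = 2) :
    C2 C 4 (heN w B) (heK C.om v B k) (heK C.rr v' B k) := by
  refine L3.toC2 (heK_rel h B k) ?_
  unfold heN
  apply le_mxL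
  rcases hk with rfl | rfl | rfl <;> simp

private theorem xr_rep0 (n κ k : ℕ) :
    C2 C n κ (List.replicate k (z0 C.om)) (List.replicate k (z0 C.rr)) :=
  C2.zero C n κ k

private theorem xr_prK_c2 {dm : ℕ} (h : RW C dm v v' w) {F : ℕ → List ℕ} {F' : ℕ → List ℝ} {φ : ℕ → ℕ}
    (hF : ∀ k, C2 C 4 (φ k) (F k) (F' k)) (K : ℕ) (l : List (ℕ × ℕ)) :
    C2 C (dm + 4) (prN φ dm K w l) (prK C.om F dm K v l) (prK C.rr F' dm K v' l) := by
  induction l with
  | nil => exact xr_rep0 _ _ _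
  | cons z l ih => exact C2.vAdd (C2.vSm (muK_rel h K 0 z.2) (hF z.1)) ih

private theorem xr_hsK_c2 {dm : ℕ} (h1 : R1 C v v' w) (h : RW C dm v v' w) (K k : ℕ) (B : Bool) (l : List ℕ) :
    C2 C (dm + 4) (hsN dm K k w (heN w B) l) (hsK C.om dm K k v B l) (hsK C.rr dm K k v' B l) := by
  match l with
  | [] => exact xr_rep0 _ _ _
  | [_] => exact xr_rep0 _ _ _
  | [_, _] => exact xr_rep0 _ _ _
  | [w0, w1, w2] =>
    refine C2.mono (C2.vAdd (C2.vSm (muK_rel h K k w0) (xr_heK_c2 h1 B (Or.inl rfl)))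
      (C2.vAdd (C2.vSm (muK_rel h K k w1) (xr_heK_c2 h1 B (Or.inr (Or.inl rfl))))
        (C2.vSm (muK_rel h K k w2) (xr_heK_c2 h1 B (Or.inr (Or.inr rfl)))))) le_rfl (le_of_eq ?_)
    show _ = (muK ON dm w K k w0 + (muK ON dm w K k w1 + muK ON dm w K k w2)) * heN w B
    ring
  | _ :: _ :: _ :: _ :: _ => exact xr_rep0 _ _ _

private theorem xr_grK_c2 {dm : ℕ} (h1 : R1 C v v' w) (h : RW C dm v v' w) {F : ℕ → List ℕ} {F' : ℕ → List ℝ}
    {φ : ℕ → ℕ} (hF : ∀ k, C2 C 4 (φ k) (F k) (F' k)) (g : Gr) :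
    C2 C (4 + (dm + 4)) (grN φ (heN w false) (heN w true) dm w g) (grK C.om F dm v g) (grK C.rr F' dm v' g) := by
  refine C2.mono (C2.vMul (hF g.i) (C2.vAdd (xr_prK_c2 h hF g.K g.pr)
    (C2.vAdd (xr_hsK_c2 h1 h g.K g.h false g.WA) (xr_hsK_c2 h1 h g.K g.h true g.WB)))) le_rfl (le_of_eq ?_)
  show _ = (2 * φ g.i) * (prN φ dm g.K w g.pr + (hsN dm g.K g.h w (heN w false) g.WA
    + hsN dm g.K g.h w (heN w true) g.WB))
  ring

private theorem xr_grsK_c2 {dm : ℕ} (h1 : R1 C v v' w) (h : RW C dm v v' w) {F : ℕ → List ℕ} {F' : ℕ → List ℝ}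
    {φ : ℕ → ℕ} (hF : ∀ k, C2 C 4 (φ k) (F k) (F' k)) (l : List Gr) :
    C2 C (4 + (dm + 4)) (grsN φ (heN w false) (heN w true) dm w l) (grsK C.om F dm v l)
      (grsK C.rr F' dm v' l) := by
  induction l with
  | nil => exact xr_rep0 _ _ _
  | cons g l ih => exact C2.vAdd (xr_grK_c2 h1 h hF g) ih

private theorem xr_len_prK {α : Type} (O : Ops α) {F : ℕ → List α} (hF : ∀ k, (F k).length = 7) (dm K : ℕ) (v : Va α)
    (l : List (ℕ × ℕ)) : (prK O F dm K v l).length = 7 := by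
  induction l with
  | nil => simp [prK]
  | cons z l ih =>
    unfold prK
    have e : (vSm O (muK O dm v K 0 z.2) (F z.1)).length = 7 := by rw [len_vSm, hF]
    rw [len_vAdd O (e.trans ih.symm), e]

private theorem xr_len_hsK {α : Type} (O : Ops α) (dm K k : ℕ) (v : Va α) (B : Bool) (l : List ℕ) :
    (hsK O dm K k v B l).length = 7 := by
  unfold hsK
  split
  · have e : ∀ c j, j ≤ 2 → (vSm O c (heK O v B j)).length = 7 := fun c j hj => by
      rw [len_vSm, len_heK O v B j hj]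
    have e1 := fun c c' => (len_vAdd O ((e c 1 (by norm_num)).trans (e c' 2 (by norm_num)).symm)).trans
      (e c 1 (by norm_num))
    exact (len_vAdd O ((e _ 0 (by norm_num)).trans (e1 _ _).symm)).trans (e _ 0 (by norm_num))
  · simp

private theorem xr_len_grK {α : Type} (O : Ops α) {F : ℕ → List α} (hF : ∀ k, (F k).length = 7) (dm : ℕ) (v : Va α)
    (g : Gr) : (grK O F dm v g).length = 28 := by
  unfold grK
  have a := xr_len_hsK O dm g.K g.h v false g.WA
  have b := xr_len_hsK O dm g.K g.h v true g.WB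
  have c := (len_vAdd O (a.trans b.symm)).trans a
  have d := xr_len_prK O hF dm g.K v g.pr
  exact len_vMul O (hF _) ((len_vAdd O (d.trans c.symm)).trans d)

private theorem xr_len_grsK {α : Type} (O : Ops α) {F : ℕ → List α} (hF : ∀ k, (F k).length = 7) (dm : ℕ) (v : Va α)
    (l : List Gr) : (grsK O F dm v l).length = 28 := by
  induction l with
  | nil => simp [grsK]
  | cons g l ih =>
    unfold grsK
    have e := xr_len_grK O hF dm v g
    rw [len_vAdd O (e.trans ih.symm), e]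

private theorem xr_neg (n : ℕ) (τ σ : ℝ) (B : List ℝ) (hB : B.length = n) (k : ℕ) :
    (vSub (OR τ σ) (List.replicate n (z0 (OR τ σ))) B).getD k 0 = -B.getD k 0 := by
  induction n generalizing B k with
  | zero =>
    have e : B = [] := List.length_eq_zero_iff.1 hB
    subst e
    have e : vSub (OR τ σ) (List.replicate 0 (z0 (OR τ σ))) [] = [] := rfl
    rw [e]
    simp
  | succ n ih =>
    cases B with
    | nil => simp at hB
    | cons b B =>
      have hB' : B.length = n := by simpa using hB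
      have e : vSub (OR τ σ) (List.replicate (n + 1) (z0 (OR τ σ))) (b :: B) =
          (((0 : ℕ) : ℝ) - b) :: vSub (OR τ σ) (List.replicate n (z0 (OR τ σ))) B := rfl
      rw [e]
      cases k with
      | zero => simp
      | succ k =>
        rw [List.getD_cons_succ, List.getD_cons_succ]
        exact ih B hB' k

theorem len_RHK {α : Type} (O : Ops α) (g : Gg) (bn bd : ℕ) (v : Va α) : (RHK O g bn bd v).length = 28 := by
  unfold RHK
  have e0 := len_RK O g false 0 v
  have e1 : (vSm O (O.mul (O.nat (Nat.mul 6 bn)) v.one) (z456 (z0 O) (RK O g false 0 v))).length = 28 := by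
    rw [len_vSm, len_z456 _ e0]
  have e2 : (vMul O (vSm O (O.nat bd) (T6K O v))
      (z0 O :: z0 O :: z0 O :: z0 O :: ((RK O g false 0 v).drop 4).take 3)).length = 28 := by
    refine len_vMul O ?_ ?_
    · rw [len_vSm]
      rfl
    · simp only [List.length_cons, List.length_take, List.length_drop, e0]
      norm_num
  rw [len_vAdd O (e1.trans e2.symm), e1]

theorem len_MHK {α : Type} (O : Ops α) (bn bd : ℕ) (g : Gg) (b : Bt) (v : Va α) :
    (MHK O bn bd g b v).length = 28 := by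
  unfold MHK
  have e1 : (vSm O (O.nat b.w) (RHK O g bn bd v)).length = 28 := by rw [len_vSm, len_RHK]
  have e3 := xr_len_grsK O (F := frK O 0 1 bn bd b v) (len_frK O 0 1 bn bd b v) b.dm v b.gr
  rw [len_vSub O (e1.trans e3.symm), e1]

theorem RHK_rel {g : Gg} (hg : 5 ≤ g.d) (h : RV C g.d v v' w) (bn bd : ℕ) :
    L3 C (g.d + 4) (g.d + 4) (RHK C.om g bn bd v) (RHK C.rr g bn bd v') (RHK ON g bn bd w) := by
  have hr := RK_rel hg h false 0
  have z : R3 C (g.d + 3) (g.d + 3) (z0 C.om) (z0 C.rr) (z0 ON) := xr_z _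
  have a1 : L3 C (g.d + 3) (g.d + 3) (z456 (z0 C.om) (RK C.om g false 0 v)) (z456 (z0 C.rr) (RK C.rr g false 0 v'))
      (z456 (z0 ON) (RK ON g false 0 w)) :=
    L3.app (xr_take hr 4) (F3.cons z (F3.cons z (F3.cons z (xr_drop hr 7))))
  have a2 : L3 C (g.d + 3) (g.d + 3)
      (z0 C.om :: z0 C.om :: z0 C.om :: z0 C.om :: ((RK C.om g false 0 v).drop 4).take 3)
      (z0 C.rr :: z0 C.rr :: z0 C.rr :: z0 C.rr :: ((RK C.rr g false 0 v').drop 4).take 3)
      (z0 ON :: z0 ON :: z0 ON :: z0 ON :: ((RK ON g false 0 w).drop 4).take 3) :=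
    F3.cons z (F3.cons z (F3.cons z (F3.cons z (xr_take (xr_drop hr 4) 3))))
  have b1 := vSm_rel (R3.mul (R3.nat C 0 0 (Nat.mul 6 bn)) h.one) a1
  have b2 := vMul_rel (vSm_rel (R3.nat C 0 0 bd) (T6K_rel h.toR1)) a2
  exact vAdd_rel (L3.mono b1 (show 0 + 1 + (g.d + 3) ≤ g.d + 4 by omega) (show 0 + 1 + (g.d + 3) ≤ g.d + 4 by omega))
    (L3.mono b2 (show 0 + 1 + (g.d + 3) ≤ g.d + 4 by omega) (show 0 + 1 + (g.d + 3) ≤ g.d + 4 by omega))

theorem MHK_c2 {bn bd RC : ℕ} {g : Gg} {b : Bt} (hg : 5 ≤ g.d) (hd : g.d = 4 + b.dm) (h : RV C g.d v v' w)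
    (hR : mxL (RHK ON g bn bd w) ≤ RC) (h' : RW C b.dm v v' w) :
    C2 C (8 + b.dm) (MHN bn bd RC b w) (MHK C.om bn bd g b v) (MHK C.rr bn bd g b v') := by
  have h1 : R1 C v v' w := h.toR1
  have hF : ∀ k, C2 C 4 (mxL (frK ON 0 1 bn bd b w k)) (frK C.om 0 1 bn bd b v k)
      (frK C.rr 0 1 bn bd b v' k) := fun k => L3.toC2 (frK_rel h1 h' 0 1 bn bd b k) le_rfl
  have e1 : C2 C (8 + b.dm) (b.w * RC) (vSm C.om (C.om.nat b.w) (RHK C.om g bn bd v))
      (vSm C.rr (C.rr.nat b.w) (RHK C.rr g bn bd v')) :=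
    C2.mono (C2.vSm (R3.nat C 0 0 b.w) (L3.toC2 (RHK_rel hg h bn bd) hR)) (by omega) le_rfl
  have e2 : C2 C (8 + b.dm) (grsN (fun k => mxL (frK ON 0 1 bn bd b w k)) (heN w false) (heN w true) b.dm w b.gr)
      (grsK C.om (frK C.om 0 1 bn bd b v) b.dm v b.gr) (grsK C.rr (frK C.rr 0 1 bn bd b v') b.dm v' b.gr) :=
    C2.mono (xr_grsK_c2 h1 h' hF b.gr) (by omega) le_rfl
  exact C2.vSub e1 e2

theorem ngK_c2 {n κ : ℕ} {A : List ℕ} {B : List ℝ} (h : C2 C n κ A B) (hA : A.length = 28) :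
    C2 C n κ (ngK C.om A) (ngK C.rr B) ∧ (ngK C.om A).length = 28 ∧ ∀ k, (ngK C.rr B).getD k 0 = -B.getD k 0 := by
  have hB : B.length = 28 := by rw [← C2.len h, hA]
  refine ⟨?_, ?_, ?_⟩
  · have h1 := C2.vSub (C2.zero C n 0 28) h
    exact C2.mono h1 le_rfl (by omega)
  · have e : (List.replicate 28 (z0 C.om)).length = 28 := List.length_replicate
    unfold ngK
    rw [len_vSub C.om (e.trans hA.symm), e]
  · intro k
    exact xr_neg 28 C.τ C.σ B hB k

end Pool.Agent.MTR
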