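import Pool.Agent.MTR.Defs3
import Pool.Agent.MTR.KGR
/-!
ZSR (110 lines). Relation for the side matrix.
PROOF. fK: dI_rel of mkV_rel (degree nf * 1). gqS: induction, pvI_rel with RV.gd: degree g.d. The ten entries of SSK: lM (2,2) * pw one (8 + dm - (2 + g.d)) and so on: total degree ds = 8 + dm: use h7 : 7 + nf ≤ ds, hd : 2 + g.d ≤ ds. vMul_rel of lists of 4.
MSK: vSm_rel, vSub_rel; prZ, grsZ: inductions with muK_rel (dm), frK_rel (4): (frK ..).take 4: F3 of take (private lemma). Degrees: (4) + (dm + 4) = 8 + dm. L3.mono where necessary. Lengths: 10.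
-/
set_option autoImplicit false

open MeasureTheory Set Metric Pool.Agent.MEIS Pool.Agent.MSQ Pool.Agent.MGE Pool.Agent.MGF Pool.Agent.PKD

namespace Pool.Agent.MTR

variable {C : Cx} {v w : Va ℕ} {v' : Va ℝ}

private theorem zsr_z0 (n : ℕ) : R3 C n n (z0 C.om) (z0 C.rr) (z0 ON) := R3.nat C n n 0

private theorem zsr_nm {n a c : ℕ} {r : ℝ} (k : ℕ) (h : R3 C n n a r c) :
    R3 C n n (C.om.mul (C.om.nat k) a) (C.rr.mul (C.rr.nat k) r) (ON.mul (ON.nat k) c) :=
  ((R3.nat C 0 0 k).mul h).mono (by omega) (by omega) le_rfl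

private theorem zsr_pw (h : R1 C v v' w) (k : ℕ) :
    R3 C k k (pw C.om v.one k) (pw C.rr v'.one k) (pw ON w.one k) :=
  (pw_rel h.one k).mono (by omega) (by omega) le_rfl

private theorem zsr_fK (h : R1 C v v' w) (nf : ℕ) (f : List ℤ) :
    R3 C nf nf (fK C.om v nf f) (fK C.rr v' nf f) (fK ON w nf f) :=
  (dI_rel (mkV_rel h.xx h.one nf) f).mono (by omega) (by omega) le_rfl

/-- `k f (one^j)` of degree `nf + j` -/
private theorem zsr_kf (h : R1 C v v' w) (nf k j : ℕ) (f : List ℤ) :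
    R3 C (nf + j) (nf + j) (C.om.mul (C.om.nat k) (C.om.mul (fK C.om v nf f) (pw C.om v.one j)))
      (C.rr.mul (C.rr.nat k) (C.rr.mul (fK C.rr v' nf f) (pw C.rr v'.one j)))
      (ON.mul (ON.nat k) (ON.mul (fK ON w nf f) (pw ON w.one j))) :=
  zsr_nm k ((zsr_fK h nf f).mul (zsr_pw h j))

private theorem zsr_gqS {d : ℕ} {u s : List (ℕ × List ℕ)} {t : List (ℝ × List ℝ)} (hu : RG C d d u t s)
    (e : v.gd = u) (e' : v'.gd = t) (e'' : w.gd = s) : ∀ ps qs : List P,
      L3 C d d (gqS C.om v ps qs) (gqS C.rr v' ps qs) (gqS ON w ps qs) := by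
  subst e e' e''
  intro ps
  induction ps with
  | nil => intro qs; exact F3.nil
  | cons p ps ih =>
    intro qs
    rcases qs with _ | ⟨q, qs⟩
    · exact F3.nil
    · exact F3.cons ((pvI_rel hu p).add (pvI_rel hu q)) (ih qs)

private theorem zsr_sum10 {n : ℕ} {A D : List (List ℕ)} {B : List (List ℝ)} (h : F3 (L3 C n n) A B D) :
    L3 C n n (sum10 C.om A) (sum10 C.rr B) (sum10 ON D) := by
  induction h with
  | nil => exact L3.rep (zsr_z0 n)
  | cons h t ih => exact vAdd_rel h ih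

private theorem zsr_d0 (C : Cx) : L3 C 0 0 (d0S C.om) (d0S C.rr) (d0S ON) :=
  F3.cons (R3.nat C 0 0 1) (F3.cons (zsr_z0 0) (F3.cons (zsr_z0 0) (F3.cons (zsr_z0 0) F3.nil)))

private theorem zsr_dt (C : Cx) : L3 C 0 0 (dtS C.om) (dtS C.rr) (dtS ON) :=
  F3.cons (zsr_z0 0) (F3.cons (R3.nat C 0 0 1) (F3.cons ((zsr_z0 0).sub (R3.nat C 0 0 1))
    (F3.cons (zsr_z0 0) F3.nil)))

private theorem zsr_dn (C : Cx) : L3 C 0 0 (dnS C.om) (dnS C.rr) (dnS ON) :=
  F3.cons (zsr_z0 0) (F3.cons (zsr_z0 0) (F3.cons (zsr_z0 0) (F3.cons (R3.nat C 0 0 1) F3.nil)))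

private theorem zsr_dc (h : R1 C v v' w) : L3 C 1 1 (dcS C.om v) (dcS C.rr v') (dcS ON w) :=
  F3.cons (zsr_z0 1) (F3.cons (lin_rel h 2 4 1 0 0 0) (F3.cons (lin_rel h 2 0 1 0 2 0)
    (F3.cons (zsr_z0 1) F3.nil)))

/-- one summand -/
private theorem zsr_tm {n m ds a c : ℕ} {r : ℝ} (h : R3 C n n a r c) {A D : List ℕ} {B : List ℝ}
    (h' : L3 C m m A B D) (e : n + m ≤ ds) : L3 C ds ds (vSm C.om a A) (vSm C.rr r B) (vSm ON c D) :=
  L3.mono (vSm_rel h h') e e

theorem SSK_rel {g : Gg} {F : FD} {nf ds : ℕ} (h7 : 7 + nf ≤ ds) (hd : 2 + g.d ≤ ds) (h : RV C g.d v v' w) :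
    L3 C ds ds (SSK C.om g F nf ds v) (SSK C.rr g F nf ds v') (SSK ON g F nf ds w) := by
  have h1 : R1 C v v' w := h.toR1
  have M := lM_rel h1
  have c := zsr_dc h1
  have d0 := zsr_d0 C
  have dt := zsr_dt C
  have dn := zsr_dn C
  have a0 := zsr_tm (ds := ds) (((R3.nat C 0 0 (Nat.mul 216 (Int.toNat F.D))).mul M).mul
    (zsr_pw h1 (ds - (2 + g.d)))) (zsr_gqS h.gd rfl rfl rfl g.cP g.cQ) (by omega)
  have b0 := zsr_tm (ds := ds) (zsr_nm 3 ((M.mul (M.mul M)).mul ((zsr_fK h1 nf F.f0).mul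
    (zsr_pw h1 (ds - (7 + nf)))))) (vMul_rel d0 c) (by omega)
  have b1 := zsr_tm (ds := ds) (zsr_kf h1 nf 7776 (ds - nf) F.f1) (vMul_rel dt dt) (by omega)
  have b2 := zsr_tm (ds := ds) (zsr_kf h1 nf 7776 (ds - nf) F.f2) (vMul_rel dt dn) (by omega)
  have b3 := zsr_tm (ds := ds) (zsr_kf h1 nf 2592 (ds - (nf + 1)) F.f3) (vMul_rel c dn) (by omega)
  have b4 := zsr_tm (ds := ds) (zsr_kf h1 nf 864 (ds - (nf + 2)) F.f4) (vMul_rel c c) (by omega)
  have b5 := zsr_tm (ds := ds) (zsr_kf h1 nf 7776 (ds - nf) F.f5) (vMul_rel dn dn) (by omega)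
  have b6 := zsr_tm (ds := ds) (zsr_kf h1 nf 2592 (ds - (nf + 1)) F.f6) (vMul_rel c dt) (by omega)
  have s := zsr_sum10 (F3.cons b0 (F3.cons b1 (F3.cons b2 (F3.cons b3 (F3.cons b4 (F3.cons b5
    (F3.cons b6 F3.nil)))))))
  have t := zsr_tm (ds := ds) ((zsr_z0 (C := C) 0).sub (R3.nat C 0 0 g.D)) s (by omega)
  exact vAdd_rel a0 t

private theorem zsr_take {α β γ : Type} {R : α → β → γ → Prop} {A : List α} {B : List β} {D : List γ}
    (h : F3 R A B D) (k : ℕ) : F3 R (A.take k) (B.take k) (D.take k) := by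
  induction h generalizing k with
  | nil =>
    rw [List.take_nil, List.take_nil, List.take_nil]
    exact F3.nil
  | cons h t ih =>
    cases k with
    | zero => exact F3.nil
    | succ k => exact F3.cons h (ih k)

private theorem zsr_prZ {dm : ℕ} (h' : RW C dm v v' w) {F : ℕ → List ℕ} {F' : ℕ → List ℝ} {G : ℕ → List ℕ}
    (hF : ∀ k, L3 C 4 4 (F k) (F' k) (G k)) (K : ℕ) (l : List (ℕ × ℕ)) :
    L3 C (dm + 4) (dm + 4) (prZ C.om F dm K v l) (prZ C.rr F' dm K v' l) (prZ ON G dm K w l) := by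
  induction l with
  | nil => exact L3.rep (zsr_z0 _)
  | cons z l ih => exact vAdd_rel (vSm_rel (muK_rel h' K 0 z.2) (hF z.1)) ih

private theorem zsr_grsZ {dm : ℕ} (h' : RW C dm v v' w) {F : ℕ → List ℕ} {F' : ℕ → List ℝ} {G : ℕ → List ℕ}
    (hF : ∀ k, L3 C 4 4 (F k) (F' k) (G k)) (l : List Gr) :
    L3 C (4 + (dm + 4)) (4 + (dm + 4)) (grsZ C.om F dm v l) (grsZ C.rr F' dm v' l) (grsZ ON G dm w l) := by
  induction l with
  | nil => exact L3.rep (zsr_z0 _)
  | cons g l ih => exact vAdd_rel (vMul_rel (hF g.i) (zsr_prZ h' hF g.K g.pr)) ih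

theorem MSK_rel {ln ld bn bd : ℕ} {g : Gg} {F : FD} {nf : ℕ} {b : Bt} (h7 : 7 + nf ≤ 8 + b.dm)
    (hd : 2 + g.d ≤ 8 + b.dm) (h : RV C g.d v v' w) (h' : RW C b.dm v v' w) :
    L3 C (8 + b.dm) (8 + b.dm) (MSK C.om ln ld bn bd g F nf b v) (MSK C.rr ln ld bn bd g F nf b v')
      (MSK ON ln ld bn bd g F nf b w) := by
  have hF : ∀ k, L3 C 4 4 ((frK C.om ln ld bn bd b v k).take 4) ((frK C.rr ln ld bn bd b v' k).take 4)
      ((frK ON ln ld bn bd b w k).take 4) := fun k => zsr_take (frK_rel h.toR1 h' ln ld bn bd b k) 4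
  have a := zsr_tm (ds := 8 + b.dm) (R3.nat C 0 0 b.w) (SSK_rel (F := F) h7 hd h) (by omega)
  have c := L3.mono (zsr_grsZ h' hF b.gr) (show 4 + (b.dm + 4) ≤ 8 + b.dm by omega)
    (show 4 + (b.dm + 4) ≤ 8 + b.dm by omega)
  exact vSub_rel a c

private theorem zsr_row {α : Type} (O : Ops α) (l m : α) (t : List α) {A B : List α} (h : A.length = B.length) :
    (rowK O l m t A B).length = A.length + t.length := by
  induction A generalizing B with
  | nil => exact (Nat.zero_add _).symm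
  | cons a A ih =>
    cases B with
    | nil => simp at h
    | cons b B =>
      have h1 : A.length = B.length := by simpa using h
      have h2 := congrArg Nat.succ (ih h1)
      rw [List.length_cons, Nat.succ_add]
      exact h2

private def zsrTri : ℕ → ℕ
  | 0 => 0
  | n + 1 => (n + zsrTri n) + 1

private theorem zsr_len {α : Type} (O : Ops α) {A B : List α} (h : A.length = B.length) :
    (vMul O A B).length = zsrTri A.length := by
  induction A generalizing B with
  | nil => rfl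
  | cons a A ih =>
    cases B with
    | nil => simp at h
    | cons b B =>
      have h1 : A.length = B.length := by simpa using h
      have h2 := zsr_row O a b (vMul O A B) h1
      rw [ih h1] at h2
      exact congrArg Nat.succ h2

private theorem zsr_len4 {α : Type} (O : Ops α) {A B : List α} (hA : A.length = 4) (hB : B.length = 4) :
    (vMul O A B).length = 10 := by
  have h := zsr_len O (A := A) (B := B) (hA.trans hB.symm)
  rw [hA] at h
  exact h

private theorem zsr_lgq {α : Type} (O : Ops α) (v : Va α) (n : ℕ) : ∀ ps qs : List P, ps.length = n →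
    qs.length = n → (gqS O v ps qs).length = n := by
  induction n with
  | zero =>
    intro ps qs hp hq
    rw [List.length_eq_zero_iff] at hp hq
    subst hp hq
    rfl
  | succ n ih =>
    intro ps qs hp hq
    cases ps with
    | nil => simp at hp
    | cons p ps =>
      cases qs with
      | nil => simp at hq
      | cons q qs =>
        have h1 : ps.length = n := by simpa using hp
        have h2 : qs.length = n := by simpa using hq
        exact congrArg Nat.succ (ih ps qs h1 h2)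

private theorem zsr_ls {α : Type} (O : Ops α) (L : List (List α)) (h : ∀ a ∈ L, a.length = 10) :
    (sum10 O L).length = 10 := by
  induction L with
  | nil => simp [sum10]
  | cons a L ih =>
    have i := ih fun b hb => h b (List.mem_cons_of_mem _ hb)
    have j := h a List.mem_cons_self
    unfold sum10
    rw [len_vAdd O (j.trans i.symm), j]

theorem len_SSK {α : Type} (O : Ops α) (g : Gg) (F : FD) (nf ds : ℕ) (v : Va α) (hP : g.cP.length = 10)
    (hQ : g.cQ.length = 10) : (SSK O g F nf ds v).length = 10 := by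
  have e0 : (d0S O).length = 4 := rfl
  have ec : (dcS O v).length = 4 := rfl
  have et : (dtS O).length = 4 := rfl
  have en : (dnS O).length = 4 := rfl
  have k : ∀ (c : α) {A B : List α}, A.length = 4 → B.length = 4 → (vSm O c (vMul O A B)).length = 10 :=
    fun c A B hA hB => by rw [len_vSm, zsr_len4 O hA hB]
  unfold SSK
  have h1 : ∀ c : α, (vSm O c (gqS O v g.cP g.cQ)).length = 10 := fun c => by
    rw [len_vSm, zsr_lgq O v 10 g.cP g.cQ hP hQ]
  have h2 : ∀ (c : α) (L : List (List α)), (∀ a ∈ L, a.length = 10) → (vSm O c (sum10 O L)).length = 10 :=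
    fun c L hL => by rw [len_vSm, zsr_ls O L hL]
  rw [len_vAdd O, h1]
  rw [h1, h2]
  intro a ha
  simp only [List.mem_cons, List.not_mem_nil, or_false] at ha
  rcases ha with rfl | rfl | rfl | rfl | rfl | rfl | rfl
  · exact k _ e0 ec
  · exact k _ et et
  · exact k _ et en
  · exact k _ ec en
  · exact k _ ec ec
  · exact k _ en en
  · exact k _ ec et

private theorem zsr_lpr {α : Type} (O : Ops α) (F : ℕ → List α) (hF : ∀ k, (F k).length = 4) (dm K : ℕ) (v : Va α)
    (l : List (ℕ × ℕ)) : (prZ O F dm K v l).length = 4 := by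
  induction l with
  | nil => simp [prZ]
  | cons z l ih =>
    unfold prZ
    have e : (vSm O (muK O dm v K 0 z.2) (F z.1)).length = 4 := by rw [len_vSm, hF]
    rw [len_vAdd O (e.trans ih.symm), e]

theorem len_grsZ {α : Type} (O : Ops α) (F : ℕ → List α) (hF : ∀ k, (F k).length = 4) (dm : ℕ) (v : Va α)
    (L : List Gr) : (grsZ O F dm v L).length = 10 := by
  induction L with
  | nil => simp [grsZ]
  | cons g L ih =>
    unfold grsZ
    have e := zsr_len4 O (hF g.i) (zsr_lpr O F hF dm g.K v g.pr)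
    rw [len_vAdd O (e.trans ih.symm), e]

theorem len_MSK {α : Type} (O : Ops α) (ln ld bn bd : ℕ) (g : Gg) (F : FD) (nf : ℕ) (b : Bt) (v : Va α)
    (hP : g.cP.length = 10) (hQ : g.cQ.length = 10) : (MSK O ln ld bn bd g F nf b v).length = 10 := by
  unfold MSK
  have e1 : (vSm O (O.nat b.w) (SSK O g F nf (8 + b.dm) v)).length = 10 := by
    rw [len_vSm, len_SSK O g F nf (8 + b.dm) v hP hQ]
  have e2 := len_grsZ O (fun k => (frK O ln ld bn bd b v k).take 4)
    (fun k => by rw [List.length_take, len_frK]; rfl) b.dm v b.gr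
  rw [len_vSub O (e1.trans e2.symm), e1]

end Pool.Agent.MTR
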