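import Pool.Agent.MTR.Defs3
import Pool.Agent.MTR.KRA
import Pool.Agent.PKD.RC2
/-!
ZSV (130 lines). Real value of the side residual (t = 0, x = 1 - s, y = s).
PROOF. fK: dI (OR) (mkV xx one nf) f = ω^nf evL (1 - s) f for f.length ≤ nf + 1 (induction; mkV a A n = [A^n, a A^(n-1), ..]; a = ω (1-s), A = ω). gqS: entries ω^d (ev x y P_z + ev x y Q_z) (RE.gd, lenOK from gchk), and the list of ten with
[σ0,e0,e1,e2] is Σ_z c_z s_a s_b = qf (gq cP) + qf (gq cQ) (gq, prs: sumQ of zipWith; length 10 from gchk: cases of the lists or zipWith lemma; ss a b: qf = s_a s_b). Right side: Sst: qf_qAdd, qf_qPm, qf_qSm, qf_sumQ, qf_qMul; evE s 0 of maps with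
at0 (sub2 xs ys ..): evE_sub0; ev_fs, ev_at0; see the proof of PNS.side_pt. dcS: la0, la1 values at t = 0 (b60, b61). A-parts (a0,a1,a2) do not occur. F.D: Int.toNat F.D = F.D for F.D > 0.
-/
set_option autoImplicit false

open MeasureTheory Set Metric Pool.Agent.MEIS Pool.Agent.MSQ Pool.Agent.MGE Pool.Agent.MGF Pool.Agent.PKD

namespace Pool.Agent.MTR

private theorem zsv_pw (τ σ A : ℝ) : ∀ n : ℕ, pw (OR τ σ) A n = A ^ n := by
  intro n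
  induction n with
  | zero => simp [pw, OR]
  | succ n ih => rw [pw, ih, pow_succ']; rfl

private theorem dI_nil (τ σ : ℝ) (l : List ℤ) : dI (OR τ σ) [] l = 0 := by
  show ((0 : ℕ) : ℝ) = 0
  simp

private theorem dI_cons_nil (τ σ y : ℝ) (v : List ℝ) : dI (OR τ σ) (y :: v) [] = 0 := by
  show ((0 : ℕ) : ℝ) = 0
  simp

private theorem dI_cons (τ σ y : ℝ) (v : List ℝ) (c : ℤ) (l : List ℤ) :
    dI (OR τ σ) (y :: v) (c :: l) = c * y + dI (OR τ σ) v l := by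
  cases c with
  | ofNat n =>
    show (n : ℝ) * y + dI (OR τ σ) v l = ((n : ℤ) : ℝ) * y + dI (OR τ σ) v l
    simp
  | negSucc n =>
    show dI (OR τ σ) v l - ((Nat.succ n : ℕ) : ℝ) * y = ((Int.negSucc n : ℤ) : ℝ) * y + dI (OR τ σ) v l
    rw [Int.cast_negSucc]
    push_cast
    ring

private theorem dI_nil_right (τ σ : ℝ) (v : List ℝ) : dI (OR τ σ) v [] = 0 := by
  cases v with
  | nil => exact dI_nil τ σ []
  | cons y v => exact dI_cons_nil τ σ y v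

private theorem dI_map (τ σ c : ℝ) : ∀ (v : List ℝ) (l : List ℤ),
    dI (OR τ σ) (v.map ((OR τ σ).mul c)) l = c * dI (OR τ σ) v l := by
  intro v
  induction v with
  | nil => intro l; simp [dI_nil]
  | cons y v ih =>
    intro l
    cases l with
    | nil => simp [dI_nil_right]
    | cons a l =>
      rw [List.map_cons, dI_cons, dI_cons, ih l]
      show (a : ℝ) * (c * y) + c * dI (OR τ σ) v l = _
      ring

private theorem dI_mkV (τ σ A s : ℝ) : ∀ (n : ℕ) (l : List ℤ), l.length ≤ n + 1 →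
    dI (OR τ σ) (mkV (OR τ σ) (A * s) A n) l = A ^ n * evL s l := by
  intro n
  induction n with
  | zero =>
    intro l hl
    cases l with
    | nil => simp [dI_nil_right, evL]
    | cons a l =>
      have : l = [] := by
        simp only [List.length_cons] at hl
        exact List.length_eq_zero_iff.mp (by omega)
      subst this
      rw [mkV, dI_cons, dI_nil]
      simp [evL, OR]
  | succ n ih =>
    intro l hl
    cases l with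
    | nil => simp [dI_nil_right, evL]
    | cons a l =>
      simp only [List.length_cons] at hl
      rw [mkV, dI_cons, dI_map, ih l (by omega), zsv_pw, evL]
      ring

private theorem zsv_fK {σ ω s : ℝ} {v : Va ℝ} {d : ℕ} (h : RE (OR 0 σ) v ω s 0 d) {nf : ℕ} {f : List Int}
    (hf : f.length ≤ nf + 1) : fK (OR 0 σ) v nf f = ω ^ nf * evL (1 - s) f := by
  rw [fK, h.xx, h.one]
  exact dI_mkV 0 σ ω (1 - s) nf f hf

private theorem zsv_b60 (s : ℝ) : ev s 0 (at0 b60) = 6 - 3 * s := by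
  simp [at0, b60, ev, evL]
  ring

private theorem zsv_b61 (s : ℝ) : ev s 0 (at0 b61) = 3 * s := by
  simp [at0, b61, ev, evL]
  ring

private theorem zsv_dc (s a0 a1 a2 a3 a4 a5 a6 : ℝ) :
    dotL (evE s 0 Dc3) [a0, a1, a2, a3, a4, a5, a6] = (6 - 3 * s) * a1 + 3 * s * a2 := by
  simp only [Dc3, evE, List.map_cons, List.map_nil, dotL, zsv_b60, zsv_b61]
  simp [ev]

private theorem zsv_dt (s a0 a1 a2 a3 a4 a5 a6 : ℝ) :
    dotL (evE s 0 Dtf) [a0, a1, a2, a3, a4, a5, a6] = a1 - a2 := by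
  simp [Dtf, evE, dotL, ev, evL]
  ring

private theorem zsv_c1 (x y : ℝ) : ev x y c1 = 1 := by
  simp [c1, ev, evL]

private theorem zsv_dn (s a0 a1 a2 a3 a4 a5 a6 : ℝ) :
    dotL (evE s 0 Dnf) [a0, a1, a2, a3, a4, a5, a6] = a3 := by
  rw [Dnf, dotL_un, zsv_c1]
  simp

private theorem zsv_d0 (s a0 a1 a2 a3 a4 a5 a6 : ℝ) :
    dotL (evE s 0 (un 0 c1)) [a0, a1, a2, a3, a4, a5, a6] = a0 := by
  rw [dotL_un, zsv_c1]
  simp

/-- the gauge form on the states -/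
private theorem zsv_ss (x y : ℝ) (a b : ℕ) (ha : a ≤ 6) (hb : b ≤ 6) (S : List ℝ) (hS : S.length = 7) :
    qf (evE x y (ss a b)) S = S.getD a 0 * S.getD b 0 := by
  rw [ss, qf_qMul _ _ _ _ _ (by rw [un_length a ha, hS]) (by rw [un_length b hb, hS]), dotL_un, dotL_un, zsv_c1]
  ring

private theorem len10 {α : Type} {l : List α} (h : l.length = 10) :
    ∃ a b c d e f g i j k : α, l = [a, b, c, d, e, f, g, i, j, k] := by
  match l, h with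
  | [a, b, c, d, e, f, g, i, j, k], _ => exact ⟨a, b, c, d, e, f, g, i, j, k, rfl⟩

private theorem zsv_gq (x y : ℝ) (p0 p1 p2 p3 p4 p5 p6 p7 p8 p9 : P) (t e0 e1 e2 a0 a1 a2 : ℝ) :
    qf (evE x y (gq [p0, p1, p2, p3, p4, p5, p6, p7, p8, p9])) [t, e0, e1, e2, a0, a1, a2] =
      ev x y p0 * (t * t) + ev x y p1 * (t * e0) + ev x y p2 * (t * e1) + ev x y p3 * (t * e2) +
      ev x y p4 * (e0 * e0) + ev x y p5 * (e0 * e1) + ev x y p6 * (e0 * e2) + ev x y p7 * (e1 * e1) +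
      ev x y p8 * (e1 * e2) + ev x y p9 * (e2 * e2) := by
  rw [gq, qf_sumQ, prs]
  simp only [List.zipWith_cons_cons, List.zipWith_nil_left, List.map_cons, List.map_nil, List.sum_cons, List.sum_nil,
    qf_qPm]
  rw [zsv_ss _ _ 0 0 (by norm_num) (by norm_num) _ rfl, zsv_ss _ _ 0 1 (by norm_num) (by norm_num) _ rfl,
    zsv_ss _ _ 0 2 (by norm_num) (by norm_num) _ rfl, zsv_ss _ _ 0 3 (by norm_num) (by norm_num) _ rfl,
    zsv_ss _ _ 1 1 (by norm_num) (by norm_num) _ rfl, zsv_ss _ _ 1 2 (by norm_num) (by norm_num) _ rfl,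
    zsv_ss _ _ 1 3 (by norm_num) (by norm_num) _ rfl, zsv_ss _ _ 2 2 (by norm_num) (by norm_num) _ rfl,
    zsv_ss _ _ 2 3 (by norm_num) (by norm_num) _ rfl, zsv_ss _ _ 3 3 (by norm_num) (by norm_num) _ rfl]
  simp only [List.getD_cons_zero, List.getD_cons_succ]
  ring

private theorem zsv_qf4 (c0 c1 c2 c3 c4 c5 c6 c7 c8 c9 t e0 e1 e2 : ℝ) :
    qf [c0, c1, c2, c3, c4, c5, c6, c7, c8, c9] [t, e0, e1, e2] =
      c0 * (t * t) + c1 * (t * e0) + c2 * (t * e1) + c3 * (t * e2) +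
      c4 * (e0 * e0) + c5 * (e0 * e1) + c6 * (e0 * e2) + c7 * (e1 * e1) +
      c8 * (e1 * e2) + c9 * (e2 * e2) := by
  simp [qf, dotL]
  ring

private theorem zsv_gauge {σ ω s : ℝ} {v : Va ℝ} {g : Gg} (hg : gchk g = true) (h : RE (OR 0 σ) v ω s 0 g.d)
    (t e0 e1 e2 a0 a1 a2 : ℝ) :
    qf (gqS (OR 0 σ) v g.cP g.cQ) [t, e0, e1, e2] =
      ω ^ g.d * (qf (evE (1 - s) s (gq g.cP)) [t, e0, e1, e2, a0, a1, a2] +
        qf (evE (1 - s) s (gq g.cQ)) [t, e0, e1, e2, a0, a1, a2]) := by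
  simp only [gchk, Bool.and_eq_true, decide_eq_true_eq] at hg
  obtain ⟨⟨⟨⟨⟨⟨⟨⟨⟨-, -⟩, hP⟩, hQ⟩, -⟩, -⟩, lP⟩, lQ⟩, -⟩, -⟩ := hg
  have hd := h.gd
  rw [sub_zero, mul_one] at hd
  obtain ⟨p0, p1, p2, p3, p4, p5, p6, p7, p8, p9, eP⟩ := len10 lP
  obtain ⟨q0, q1, q2, q3, q4, q5, q6, q7, q8, q9, eQ⟩ := len10 lQ
  rw [eP] at hP ⊢
  rw [eQ] at hQ ⊢
  simp only [List.all_cons, List.all_nil, Bool.and_eq_true, and_true] at hP hQ
  obtain ⟨P0, P1, P2, P3, P4, P5, P6, P7, P8, P9⟩ := hP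
  obtain ⟨Q0, Q1, Q2, Q3, Q4, Q5, Q6, Q7, Q8, Q9⟩ := hQ
  rw [zsv_gq, zsv_gq]
  simp only [gqS]
  rw [zsv_qf4, hd _ P0, hd _ P1, hd _ P2, hd _ P3, hd _ P4, hd _ P5, hd _ P6, hd _ P7, hd _ P8, hd _ P9,
    hd _ Q0, hd _ Q1, hd _ Q2, hd _ Q3, hd _ Q4, hd _ Q5, hd _ Q6, hd _ Q7, hd _ Q8, hd _ Q9]
  simp only [OR]
  ring

private theorem orS (σ a b : ℝ) : (OR 0 σ).sub a b = a - b := rfl
private theorem orM (σ a b : ℝ) : (OR 0 σ).mul a b = a * b := rfl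
private theorem orN (σ : ℝ) (n : ℕ) : (OR 0 σ).nat n = (n : ℝ) := rfl

private theorem zsv_sum10 (σ : ℝ) (S : List ℝ) : ∀ L : List (List ℝ), (∀ a ∈ L, a.length = 10) →
    (sum10 (OR 0 σ) L).length = 10 ∧ qf (sum10 (OR 0 σ) L) S = (L.map fun a => qf a S).sum := by
  intro L
  induction L with
  | nil =>
    intro _
    refine ⟨by simp [sum10], ?_⟩
    rw [sum10]
    exact qf_zero 0 σ 10 S
  | cons a L ih =>
    intro hL
    obtain ⟨h1, h2⟩ := ih (fun b hb => hL b (List.mem_cons_of_mem _ hb))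
    have ha : a.length = 10 := hL a List.mem_cons_self
    have e : a.length = (sum10 (OR 0 σ) L).length := by rw [ha, h1]
    rw [sum10]
    refine ⟨?_, ?_⟩
    · rw [len_vAdd _ e, ha]
    · rw [qf_vAdd 0 σ e, h2, List.map_cons, List.sum_cons]

private theorem zsv_right (D : Int) (cP cQ : List P) (F : FD) (s t e0 e1 e2 a0 a1 a2 : ℝ) :
    qf (evE s 0 (Sst D cP cQ F)) [t, e0, e1, e2, a0, a1, a2] =
      216 * F.D * ev s 0 Ms * (qf (evE (1 - s) s (gq cP)) [t, e0, e1, e2, a0, a1, a2] +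
        qf (evE (1 - s) s (gq cQ)) [t, e0, e1, e2, a0, a1, a2]) +
      (-D) * (3 * (ev s 0 Ms * ev s 0 Ms * ev s 0 Ms * evL (1 - s) F.f0) * (t * ((6 - 3 * s) * e0 + 3 * s * e1)) +
        (7776 * evL (1 - s) F.f1 * ((e0 - e1) * (e0 - e1)) + (7776 * evL (1 - s) F.f2 * ((e0 - e1) * e2) +
        (2592 * evL (1 - s) F.f3 * (((6 - 3 * s) * e0 + 3 * s * e1) * e2) +
        (864 * evL (1 - s) F.f4 * (((6 - 3 * s) * e0 + 3 * s * e1) * ((6 - 3 * s) * e0 + 3 * s * e1)) +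
        (7776 * evL (1 - s) F.f5 * (e2 * e2) +
        2592 * evL (1 - s) F.f6 * (((6 - 3 * s) * e0 + 3 * s * e1) * (e0 - e1)))))))) := by
  have l0 : (un 0 c1).length = [t, e0, e1, e2, a0, a1, a2].length := by
    rw [un_length 0 (by norm_num)]; rfl
  have l1 : Dc3.length = [t, e0, e1, e2, a0, a1, a2].length := rfl
  have l2 : Dtf.length = [t, e0, e1, e2, a0, a1, a2].length := rfl
  have l3 : Dnf.length = [t, e0, e1, e2, a0, a1, a2].length := by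
    rw [Dnf, un_length 3 (by norm_num)]; rfl
  have hM : ev s 0 (at0 Ms) = ev s 0 Ms := by rw [ev_at0]
  have hfs : ∀ f : List Int, ev s 0 (fs f) = evL (1 - s) f := fun f => ev_fs s 0 f
  rw [Sst, qf_qAdd, qf_qPm, evE_sub0, qf_qAdd, ev_pSm, hM, qf_qSm, qf_sumQ]
  simp only [List.map_cons, List.map_nil, List.sum_cons, List.sum_nil, qf_qPm, ev_pSm, ev_pMul, hM, hfs,
    qf_qMul _ _ _ _ _ l0 l1, qf_qMul _ _ _ _ _ l2 l2, qf_qMul _ _ _ _ _ l2 l3, qf_qMul _ _ _ _ _ l1 l3,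
    qf_qMul _ _ _ _ _ l1 l1, qf_qMul _ _ _ _ _ l3 l3, qf_qMul _ _ _ _ _ l1 l2]
  rw [zsv_dc, zsv_dt, zsv_dn, zsv_d0]
  push_cast
  ring

private theorem zsv_gqlen {σ : ℝ} {v : Va ℝ} {g : Gg} (hg : gchk g = true) :
    (gqS (OR 0 σ) v g.cP g.cQ).length = 10 := by
  simp only [gchk, Bool.and_eq_true, decide_eq_true_eq] at hg
  obtain ⟨⟨⟨⟨⟨⟨⟨⟨⟨-, -⟩, -⟩, -⟩, -⟩, -⟩, lP⟩, lQ⟩, -⟩, -⟩ := hg
  obtain ⟨p0, p1, p2, p3, p4, p5, p6, p7, p8, p9, eP⟩ := len10 lP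
  obtain ⟨q0, q1, q2, q3, q4, q5, q6, q7, q8, q9, eQ⟩ := len10 lQ
  rw [eP, eQ]
  rfl

private theorem zsv_left {σ ω s : ℝ} {v : Va ℝ} {g : Gg} (hg : gchk g = true) (h : RE (OR 0 σ) v ω s 0 g.d) (F : FD)
    (nf ds : ℕ)
    (hf : ([F.f0, F.f1, F.f2, F.f3, F.f4, F.f5, F.f6].all fun f => Nat.ble f.length (nf + 1)) = true)
    (t e0 e1 e2 a0 a1 a2 : ℝ) :
    qf (SSK (OR 0 σ) g F nf ds v) [t, e0, e1, e2] =
      (((216 * Int.toNat F.D : ℕ) : ℝ) * (ω ^ 2 * ev s 0 Ms) * ω ^ (ds - (2 + g.d))) *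
        (ω ^ g.d * (qf (evE (1 - s) s (gq g.cP)) [t, e0, e1, e2, a0, a1, a2] +
        qf (evE (1 - s) s (gq g.cQ)) [t, e0, e1, e2, a0, a1, a2])) +
      (0 - (g.D : ℝ)) * (3 * ((ω ^ 2 * ev s 0 Ms) * ((ω ^ 2 * ev s 0 Ms) * (ω ^ 2 * ev s 0 Ms)) *
          ((ω ^ nf * evL (1 - s) F.f0) * ω ^ (ds - (7 + nf)))) * (t * (ω * ((6 - 3 * s) * e0 + 3 * s * e1))) +
        (7776 * (ω ^ nf * evL (1 - s) F.f1 * ω ^ (ds - nf)) * ((e0 - e1) * (e0 - e1)) +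
        (7776 * (ω ^ nf * evL (1 - s) F.f2 * ω ^ (ds - nf)) * ((e0 - e1) * e2) +
        (2592 * (ω ^ nf * evL (1 - s) F.f3 * ω ^ (ds - (nf + 1))) * ((ω * ((6 - 3 * s) * e0 + 3 * s * e1)) * e2) +
        (864 * (ω ^ nf * evL (1 - s) F.f4 * ω ^ (ds - (nf + 2))) *
          ((ω * ((6 - 3 * s) * e0 + 3 * s * e1)) * (ω * ((6 - 3 * s) * e0 + 3 * s * e1))) +
        (7776 * (ω ^ nf * evL (1 - s) F.f5 * ω ^ (ds - nf)) * (e2 * e2) +
        2592 * (ω ^ nf * evL (1 - s) F.f6 * ω ^ (ds - (nf + 1))) *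
          ((ω * ((6 - 3 * s) * e0 + 3 * s * e1)) * (e0 - e1)))))))) := by
  have hgl := zsv_gqlen (σ := σ) (v := v) hg
  have hgq := zsv_gauge hg h t e0 e1 e2 a0 a1 a2
  have hM := (lM_val h).2
  simp only [List.all_cons, List.all_nil, Bool.and_eq_true, and_true] at hf
  obtain ⟨f0, f1, f2, f3, f4, f5, f6⟩ := hf
  have F0 := zsv_fK h (Nat.le_of_ble_eq_true f0)
  have F1 := zsv_fK h (Nat.le_of_ble_eq_true f1)
  have F2 := zsv_fK h (Nat.le_of_ble_eq_true f2)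
  have F3 := zsv_fK h (Nat.le_of_ble_eq_true f3)
  have F4 := zsv_fK h (Nat.le_of_ble_eq_true f4)
  have F5 := zsv_fK h (Nat.le_of_ble_eq_true f5)
  have F6 := zsv_fK h (Nat.le_of_ble_eq_true f6)
  have q0 : dotL (d0S (OR 0 σ)) [t, e0, e1, e2] = t := by
    simp [d0S, dotL, z0, OR]
  have qn : dotL (dnS (OR 0 σ)) [t, e0, e1, e2] = e2 := by
    simp [dnS, dotL, z0, OR]
  have qt : dotL (dtS (OR 0 σ)) [t, e0, e1, e2] = e0 - e1 := by
    simp [dtS, dotL, z0, OR]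
    ring
  have b0 : ev s 0 b60 = 6 - 3 * s := by
    simp [b60, ev, evL]
    ring
  have b1 : ev s 0 b61 = 3 * s := by
    simp [b61, ev, evL]
    ring
  have qc : dotL (dcS (OR 0 σ) v) [t, e0, e1, e2] = ω * ((6 - 3 * s) * e0 + 3 * s * e1) := by
    rw [dcS, (la0_val h).2, (la1_val h).2, b0, b1]
    simp [dotL, z0, OR]
    ring
  have w0 : (d0S (OR 0 σ)).length = [t, e0, e1, e2].length := rfl
  have wn : (dnS (OR 0 σ)).length = [t, e0, e1, e2].length := rfl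
  have wt : (dtS (OR 0 σ)).length = [t, e0, e1, e2].length := rfl
  have wc : (dcS (OR 0 σ) v).length = [t, e0, e1, e2].length := rfl
  have u1 : (vMul (OR 0 σ) (d0S (OR 0 σ)) (dcS (OR 0 σ) v)).length = 10 := rfl
  have u2 : (vMul (OR 0 σ) (dtS (OR 0 σ)) (dtS (OR 0 σ))).length = 10 := rfl
  have u3 : (vMul (OR 0 σ) (dtS (OR 0 σ)) (dnS (OR 0 σ))).length = 10 := rfl
  have u4 : (vMul (OR 0 σ) (dcS (OR 0 σ) v) (dnS (OR 0 σ))).length = 10 := rfl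
  have u5 : (vMul (OR 0 σ) (dcS (OR 0 σ) v) (dcS (OR 0 σ) v)).length = 10 := rfl
  have u6 : (vMul (OR 0 σ) (dnS (OR 0 σ)) (dnS (OR 0 σ))).length = 10 := rfl
  have u7 : (vMul (OR 0 σ) (dcS (OR 0 σ) v) (dtS (OR 0 σ))).length = 10 := rfl
  rw [SSK]
  obtain ⟨hl, hs⟩ := zsv_sum10 σ [t, e0, e1, e2] _ (by
    intro a ha
    simp only [List.mem_cons, List.not_mem_nil, or_false] at ha
    rcases ha with rfl | rfl | rfl | rfl | rfl | rfl | rfl <;> rw [len_vSm] <;> assumption : ∀ a ∈ [vSm (OR 0 σ) ((OR 0 σ).mul ((OR 0 σ).nat 3) ((OR 0 σ).mul ((OR 0 σ).mul (lM (OR 0 σ) v) ((OR 0 σ).mul (lM (OR 0 σ) v) (lM (OR 0 σ) v)))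
          ((OR 0 σ).mul (fK (OR 0 σ) v nf F.f0) (pw (OR 0 σ) v.one (ds - (7 + nf)))))) (vMul (OR 0 σ) (d0S (OR 0 σ)) (dcS (OR 0 σ) v)),
        vSm (OR 0 σ) ((OR 0 σ).mul ((OR 0 σ).nat 7776) ((OR 0 σ).mul (fK (OR 0 σ) v nf F.f1) (pw (OR 0 σ) v.one (ds - nf)))) (vMul (OR 0 σ) (dtS (OR 0 σ)) (dtS (OR 0 σ))),
        vSm (OR 0 σ) ((OR 0 σ).mul ((OR 0 σ).nat 7776) ((OR 0 σ).mul (fK (OR 0 σ) v nf F.f2) (pw (OR 0 σ) v.one (ds - nf)))) (vMul (OR 0 σ) (dtS (OR 0 σ)) (dnS (OR 0 σ))),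
        vSm (OR 0 σ) ((OR 0 σ).mul ((OR 0 σ).nat 2592) ((OR 0 σ).mul (fK (OR 0 σ) v nf F.f3) (pw (OR 0 σ) v.one (ds - (nf + 1))))) (vMul (OR 0 σ) (dcS (OR 0 σ) v) (dnS (OR 0 σ))),
        vSm (OR 0 σ) ((OR 0 σ).mul ((OR 0 σ).nat 864) ((OR 0 σ).mul (fK (OR 0 σ) v nf F.f4) (pw (OR 0 σ) v.one (ds - (nf + 2))))) (vMul (OR 0 σ) (dcS (OR 0 σ) v) (dcS (OR 0 σ) v)),
        vSm (OR 0 σ) ((OR 0 σ).mul ((OR 0 σ).nat 7776) ((OR 0 σ).mul (fK (OR 0 σ) v nf F.f5) (pw (OR 0 σ) v.one (ds - nf)))) (vMul (OR 0 σ) (dnS (OR 0 σ)) (dnS (OR 0 σ))),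
        vSm (OR 0 σ) ((OR 0 σ).mul ((OR 0 σ).nat 2592) ((OR 0 σ).mul (fK (OR 0 σ) v nf F.f6) (pw (OR 0 σ) v.one (ds - (nf + 1))))) (vMul (OR 0 σ) (dcS (OR 0 σ) v) (dtS (OR 0 σ)))], a.length = 10)
  rw [qf_vAdd 0 σ (by rw [len_vSm, len_vSm, hgl, hl]), qf_vSm, qf_vSm, hgq, hs]
  simp only [List.map_cons, List.map_nil, List.sum_cons, List.sum_nil, qf_vSm]
  rw [qf_vMul 0 σ w0 wc, qf_vMul 0 σ wt wt, qf_vMul 0 σ wt wn, qf_vMul 0 σ wc wn, qf_vMul 0 σ wc wc,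
    qf_vMul 0 σ wn wn, qf_vMul 0 σ wc wt, q0, qn, qt, qc, F0, F1, F2, F3, F4, F5, F6, hM]
  have eN : ((Nat.mul 216 F.D.toNat : ℕ) : ℝ) = 216 * (F.D.toNat : ℝ) := by
    rw [Nat.mul_eq]
    push_cast
    ring
  simp only [orS, orM, orN, zsv_pw, h.one, z0, eN]
  push_cast
  ring

theorem SSK_val {σ ω s : ℝ} {v : Va ℝ} {g : Gg} (hg : gchk g = true) (h : RE (OR 0 σ) v ω s 0 g.d) (F : FD)
    (hF : 0 < F.D) {nf ds : ℕ} (h7 : 7 + nf ≤ ds) (hd : 2 + g.d ≤ ds)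
    (hf : ([F.f0, F.f1, F.f2, F.f3, F.f4, F.f5, F.f6].all fun f => Nat.ble f.length (nf + 1)) = true)
    (σ0 e0 e1 e2 a0 a1 a2 : ℝ) :
    qf (SSK (OR 0 σ) g F nf ds v) [σ0, e0, e1, e2] =
      ω ^ ds * qf (evE s 0 (Sst g.D g.cP g.cQ F)) [σ0, e0, e1, e2, a0, a1, a2] := by
  rw [zsv_left hg h F nf ds hf σ0 e0 e1 e2 a0 a1 a2, zsv_right]
  have eF : ((Int.toNat F.D : ℕ) : ℝ) = (F.D : ℝ) := by
    have := Int.toNat_of_nonneg hF.le
    exact_mod_cast this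
  have e1' : ω ^ 2 * ω ^ (ds - (2 + g.d)) * ω ^ g.d = ω ^ ds := by
    rw [← pow_add, ← pow_add]; congr 1; omega
  have e2' : ω ^ 7 * ω ^ nf * ω ^ (ds - (7 + nf)) = ω ^ ds := by
    rw [← pow_add, ← pow_add]; congr 1; omega
  have e3' : ω ^ nf * ω ^ (ds - nf) = ω ^ ds := by
    rw [← pow_add]; congr 1; omega
  have e4' : ω ^ nf * ω ^ (ds - (nf + 1)) * ω = ω ^ ds := by
    rw [← pow_add, ← pow_succ]; congr 1; omega
  have e5' : ω ^ nf * ω ^ (ds - (nf + 2)) * ω ^ 2 = ω ^ ds := by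
    rw [← pow_add, ← pow_add]; congr 1; omega
  push_cast
  rw [eF]
  generalize qf (evE (1 - s) s (gq g.cP)) [σ0, e0, e1, e2, a0, a1, a2] = P1
  generalize qf (evE (1 - s) s (gq g.cQ)) [σ0, e0, e1, e2, a0, a1, a2] = Q1
  generalize ev s 0 Ms = M
  generalize evL (1 - s) F.f0 = f0
  generalize evL (1 - s) F.f1 = f1
  generalize evL (1 - s) F.f2 = f2
  generalize evL (1 - s) F.f3 = f3
  generalize evL (1 - s) F.f4 = f4
  generalize evL (1 - s) F.f5 = f5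
  generalize evL (1 - s) F.f6 = f6
  generalize ω ^ (ds - (2 + g.d)) = W1 at e1' ⊢
  generalize ω ^ (ds - (7 + nf)) = W2 at e2' ⊢
  generalize ω ^ (ds - nf) = W3 at e3' ⊢
  generalize ω ^ (ds - (nf + 1)) = W4 at e4' ⊢
  generalize ω ^ (ds - (nf + 2)) = W5 at e5' ⊢
  generalize (6 - 3 * s) * e0 + 3 * s * e1 = Dc
  generalize ω ^ ds = W at e1' e2' e3' e4' e5' ⊢
  generalize ω ^ g.d = Wd at e1' ⊢
  generalize ω ^ nf = Wn at e2' e3' e4' e5' ⊢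
  linear_combination (216 * (F.D : ℝ) * M * (P1 + Q1)) * e1' - (g.D : ℝ) * (3 * (M * M * M * f0) * (σ0 * Dc)) * e2' -
    (g.D : ℝ) * (7776 * f1 * ((e0 - e1) * (e0 - e1)) + 7776 * f2 * ((e0 - e1) * e2) + 7776 * f5 * (e2 * e2)) * e3' -
    (g.D : ℝ) * (2592 * f3 * (Dc * e2) + 2592 * f6 * (Dc * (e0 - e1))) * e4' -
    (g.D : ℝ) * (864 * f4 * (Dc * Dc)) * e5'

end Pool.Agent.MTR
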