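import Pool.Agent.MTR.ZVA
import Pool.Agent.MTR.ZSR
import Pool.Agent.MTR.ZSV
import Pool.Agent.MTR.KRF
import Pool.Agent.MTR.FRM
import Pool.Agent.PKD.PM1
import Pool.Agent.PKD.RQF
/-!
ZFC (120 lines). Soundness of the packed side test.
PROOF. As KBX.fchk_sound: mkVs_RE gives σ, ω; contexts ⟨0, Y, Y^(9+dm), _, 0, σ⟩ and ⟨0, Y, Y^7, _, 0, σ⟩, Y = 2 rd H + 1; SK values ≥ 0 by SK_rel, nnchk_sound1 (d = 6; bound by le_mxL), so SK_nB at t = 0. MSK: L3 with bound mxL ≤ rd H gives Forall₂ (R3 ..);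
mchk_sound1 with n = 4. qf (MSK) = w qf SSK - qf grsZ; grsZ ≥ 0: induction, qf_vMul for lists of 4 (take 4 of frK; the last three entries of frK k against anything: dotL (L.take 4) [σ0,e0,e1,e2] = dotL L [σ0,..,a2] because the entries 4,5,6 of frK are z0 = 0:
prove it from frK_val or by cases k), frm_nonneg, pvo_nonneg1. SSK_val with st T a = [1/n³, e0, e1, e2, A00, A01, A11].
-/
set_option autoImplicit false

open MeasureTheory Set Metric Pool.Agent.MEIS Pool.Agent.MSQ Pool.Agent.MGE Pool.Agent.MGF Pool.Agent.PKD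

namespace Pool.Agent.MTR

private theorem zfcForall {α β : Type} {R : α → β → Prop} {p : α → Prop} {q : β → Prop}
    (h : ∀ a b, R a b → p a → q b) {A : List α} {B : List β} (hR : List.Forall₂ R A B)
    (hp : ∀ a ∈ A, p a) : ∀ b ∈ B, q b := by
  induction hR with
  | nil => intro b hb; simp at hb
  | cons h1 _ ih =>
    intro b hb
    rcases List.mem_cons.mp hb with rfl | hb
    · exact h _ _ h1 (hp _ List.mem_cons_self)
    · exact ih (fun a ha => hp a (List.mem_cons_of_mem _ ha)) b hb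

private theorem zfcZ (τ σ : ℝ) : z0 (OR τ σ) = 0 := by simp [z0, OR]

private theorem zfcSm (τ σ c a : ℝ) (l : List ℝ) :
    vSm (OR τ σ) c (a :: l) = c * a :: vSm (OR τ σ) c l := rfl
private theorem zfcSm0 (τ σ c : ℝ) : vSm (OR τ σ) c [] = [] := rfl

/-- the last three entries of the forms vanish -/
private theorem zfcTake (τ σ : ℝ) (ln ld bn bd : ℕ) (b : Bt) (v : Va ℝ) (k : ℕ)
    (x0 x1 x2 x3 x4 x5 x6 : ℝ) :
    dotL ((frK (OR τ σ) ln ld bn bd b v k).take 4) [x0, x1, x2, x3] =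
      dotL (frK (OR τ σ) ln ld bn bd b v k) [x0, x1, x2, x3, x4, x5, x6] := by
  unfold frK
  split <;>
    simp [unK, dotL, zfcZ, T6K, zfcSm, zfcSm0, List.replicate]

private theorem zfcLen4 {α : Type} (O : Ops α) {A B : List α} (hA : A.length = 4) (hB : B.length = 4) :
    (vMul O A B).length = 10 := by
  match A, B, hA, hB with
  | [a0, a1, a2, a3], [b0, b1, b2, b3], _, _ => rfl

private theorem zfcLenPr {α : Type} (O : Ops α) {F : ℕ → List α} (hF : ∀ k, (F k).length = 4) (dm K : ℕ)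
    (v : Va α) (l : List (ℕ × ℕ)) : (prZ O F dm K v l).length = 4 := by
  induction l with
  | nil => simp [prZ]
  | cons z l ih =>
    unfold prZ
    have e : (vSm O (muK O dm v K 0 z.2) (F z.1)).length = 4 := by rw [len_vSm, hF]
    rw [len_vAdd O (e.trans ih.symm), e]

private theorem zfcPr {τ σ : ℝ} {v : Va ℝ} {dm : ℕ} (hmu : ∀ K N, 1 ≤ K → 0 ≤ muK (OR τ σ) dm v K 0 N)
    {F : ℕ → List ℝ} (hF : ∀ k, (F k).length = 4) {S : List ℝ} (hp : ∀ k ≤ 11, 0 ≤ dotL (F k) S)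
    {K : ℕ} (hK : 1 ≤ K) (l : List (ℕ × ℕ)) (h : (l.all fun z => Nat.ble z.1 11) = true) :
    0 ≤ dotL (prZ (OR τ σ) F dm K v l) S := by
  induction l with
  | nil => exact (dotL_zero τ σ 4 S).ge
  | cons z l ih =>
    rw [List.all_cons, Bool.and_eq_true] at h
    unfold prZ
    rw [dotL_vAdd τ σ (by rw [len_vSm, hF, zfcLenPr _ hF]), dotL_vSm]
    exact add_nonneg (mul_nonneg (hmu _ _ hK) (hp _ (Nat.le_of_ble_eq_true h.1))) (ih h.2)

private theorem zfcGrs {τ σ : ℝ} {v : Va ℝ} {dm : ℕ} (hmu : ∀ K N, 1 ≤ K → 0 ≤ muK (OR τ σ) dm v K 0 N)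
    {F : ℕ → List ℝ} (hF : ∀ k, (F k).length = 4) {S : List ℝ} (hS : S.length = 4)
    (hp : ∀ k ≤ 11, 0 ≤ dotL (F k) S) (L : List Gr)
    (hid : (L.all fun g => Nat.ble g.i 11 && g.pr.all fun z => Nat.ble z.1 11) = true)
    (hK : (L.all fun g => Nat.ble 1 g.K) = true) : 0 ≤ qf (grsZ (OR τ σ) F dm v L) S := by
  induction L with
  | nil => exact (qf_zero τ σ 10 S).ge
  | cons g L ih =>
    rw [List.all_cons, Bool.and_eq_true] at hid hK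
    obtain ⟨hid1, hid2⟩ := hid
    obtain ⟨hK1, hK2⟩ := hK
    simp only [Bool.and_eq_true] at hid1
    have hl := zfcLenPr (OR τ σ) hF dm g.K v g.pr
    unfold grsZ
    rw [qf_vAdd τ σ (by rw [zfcLen4 _ (hF _) hl, len_grsZ _ F hF dm v L]),
      qf_vMul τ σ ((hF _).trans hS.symm) (hl.trans hS.symm)]
    exact add_nonneg (mul_nonneg (hp _ (Nat.le_of_ble_eq_true hid1.1))
      (zfcPr hmu hF hp (Nat.le_of_ble_eq_true hK1) _ hid1.2)) (ih hid2 hK2)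

theorem sfchk_sound {ln ld bn bd : ℕ} (hr : rOK (rgOf ln ld bn bd)) {g : Gg} (hg : gchk g = true) {F : FD}
    (hF : 0 < F.D) {nf : ℕ} {b : Bt} (hb : sfchk ln ld bn bd g F nf b = true)
    {T : E → ℝ} {β : ℝ} (h : TrHyp T β) (hβ : inR (rgOf ln ld bn bd) β) (s : ℝ) (hs0 : 0 ≤ s) (hs1 : s ≤ 1)
    (h0 : (b.bd.x0 : ℝ) ≤ b.bd.q * s) (h1 : b.bd.q * s < b.bd.x1) :
    0 ≤ qf (evE s 0 (Sst g.D g.cP g.cQ F)) (st T (sa (1 - s) s)) := by
  unfold sfchk at hb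
  simp only [Bool.and_eq_true] at hb
  obtain ⟨⟨⟨⟨⟨⟨⟨⟨⟨⟨⟨⟨⟨⟨⟨c1, c2⟩, c3⟩, c4⟩, c5⟩, c6⟩, c7⟩, c8⟩, c9⟩, c10⟩, c11⟩, c12⟩, c13⟩, c14⟩, c15⟩, c16⟩ := hb
  obtain ⟨σ, ω, hσ, hRE⟩ := mkVs_RE b.bd (Nat.le_of_ble_eq_true c1) (Nat.le_of_ble_eq_true c2)
    (Nat.le_of_ble_eq_true c3) g.d b.dm s h0 h1
  have hω := hRE.pos
  have h7 : 7 + nf ≤ 8 + b.dm := Nat.le_of_ble_eq_true c10
  have hd : 2 + g.d ≤ 8 + b.dm := Nat.le_of_ble_eq_true c11
  have hlen : g.cP.length = 10 ∧ g.cQ.length = 10 := by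
    simp only [gchk, Bool.and_eq_true, decide_eq_true_eq] at hg
    exact ⟨hg.1.1.1.2, hg.1.1.2⟩
  -- the bounds of n^3
  have hnB : nB (bxOf b) s 0 (nW (sa (1 - s) (s * (1 - 0)))) := by
    refine SK_nB hRE b c8 c9 (Nat.le_of_ble_eq_true c5) ?_ hs0 hs1 le_rfl zero_le_one
    have hpos : 0 < (2 * (b.rd * b.H) + 1) ^ 7 := by positivity
    have hrel := mkVs_rel ⟨0, 2 * (b.rd * b.H) + 1, (2 * (b.rd * b.H) + 1) ^ 7, hpos, 0, σ⟩ b.bd g.d b.dm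
    have hC := (SK_rel hrel.1.toR1 hrel.2 b).toC2 (κ := b.rd * b.H) (Nat.le_of_ble_eq_true c13)
    refine zfcForall (p := fun a => nnchk (2 * (b.rd * b.H) + 1) (b.rd * b.H) 7 a = true) ?_ hC ?_
    · intro a r hR hn
      exact nnchk_sound1 (d := 6) hR le_rfl rfl rfl rfl rfl hσ hn
    · exact List.all_eq_true.mp c15
  have hst : st T (sa (1 - s) s) = [1 / nW (sa (1 - s) s) ^ 3, pd 0 T (sa (1 - s) s), pd 1 T (sa (1 - s) s),
    pd 2 T (sa (1 - s) s), AA 0 0 T (sa (1 - s) s), AA 0 1 T (sa (1 - s) s), AA 1 1 T (sa (1 - s) s)] := rfl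
  have hfr : ∀ k ≤ 11, 0 ≤ dotL ((frK (OR 0 σ) ln ld bn bd b (mkVs (OR 0 σ) b.bd g.d b.dm) k).take 4)
      [1 / nW (sa (1 - s) s) ^ 3, pd 0 T (sa (1 - s) s), pd 1 T (sa (1 - s) s), pd 2 T (sa (1 - s) s)] := by
    intro k hk
    rw [zfcTake 0 σ ln ld bn bd b _ k _ _ _ _ (AA 0 0 T (sa (1 - s) s)) (AA 0 1 T (sa (1 - s) s))
      (AA 1 1 T (sa (1 - s) s)), ← hst, frK_val hRE ln ld bn bd b c8 c9 k hk _ rfl]
    have hn := frm_nonneg (rgOf ln ld bn bd) hr (bxOf b) h hβ s 0 hs0 hs1 le_rfl zero_le_one hnB k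
    rw [sub_zero, mul_one] at hn
    exact mul_nonneg (by positivity) hn
  have hmu : ∀ K N, 1 ≤ K → 0 ≤ muK (OR 0 σ) b.dm (mkVs (OR 0 σ) b.bd g.d b.dm) K 0 N := fun K N hK =>
    pvo_nonneg1 hσ K b.dm N hK
  have hF4 : ∀ k, ((frK (OR 0 σ) ln ld bn bd b (mkVs (OR 0 σ) b.bd g.d b.dm) k).take 4).length = 4 := by
    intro k
    rw [List.length_take, len_frK]
    rfl
  have hG := zfcGrs hmu hF4 (S := [1 / nW (sa (1 - s) s) ^ 3, pd 0 T (sa (1 - s) s), pd 1 T (sa (1 - s) s),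
    pd 2 T (sa (1 - s) s)]) rfl hfr b.gr c6 c7
  -- the matrix
  have hM : 0 ≤ qf (MSK (OR 0 σ) ln ld bn bd g F nf b (mkVs (OR 0 σ) b.bd g.d b.dm))
      [1 / nW (sa (1 - s) s) ^ 3, pd 0 T (sa (1 - s) s), pd 1 T (sa (1 - s) s), pd 2 T (sa (1 - s) s)] := by
    have hpos : 0 < (2 * (b.rd * b.H) + 1) ^ (9 + b.dm) := by positivity
    have hrel := mkVs_rel ⟨0, 2 * (b.rd * b.H) + 1, (2 * (b.rd * b.H) + 1) ^ (9 + b.dm), hpos, 0, σ⟩ b.bd g.d b.dm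
    have hC := (MSK_rel (ln := ln) (ld := ld) (bn := bn) (bd := bd) (F := F) (nf := nf) (b := b) h7 hd hrel.1
      hrel.2).toC2 (κ := b.rd * b.H) (Nat.le_of_ble_eq_true c14)
    have e9 : 9 + b.dm = 8 + b.dm + 1 := by omega
    refine mchk_sound1 (n := 4) (zb := b.zb) hC ?_ rfl rfl rfl ?_ hσ ?_ _ rfl
    · rw [len_MSK _ ln ld bn bd g F nf b _ hlen.1 hlen.2]
    · rw [← e9]
    · rw [← e9]
      exact c16
  have hl1 : (vSm (OR 0 σ) ((OR 0 σ).nat b.w) (SSK (OR 0 σ) g F nf (8 + b.dm)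
      (mkVs (OR 0 σ) b.bd g.d b.dm))).length = (grsZ (OR 0 σ) (fun k => (frK (OR 0 σ) ln ld bn bd b
        (mkVs (OR 0 σ) b.bd g.d b.dm) k).take 4) b.dm (mkVs (OR 0 σ) b.bd g.d b.dm) b.gr).length := by
    rw [len_vSm, len_SSK _ g F nf (8 + b.dm) _ hlen.1 hlen.2,
      len_grsZ _ (fun k => (frK (OR 0 σ) ln ld bn bd b (mkVs (OR 0 σ) b.bd g.d b.dm) k).take 4) hF4]
  rw [MSK, qf_vSub 0 σ hl1, qf_vSm, SSK_val hg hRE F hF h7 hd c12 _ _ _ _ (AA 0 0 T (sa (1 - s) s))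
    (AA 0 1 T (sa (1 - s) s)) (AA 1 1 T (sa (1 - s) s)), ← hst] at hM
  have hw : (0 : ℝ) < (OR 0 σ).nat b.w := by
    show (0 : ℝ) < (b.w : ℝ)
    have := Nat.le_of_ble_eq_true c4
    exact_mod_cast this
  have h2 : 0 ≤ (OR 0 σ).nat b.w * (ω ^ (8 + b.dm) * qf (evE s 0 (Sst g.D g.cP g.cQ F)) (st T (sa (1 - s) s))) := by
    linarith
  exact nonneg_of_mul_nonneg_right (nonneg_of_mul_nonneg_right h2 hw) (by positivity)

end Pool.Agent.MTR
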