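import Pool.Agent.MTR.Defs4
import Pool.Agent.MTR.ZFC
/-!
XSD (110 lines). Soundness of the homogeneous test of a side interval.
PROOF. Copy ZFC.sfchk_sound; only the last step differs: the matrix MSK has 10 entries [m0, m1, m2, m3 | m4, m5, m6 | m7, m8 | m9]; the first
four values are ≥ 0 (nnchk_sound for one variable as for SK), the 3 × 3 block is positive (mchk_sound for one variable, n = 3); the states
σ0 = 1/n³ > 0, e_k ≥ 0 (forms 4, 5, 6): qf = σ0² m0 + σ0 (m1 e0 + m2 e1 + m3 e2) + block.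
-/
set_option autoImplicit false

open MeasureTheory Set Metric Pool.Agent.MEIS Pool.Agent.MSQ Pool.Agent.MGE Pool.Agent.MGF Pool.Agent.PKD

namespace Pool.Agent.MTR

private theorem xsdForall {α β : Type} {R : α → β → Prop} {p : α → Prop} {q : β → Prop}
    (h : ∀ a b, R a b → p a → q b) {A : List α} {B : List β} (hR : List.Forall₂ R A B)
    (hp : ∀ a ∈ A, p a) : ∀ b ∈ B, q b := by
  induction hR with
  | nil => intro b hb; simp at hb
  | cons h1 _ ih =>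
    intro b hb
    rcases List.mem_cons.mp hb with rfl | hb
    · exact h _ _ h1 (hp _ List.mem_cons_self)
    · exact ih (fun a ha => hp a (List.mem_cons_of_mem _ ha)) b hb

private theorem xsdZ (τ σ : ℝ) : z0 (OR τ σ) = 0 := by simp [z0, OR]

private theorem xsdSm (τ σ c a : ℝ) (l : List ℝ) :
    vSm (OR τ σ) c (a :: l) = c * a :: vSm (OR τ σ) c l := rfl
private theorem xsdSm0 (τ σ c : ℝ) : vSm (OR τ σ) c [] = [] := rfl

/-- the last three entries of the forms vanish -/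
private theorem xsdTake (τ σ : ℝ) (ln ld bn bd : ℕ) (b : Bt) (v : Va ℝ) (k : ℕ)
    (x0 x1 x2 x3 x4 x5 x6 : ℝ) :
    dotL ((frK (OR τ σ) ln ld bn bd b v k).take 4) [x0, x1, x2, x3] =
      dotL (frK (OR τ σ) ln ld bn bd b v k) [x0, x1, x2, x3, x4, x5, x6] := by
  unfold frK
  split <;>
    simp [unK, dotL, xsdZ, T6K, xsdSm, xsdSm0, List.replicate]

private theorem xsdLen4 {α : Type} (O : Ops α) {A B : List α} (hA : A.length = 4) (hB : B.length = 4) :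
    (vMul O A B).length = 10 := by
  match A, B, hA, hB with
  | [a0, a1, a2, a3], [b0, b1, b2, b3], _, _ => rfl

private theorem xsdLenPr {α : Type} (O : Ops α) {F : ℕ → List α} (hF : ∀ k, (F k).length = 4) (dm K : ℕ)
    (v : Va α) (l : List (ℕ × ℕ)) : (prZ O F dm K v l).length = 4 := by
  induction l with
  | nil => simp [prZ]
  | cons z l ih =>
    unfold prZ
    have e : (vSm O (muK O dm v K 0 z.2) (F z.1)).length = 4 := by rw [len_vSm, hF]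
    rw [len_vAdd O (e.trans ih.symm), e]

private theorem xsdPr {τ σ : ℝ} {v : Va ℝ} {dm : ℕ} (hmu : ∀ K N, 1 ≤ K → 0 ≤ muK (OR τ σ) dm v K 0 N)
    {F : ℕ → List ℝ} (hF : ∀ k, (F k).length = 4) {S : List ℝ} (hp : ∀ k ≤ 11, 0 ≤ dotL (F k) S)
    {K : ℕ} (hK : 1 ≤ K) (l : List (ℕ × ℕ)) (h : (l.all fun z => Nat.ble z.1 11) = true) :
    0 ≤ dotL (prZ (OR τ σ) F dm K v l) S := by
  induction l with
  | nil => exact (dotL_zero τ σ 4 S).ge
  | cons z l ih =>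
    rw [List.all_cons, Bool.and_eq_true] at h
    unfold prZ
    rw [dotL_vAdd τ σ (by rw [len_vSm, hF, xsdLenPr _ hF]), dotL_vSm]
    exact add_nonneg (mul_nonneg (hmu _ _ hK) (hp _ (Nat.le_of_ble_eq_true h.1))) (ih h.2)

private theorem xsdGrs {τ σ : ℝ} {v : Va ℝ} {dm : ℕ} (hmu : ∀ K N, 1 ≤ K → 0 ≤ muK (OR τ σ) dm v K 0 N)
    {F : ℕ → List ℝ} (hF : ∀ k, (F k).length = 4) {S : List ℝ} (hS : S.length = 4)
    (hp : ∀ k ≤ 11, 0 ≤ dotL (F k) S) (L : List Gr)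
    (hid : (L.all fun g => Nat.ble g.i 11 && g.pr.all fun z => Nat.ble z.1 11) = true)
    (hK : (L.all fun g => Nat.ble 1 g.K) = true) : 0 ≤ qf (grsZ (OR τ σ) F dm v L) S := by
  induction L with
  | nil => exact (qf_zero τ σ 10 S).ge
  | cons g L ih =>
    rw [List.all_cons, Bool.and_eq_true] at hid hK
    obtain ⟨hid1, hid2⟩ := hid
    obtain ⟨hK1, hK2⟩ := hK
    simp only [Bool.and_eq_true] at hid1
    have hl := xsdLenPr (OR τ σ) hF dm g.K v g.pr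
    unfold grsZ
    rw [qf_vAdd τ σ (by rw [xsdLen4 _ (hF _) hl, len_grsZ _ F hF dm v L]),
      qf_vMul τ σ ((hF _).trans hS.symm) (hl.trans hS.symm)]
    exact add_nonneg (mul_nonneg (hp _ (Nat.le_of_ble_eq_true hid1.1))
      (xsdPr hmu hF hp (Nat.le_of_ble_eq_true hK1) _ hid1.2)) (ih hid2 hK2)

private theorem xsdDot : ∀ (L S : List ℝ), (∀ x ∈ L, 0 ≤ x) → (∀ x ∈ S, 0 ≤ x) → 0 ≤ dotL L S
  | [], _, _, _ => le_rfl
  | _ :: _, [], _, _ => le_rfl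
  | _ :: cs, _ :: ss, hL, hS => add_nonneg (mul_nonneg (hL _ List.mem_cons_self) (hS _ List.mem_cons_self))
      (xsdDot cs ss (fun x hx => hL x (List.mem_cons_of_mem _ hx)) (fun x hx => hS x (List.mem_cons_of_mem _ hx)))

private theorem xsdQf {M : List ℝ} {a b c d : ℝ} (hM : ∀ x ∈ M.take 4, 0 ≤ x) (ha : 0 ≤ a) (hb : 0 ≤ b)
    (hc : 0 ≤ c) (hd : 0 ≤ d) (hq : 0 ≤ qf (M.drop 4) [b, c, d]) : 0 ≤ qf M [a, b, c, d] := by
  show 0 ≤ a * dotL (M.take 4) [a, b, c, d] + qf (M.drop 4) [b, c, d]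
  refine add_nonneg (mul_nonneg ha (xsdDot _ _ hM ?_)) hq
  intro x hx
  simp only [List.mem_cons, List.not_mem_nil, or_false] at hx
  rcases hx with rfl | rfl | rfl | rfl
  · exact ha
  · exact hb
  · exact hc
  · exact hd

theorem shchk_sound {bn bd : ℕ} (hbd : 0 < bd) {g : Gg} (hg : gchk g = true) {F : FD}
    (hF : 0 < F.D) {nf : ℕ} {b : Bt} (hb : shchk bn bd g F nf b = true)
    {T : E → ℝ} {β : ℝ} (h : TrHyp T β) (hβ : inR (rgOf 0 1 bn bd) β) (s : ℝ) (hs0 : 0 ≤ s) (hs1 : s ≤ 1)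
    (h0 : (b.bd.x0 : ℝ) ≤ b.bd.q * s) (h1 : b.bd.q * s < b.bd.x1) :
    0 ≤ qf (evE s 0 (Sst g.D g.cP g.cQ F)) (st T (sa (1 - s) s)) := by
  have hr : rOK (rgOf 0 1 bn bd) := by
    refine ⟨?_, ?_, ?_⟩
    · show (0 : ℤ) ≤ ((0 : ℕ) : ℤ)
      exact le_rfl
    · show (0 : ℤ) < ((1 : ℕ) : ℤ)
      norm_num
    · show (0 : ℤ) < (bd : ℤ)
      exact_mod_cast hbd
  obtain ⟨a2n, a21, a10⟩ := sa_ord (1 - s) s (by linarith) hs0 (by linarith)
  have hne := sa_ne (1 - s) s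
  have han : ∀ k, 0 ≤ sa (1 - s) s k := by
    intro k
    fin_cases k
    · exact (a2n.trans a21).trans a10
    · exact a2n.trans a21
    · exact a2n
  have ha0 : 0 ≤ 1 / nW (sa (1 - s) s) ^ 3 := by
    have := nW_pos (1 - s) s
    positivity
  have ha1 := e_nonneg h han hne 0
  have ha2 := e_nonneg h han hne 1
  have ha3 := e_nonneg h han hne 2
  unfold shchk at hb
  simp only [Bool.and_eq_true] at hb
  obtain ⟨⟨⟨⟨⟨⟨⟨⟨⟨⟨⟨⟨⟨⟨⟨⟨c1, c2⟩, c3⟩, c4⟩, c5⟩, c6⟩, c7⟩, c8⟩, c9⟩, c10⟩, c11⟩, c12⟩, c13⟩, c14⟩, c15⟩, c17⟩, c16⟩ := hb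
  obtain ⟨σ, ω, hσ, hRE⟩ := mkVs_RE b.bd (Nat.le_of_ble_eq_true c1) (Nat.le_of_ble_eq_true c2)
    (Nat.le_of_ble_eq_true c3) g.d b.dm s h0 h1
  have hω := hRE.pos
  have h7 : 7 + nf ≤ 8 + b.dm := Nat.le_of_ble_eq_true c10
  have hd : 2 + g.d ≤ 8 + b.dm := Nat.le_of_ble_eq_true c11
  have hlen : g.cP.length = 10 ∧ g.cQ.length = 10 := by
    simp only [gchk, Bool.and_eq_true, decide_eq_true_eq] at hg
    exact ⟨hg.1.1.1.2, hg.1.1.2⟩
  -- the bounds of n^3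
  have hnB : nB (bxOf b) s 0 (nW (sa (1 - s) (s * (1 - 0)))) := by
    refine SK_nB hRE b c8 c9 (Nat.le_of_ble_eq_true c5) ?_ hs0 hs1 le_rfl zero_le_one
    have hpos : 0 < (2 * (b.rd * b.H) + 1) ^ 7 := by positivity
    have hrel := mkVs_rel ⟨0, 2 * (b.rd * b.H) + 1, (2 * (b.rd * b.H) + 1) ^ 7, hpos, 0, σ⟩ b.bd g.d b.dm
    have hC := (SK_rel hrel.1.toR1 hrel.2 b).toC2 (κ := b.rd * b.H) (Nat.le_of_ble_eq_true c13)
    refine xsdForall (p := fun a => nnchk (2 * (b.rd * b.H) + 1) (b.rd * b.H) 7 a = true) ?_ hC ?_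
    · intro a r hR hn
      exact nnchk_sound1 (d := 6) hR le_rfl rfl rfl rfl rfl hσ hn
    · exact List.all_eq_true.mp c15
  have hst : st T (sa (1 - s) s) = [1 / nW (sa (1 - s) s) ^ 3, pd 0 T (sa (1 - s) s), pd 1 T (sa (1 - s) s),
    pd 2 T (sa (1 - s) s), AA 0 0 T (sa (1 - s) s), AA 0 1 T (sa (1 - s) s), AA 1 1 T (sa (1 - s) s)] := rfl
  have hfr : ∀ k ≤ 11, 0 ≤ dotL ((frK (OR 0 σ) 0 1 bn bd b (mkVs (OR 0 σ) b.bd g.d b.dm) k).take 4)
      [1 / nW (sa (1 - s) s) ^ 3, pd 0 T (sa (1 - s) s), pd 1 T (sa (1 - s) s), pd 2 T (sa (1 - s) s)] := by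
    intro k hk
    rw [xsdTake 0 σ 0 1 bn bd b _ k _ _ _ _ (AA 0 0 T (sa (1 - s) s)) (AA 0 1 T (sa (1 - s) s))
      (AA 1 1 T (sa (1 - s) s)), ← hst, frK_val hRE 0 1 bn bd b c8 c9 k hk _ rfl]
    have hn := frm_nonneg (rgOf 0 1 bn bd) hr (bxOf b) h hβ s 0 hs0 hs1 le_rfl zero_le_one hnB k
    rw [sub_zero, mul_one] at hn
    exact mul_nonneg (by positivity) hn
  have hmu : ∀ K N, 1 ≤ K → 0 ≤ muK (OR 0 σ) b.dm (mkVs (OR 0 σ) b.bd g.d b.dm) K 0 N := fun K N hK =>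
    pvo_nonneg1 hσ K b.dm N hK
  have hF4 : ∀ k, ((frK (OR 0 σ) 0 1 bn bd b (mkVs (OR 0 σ) b.bd g.d b.dm) k).take 4).length = 4 := by
    intro k
    rw [List.length_take, len_frK]
    rfl
  have hG := xsdGrs hmu hF4 (S := [1 / nW (sa (1 - s) s) ^ 3, pd 0 T (sa (1 - s) s), pd 1 T (sa (1 - s) s),
    pd 2 T (sa (1 - s) s)]) rfl hfr b.gr c6 c7
  -- the matrix
  have hM : 0 ≤ qf (MSK (OR 0 σ) 0 1 bn bd g F nf b (mkVs (OR 0 σ) b.bd g.d b.dm))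
      [1 / nW (sa (1 - s) s) ^ 3, pd 0 T (sa (1 - s) s), pd 1 T (sa (1 - s) s), pd 2 T (sa (1 - s) s)] := by
    have hpos : 0 < (2 * (b.rd * b.H) + 1) ^ (9 + b.dm) := by positivity
    have hrel := mkVs_rel ⟨0, 2 * (b.rd * b.H) + 1, (2 * (b.rd * b.H) + 1) ^ (9 + b.dm), hpos, 0, σ⟩ b.bd g.d b.dm
    have hC := (MSK_rel (ln := 0) (ld := 1) (bn := bn) (bd := bd) (F := F) (nf := nf) (b := b) h7 hd hrel.1
      hrel.2).toC2 (κ := b.rd * b.H) (Nat.le_of_ble_eq_true c14)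
    have e9 : 9 + b.dm = 8 + b.dm + 1 := by omega
    refine xsdQf ?_ ha0 ha1 ha2 ha3 ?_
    · refine xsdForall (p := fun a => nnchk (2 * (b.rd * b.H) + 1) (b.rd * b.H) (9 + b.dm) a = true) ?_
        (List.forall₂_take 4 hC) (List.all_eq_true.mp c17)
      intro a r hR hn
      exact nnchk_sound1 (d := 8 + b.dm) hR le_rfl rfl rfl rfl (by rw [← e9]) hσ (by rw [← e9]; exact hn)
    · refine mchk_sound1 (n := 3) (zb := b.zb) (List.forall₂_drop 4 hC) ?_ rfl rfl rfl ?_ hσ ?_ _ rfl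
      · rw [List.length_drop, len_MSK _ 0 1 bn bd g F nf b _ hlen.1 hlen.2]
      · rw [← e9]
      · rw [← e9]
        exact c16
  have hl1 : (vSm (OR 0 σ) ((OR 0 σ).nat b.w) (SSK (OR 0 σ) g F nf (8 + b.dm)
      (mkVs (OR 0 σ) b.bd g.d b.dm))).length = (grsZ (OR 0 σ) (fun k => (frK (OR 0 σ) 0 1 bn bd b
        (mkVs (OR 0 σ) b.bd g.d b.dm) k).take 4) b.dm (mkVs (OR 0 σ) b.bd g.d b.dm) b.gr).length := by
    rw [len_vSm, len_SSK _ g F nf (8 + b.dm) _ hlen.1 hlen.2,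
      len_grsZ _ (fun k => (frK (OR 0 σ) 0 1 bn bd b (mkVs (OR 0 σ) b.bd g.d b.dm) k).take 4) hF4]
  rw [MSK, qf_vSub 0 σ hl1, qf_vSm, SSK_val hg hRE F hF h7 hd c12 _ _ _ _ (AA 0 0 T (sa (1 - s) s))
    (AA 0 1 T (sa (1 - s) s)) (AA 1 1 T (sa (1 - s) s)), ← hst] at hM
  have hw : (0 : ℝ) < (OR 0 σ).nat b.w := by
    show (0 : ℝ) < (b.w : ℝ)
    have := Nat.le_of_ble_eq_true c4
    exact_mod_cast this
  have h2 : 0 ≤ (OR 0 σ).nat b.w * (ω ^ (8 + b.dm) * qf (evE s 0 (Sst g.D g.cP g.cQ F)) (st T (sa (1 - s) s))) := by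
    linarith
  exact nonneg_of_mul_nonneg_right (nonneg_of_mul_nonneg_right h2 hw) (by positivity)

end Pool.Agent.MTR
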