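import Pool.Agent.MTR.XBX
import Pool.Agent.MTR.XSD
import Pool.Agent.MTR.KPT
import Pool.Agent.MTR.ZPT
/-!
XPT (110 lines). The pointwise inequalities, homogeneous case.
PROOF. Copy KPT.int_pt2 (with pay = 0: use hfchk_sound; the residual is Rst .. 0 = Rst .. (payOf false 0), payP 0 = [] up to evaluation 0)
and ZPT.side_pt2 (with shchk_sound). rOK (rgOf 0 1 bn bd) from 0 < bd.
-/
set_option autoImplicit false

open MeasureTheory Set Metric Pool.Agent.MEIS Pool.Agent.MSQ Pool.Agent.MGE Pool.Agent.MGF Pool.Agent.PKD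

namespace Pool.Agent.MTR

private theorem xpt_st (x y : ℝ) (hx : 0 < x) (hy : 0 < y) (hxy : x + y ≤ 1) :
    ∃ s t : ℝ, 0 ≤ s ∧ s < 1 ∧ 0 ≤ t ∧ t < 1 ∧ 1 - s = x ∧ s * (1 - t) = y := by
  have h : 0 < 1 - x := by linarith
  refine ⟨1 - x, 1 - y / (1 - x), h.le, by linarith, ?_, ?_, by ring, ?_⟩
  · have : y / (1 - x) ≤ 1 := (div_le_one h).2 (by linarith)
    linarith
  · have : 0 < y / (1 - x) := div_pos hy h
    linarith
  · field_simp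
    ring

theorem int_ptH {bn bd : ℕ} (hbd : 0 < bd) {g : Gg} (hg : gchk g = true) {E1 E2 E3 : P}
    (hE : cchk g E1 E2 E3 = true) (Q n : ℕ) (hQ : 0 < Q) (L : List Bn) (hq : ∀ b ∈ L, 0 < b.q)
    (hc : covQ Q L n 0 Q 0 Q = true) (hb : ∀ b ∈ L, BoxH bn bd g b) {T : E → ℝ} {β : ℝ} (h : TrHyp T β)
    (hβ : inR (rgOf 0 1 bn bd) β) {u v : ℝ} (x y : ℝ) (hx : 0 < x) (hy : 0 < y) (hxy : x + y ≤ 1)
    (he : 432 * g.D * nW (sa x y) ^ 3 * (dS T (sa x y) - u - v) = qf (evE x y (RR g.D g.cP g.cQ)) (st T (sa x y))) :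
    u + v ≤ dS T (sa x y) := by
  obtain ⟨s, t, hs0, hs1, ht0, ht1, h1, h2⟩ := xpt_st x y hx hy hxy
  have hQ' : (0 : ℝ) < Q := by exact_mod_cast hQ
  obtain ⟨b, hbL, hst⟩ := covQ_sound Q hQ L hq n 0 Q 0 Q hc s t
    (by push_cast; positivity) (by nlinarith) (by push_cast; positivity) (by nlinarith)
  obtain ⟨bt, rfl, hf⟩ := hb b hbL
  have hq2 := hfchk_sound hbd hg hE hf h hβ s t hs0 hs1.le ht0 ht1.le hst
  have hp := payP_le 0 s t hs0 hs1.le ht0 ht1.le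
  rw [Rst, qf_qAdd, evE_sub] at hq2
  rw [h1, h2] at hq2 hp
  have hst : st T (sa x y) = (1 / nW (sa x y) ^ 3) ::
      [pd 0 T (sa x y), pd 1 T (sa x y), pd 2 T (sa x y), AA 0 0 T (sa x y), AA 0 1 T (sa x y),
        AA 1 1 T (sa x y)] := rfl
  have hone : qf (evE s t [payP 0]) (st T (sa x y)) =
      ev s t (payP 0) * (1 / nW (sa x y) ^ 3) ^ 2 := by
    rw [hst]
    exact qf_one s t (payP 0) _ _
  rw [hone, ← he] at hq2
  have hn : 0 < nW (sa x y) := nW_pos x y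
  have hgD : 1 ≤ g.D := by
    unfold gchk at hg
    simp only [Bool.and_eq_true] at hg
    exact Nat.le_of_ble_eq_true hg.1.1.1.1.1.1.1.1.2
  have hD' : (0 : ℝ) < g.D := by exact_mod_cast hgD
  generalize hN : nW (sa x y) = n at hq2 hp hn
  generalize dS T (sa x y) = d at hq2 ⊢
  have hn3 : 0 < n ^ 3 := by positivity
  have e0 : ev s t (payP 0) ≤ 0 := by
    refine hp.trans (le_of_eq ?_)
    push_cast
    ring
  have e1 : ev s t (payP 0) * (1 / n ^ 3) ^ 2 ≤ 0 := mul_nonpos_of_nonpos_of_nonneg e0 (by positivity)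
  have e3 : 0 ≤ (432 * (g.D : ℝ) * n ^ 3) * (d - u - v) := by linarith
  have e4 : 0 < 432 * (g.D : ℝ) * n ^ 3 := by positivity
  have e5 : 0 ≤ d - u - v := nonneg_of_mul_nonneg_right e3 e4
  linarith

/-- the algebra of the side inequality -/
private theorem xpt_alg (D FD n Pq f0 G Dc : ℝ) (hD : 0 < D) (hF : 0 < FD) (hn : 0 < n)
    (h : 0 ≤ FD * n ^ 2 * Pq - 3 * D * (2 * n ^ 3 * (f0 * Dc) + G)) :
    1 / √2 / FD * (f0 * Dc + √2 / (√2 * n) ^ 3 * G) ≤ 1 / √2 * (1 / 6 * (Pq / (D * n))) := by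
  have h2 : (0 : ℝ) < √2 := by positivity
  have hs : √2 * √2 = (2 : ℝ) := Real.mul_self_sqrt (by norm_num)
  have e1 : √2 / (√2 * n) ^ 3 = 1 / (2 * n ^ 3) := by
    rw [div_eq_div_iff (by positivity) (by positivity)]
    calc √2 * (2 * n ^ 3) = √2 * ((√2 * √2) * n ^ 3) := by rw [hs]
      _ = 1 * (√2 * n) ^ 3 := by ring
  rw [e1]
  have e2 : 1 / √2 * (1 / 6 * (Pq / (D * n))) - 1 / √2 / FD * (f0 * Dc + 1 / (2 * n ^ 3) * G) =
      1 / √2 * ((FD * n ^ 2 * Pq - 3 * D * (2 * n ^ 3 * (f0 * Dc) + G)) / (6 * D * FD * n ^ 3)) := by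
    field_simp
    ring
  have e3 : 0 ≤ 1 / √2 * ((FD * n ^ 2 * Pq - 3 * D * (2 * n ^ 3 * (f0 * Dc) + G)) / (6 * D * FD * n ^ 3)) := by
    positivity
  linarith

private theorem xpt_b60 (s : ℝ) : ev s 0 (at0 b60) = 6 - 3 * s := by
  simp [at0, b60, ev, evL]
  ring

private theorem xpt_b61 (s : ℝ) : ev s 0 (at0 b61) = 3 * s := by
  simp [at0, b61, ev, evL]
  ring

private theorem xpt_dc (s a0 a1 a2 a3 a4 a5 a6 : ℝ) :
    dotL (evE s 0 Dc3) [a0, a1, a2, a3, a4, a5, a6] = (6 - 3 * s) * a1 + 3 * s * a2 := by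
  simp only [Dc3, evE, List.map_cons, List.map_nil, dotL, xpt_b60, xpt_b61]
  simp [ev]

private theorem xpt_dt (s a0 a1 a2 a3 a4 a5 a6 : ℝ) :
    dotL (evE s 0 Dtf) [a0, a1, a2, a3, a4, a5, a6] = a1 - a2 := by
  simp [Dtf, evE, dotL, ev, evL]
  ring

private theorem xpt_c1 (s : ℝ) : ev s 0 c1 = 1 := by
  simp [c1, ev, evL]

private theorem xpt_dn (s a0 a1 a2 a3 a4 a5 a6 : ℝ) :
    dotL (evE s 0 Dnf) [a0, a1, a2, a3, a4, a5, a6] = a3 := by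
  rw [Dnf, dotL_un, xpt_c1]
  simp

private theorem xpt_d0 (s a0 a1 a2 a3 a4 a5 a6 : ℝ) :
    dotL (evE s 0 (un 0 c1)) [a0, a1, a2, a3, a4, a5, a6] = a0 := by
  rw [dotL_un, xpt_c1]
  simp

private theorem xpt_main (D : Int) (hD : 0 < D) (cP cQ : List P) (F : FD) (hF : 0 < F.D) {T : E → ℝ} (t : ℝ)
    (hS : 0 ≤ qf (evE (1 - t) 0 (Sst D cP cQ F)) (st T (sa (1 - (1 - t)) (1 - t)))) :
    FFd F t (pd 0 T (pt ((1 + t) / 2) ((1 - t) / 2) 0)) (pd 1 T (pt ((1 + t) / 2) ((1 - t) / 2) 0))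
      (pd 2 T (pt ((1 + t) / 2) ((1 - t) / 2) 0)) ≤
      1 / √2 * (1 / 6 * (gV D cP T t (1 - t) + gV D cQ T t (1 - t))) := by
  have hst : st T (sa (1 - (1 - t)) (1 - t)) = st T (sa t (1 - t)) := by
    rw [sub_sub_cancel]
  rw [hst] at hS
  have hM : ev (1 - t) 0 (at0 Ms) = 12 * nW (sa t (1 - t)) ^ 2 := by
    rw [ev_at0, ev_Ms]
    congr 4
    · ring
    · ring
  have hg : qf (evE (1 - t) 0 ((qAdd (gq cP) (gq cQ)).map fun p => at0 (sub2 xs ys p))) (st T (sa t (1 - t))) =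
      qf (evE t (1 - t) (gq cP)) (st T (sa t (1 - t))) + qf (evE t (1 - t) (gq cQ)) (st T (sa t (1 - t))) := by
    rw [evE_sub0, sub_sub_cancel, qf_qAdd]
  have hlen : (st T (sa t (1 - t))).length = 7 := rfl
  have hfs : ∀ f : List Int, ev (1 - t) 0 (fs f) = evL t f := fun f => by
    rw [ev_fs, sub_sub_cancel]
  have hn : 0 < nW (sa t (1 - t)) := nW_pos _ _
  have hX : st T (sa t (1 - t)) = [1 / nW (sa t (1 - t)) ^ 3, pd 0 T (sa t (1 - t)), pd 1 T (sa t (1 - t)),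
    pd 2 T (sa t (1 - t)), AA 0 0 T (sa t (1 - t)), AA 0 1 T (sa t (1 - t)), AA 1 1 T (sa t (1 - t))] := rfl
  have l0 : (un 0 c1).length = (st T (sa t (1 - t))).length := by
    rw [hlen, un_length 0 (by norm_num)]
  have l1 : Dc3.length = (st T (sa t (1 - t))).length := rfl
  have l2 : Dtf.length = (st T (sa t (1 - t))).length := rfl
  have l3 : Dnf.length = (st T (sa t (1 - t))).length := by
    rw [hlen, Dnf, un_length 3 (by norm_num)]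
  rw [Sst, qf_qAdd, qf_qPm, hg, ev_pSm, hM, qf_qSm, qf_sumQ] at hS
  simp only [List.map_cons, List.map_nil, List.sum_cons, List.sum_nil, qf_qPm, ev_pSm, ev_pMul, hM, hfs,
    qf_qMul _ _ _ _ _ l0 l1, qf_qMul _ _ _ _ _ l2 l2, qf_qMul _ _ _ _ _ l2 l3, qf_qMul _ _ _ _ _ l1 l3,
    qf_qMul _ _ _ _ _ l1 l1, qf_qMul _ _ _ _ _ l3 l3, qf_qMul _ _ _ _ _ l1 l2] at hS
  generalize hP : qf (evE t (1 - t) (gq cP)) (st T (sa t (1 - t))) = P1 at hS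
  generalize hQ : qf (evE t (1 - t) (gq cQ)) (st T (sa t (1 - t))) = Q1 at hS
  rw [hX] at hS
  rw [xpt_dc, xpt_dt, xpt_dn, xpt_d0] at hS
  rw [← sa_side, FFd, FF, lt_side, gV, gV, hP, hQ, ← add_div]
  refine xpt_alg (D : ℝ) (F.D : ℝ) (nW (sa t (1 - t))) (P1 + Q1) (evL t F.f0) _ _ (by exact_mod_cast hD)
    (by exact_mod_cast hF) hn ?_
  have hτ : (nW (sa t (1 - t))) ^ 3 * (1 / nW (sa t (1 - t)) ^ 3) = 1 := by
    field_simp
  generalize hnn : nW (sa t (1 - t)) = n at hS hτ ⊢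
  generalize hττ : 1 / n ^ 3 = τ at hS hτ ⊢
  generalize pd 0 T (sa t (1 - t)) = e0 at hS ⊢
  generalize pd 1 T (sa t (1 - t)) = e1 at hS ⊢
  generalize pd 2 T (sa t (1 - t)) = e2 at hS ⊢
  have key : 2592 * ((F.D : ℝ) * n ^ 2 * (P1 + Q1) - 3 * D * (2 * n ^ 3 * (evL t F.f0 * ((1 + t) * e0 + (1 - t) * e1)) +
      (evL t F.f1 * (e0 - e1) ^ 2 + evL t F.f2 * ((e0 - e1) * e2) +
      evL t F.f3 * (((1 + t) * e0 + (1 - t) * e1) * e2) + evL t F.f4 * ((1 + t) * e0 + (1 - t) * e1) ^ 2 +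
      evL t F.f5 * e2 ^ 2 + evL t F.f6 * (((1 + t) * e0 + (1 - t) * e1) * (e0 - e1))))) =
      2592 * ((F.D : ℝ) * n ^ 2 * (P1 + Q1) - 3 * D * (2 * n ^ 3 * (n ^ 3 * τ) * (evL t F.f0 * ((1 + t) * e0 + (1 - t) * e1)) +
      (evL t F.f1 * (e0 - e1) ^ 2 + evL t F.f2 * ((e0 - e1) * e2) +
      evL t F.f3 * (((1 + t) * e0 + (1 - t) * e1) * e2) + evL t F.f4 * ((1 + t) * e0 + (1 - t) * e1) ^ 2 +
      evL t F.f5 * e2 ^ 2 + evL t F.f6 * (((1 + t) * e0 + (1 - t) * e1) * (e0 - e1))))) := by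
    rw [hτ]
    ring
  have hS2 : 0 ≤ 2592 * ((F.D : ℝ) * n ^ 2 * (P1 + Q1) - 3 * D * (2 * n ^ 3 * (evL t F.f0 * ((1 + t) * e0 + (1 - t) * e1)) +
      (evL t F.f1 * (e0 - e1) ^ 2 + evL t F.f2 * ((e0 - e1) * e2) +
      evL t F.f3 * (((1 + t) * e0 + (1 - t) * e1) * e2) + evL t F.f4 * ((1 + t) * e0 + (1 - t) * e1) ^ 2 +
      evL t F.f5 * e2 ^ 2 + evL t F.f6 * (((1 + t) * e0 + (1 - t) * e1) * (e0 - e1))))) := by
    rw [key]
    refine hS.trans (le_of_eq ?_)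
    push_cast
    ring
  linarith

theorem side_ptH {bn bd : ℕ} (hbd : 0 < bd) {g : Gg} (hg : gchk g = true) (F : FD)
    (hF : 0 < F.D) (LS : List Bn) (hc : chn 0 1 LS = true) (hb : ∀ b ∈ LS, SideH bn bd g F b)
    {T : E → ℝ} {β : ℝ} (h : TrHyp T β) (hβ : inR (rgOf 0 1 bn bd) β) (t : ℝ) (ht0 : 0 < t) (ht1 : t ≤ 1) :
    FFd F t (pd 0 T (pt ((1 + t) / 2) ((1 - t) / 2) 0)) (pd 1 T (pt ((1 + t) / 2) ((1 - t) / 2) 0))
      (pd 2 T (pt ((1 + t) / 2) ((1 - t) / 2) 0)) ≤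
      1 / √2 * (1 / 6 * (gV g.D g.cP T t (1 - t) + gV g.D g.cQ T t (1 - t))) := by
  obtain ⟨b, hbL, h0, h1⟩ := chn_sound LS 0 1 one_pos hc (1 - t) (by push_cast; linarith) (by linarith)
  obtain ⟨bt, nf, rfl, hs⟩ := hb b hbL
  have hS := shchk_sound hbd hg hF hs h hβ (1 - t) (by linarith) (by linarith) h0 h1
  have hgD : 1 ≤ g.D := by
    unfold gchk at hg
    simp only [Bool.and_eq_true] at hg
    exact Nat.le_of_ble_eq_true hg.1.1.1.1.1.1.1.1.2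
  exact xpt_main g.D (by exact_mod_cast hgD) g.cP g.cQ F hF t hS

end Pool.Agent.MTR
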