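import Pool.Agent.MTR.Defs4
import Pool.Agent.MTR.QML
/-!
XQF (110 lines). The part of a quadratic form which is linear in `τ` and `A`.
PROOF. Lists of length 28 resp. 7 are destructed completely (match / obtain with explicit entries); qf is then an
explicit polynomial (simp only [qf, dotL], see KMC.lean for how qf of an explicit list of 28 is unfolded).
cA_of_qf: polarization: cA q a0 a1 a2 = qf q [1,0,0,0,a0,a1,a2] - qf q [0,0,0,0,a0,a1,a2] - qf q [1,0,0,0,0,0,0].
len_Rst: Rst = qAdd (map (sub2 xs ys) RR) [payP]; RR = sumQ [...] with first element of length 28 (qMul_length, see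
QML.lean / TIE.lean / RES.lean for lengths), dvx, dvy have length 28, zipWith over at most 10 entries; the length of addL is the maximum.
-/
set_option autoImplicit false

open MeasureTheory Set Metric Pool.Agent.MEIS Pool.Agent.MSQ Pool.Agent.MGE Pool.Agent.MGF Pool.Agent.PKD

namespace Pool.Agent.MTR

private theorem xq_list28 {α : Type} (l : List α) (h : l.length = 28) :
    ∃ f0 f1 f2 f3 f4 f5 f6 : α, ∃ r : List α, l = f0 :: f1 :: f2 :: f3 :: f4 :: f5 :: f6 :: r ∧ r.length = 21 := by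
  match l, h with
  | f0 :: f1 :: f2 :: f3 :: f4 :: f5 :: f6 :: r, h =>
    exact ⟨f0, f1, f2, f3, f4, f5, f6, r, rfl, by simpa using h⟩

private theorem xq_step (M : List ℝ) (x : ℝ) (v : List ℝ) :
    qf M (x :: v) = x * dotL (M.take (v.length + 1)) (x :: v) + qf (M.drop (v.length + 1)) v := by
  rw [qf]

private theorem xq_form (f0 f1 f2 f3 f4 f5 f6 σ0 e0 e1 e2 a0 a1 a2 : ℝ) (FR : List ℝ) :
    qf (f0 :: f1 :: f2 :: f3 :: f4 :: f5 :: f6 :: FR) [σ0, e0, e1, e2, a0, a1, a2] =
      σ0 * (f0 * σ0 + (f1 * e0 + (f2 * e1 + (f3 * e2 + (f4 * a0 + (f5 * a1 + (f6 * a2 + 0))))))) +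
        qf FR [e0, e1, e2, a0, a1, a2] := by
  rw [xq_step]
  have h1 : (List.length [e0, e1, e2, a0, a1, a2] + 1) = 7 := rfl
  rw [h1]
  have h2 : (f0 :: f1 :: f2 :: f3 :: f4 :: f5 :: f6 :: FR).drop 7 = FR := by simp
  have h3 : (f0 :: f1 :: f2 :: f3 :: f4 :: f5 :: f6 :: FR).take 7 = [f0, f1, f2, f3, f4, f5, f6] := by simp
  rw [h2, h3]
  simp only [dotL]

private theorem xq_cA (f0 f1 f2 f3 f4 f5 f6 a0 a1 a2 : ℝ) (FR : List ℝ) :
    cA (f0 :: f1 :: f2 :: f3 :: f4 :: f5 :: f6 :: FR) a0 a1 a2 = f4 * a0 + f5 * a1 + f6 * a2 := rfl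

theorem cA_of_qf {r q : List ℝ} {c : ℝ} (hr : r.length = 28) (hq : q.length = 28)
    (h : ∀ S : List ℝ, S.length = 7 → qf r S = c * qf q S) (a0 a1 a2 : ℝ) :
    cA r a0 a1 a2 = c * cA q a0 a1 a2 := by
  obtain ⟨f0, f1, f2, f3, f4, f5, f6, FR, rfl, -⟩ := xq_list28 r hr
  obtain ⟨g0, g1, g2, g3, g4, g5, g6, GR, rfl, -⟩ := xq_list28 q hq
  have h1 := h [1, 0, 0, 0, a0, a1, a2] rfl
  have h2 := h [0, 0, 0, 0, a0, a1, a2] rfl
  have h3 := h [1, 0, 0, 0, 0, 0, 0] rfl
  have h4 := h [0, 0, 0, 0, 0, 0, 0] rfl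
  rw [xq_form, xq_form] at h1 h2 h3 h4
  rw [xq_cA, xq_cA]
  linear_combination h1 - h2 - h3 + h4

theorem len_z456 {α : Type} (z : α) {r : List α} (hr : r.length = 28) : (z456 z r).length = 28 := by
  simp only [z456, List.length_append, List.length_cons, List.length_take, List.length_drop, hr]
  norm_num

theorem qf_z456 {r : List ℝ} (hr : r.length = 28) (σ0 e0 e1 e2 a0 a1 a2 : ℝ) :
    qf (z456 0 r) [σ0, e0, e1, e2, a0, a1, a2] = qf r [σ0, e0, e1, e2, a0, a1, a2] - σ0 * cA r a0 a1 a2 := by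
  obtain ⟨f0, f1, f2, f3, f4, f5, f6, FR, rfl, -⟩ := xq_list28 r hr
  have e : z456 0 (f0 :: f1 :: f2 :: f3 :: f4 :: f5 :: f6 :: FR) =
      f0 :: f1 :: f2 :: f3 :: 0 :: 0 :: 0 :: FR := by simp [z456]
  rw [e, xq_form, xq_form, xq_cA]
  ring

theorem dotL_cA {r : List ℝ} (hr : r.length = 28) (σ0 e0 e1 e2 a0 a1 a2 : ℝ) :
    dotL (0 :: 0 :: 0 :: 0 :: (r.drop 4).take 3) [σ0, e0, e1, e2, a0, a1, a2] = cA r a0 a1 a2 := by
  obtain ⟨f0, f1, f2, f3, f4, f5, f6, FR, rfl, -⟩ := xq_list28 r hr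
  have e : ((f0 :: f1 :: f2 :: f3 :: f4 :: f5 :: f6 :: FR).drop 4).take 3 = [f4, f5, f6] := by simp
  rw [e, xq_cA]
  simp only [dotL]
  ring

private theorem xq_addL {α : Type} (f : α → α → α) (A B : List α) :
    (addL f A B).length = max A.length B.length := by
  induction A generalizing B with
  | nil => simp [addL]
  | cons a s ih =>
    cases B with
    | nil => simp [addL]
    | cons b t => simp [addL, ih, Nat.add_max_add_right]

private theorem xq_qAdd (A B : List P) : (qAdd A B).length = max A.length B.length := xq_addL _ A B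

private theorem xq_sumQ (L : List (List P)) (h : ∀ A ∈ L, A.length ≤ 28) : (sumQ L).length ≤ 28 := by
  induction L with
  | nil => simp [sumQ]
  | cons A L ih =>
    have h1 := ih fun B hB => h B (List.mem_cons_of_mem _ hB)
    have h2 := h A List.mem_cons_self
    have e : sumQ (A :: L) = qAdd A (sumQ L) := rfl
    rw [e, xq_qAdd]
    exact max_le h2 h1

private theorem xq_qMul {L M : List P} (hL : L.length = 7) (hM : M.length = 7) : (qMul L M).length = 28 := by
  match L, hL, M, hM with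
  | [_, _, _, _, _, _, _], _, [_, _, _, _, _, _, _], _ => simp [qMul, rowM]

private theorem xq_dx (k : ℕ) : (mdx k).length = 7 := by
  cases k with
  | zero => exact un_length 0 (by norm_num) _
  | succ k =>
    show (qPm Mp (d36 4 (-2) k)).length = 7
    rw [qPm_length]
    rfl

private theorem xq_dy (k : ℕ) : (mdy k).length = 7 := by
  cases k with
  | zero => exact un_length 0 (by norm_num) _
  | succ k =>
    show (qPm Mp (d36 1 1 k)).length = 7
    rw [qPm_length]
    rfl

private theorem xq_dvx (c : P) (α β : ℕ) (hα : α ≤ 6) (hβ : β ≤ 6) : (dvx c α β).length ≤ 28 := by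
  have u1 := un_length α hα c1
  have u2 := un_length β hβ c1
  unfold dvx ss
  refine xq_sumQ _ ?_
  intro A hA
  simp only [List.mem_cons, List.not_mem_nil, or_false] at hA
  rcases hA with rfl | rfl | rfl | rfl
  · rw [qPm_length, xq_qMul u1 u2]
  · rw [qPm_length, xq_qMul (xq_dx α) u2]
  · rw [qPm_length, xq_qMul u1 (xq_dx β)]
  · rw [qPm_length, xq_qMul u1 u2]

private theorem xq_dvy (c : P) (α β : ℕ) (hα : α ≤ 6) (hβ : β ≤ 6) : (dvy c α β).length ≤ 28 := by
  have u1 := un_length α hα c1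
  have u2 := un_length β hβ c1
  unfold dvy ss
  refine xq_sumQ _ ?_
  intro A hA
  simp only [List.mem_cons, List.not_mem_nil, or_false] at hA
  rcases hA with rfl | rfl | rfl | rfl
  · rw [qPm_length, xq_qMul u1 u2]
  · rw [qPm_length, xq_qMul (xq_dy α) u2]
  · rw [qPm_length, xq_qMul u1 (xq_dy β)]
  · rw [qPm_length, xq_qMul u1 u2]

private theorem xq_zip (f : P → ℕ × ℕ → List P) (c : List P) (Z : List (ℕ × ℕ))
    (hf : ∀ p, ∀ z ∈ Z, (f p z).length ≤ 28) : ∀ A ∈ List.zipWith f c Z, A.length ≤ 28 := by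
  induction c generalizing Z with
  | nil => intro A hA; simp at hA
  | cons p ps ih =>
    cases Z with
    | nil => intro A hA; simp at hA
    | cons z zs =>
      intro A hA
      rw [List.zipWith_cons_cons, List.mem_cons] at hA
      rcases hA with rfl | hA
      · exact hf p z List.mem_cons_self
      · exact ih zs (fun p z hz => hf p z (List.mem_cons_of_mem _ hz)) A hA

private theorem xq_prs (z : ℕ × ℕ) (hz : z ∈ prs) : z.1 ≤ 6 ∧ z.2 ≤ 6 := by
  simp only [prs, List.mem_cons, List.not_mem_nil, or_false] at hz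
  rcases hz with rfl | rfl | rfl | rfl | rfl | rfl | rfl | rfl | rfl | rfl <;> norm_num

private theorem xq_RR (D : Int) (cP cQ : List P) : (RR D cP cQ).length = 28 := by
  have hT : T6.length = 7 := rfl
  have hL : L72.length = 7 := rfl
  have a1 : (qSm (12 * D) (qPm Mp (qMul (un 0 c1) T6))).length = 28 := by
    rw [qSm_length, qPm_length, xq_qMul (un_length 0 (by norm_num) c1) hT]
  have a2 : (qSm D (qMul T6 L72)).length = 28 := by rw [qSm_length, xq_qMul hT hL]
  have a3 : (qSm (-1) (sumQ (List.zipWith (fun p ab => dvx p ab.1 ab.2) cP prs))).length ≤ 28 := by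
    rw [qSm_length]
    exact xq_sumQ _ (xq_zip _ _ _ fun p z hz => xq_dvx p z.1 z.2 (xq_prs z hz).1 (xq_prs z hz).2)
  have a4 : (qSm (-1) (sumQ (List.zipWith (fun p ab => dvy p ab.1 ab.2) cQ prs))).length ≤ 28 := by
    rw [qSm_length]
    exact xq_sumQ _ (xq_zip _ _ _ fun p z hz => xq_dvy p z.1 z.2 (xq_prs z hz).1 (xq_prs z hz).2)
  have e : RR D cP cQ = qAdd (qSm (12 * D) (qPm Mp (qMul (un 0 c1) T6))) (qAdd (qSm D (qMul T6 L72))
      (qAdd (qSm (-1) (sumQ (List.zipWith (fun p ab => dvx p ab.1 ab.2) cP prs)))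
        (qAdd (qSm (-1) (sumQ (List.zipWith (fun p ab => dvy p ab.1 ab.2) cQ prs))) []))) := rfl
  rw [e]
  simp only [xq_qAdd, a1, a2, List.length_nil]
  omega

theorem len_Rst (D : Int) (cP cQ : List P) (pay : Int) : (Rst D cP cQ pay).length = 28 := by
  unfold Rst
  rw [xq_qAdd, List.length_map, xq_RR]
  rfl

end Pool.Agent.MTR
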