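import Pool.Agent.MTR.Defs3
import Pool.Agent.MTR.KVA
import Pool.Agent.MTR.KRE
/-!
ZVA (100 lines). The basic values of a side interval.
PROOF. As KVA.mkVa_rel: all values have degree ≤ 1 in each variable (R3.Y, R3.nat, R3.mono); g3: tens_rel of mkV_rel and [nat 1]; gm: one row. Real values: σ = (q s - x0)/(x1 - q s), ω = q (1 + σ), t = 0, τ = 0; as KRE.mkVa_RE:
xx = ω (1 - s), yy = ω s = ω (s (1 - 0)); g3: rows a^i A^(3-i) with inner list [1]: dI [1] r = first entry of r = evL 0 r (0 if r = []), so pvI = ω³ ev s 0 p for len3 p. gd, ge by the lemma on triR used in KRE.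
-/
set_option autoImplicit false

open MeasureTheory Set Metric Pool.Agent.MEIS Pool.Agent.MSQ Pool.Agent.MGE Pool.Agent.MGF Pool.Agent.PKD

namespace Pool.Agent.MTR

private theorem zv_uA (C : Cx) (b : Bn) : R3 C 0 1 (uA C.om b) (uA C.rr b) (uA ON b) :=
  (R3.nat C 0 0 b.q).mul ((R3.nat C 0 1 1).add (R3.Y C 0 1 le_rfl))
private theorem zv_ua (C : Cx) (b : Bn) : R3 C 0 1 (ua C.om b) (ua C.rr b) (ua ON b) :=
  (R3.nat C 0 1 b.x0).add ((R3.nat C 0 0 b.x1).mul (R3.Y C 0 1 le_rfl))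
private theorem zv_uc (C : Cx) (b : Bn) : R3 C 0 1 (uc C.om b) (uc C.rr b) (uc ON b) :=
  (R3.nat C 0 1 (Nat.sub b.q b.x0)).add ((R3.nat C 0 0 (Nat.sub b.q b.x1)).mul (R3.Y C 0 1 le_rfl))

private theorem zv_mono {C : Cx} {n m n' m' : ℕ} {u w : List (ℕ × List ℕ)} {v : List (ℝ × List ℝ)}
    (h : RG C n m u v w) (hn : n ≤ n') (hm : m ≤ m') : RG C n' m' u v w := by
  refine F3.imp ?_ h
  rintro x y z ⟨n1, m1, n2, m2, h1, h2, h3, h4⟩
  exact ⟨n1, m1, n2, m2, h1.trans hn, h2.trans hm, h3, h4⟩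

theorem mkVs_rel (C : Cx) (b : Bn) (d dm : ℕ) :
    RV C d (mkVs C.om b d dm) (mkVs C.rr b d dm) (mkVs ON b d dm) ∧
      RW C dm (mkVs C.om b d dm) (mkVs C.rr b d dm) (mkVs ON b d dm) := by
  have hA := zv_uA C b
  have ha := zv_ua C b
  have hc := zv_uc C b
  refine ⟨⟨⟨hA.mono (Nat.zero_le _) le_rfl le_rfl, hc.mono (Nat.zero_le _) le_rfl le_rfl,
    ha.mono (Nat.zero_le _) le_rfl le_rfl⟩, ?_, ?_⟩, ⟨?_, ?_⟩⟩
  · exact zv_mono (triR_rel hc ha hA d 0 0 (R3.nat C 0 0 1)) (by omega) (by omega)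
  · exact zv_mono (triR_rel hc ha hA (d - 1) 0 0 (R3.nat C 0 0 1)) (by omega) (by omega)
  · exact zv_mono (tens_rel (mkV_rel ha hA 3) (F3.cons (R3.nat C 0 0 1) F3.nil)) (by omega) (by omega)
  · exact F3.cons ⟨0, 0, dm * 0, dm * 1, by omega, by omega, R3.nat C 0 0 1,
      mkV_rel (R3.Y C 0 1 le_rfl) (R3.nat C 0 1 1) dm⟩ F3.nil

private theorem zv_pw (τ σ A : ℝ) : ∀ n : ℕ, pw (OR τ σ) A n = A ^ n := by
  intro n
  induction n with
  | zero => simp [pw, OR]
  | succ n ih => rw [pw, ih, pow_succ']; rfl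

private theorem zdI_nil (τ σ : ℝ) (l : List ℤ) : dI (OR τ σ) [] l = 0 := by
  show ((0 : ℕ) : ℝ) = 0
  simp

private theorem zdI_cons_nil (τ σ y : ℝ) (v : List ℝ) : dI (OR τ σ) (y :: v) [] = 0 := by
  show ((0 : ℕ) : ℝ) = 0
  simp

private theorem zdI_cons (τ σ y : ℝ) (v : List ℝ) (c : ℤ) (l : List ℤ) :
    dI (OR τ σ) (y :: v) (c :: l) = c * y + dI (OR τ σ) v l := by
  cases c with
  | ofNat n =>
    show (n : ℝ) * y + dI (OR τ σ) v l = ((n : ℤ) : ℝ) * y + dI (OR τ σ) v l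
    simp
  | negSucc n =>
    show dI (OR τ σ) v l - ((Nat.succ n : ℕ) : ℝ) * y = ((Int.negSucc n : ℤ) : ℝ) * y + dI (OR τ σ) v l
    rw [Int.cast_negSucc]
    push_cast
    ring

private theorem zdI_nil_right (τ σ : ℝ) (v : List ℝ) : dI (OR τ σ) v [] = 0 := by
  cases v with
  | nil => exact zdI_nil τ σ []
  | cons y v => exact zdI_cons_nil τ σ y v

private theorem zdI_map (τ σ c : ℝ) : ∀ (v : List ℝ) (l : List ℤ),
    dI (OR τ σ) (v.map ((OR τ σ).mul c)) l = c * dI (OR τ σ) v l := by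
  intro v
  induction v with
  | nil => intro l; simp [zdI_nil]
  | cons y v ih =>
    intro l
    cases l with
    | nil => simp [zdI_nil_right]
    | cons a l =>
      rw [List.map_cons, zdI_cons, zdI_cons, ih l]
      show (a : ℝ) * (c * y) + c * dI (OR τ σ) v l = _
      ring

private theorem zdI_mkV (τ σ A s : ℝ) : ∀ (n : ℕ) (l : List ℤ), l.length ≤ n + 1 →
    dI (OR τ σ) (mkV (OR τ σ) (A * s) A n) l = A ^ n * evL s l := by
  intro n
  induction n with
  | zero =>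
    intro l hl
    cases l with
    | nil => simp [zdI_nil_right, evL]
    | cons a l =>
      have : l = [] := by
        simp only [List.length_cons] at hl
        exact List.length_eq_zero_iff.mp (by omega)
      subst this
      rw [mkV, zdI_cons, zdI_nil]
      simp [evL, OR]
  | succ n ih =>
    intro l hl
    cases l with
    | nil => simp [zdI_nil_right, evL]
    | cons a l =>
      simp only [List.length_cons] at hl
      rw [mkV, zdI_cons, zdI_map, ih l (by omega), zv_pw, evL]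
      ring

private theorem zpvI_nil (τ σ : ℝ) (p : List (List ℤ)) : pvI (OR τ σ) [] p = 0 := by
  show ((0 : ℕ) : ℝ) = 0
  simp

private theorem zpvI_nil_right (τ σ : ℝ) (u : List (ℝ × List ℝ)) : pvI (OR τ σ) u [] = 0 := by
  cases u with
  | nil => exact zpvI_nil τ σ []
  | cons y v =>
    show ((0 : ℕ) : ℝ) = 0
    simp

private theorem zpvI_cons (τ σ : ℝ) (x : ℝ × List ℝ) (u : List (ℝ × List ℝ)) (r : List ℤ) (p : List (List ℤ)) :
    pvI (OR τ σ) (x :: u) (r :: p) = x.1 * dI (OR τ σ) x.2 r + pvI (OR τ σ) u p := rfl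

private theorem zpvI_map (τ σ c : ℝ) (v : List ℝ) : ∀ (u : List ℝ) (p : List (List ℤ)),
    pvI (OR τ σ) (tens (u.map ((OR τ σ).mul c)) v) p = c * pvI (OR τ σ) (tens u v) p := by
  intro u
  induction u with
  | nil => intro p; simp [tens, zpvI_nil]
  | cons y u ih =>
    intro p
    cases p with
    | nil => simp [zpvI_nil_right]
    | cons r p =>
      have h := ih p
      simp only [tens, List.map_cons] at h ⊢
      rw [zpvI_cons, zpvI_cons, h]
      show c * y * dI (OR τ σ) v r + c * _ = _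
      ring

private theorem zpvI_tens (τ σ A s t c : ℝ) (v : List ℝ) : ∀ (n : ℕ) (p : List (List ℤ)), p.length ≤ n + 1 →
    (∀ r ∈ p, dI (OR τ σ) v r = c * evL t r) →
    pvI (OR τ σ) (tens (mkV (OR τ σ) (A * s) A n) v) p = A ^ n * c * ev s t p := by
  intro n
  induction n with
  | zero =>
    intro p hp hr
    cases p with
    | nil => simp [zpvI_nil_right, ev]
    | cons r p =>
      have : p = [] := by
        simp only [List.length_cons] at hp
        exact List.length_eq_zero_iff.mp (by omega)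
      subst this
      rw [mkV, tens, List.map_cons, List.map_nil, zpvI_cons, zpvI_nil, hr r (by simp)]
      simp [ev, OR]
  | succ n ih =>
    intro p hp hr
    cases p with
    | nil => simp [zpvI_nil_right, ev]
    | cons r p =>
      simp only [List.length_cons] at hp
      have h1 := zpvI_map τ σ (A * s) v (mkV (OR τ σ) (A * s) A n) p
      have h2 := ih p (by omega) (fun r' h' => hr r' (by simp [h']))
      rw [h2] at h1
      rw [mkV]
      simp only [tens, List.map_cons] at h1 ⊢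
      rw [zpvI_cons, h1, ev]
      simp only
      rw [hr r (by simp), zv_pw]
      ring

private theorem zev_empty (x y : ℝ) : ∀ l : List (List ℤ), (l.all fun r => r.isEmpty) = true → ev x y l = 0 := by
  intro l
  induction l with
  | nil => intro _; rfl
  | cons r l ih =>
    intro h
    simp only [List.all_cons, Bool.and_eq_true, List.isEmpty_iff] at h
    rw [ev, h.1, ih h.2]
    simp [evL]

private theorem zpvI_tri (τ σ w X Y : ℝ) : ∀ (k : ℕ) (c : ℝ) (p : List (List ℤ)), lenOK k p = true →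
    pvI (OR τ σ) (triR (OR τ σ) (w * X) (w * Y) w k c) p = c * w ^ k * ev X Y p := by
  intro k
  induction k with
  | zero =>
    intro c p hp
    cases p with
    | nil => simp [zpvI_nil_right, ev]
    | cons r p =>
      simp only [lenOK, Bool.and_eq_true] at hp
      have h1 : r.length ≤ 1 := Nat.le_of_ble_eq_true hp.1
      have h2 := zdI_mkV τ σ 1 Y 0 r (by omega)
      rw [mkV] at h2
      rw [triR, zpvI_cons, zpvI_nil, ev, zev_empty _ _ _ hp.2]
      simp only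
      rw [h2]
      ring
  | succ k ih =>
    intro c p hp
    cases p with
    | nil => simp [zpvI_nil_right, ev]
    | cons r p =>
      simp only [lenOK, Bool.and_eq_true] at hp
      have h1 : r.length ≤ k + 2 := Nat.le_of_ble_eq_true hp.1
      have h2 := zdI_mkV τ σ w Y (k + 1) r (by omega)
      have h3 := ih (c * (w * X)) p hp.2
      rw [triR, zpvI_cons, ev]
      simp only
      have h4 : (OR τ σ).mul c (w * X) = c * (w * X) := rfl
      rw [h2, h4, h3]
      ring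

private theorem zdI_one (τ σ : ℝ) (r : List ℤ) : dI (OR τ σ) [(OR τ σ).nat 1] r = 1 * evL 0 r := by
  cases r with
  | nil => simp [zdI_nil_right, evL]
  | cons c l =>
    rw [zdI_cons, zdI_nil, evL]
    show (c : ℝ) * ((1 : ℕ) : ℝ) + 0 = _
    simp

theorem mkVs_RE (b : Bn) (hq : 1 ≤ b.q) (h0 : b.x0 ≤ b.q) (h1 : b.x1 ≤ b.q) (d dm : ℕ) (s : ℝ)
    (hs0 : (b.x0 : ℝ) ≤ b.q * s) (hs1 : b.q * s < b.x1) :
    ∃ σ ω : ℝ, 0 ≤ σ ∧ RE (OR 0 σ) (mkVs (OR 0 σ) b d dm) ω s 0 d := by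
  have hqp : (0 : ℝ) < b.q := by exact_mod_cast hq
  have dx : (0 : ℝ) < b.x1 - b.q * s := by linarith
  obtain ⟨σ, hσ⟩ : ∃ σ : ℝ, σ = (b.q * s - b.x0) / (b.x1 - b.q * s) := ⟨_, rfl⟩
  have σ0 : 0 ≤ σ := by rw [hσ]; exact div_nonneg (by linarith) dx.le
  have σe : σ * (b.x1 - b.q * s) = b.q * s - b.x0 := by rw [hσ]; field_simp
  obtain ⟨A, hA⟩ : ∃ A : ℝ, A = b.q * (1 + σ) := ⟨_, rfl⟩
  have eA : uA (OR 0 σ) b = A := by
    show ((b.q : ℕ) : ℝ) * (((1 : ℕ) : ℝ) + σ) = _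
    rw [hA]; simp
  have ea : ua (OR 0 σ) b = A * s := by
    show ((b.x0 : ℕ) : ℝ) + ((b.x1 : ℕ) : ℝ) * σ = _
    rw [hA]; linear_combination σe
  have ec : uc (OR 0 σ) b = A * (1 - s) := by
    show ((Nat.sub b.q b.x0 : ℕ) : ℝ) + ((Nat.sub b.q b.x1 : ℕ) : ℝ) * σ = _
    have e1 : ((Nat.sub b.q b.x0 : ℕ) : ℝ) = (b.q : ℝ) - b.x0 := Nat.cast_sub h0
    have e2 : ((Nat.sub b.q b.x1 : ℕ) : ℝ) = (b.q : ℝ) - b.x1 := Nat.cast_sub h1
    rw [e1, e2, hA]; linear_combination -σe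
  have Ap : 0 < A := by rw [hA]; positivity
  have n1 : (OR 0 σ).nat 1 = 1 := by show ((1 : ℕ) : ℝ) = 1; simp
  have s1 : s * (1 - 0) = s := by ring
  refine ⟨σ, A, σ0, ⟨Ap, eA, ec, ?_, ?_, ?_, ?_⟩⟩
  · rw [s1]; exact ea
  · intro p hp
    simp only [len3, Bool.and_eq_true, List.all_eq_true] at hp
    have h1 : p.length ≤ 4 := Nat.le_of_ble_eq_true hp.1
    show pvI (OR 0 σ) (tens (mkV (OR 0 σ) (ua (OR 0 σ) b) (uA (OR 0 σ) b) 3) [(OR 0 σ).nat 1]) p = _
    rw [ea, eA, zpvI_tens 0 σ A s 0 1 _ 3 p h1 (fun r _ => zdI_one 0 σ r)]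
    ring
  · intro p hp
    show pvI (OR 0 σ) (triR (OR 0 σ) (uc (OR 0 σ) b) (ua (OR 0 σ) b) (uA (OR 0 σ) b) d
      ((OR 0 σ).nat 1)) p = _
    rw [ec, ea, eA, n1, zpvI_tri 0 σ A (1 - s) s d 1 p hp, s1]
    ring
  · intro p hp
    show pvI (OR 0 σ) (triR (OR 0 σ) (uc (OR 0 σ) b) (ua (OR 0 σ) b) (uA (OR 0 σ) b) (d - 1)
      ((OR 0 σ).nat 1)) p = _
    rw [ec, ea, eA, n1, zpvI_tri 0 σ A (1 - s) s (d - 1) 1 p hp, s1]
    ring

end Pool.Agent.MTR
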